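import Mathlib

/-! Concentration for the middle primes. -/

set_option autoImplicit false

namespace Pool.Agent.H11A

open Finset

/-- one stage -/
theorem exp_stage {α : Type*} (Ω : Finset α) (Δ : α → ℝ) (lam m : ℝ) (hm : ∀ v ∈ Ω, |Δ v| ≤ m) (hlm : |lam| * m ≤ 1) (h0 : ∑ v ∈ Ω, Δ v = 0) :
    ∑ v ∈ Ω, Real.exp (lam * Δ v) ≤ Ω.card * Real.exp (lam ^ 2 * m ^ 2) := by
  have h1 : ∀ v ∈ Ω, Real.exp (lam * Δ v) ≤ 1 + lam * Δ v + lam ^ 2 * m ^ 2 := by
    intro v hv
    have hm0 : 0 ≤ m := (abs_nonneg _).trans (hm v hv)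
    have h2 : |lam * Δ v| ≤ 1 := by
      rw [abs_mul]
      exact (mul_le_mul_of_nonneg_left (hm v hv) (abs_nonneg _)).trans hlm
    have h3 := (abs_le.1 (Real.abs_exp_sub_one_sub_id_le h2)).2
    have h4 : (lam * Δ v) ^ 2 ≤ lam ^ 2 * m ^ 2 := by
      rw [mul_pow]
      apply mul_le_mul_of_nonneg_left _ (sq_nonneg _)
      rw [← sq_abs (Δ v)]
      exact pow_le_pow_left₀ (abs_nonneg _) (hm v hv) 2
    linarith
  have h2 : ∑ v ∈ Ω, (1 + lam * Δ v + lam ^ 2 * m ^ 2) = Ω.card * (1 + lam ^ 2 * m ^ 2) := by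
    rw [sum_add_distrib, sum_add_distrib, ← mul_sum, h0]
    simp only [sum_const, nsmul_eq_mul]
    ring
  refine (sum_le_sum h1).trans ?_
  rw [h2]
  apply mul_le_mul_of_nonneg_left _ (Nat.cast_nonneg _)
  have := Real.add_one_le_exp (lam ^ 2 * m ^ 2)
  linarith

theorem sum_split {k : ℕ} (P p : ℕ) (hP : 0 < P) (G : (Fin k → ℕ) → ℝ) :
    ∑ t ∈ Fintype.piFinset (fun _ : Fin k => range (P * p)), G t =
      ∑ u ∈ Fintype.piFinset (fun _ : Fin k => range P), ∑ v ∈ Fintype.piFinset (fun _ : Fin k => range p), G (fun i => u i + P * v i) := by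
  rw [← sum_product']
  apply sum_nbij' (i := fun t => (fun i => t i % P, fun i => t i / P)) (j := fun x => fun i => x.1 i + P * x.2 i)
  · intro t ht
    rw [Fintype.mem_piFinset] at ht
    rw [mem_product, Fintype.mem_piFinset, Fintype.mem_piFinset]
    refine ⟨fun i => mem_range.2 (Nat.mod_lt _ hP), fun i => mem_range.2 ?_⟩
    exact Nat.div_lt_of_lt_mul (mem_range.1 (ht i))
  · intro x hx
    rw [mem_product, Fintype.mem_piFinset, Fintype.mem_piFinset] at hx
    rw [Fintype.mem_piFinset]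
    intro i
    have h1 := mem_range.1 (hx.1 i)
    have h2 := mem_range.1 (hx.2 i)
    rw [mem_range]
    calc x.1 i + P * x.2 i < P + P * x.2 i := by omega
      _ = P * (x.2 i + 1) := by ring
      _ ≤ P * p := Nat.mul_le_mul_left P h2
  · intro t _
    funext i
    exact Nat.mod_add_div (t i) P
  · intro x hx
    rw [mem_product, Fintype.mem_piFinset, Fintype.mem_piFinset] at hx
    ext i
    · simp only
      rw [Nat.add_mul_mod_self_left, Nat.mod_eq_of_lt (mem_range.1 (hx.1 i))]
    · simp only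
      rw [Nat.add_mul_div_left _ _ hP, Nat.div_eq_of_lt (mem_range.1 (hx.1 i)), zero_add]
  · intro t _
    congr 1
    funext i
    exact (Nat.mod_add_div (t i) P).symm

theorem card_root (p : ℕ) (hpp : p.Prime) (A D : ℤ) (hpD : ¬ (p : ℤ) ∣ D) :
    ((range p).filter (fun n : ℕ => (p : ℤ) ∣ A + (n : ℤ) * D)).card = 1 := by
  have hprime : Prime (p : ℤ) := Nat.prime_iff_prime_int.1 hpp
  have hco : IsCoprime D (p : ℤ) := ((hprime.coprime_iff_not_dvd).2 hpD).symm
  obtain ⟨x, y, hxy⟩ := hco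
  rw [card_eq_one]
  have hpz : (0 : ℤ) < p := by exact_mod_cast hpp.pos
  refine ⟨((-A * x) % p).toNat, ?_⟩
  have hnn := Int.emod_nonneg (-A * x) hpz.ne'
  have hlt := Int.emod_lt_of_pos (-A * x) hpz
  ext t
  rw [mem_filter, mem_range, mem_singleton]
  have hsol : (p : ℤ) ∣ A + (((-A * x) % p : ℤ)) * D := by
    have h1 : (p : ℤ) ∣ (-A * x) - ((-A * x) % p) := Int.dvd_self_sub_emod
    have h2 : A + ((-A * x) % p) * D = A * (1 - x * D) - ((-A * x) - ((-A * x) % p)) * D := by ring
    rw [h2]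
    apply dvd_sub _ (h1.mul_right _)
    have h3 : 1 - x * D = y * p := by linarith
    rw [h3]
    exact Dvd.intro_left (A * y) (by ring)
  constructor
  · rintro ⟨h1, h2⟩
    have h3 : (p : ℤ) ∣ ((t : ℤ) - (-A * x) % p) * D := by
      have := dvd_sub h2 hsol
      have e : A + (t : ℤ) * D - (A + (-A * x) % p * D) = ((t : ℤ) - (-A * x) % p) * D := by ring
      rwa [e] at this
    rcases hprime.dvd_or_dvd h3 with h4 | h4
    · have h5 : |(t : ℤ) - (-A * x) % p| < p := by
        rw [abs_lt]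
        constructor <;> omega
      have h6 := Int.eq_zero_of_abs_lt_dvd h4 h5
      omega
    · exact absurd h4 hpD
  · intro h1
    have h2 : (t : ℤ) = (-A * x) % p := by rw [h1, Int.toNat_of_nonneg hnn]
    refine ⟨by omega, ?_⟩
    rw [h2]
    exact hsol

theorem card_ok {k : ℕ} (p : ℕ) (hpp : p.Prime) (x : Fin k → ℤ) (M : ℤ) (hM : ¬ (p : ℤ) ∣ M) :
    (((Fintype.piFinset (fun _ : Fin k => range p)).filter (fun v => ∀ i, ¬ (p : ℤ) ∣ x i + M * (v i : ℤ))).card : ℝ) =
      (1 - 1 / (p : ℝ)) ^ k * (p : ℝ) ^ k := by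
  have e : (Fintype.piFinset (fun _ : Fin k => range p)).filter (fun v => ∀ i, ¬ (p : ℤ) ∣ x i + M * (v i : ℤ)) =
      Fintype.piFinset (fun i : Fin k => (range p).filter (fun n : ℕ => ¬ (p : ℤ) ∣ x i + M * (n : ℤ))) := by
    ext v
    rw [mem_filter, Fintype.mem_piFinset, Fintype.mem_piFinset]
    constructor
    · rintro ⟨h1, h2⟩ i
      rw [mem_filter]
      exact ⟨h1 i, h2 i⟩
    · intro h
      refine ⟨fun i => (mem_filter.1 (h i)).1, fun i => (mem_filter.1 (h i)).2⟩
  rw [e, Fintype.card_piFinset]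
  have hp0 : (0 : ℝ) < p := by exact_mod_cast hpp.pos
  have h1 : ∀ i : Fin k, (((range p).filter (fun n : ℕ => ¬ (p : ℤ) ∣ x i + M * (n : ℤ))).card : ℝ) = (p : ℝ) - 1 := by
    intro i
    have h2 := card_root p hpp (x i) M hM
    have h4 := Finset.card_filter_add_card_filter_not (s := range p) (p := fun n : ℕ => (p : ℤ) ∣ x i + (n : ℤ) * M)
    rw [h2, card_range] at h4
    have h5 : (1 : ℝ) + (((range p).filter (fun n : ℕ => ¬ (p : ℤ) ∣ x i + (n : ℤ) * M)).card : ℝ) = p := by exact_mod_cast h4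
    simp only [mul_comm M]
    linarith
  push_cast
  rw [prod_congr rfl (fun i _ => h1 i), prod_const, card_univ, Fintype.card_fin, ← mul_pow]
  congr 1
  field_simp

section

variable {k : ℕ} (g : Fin k → ℕ → ℤ)

/-- `p` divides no value -/
def okp (p : ℕ) (t : Fin k → ℤ) (n : ℕ) : Prop := ∀ i, ¬ (p : ℤ) ∣ g i n + t i

open Classical in
/-- the weight -/
noncomputable def ww (s : Finset ℕ) (t : Fin k → ℤ) (n : ℕ) : ℝ := ∏ p ∈ s, if okp g p t n then 1 / (1 - 1 / (p : ℝ)) ^ k else 0

/-- the deviation -/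
noncomputable def Td (s D0 : Finset ℕ) (t : Fin k → ℤ) : ℝ := ∑ n ∈ D0, (ww g s t n - 1)

theorem okp_add (p : ℕ) (t v : Fin k → ℤ) (M : ℤ) (hM : (p : ℤ) ∣ M) (n : ℕ) : okp g p (fun i => t i + M * v i) n ↔ okp g p t n := by
  unfold okp
  apply forall_congr'
  intro i
  have e : g i n + (t i + M * v i) = g i n + t i + M * v i := by ring
  rw [e]
  rw [not_iff_not]
  exact dvd_add_left (hM.mul_right _)

theorem qpos (p : ℕ) (hp : p.Prime) (k : ℕ) : 0 < (1 - 1 / (p : ℝ)) ^ k ∧ (1 - 1 / (p : ℝ)) ^ k ≤ 1 ∧ 1 - (1 - 1 / (p : ℝ)) ^ k ≤ k / p ∧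
    1 / (1 - 1 / (p : ℝ)) ^ k ≤ 2 ^ k := by
  have hp2 : (2 : ℝ) ≤ p := by exact_mod_cast hp.two_le
  have h1 : 1 / (p : ℝ) ≤ 1 / 2 := one_div_le_one_div_of_le (by norm_num) hp2
  have h2 : 0 < 1 / (p : ℝ) := by positivity
  refine ⟨pow_pos (by linarith) _, pow_le_one₀ (by linarith) (by linarith), ?_, ?_⟩
  · have h3 := one_add_mul_le_pow (by linarith : (-2 : ℝ) ≤ -(1 / (p : ℝ))) k
    have e : 1 + -(1 / (p : ℝ)) = 1 - 1 / (p : ℝ) := by ring
    rw [e] at h3
    have e2 : (k : ℝ) / p = k * (1 / (p : ℝ)) := by ring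
    rw [e2]
    linarith
  · rw [← one_div_pow]
    apply pow_le_pow_left₀
    · apply one_div_nonneg.2; linarith
    · rw [div_le_iff₀ (by linarith)]; linarith

theorem ww_bd (s : Finset ℕ) (hs : ∀ p ∈ s, p.Prime) (t : Fin k → ℤ) (n : ℕ) : 0 ≤ ww g s t n ∧ ww g s t n ≤ ∏ p ∈ s, 1 / (1 - 1 / (p : ℝ)) ^ k := by
  classical
  unfold ww
  constructor
  · apply prod_nonneg
    intro p hp
    have := (qpos p (hs p hp) k).1
    split_ifs
    · positivity
    · exact le_refl _
  · apply Finset.prod_le_prod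
    · intro p hp
      have := (qpos p (hs p hp) k).1
      split_ifs
      · positivity
      · exact le_refl _
    · intro p hp
      have := (qpos p (hs p hp) k).1
      split_ifs
      · exact le_refl _
      · positivity

theorem ww_add (s : Finset ℕ) (t v : Fin k → ℤ) (M : ℤ) (hM : ∀ p ∈ s, (p : ℤ) ∣ M) (n : ℕ) : ww g s (fun i => t i + M * v i) n = ww g s t n := by
  classical
  unfold ww
  apply prod_congr rfl
  intro p hp
  simp only [okp_add g p t v M (hM p hp) n]

open Classical in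
theorem az_exp (P0 : ℕ) (D0 : Finset ℕ) (V lam : ℝ) (hV : 0 ≤ V) (K : ℕ → ℝ) (s : Finset ℕ) :
    (∀ p ∈ s, p.Prime ∧ ¬ p ∣ P0) → (∏ p ∈ s, 1 / (1 - 1 / (p : ℝ)) ^ k ≤ V) →
    (∀ p ∈ s, ∀ t : Fin k → ℤ, ((D0.filter (fun n => ¬ okp g p t n)).card : ℝ) ≤ K p) →
    (∀ p ∈ s, |lam| * (V * 2 ^ k * (K p + k * D0.card / p)) ≤ 1) → ∀ b : Fin k → ℤ,
    ∑ t ∈ Fintype.piFinset (fun _ : Fin k => range (∏ p ∈ s, p)), Real.exp (lam * Td g s D0 (fun i => b i + P0 * (t i : ℤ))) ≤
      ((∏ p ∈ s, p : ℕ) : ℝ) ^ k * Real.exp (lam ^ 2 * ∑ p ∈ s, (V * 2 ^ k * (K p + k * D0.card / p)) ^ 2) := by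
  induction s using Finset.induction_on with
  | empty =>
    intro _ _ _ _ b
    have h1 : ∀ t : Fin k → ℤ, Td g ∅ D0 t = 0 := by
      intro t
      unfold Td ww
      simp
    simp only [h1, mul_zero, Real.exp_zero, sum_const, prod_empty, sum_empty, Nat.cast_one, _root_.one_pow]
    rw [Fintype.card_piFinset]
    simp
  | insert p s hps ih =>
    intro hpr hVb hK hlK b
    have hpp := (hpr p (mem_insert_self _ _)).1
    have hpP0 := (hpr p (mem_insert_self _ _)).2
    have hs : ∀ p ∈ s, p.Prime ∧ ¬ p ∣ P0 := fun p hp => hpr p (mem_insert_of_mem hp)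
    obtain ⟨q, hq⟩ : ∃ q : ℝ, q = (1 - 1 / (p : ℝ)) ^ k := ⟨_, rfl⟩
    obtain ⟨q1, q2, q3, q4⟩ := qpos p hpp k
    rw [← hq] at q1 q2 q3 q4
    have hprod0 : 0 ≤ ∏ p ∈ s, 1 / (1 - 1 / (p : ℝ)) ^ k := prod_nonneg fun p hp => by
      have := (qpos p (hs p hp).1 k).1
      positivity
    have hVs : ∏ p ∈ s, 1 / (1 - 1 / (p : ℝ)) ^ k ≤ V := by
      refine le_trans ?_ hVb
      rw [prod_insert hps, ← hq]
      apply le_mul_of_one_le_left hprod0
      rw [le_div_iff₀ q1]; linarith
    have ih' := ih hs hVs (fun p hp => hK p (mem_insert_of_mem hp)) (fun p hp => hlK p (mem_insert_of_mem hp)) b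
    obtain ⟨P, hP⟩ : ∃ P, P = ∏ p ∈ s, p := ⟨_, rfl⟩
    have hP0 : 0 < P := by
      rw [hP]
      exact prod_pos fun p hp => (hs p hp).1.pos
    rw [← hP] at ih'
    rw [prod_insert hps, ← hP, mul_comm p P, sum_split P p hP0]
    obtain ⟨m, hm⟩ : ∃ m : ℝ, m = V * 2 ^ k * (K p + k * D0.card / p) := ⟨_, rfl⟩
    rw [sum_insert hps, ← hm]
    have hlm := hlK p (mem_insert_self _ _)
    rw [← hm] at hlm
    have hMp : ¬ (p : ℤ) ∣ ((P0 * P : ℕ) : ℤ) := by
      intro h
      have h1 : p ∣ P0 * P := by exact_mod_cast h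
      rcases (Nat.Prime.dvd_mul hpp).1 h1 with h2 | h2
      · exact hpP0 h2
      · rw [hP, Prime.dvd_finsetProd_iff hpp.prime] at h2
        obtain ⟨p', hp', hd⟩ := h2
        have := (Nat.prime_dvd_prime_iff_eq hpp (hs p' hp').1).1 hd
        exact hps (this ▸ hp')
    have hone : ∀ u : Fin k → ℕ, ∑ v ∈ Fintype.piFinset (fun _ : Fin k => range p),
        Real.exp (lam * Td g (insert p s) D0 (fun i => b i + P0 * ((u i + P * v i : ℕ) : ℤ))) ≤
        Real.exp (lam * Td g s D0 (fun i => b i + P0 * (u i : ℤ))) * ((p : ℝ) ^ k * Real.exp (lam ^ 2 * m ^ 2)) := by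
      intro u
      obtain ⟨b', hb'⟩ : ∃ b' : Fin k → ℤ, b' = fun i => b i + P0 * (u i : ℤ) := ⟨_, rfl⟩
      rw [← hb']
      obtain ⟨Δ, hΔ⟩ : ∃ Δ : (Fin k → ℕ) → ℝ, Δ = fun v => ∑ n ∈ D0, ww g s b' n *
        ((if okp g p (fun i => b' i + ((P0 * P : ℕ) : ℤ) * (v i : ℤ)) n then 1 / q else 0) - 1) := ⟨_, rfl⟩
      have hT : ∀ v : Fin k → ℕ, Td g (insert p s) D0 (fun i => b i + P0 * ((u i + P * v i : ℕ) : ℤ)) = Td g s D0 b' + Δ v := by
        intro v
        have e : (fun i => b i + P0 * ((u i + P * v i : ℕ) : ℤ)) = fun i => b' i + ((P0 * P : ℕ) : ℤ) * (v i : ℤ) := by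
          funext i
          rw [hb']
          push_cast
          ring
        rw [e]
        unfold Td
        rw [hΔ, ← sum_add_distrib]
        apply sum_congr rfl
        intro n _
        have h1 : ww g (insert p s) (fun i => b' i + ((P0 * P : ℕ) : ℤ) * (v i : ℤ)) n =
            (if okp g p (fun i => b' i + ((P0 * P : ℕ) : ℤ) * (v i : ℤ)) n then 1 / q else 0) * ww g s b' n := by
          have h2 := ww_add g s b' (fun i => (v i : ℤ)) ((P0 * P : ℕ) : ℤ) (fun p' hp' => by
            have h3 : p' ∣ P := by rw [hP]; exact dvd_prod_of_mem _ hp'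
            exact_mod_cast h3.mul_left P0) n
          rw [← h2]
          unfold ww
          rw [prod_insert hps, hq]
        rw [h1]
        ring
      have hexp := exp_stage (Fintype.piFinset (fun _ : Fin k => range p)) Δ lam m (by
        intro v _
        rw [hΔ]
        have hw := fun n => ww_bd g s (fun p hp => (hs p hp).1) b' n
        have hup : ∑ n ∈ D0, ww g s b' n * ((if okp g p (fun i => b' i + ((P0 * P : ℕ) : ℤ) * (v i : ℤ)) n then 1 / q else 0) - 1) ≤ m := by
          have h1 : ∀ n ∈ D0, ww g s b' n * ((if okp g p (fun i => b' i + ((P0 * P : ℕ) : ℤ) * (v i : ℤ)) n then 1 / q else 0) - 1) ≤ V * (2 ^ k * (k / p)) := by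
            intro n _
            have h2 : (if okp g p (fun i => b' i + ((P0 * P : ℕ) : ℤ) * (v i : ℤ)) n then 1 / q else 0) - 1 ≤ 2 ^ k * (k / p) := by
              have h3 : 1 / q - 1 ≤ 2 ^ k * (k / p) := by
                have e : 1 / q - 1 = (1 / q) * (1 - q) := by field_simp
                rw [e]
                exact mul_le_mul q4 q3 (by linarith) (by positivity)
              have h4 : (0 : ℝ) ≤ 2 ^ k * (k / p) := by positivity
              split_ifs
              · exact h3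
              · linarith
            calc ww g s b' n * ((if okp g p (fun i => b' i + ((P0 * P : ℕ) : ℤ) * (v i : ℤ)) n then 1 / q else 0) - 1) ≤
                ww g s b' n * (2 ^ k * (k / p)) := mul_le_mul_of_nonneg_left h2 (hw n).1
              _ ≤ V * (2 ^ k * (k / p)) := mul_le_mul_of_nonneg_right ((hw n).2.trans hVs) (by positivity)
          have h2 := sum_le_card_nsmul _ _ _ h1
          rw [nsmul_eq_mul] at h2
          refine h2.trans ?_
          have hK0 : 0 ≤ K p := le_trans (Nat.cast_nonneg _) (hK p (mem_insert_self _ _) b')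
          rw [hm]
          have e : (D0.card : ℝ) * (V * (2 ^ k * (k / p))) = V * 2 ^ k * (k * D0.card / p) := by ring
          rw [e]
          apply mul_le_mul_of_nonneg_left _ (by positivity)
          linarith
        have hlo : -m ≤ ∑ n ∈ D0, ww g s b' n * ((if okp g p (fun i => b' i + ((P0 * P : ℕ) : ℤ) * (v i : ℤ)) n then 1 / q else 0) - 1) := by
          have h1 : ∀ n ∈ D0, -(if ¬ okp g p (fun i => b' i + ((P0 * P : ℕ) : ℤ) * (v i : ℤ)) n then V else 0) ≤
              ww g s b' n * ((if okp g p (fun i => b' i + ((P0 * P : ℕ) : ℤ) * (v i : ℤ)) n then 1 / q else 0) - 1) := by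
            intro n _
            split_ifs with h
            · have h3 : 0 ≤ 1 / q - 1 := by
                have : 1 ≤ 1 / q := by rw [le_div_iff₀ q1]; linarith
                linarith
              have := mul_nonneg (hw n).1 h3
              linarith
            · have := (hw n).2.trans hVs
              linarith
          have h2 := sum_le_sum h1
          refine le_trans ?_ h2
          rw [sum_neg_distrib, neg_le_neg_iff, ← sum_filter, sum_const, nsmul_eq_mul]
          have h3 := hK p (mem_insert_self _ _) (fun i => b' i + ((P0 * P : ℕ) : ℤ) * (v i : ℤ))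
          rw [hm]
          have h4 : ((D0.filter (fun n => ¬ okp g p (fun i => b' i + ((P0 * P : ℕ) : ℤ) * (v i : ℤ)) n)).card : ℝ) * V ≤ K p * V :=
            mul_le_mul_of_nonneg_right h3 hV
          refine h4.trans ?_
          have hK0 : 0 ≤ K p := le_trans (Nat.cast_nonneg _) h3
          have h5 : (0 : ℝ) ≤ k * D0.card / p := by positivity
          have h6 : (1 : ℝ) ≤ 2 ^ k := one_le_pow₀ (by norm_num)
          calc K p * V = V * 1 * K p := by ring
            _ ≤ V * 2 ^ k * (K p + k * D0.card / p) := by gcongr; linarith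
        rw [abs_le]
        exact ⟨hlo, hup⟩) hlm (by
        rw [hΔ, sum_comm]
        apply sum_eq_zero
        intro n _
        rw [← mul_sum]
        have h1 : ∑ v ∈ Fintype.piFinset (fun _ : Fin k => range p),
            ((if okp g p (fun i => b' i + ((P0 * P : ℕ) : ℤ) * (v i : ℤ)) n then 1 / q else 0) - 1) = 0 := by
          rw [sum_sub_distrib, ← sum_filter, sum_const, nsmul_eq_mul]
          have h2 := card_ok p hpp (fun i => g i n + b' i) ((P0 * P : ℕ) : ℤ) hMp
          have h3 : (Fintype.piFinset (fun _ : Fin k => range p)).filter (fun v => okp g p (fun i => b' i + ((P0 * P : ℕ) : ℤ) * (v i : ℤ)) n) =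
              (Fintype.piFinset (fun _ : Fin k => range p)).filter (fun v => ∀ i, ¬ (p : ℤ) ∣ (g i n + b' i) + ((P0 * P : ℕ) : ℤ) * (v i : ℤ)) := by
            apply filter_congr
            intro v _
            unfold okp
            apply forall_congr'
            intro i
            rw [add_assoc]
          rw [h3, h2, ← hq]
          simp only [sum_const, nsmul_eq_mul, mul_one, Fintype.card_piFinset, prod_const, card_univ, Fintype.card_fin, card_range]
          push_cast
          field_simp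
          ring
        rw [h1, mul_zero])
      simp only [hT, mul_add, Real.exp_add]
      rw [← mul_sum]
      apply mul_le_mul_of_nonneg_left _ (Real.exp_pos _).le
      refine hexp.trans (le_of_eq ?_)
      rw [Fintype.card_piFinset]
      simp
    refine (sum_le_sum fun u _ => hone u).trans ?_
    rw [← sum_mul]
    have h7 := mul_le_mul_of_nonneg_right ih' (by positivity : 0 ≤ (p : ℝ) ^ k * Real.exp (lam ^ 2 * m ^ 2))
    refine h7.trans (le_of_eq ?_)
    rw [mul_add, Real.exp_add]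
    push_cast
    ring

end

end Pool.Agent.H11A
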