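import Mathlib
import Pool.Agent.H11A.Az1

/-! Concentration for the middle primes: probabilities. -/

set_option autoImplicit false

namespace Pool.Agent.H11A

open Finset

theorem markov2 {α : Type*} (Ω : Finset α) (X : α → ℝ) (lam A η : ℝ) (hlam : 0 < lam)
    (h1 : ∑ t ∈ Ω, Real.exp (lam * X t) ≤ Ω.card * Real.exp A) (h2 : ∑ t ∈ Ω, Real.exp (-lam * X t) ≤ Ω.card * Real.exp A) :
    ((Ω.filter (fun t => η < |X t|)).card : ℝ) ≤ Ω.card * (2 * Real.exp (A - lam * η)) := by
  have h3 : ((Ω.filter (fun t => η < |X t|)).card : ℝ) * Real.exp (lam * η) ≤ ∑ t ∈ Ω, (Real.exp (lam * X t) + Real.exp (-lam * X t)) := by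
    calc ((Ω.filter (fun t => η < |X t|)).card : ℝ) * Real.exp (lam * η) = ∑ t ∈ Ω.filter (fun t => η < |X t|), Real.exp (lam * η) := by
          rw [sum_const, nsmul_eq_mul]
      _ ≤ ∑ t ∈ Ω.filter (fun t => η < |X t|), (Real.exp (lam * X t) + Real.exp (-lam * X t)) := by
          apply sum_le_sum
          intro t ht
          rw [mem_filter] at ht
          have a1 := Real.exp_pos (lam * X t)
          have a2 := Real.exp_pos (-lam * X t)
          rcases le_or_gt 0 (X t) with h | h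
          · rw [abs_of_nonneg h] at ht
            have : Real.exp (lam * η) ≤ Real.exp (lam * X t) := Real.exp_le_exp.2 (mul_le_mul_of_nonneg_left ht.2.le hlam.le)
            linarith
          · rw [abs_of_neg h] at ht
            have : Real.exp (lam * η) ≤ Real.exp (-lam * X t) := by
              apply Real.exp_le_exp.2
              have := mul_le_mul_of_nonneg_left ht.2.le hlam.le
              linarith
            linarith
      _ ≤ ∑ t ∈ Ω, (Real.exp (lam * X t) + Real.exp (-lam * X t)) := by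
          apply sum_le_sum_of_subset_of_nonneg (filter_subset _ _)
          intro t _ _
          have a1 := Real.exp_pos (lam * X t)
          have a2 := Real.exp_pos (-lam * X t)
          linarith
  rw [sum_add_distrib] at h3
  have h4 : Real.exp (A - lam * η) * Real.exp (lam * η) = Real.exp A := by rw [← Real.exp_add]; congr 1; ring
  have h5 : ((Ω.filter (fun t => η < |X t|)).card : ℝ) * Real.exp (lam * η) ≤ (Ω.card * (2 * Real.exp (A - lam * η))) * Real.exp (lam * η) := by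
    have e : (Ω.card * (2 * Real.exp (A - lam * η))) * Real.exp (lam * η) = Ω.card * (2 * Real.exp A) := by
      rw [← h4]; ring
    rw [e]
    linarith
  exact le_of_mul_le_mul_right h5 (Real.exp_pos _)

/-- sums of independent variables -/
theorem ind_exp {k : ℕ} (P0 : ℕ) (F : ℕ → (Fin k → ℤ) → ℝ) (m : ℕ → ℝ) (lam : ℝ) (s : Finset ℕ) :
    (∀ p ∈ s, p.Prime ∧ ¬ p ∣ P0) → (∀ p ∈ s, ∀ b v : Fin k → ℤ, ∀ M : ℤ, (p : ℤ) ∣ M → F p (fun i => b i + M * v i) = F p b) →
    (∀ p ∈ s, ∀ b : Fin k → ℤ, ∀ M : ℤ, ¬ (p : ℤ) ∣ M → ∑ v ∈ Fintype.piFinset (fun _ : Fin k => range p), F p (fun i => b i + M * (v i : ℤ)) = 0) →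
    (∀ p ∈ s, ∀ b, |F p b| ≤ m p) → (∀ p ∈ s, |lam| * m p ≤ 1) → ∀ b : Fin k → ℤ,
    ∑ t ∈ Fintype.piFinset (fun _ : Fin k => range (∏ p ∈ s, p)), Real.exp (lam * ∑ p ∈ s, F p (fun i => b i + P0 * (t i : ℤ))) ≤
      ((∏ p ∈ s, p : ℕ) : ℝ) ^ k * Real.exp (lam ^ 2 * ∑ p ∈ s, m p ^ 2) := by
  classical
  induction s using Finset.induction_on with
  | empty =>
    intro _ _ _ _ _ b
    simp only [sum_empty, mul_zero, Real.exp_zero, sum_const, prod_empty, Nat.cast_one, _root_.one_pow]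
    rw [Fintype.card_piFinset]
    simp
  | insert p s hps ih =>
    intro hpr hper hz hm hlm b
    have hpp := (hpr p (mem_insert_self _ _)).1
    have hpP0 := (hpr p (mem_insert_self _ _)).2
    have hs : ∀ p ∈ s, p.Prime ∧ ¬ p ∣ P0 := fun p hp => hpr p (mem_insert_of_mem hp)
    have ih' := ih hs (fun p hp => hper p (mem_insert_of_mem hp)) (fun p hp => hz p (mem_insert_of_mem hp))
      (fun p hp => hm p (mem_insert_of_mem hp)) (fun p hp => hlm p (mem_insert_of_mem hp)) b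
    obtain ⟨P, hP⟩ : ∃ P, P = ∏ p ∈ s, p := ⟨_, rfl⟩
    have hP0 : 0 < P := by
      rw [hP]
      exact prod_pos fun p hp => (hs p hp).1.pos
    rw [← hP] at ih'
    rw [prod_insert hps, ← hP, mul_comm p P, sum_split P p hP0]
    rw [sum_insert hps]
    have hMp : ¬ (p : ℤ) ∣ ((P0 * P : ℕ) : ℤ) := by
      intro h
      have h1 : p ∣ P0 * P := by exact_mod_cast h
      rcases (Nat.Prime.dvd_mul hpp).1 h1 with h2 | h2
      · exact hpP0 h2
      · rw [hP, Prime.dvd_finsetProd_iff hpp.prime] at h2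
        obtain ⟨p', hp', hd⟩ := h2
        have := (Nat.prime_dvd_prime_iff_eq hpp (hs p' hp').1).1 hd
        exact hps (this ▸ hp')
    have hone : ∀ u : Fin k → ℕ, ∑ v ∈ Fintype.piFinset (fun _ : Fin k => range p),
        Real.exp (lam * ∑ p' ∈ insert p s, F p' (fun i => b i + P0 * ((u i + P * v i : ℕ) : ℤ))) ≤
        Real.exp (lam * ∑ p' ∈ s, F p' (fun i => b i + P0 * (u i : ℤ))) * ((p : ℝ) ^ k * Real.exp (lam ^ 2 * m p ^ 2)) := by
      intro u
      obtain ⟨b', hb'⟩ : ∃ b' : Fin k → ℤ, b' = fun i => b i + P0 * (u i : ℤ) := ⟨_, rfl⟩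
      rw [← hb']
      have hT : ∀ v : Fin k → ℕ, ∑ p' ∈ insert p s, F p' (fun i => b i + P0 * ((u i + P * v i : ℕ) : ℤ)) =
          F p (fun i => b' i + ((P0 * P : ℕ) : ℤ) * (v i : ℤ)) + ∑ p' ∈ s, F p' b' := by
        intro v
        have e : (fun i => b i + P0 * ((u i + P * v i : ℕ) : ℤ)) = fun i => b' i + ((P0 * P : ℕ) : ℤ) * (v i : ℤ) := by
          funext i
          rw [hb']
          push_cast
          ring
        rw [e, sum_insert hps]
        congr 1
        apply sum_congr rfl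
        intro p' hp'
        apply hper p' (mem_insert_of_mem hp') b' (fun i => (v i : ℤ))
        have h3 : p' ∣ P := by rw [hP]; exact dvd_prod_of_mem _ hp'
        exact_mod_cast h3.mul_left P0
      have hexp := exp_stage (Fintype.piFinset (fun _ : Fin k => range p)) (fun v => F p (fun i => b' i + ((P0 * P : ℕ) : ℤ) * (v i : ℤ))) lam (m p)
        (fun v _ => hm p (mem_insert_self _ _) _) (hlm p (mem_insert_self _ _)) (hz p (mem_insert_self _ _) b' _ hMp)
      simp only [hT, mul_add, Real.exp_add]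
      rw [← sum_mul, mul_comm]
      apply mul_le_mul_of_nonneg_left _ (Real.exp_pos _).le
      refine hexp.trans (le_of_eq ?_)
      rw [Fintype.card_piFinset]
      simp
    refine (sum_le_sum fun u _ => hone u).trans ?_
    rw [← sum_mul]
    have h7 := mul_le_mul_of_nonneg_right ih' (by positivity : 0 ≤ (p : ℝ) ^ k * Real.exp (lam ^ 2 * m p ^ 2))
    refine h7.trans (le_of_eq ?_)
    rw [mul_add, Real.exp_add]
    push_cast
    ring

section

variable {k : ℕ} (g : Fin k → ℕ → ℤ)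

theorem card_pir (P : ℕ) : ((Fintype.piFinset (fun _ : Fin k => range P)).card : ℝ) = (P : ℝ) ^ k := by
  rw [Fintype.card_piFinset]
  simp

open Classical in
/-- the middle primes: the deviation of the sifted window -/
theorem az_cnt (s0 s : Finset ℕ) (hs0 : ∀ p ∈ s0, p.Prime) (hs : ∀ p ∈ s, p.Prime) (hdis : Disjoint s0 s) (D : Finset ℕ) (V lam η : ℝ)
    (hV : ∏ p ∈ s, 1 / (1 - 1 / (p : ℝ)) ^ k ≤ V) (hlam : 0 < lam) (K : ℕ → ℝ)
    (hK : ∀ p ∈ s, ∀ t : Fin k → ℤ, ((D.filter (fun n => ¬ okp g p t n)).card : ℝ) ≤ K p)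
    (hlK : ∀ p ∈ s, lam * (V * 2 ^ k * (K p + k * D.card / p)) ≤ 1) :
    (((Fintype.piFinset (fun _ : Fin k => range ((∏ p ∈ s0, p) * ∏ p ∈ s, p))).filter (fun t =>
      η * ∏ p ∈ s, (1 - 1 / (p : ℝ)) ^ k < |((D.filter (fun n => ∀ p ∈ s0 ∪ s, okp g p (fun i => (t i : ℤ)) n)).card : ℝ) -
        (∏ p ∈ s, (1 - 1 / (p : ℝ)) ^ k) * ((D.filter (fun n => ∀ p ∈ s0, okp g p (fun i => (t i : ℤ)) n)).card : ℝ)|)).card : ℝ) ≤
      (((∏ p ∈ s0, p) * ∏ p ∈ s, p : ℕ) : ℝ) ^ k *
        (2 * Real.exp (lam ^ 2 * ∑ p ∈ s, (V * 2 ^ k * (K p + k * D.card / p)) ^ 2 - lam * η)) := by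
  obtain ⟨P0, hP0⟩ : ∃ P0, P0 = ∏ p ∈ s0, p := ⟨_, rfl⟩
  obtain ⟨P, hP⟩ : ∃ P, P = ∏ p ∈ s, p := ⟨_, rfl⟩
  obtain ⟨q, hq⟩ : ∃ q : ℝ, q = ∏ p ∈ s, (1 - 1 / (p : ℝ)) ^ k := ⟨_, rfl⟩
  rw [← hP0, ← hP, ← hq]
  have hP0p : 0 < P0 := by rw [hP0]; exact prod_pos fun p hp => (hs0 p hp).pos
  have hq0 : 0 < q := by rw [hq]; exact prod_pos fun p hp => (qpos p (hs p hp) k).1
  have hprod0 : 0 ≤ ∏ p ∈ s, 1 / (1 - 1 / (p : ℝ)) ^ k := prod_nonneg fun p hp => by
    have := (qpos p (hs p hp) k).1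
    positivity
  have hV0 : 0 ≤ V := hprod0.trans hV
  have hndvd : ∀ p ∈ s, p.Prime ∧ ¬ p ∣ P0 := by
    intro p hp
    refine ⟨hs p hp, fun h => ?_⟩
    rw [hP0, Prime.dvd_finsetProd_iff (hs p hp).prime] at h
    obtain ⟨p', hp', hd⟩ := h
    have := (Nat.prime_dvd_prime_iff_eq (hs p hp) (hs0 p' hp')).1 hd
    rw [disjoint_left] at hdis
    exact hdis hp' (this ▸ hp)
  rw [card_filter, Nat.cast_sum, sum_split P0 P hP0p]
  have hone : ∀ u : Fin k → ℕ, ∑ v ∈ Fintype.piFinset (fun _ : Fin k => range P),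
      (((if η * q < |((D.filter (fun n => ∀ p ∈ s0 ∪ s, okp g p (fun i => ((u i + P0 * v i : ℕ) : ℤ)) n)).card : ℝ) -
        q * ((D.filter (fun n => ∀ p ∈ s0, okp g p (fun i => ((u i + P0 * v i : ℕ) : ℤ)) n)).card : ℝ)| then 1 else 0) : ℕ) : ℝ) ≤
      (P : ℝ) ^ k * (2 * Real.exp (lam ^ 2 * ∑ p ∈ s, (V * 2 ^ k * (K p + k * D.card / p)) ^ 2 - lam * η)) := by
    intro u
    obtain ⟨D0, hD0⟩ : ∃ D0, D0 = D.filter (fun n => ∀ p ∈ s0, okp g p (fun i => ((u i : ℕ) : ℤ)) n) := ⟨_, rfl⟩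
    have hD0c : (D0.card : ℝ) ≤ D.card := by
      rw [hD0]; exact_mod_cast card_le_card (filter_subset _ _)
    have hD0' : ∀ v : Fin k → ℕ, D.filter (fun n => ∀ p ∈ s0, okp g p (fun i => ((u i + P0 * v i : ℕ) : ℤ)) n) = D0 := by
      intro v
      rw [hD0]
      apply filter_congr
      intro n _
      apply forall₂_congr
      intro p hp
      have e : (fun i => ((u i + P0 * v i : ℕ) : ℤ)) = fun i => (u i : ℤ) + (P0 : ℤ) * (v i : ℤ) := by
        funext i; push_cast; ring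
      rw [e]
      apply okp_add
      rw [hP0]
      exact_mod_cast dvd_prod_of_mem _ hp
    have hcard : ∀ v : Fin k → ℕ, ((D.filter (fun n => ∀ p ∈ s0 ∪ s, okp g p (fun i => ((u i + P0 * v i : ℕ) : ℤ)) n)).card : ℝ) -
        q * ((D.filter (fun n => ∀ p ∈ s0, okp g p (fun i => ((u i + P0 * v i : ℕ) : ℤ)) n)).card : ℝ) =
        q * Td g s D0 (fun i => (u i : ℤ) + (P0 : ℤ) * (v i : ℤ)) := by
      intro v
      have e : (fun i => ((u i + P0 * v i : ℕ) : ℤ)) = fun i => (u i : ℤ) + (P0 : ℤ) * (v i : ℤ) := by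
        funext i; push_cast; ring
      have h1 : D.filter (fun n => ∀ p ∈ s0 ∪ s, okp g p (fun i => ((u i + P0 * v i : ℕ) : ℤ)) n) =
          D0.filter (fun n => ∀ p ∈ s, okp g p (fun i => (u i : ℤ) + (P0 : ℤ) * (v i : ℤ)) n) := by
        rw [← hD0' v, filter_filter, e]
        apply filter_congr
        intro n _
        simp only [mem_union]
        constructor
        · intro h
          exact ⟨fun p hp => h p (Or.inl hp), fun p hp => h p (Or.inr hp)⟩
        · rintro ⟨h1, h2⟩ p (hp | hp)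
          · exact h1 p hp
          · exact h2 p hp
      rw [h1, hD0' v]
      unfold Td
      rw [sum_sub_distrib, mul_sub, sum_const, nsmul_eq_mul, mul_one]
      congr 1
      rw [card_filter, Nat.cast_sum, mul_sum]
      apply sum_congr rfl
      intro n _
      unfold ww
      rw [Nat.cast_ite]
      split_ifs with h
      · rw [prod_congr rfl (fun p hp => if_pos (h p hp)), hq, ← prod_mul_distrib]
        symm
        push_cast
        apply prod_eq_one
        intro p hp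
        have := (qpos p (hs p hp) k).1
        field_simp
      · push Not at h
        obtain ⟨p, hp, hn⟩ := h
        have : ∏ p ∈ s, (if okp g p (fun i => (u i : ℤ) + (P0 : ℤ) * (v i : ℤ)) n then 1 / (1 - 1 / (p : ℝ)) ^ k else 0) = 0 :=
          prod_eq_zero hp (if_neg hn)
        rw [this]
        simp
    have hrw : ∀ v ∈ Fintype.piFinset (fun _ : Fin k => range P),
        (((if η * q < |((D.filter (fun n => ∀ p ∈ s0 ∪ s, okp g p (fun i => ((u i + P0 * v i : ℕ) : ℤ)) n)).card : ℝ) -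
        q * ((D.filter (fun n => ∀ p ∈ s0, okp g p (fun i => ((u i + P0 * v i : ℕ) : ℤ)) n)).card : ℝ)| then 1 else 0) : ℕ) : ℝ) =
        (((if η < |Td g s D0 (fun i => (u i : ℤ) + (P0 : ℤ) * (v i : ℤ))| then 1 else 0) : ℕ) : ℝ) := by
      intro v _
      rw [hcard v, abs_mul, abs_of_pos hq0]
      have : η * q < q * |Td g s D0 (fun i => (u i : ℤ) + (P0 : ℤ) * (v i : ℤ))| ↔ η < |Td g s D0 (fun i => (u i : ℤ) + (P0 : ℤ) * (v i : ℤ))| := by
        rw [mul_comm η q]
        exact mul_lt_mul_iff_right₀ hq0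
      simp only [this]
    rw [sum_congr rfl hrw, ← Nat.cast_sum, ← card_filter]
    have hKD0 : ∀ p ∈ s, ∀ t : Fin k → ℤ, ((D0.filter (fun n => ¬ okp g p t n)).card : ℝ) ≤ K p := by
      intro p hp t
      refine le_trans ?_ (hK p hp t)
      rw [hD0]
      exact_mod_cast card_le_card (filter_subset_filter _ (filter_subset _ _))
    have hK0 : ∀ p ∈ s, 0 ≤ K p := fun p hp => le_trans (Nat.cast_nonneg _) (hK p hp 0)
    have hmle : ∀ p ∈ s, V * 2 ^ k * (K p + k * D0.card / p) ≤ V * 2 ^ k * (K p + k * D.card / p) := by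
      intro p _
      gcongr
    have hm0 : ∀ p ∈ s, 0 ≤ V * 2 ^ k * (K p + k * D0.card / p) := by
      intro p hp
      have := hK0 p hp
      positivity
    have a1 := az_exp g P0 D0 V lam hV0 K s hndvd hV hKD0 (fun p hp => by
      rw [abs_of_pos hlam]
      exact (mul_le_mul_of_nonneg_left (hmle p hp) hlam.le).trans (hlK p hp)) (fun i => (u i : ℤ))
    have a2 := az_exp g P0 D0 V (-lam) hV0 K s hndvd hV hKD0 (fun p hp => by
      rw [abs_neg, abs_of_pos hlam]
      exact (mul_le_mul_of_nonneg_left (hmle p hp) hlam.le).trans (hlK p hp)) (fun i => (u i : ℤ))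
    rw [neg_sq] at a2
    rw [← hP] at a1 a2
    have hsum : lam ^ 2 * ∑ p ∈ s, (V * 2 ^ k * (K p + k * D0.card / p)) ^ 2 ≤ lam ^ 2 * ∑ p ∈ s, (V * 2 ^ k * (K p + k * D.card / p)) ^ 2 := by
      apply mul_le_mul_of_nonneg_left _ (sq_nonneg _)
      apply sum_le_sum
      intro p hp
      exact pow_le_pow_left₀ (hm0 p hp) (hmle p hp) 2
    have hexp := Real.exp_le_exp.2 hsum
    have hPk : (0 : ℝ) ≤ (P : ℝ) ^ k := by positivity
    have b1 := a1.trans (mul_le_mul_of_nonneg_left hexp hPk)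
    have b2 := a2.trans (mul_le_mul_of_nonneg_left hexp hPk)
    rw [← card_pir P] at b1 b2 ⊢
    exact markov2 _ _ lam _ η hlam b1 b2
  refine (sum_le_sum fun u _ => hone u).trans ?_
  rw [sum_const, nsmul_eq_mul, card_pir]
  push_cast
  rw [mul_pow]
  apply le_of_eq
  ring

end

end Pool.Agent.H11A
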