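import Mathlib
import Pool.Agent.H11P.Arith

/-! Products over primes, the range of the small primes. -/

set_option autoImplicit false

namespace Pool.Agent.H11A

open Finset Filter Pool.Agent.H11P

/-- the product of the local factors -/
noncomputable def kS (s : Finset ℕ) : ℝ := ∏ p ∈ s, fac p

theorem kS_ge (s : Finset ℕ) (hs : ∀ p ∈ s, p.Prime) : 1 ≤ kS s := by
  have : ∏ _p ∈ s, (1 : ℝ) ≤ ∏ p ∈ s, fac p := prod_le_prod (fun _ _ => zero_le_one) (fun p hp => fac_ge p (hs p hp))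
  simpa [kS] using this

/-- the primes in `(a, b]` -/
def pri (a b : ℕ) : Finset ℕ := (Ioc a b).filter Nat.Prime

theorem mem_pri (a b p : ℕ) : p ∈ pri a b ↔ p.Prime ∧ a < p ∧ p ≤ b := by
  unfold pri
  rw [mem_filter, mem_Ioc]
  tauto

theorem prod_pri (Y : ℕ) : ∏ p ∈ pri 0 Y, p = primorial Y := by
  unfold primorial
  apply prod_congr _ (fun _ _ => rfl)
  ext p
  rw [mem_pri, mem_filter, mem_range]
  constructor
  · rintro ⟨h1, _, h3⟩; exact ⟨by omega, h1⟩
  · rintro ⟨h1, h2⟩; exact ⟨h2, h2.pos, by omega⟩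

theorem kS_pri (Y : ℕ) : kS (pri 0 Y) = kap (primorial Y) := by
  rw [kap_eq _ (primorial_pos Y)]
  unfold kS
  apply prod_congr _ (fun _ _ => rfl)
  ext p
  rw [mem_pri, Nat.mem_primeFactors]
  constructor
  · rintro ⟨h1, _, h3⟩
    exact ⟨h1, h1.dvd_primorial_iff.2 h3, (primorial_pos Y).ne'⟩
  · rintro ⟨h1, h2, _⟩
    exact ⟨h1, h1.pos, h1.dvd_primorial_iff.1 h2⟩

theorem ev_ll (K : ℕ) (c s : ℝ) (hs : 0 < s) : ∀ᶠ H : ℕ in atTop, c * Real.log (Real.log H) ^ K ≤ Real.log H ^ s := by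
  have h1 : (fun x : ℝ => Real.log x ^ (K : ℝ)) =o[atTop] fun x => x ^ s := isLittleO_log_rpow_rpow_atTop (K : ℝ) hs
  have h2 : (0 : ℝ) < 1 / (|c| + 1) := by positivity
  have h3 := (h1.bound h2).and (eventually_ge_atTop (1 : ℝ))
  have h4 := (Real.tendsto_log_atTop.comp (tendsto_natCast_atTop_atTop (R := ℝ))).eventually h3
  filter_upwards [h4] with H hH
  simp only [Function.comp_apply] at hH
  obtain ⟨h5, h6⟩ := hH
  have h7 : 0 ≤ Real.log (Real.log H) := Real.log_nonneg h6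
  rw [Real.rpow_natCast, Real.norm_of_nonneg (by positivity), Real.norm_of_nonneg (by positivity)] at h5
  have h8 : |c| * Real.log (Real.log H) ^ K ≤ Real.log H ^ s := by
    have h9 := mul_le_mul_of_nonneg_left h5 (by positivity : 0 ≤ |c| + 1)
    have h10 : (|c| + 1) * (1 / (|c| + 1) * Real.log H ^ s) = Real.log H ^ s := by field_simp
    rw [h10] at h9
    have : 0 ≤ Real.log (Real.log H) ^ K := by positivity
    linarith
  exact (mul_le_mul_of_nonneg_right (le_abs_self c) (by positivity)).trans h8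

theorem cls_card (J L p c : ℕ) (hp : 0 < p) : (((Ioc J (J + L)).filter (fun n => n % p = c)).card : ℝ) ≤ (L : ℝ) / p + 1 := by
  have hp0 : (0 : ℝ) < p := by exact_mod_cast hp
  have h1 : (Ioc J (J + L)).filter (fun n => n % p = c) ⊆ (Ioc J (J + L)).filter (fun n => n ≡ c [MOD p]) := by
    intro n hn
    rw [mem_filter] at hn ⊢
    refine ⟨hn.1, ?_⟩
    have h2 := hn.2
    rw [← h2]
    exact (Nat.mod_modEq n p).symm
  have h2 := card_le_card h1
  have h3 := Nat.Ioc_filter_modEq_card J (J + L) hp c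
  have hpq : (0 : ℚ) < p := by exact_mod_cast hp
  have f1 := Int.floor_le ((((J + L : ℕ) : ℚ) - c) / p)
  have f2 := Int.lt_floor_add_one (((J : ℚ) - c) / p)
  have g1 : ((((Ioc J (J + L)).filter (fun n => n ≡ c [MOD p])).card : ℤ) : ℚ) ≤ (L : ℚ) / p + 1 := by
    rw [h3]
    push_cast
    apply max_le
    · push_cast at f1 f2
      have e : ((J : ℚ) + L - c) / p = ((J : ℚ) - c) / p + L / p := by ring
      rw [e] at f1
      have : (⌊((J : ℚ) + L - c) / p⌋ : ℚ) ≤ ((J : ℚ) - c) / p + L / p := by rw [e]; exact Int.floor_le _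
      linarith
    · positivity
  have g2 : (((Ioc J (J + L)).filter (fun n => n ≡ c [MOD p])).card : ℝ) ≤ (L : ℝ) / p + 1 := by
    have g4 := (Rat.cast_le (K := ℝ)).2 g1
    push_cast at g4
    exact g4
  have g3 : (((Ioc J (J + L)).filter (fun n => n % p = c)).card : ℝ) ≤ (((Ioc J (J + L)).filter (fun n => n ≡ c [MOD p])).card : ℝ) := by
    exact_mod_cast h2
  linarith

theorem kS_split (Y X : ℕ) (hYX : Y ≤ X) : kS (pri 0 X) = kS (pri 0 Y) * ∏ p ∈ pri Y X, fac p := by
  unfold kS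
  rw [← prod_union]
  · apply prod_congr _ (fun _ _ => rfl)
    ext p
    rw [mem_union, mem_pri, mem_pri, mem_pri]
    constructor
    · rintro ⟨h1, h2, h3⟩
      by_cases h : p ≤ Y
      · exact Or.inl ⟨h1, h2, h⟩
      · exact Or.inr ⟨h1, by omega, h3⟩
    · rintro (⟨h1, h2, h3⟩ | ⟨h1, h2, h3⟩)
      · exact ⟨h1, h2, by omega⟩
      · exact ⟨h1, by omega, h3⟩
  · rw [disjoint_left]
    intro p hp hp'
    rw [mem_pri] at hp hp'
    omega

/-- the range of the small primes -/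
noncomputable def Yh (H : ℕ) : ℕ := ⌊Real.log H / 8⌋₊

end Pool.Agent.H11A
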