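import Mathlib
import Pool.Agent.H11A.Az2
import Pool.Agent.H11A.Bs
import Pool.Agent.H11P.Box

/-! Arrays: translations, exceptional arrays, numbers of roots. -/

set_option autoImplicit false

namespace Pool.Agent.H11A

open Finset Pool.Agent.H11P

variable {k d : ℕ}

theorem upd_count (I : Finset ℤ) (hI : I.Nonempty) (i : Fin k) (l : Fin (d + 1)) (R : (Fin k → Fin (d + 1) → ℤ) → Prop) [DecidablePred R] (η : ℝ)
    (h : ∀ a ∈ (Fintype.piFinset fun (_ : Fin k) => Fintype.piFinset fun (_ : Fin (d + 1)) => I),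
      ((I.filter (fun x => R (Function.update a i (Function.update (a i) l x)))).card : ℝ) ≤ η * I.card) :
    (((Fintype.piFinset fun (_ : Fin k) => Fintype.piFinset fun (_ : Fin (d + 1)) => I).filter R).card : ℝ) ≤
      η * (Fintype.piFinset fun (_ : Fin k) => Fintype.piFinset fun (_ : Fin (d + 1)) => I).card := by
  classical
  obtain ⟨F, hF⟩ : ∃ F, F = (Fintype.piFinset fun (_ : Fin k) => Fintype.piFinset fun (_ : Fin (d + 1)) => I) := ⟨_, rfl⟩
  rw [← hF] at h ⊢
  obtain ⟨u, hu⟩ : ∃ u : (Fin k → Fin (d + 1) → ℤ) → ℤ → (Fin k → Fin (d + 1) → ℤ), ∀ a x, u a x = Function.update a i (Function.update (a i) l x) :=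
    ⟨fun a x => Function.update a i (Function.update (a i) l x), fun _ _ => rfl⟩
  have hu1 : ∀ a x, u a x i l = x := by
    intro a x
    rw [hu, Function.update_self, Function.update_self]
  have hu2 : ∀ a x, u (u a x) (a i l) = a := by
    intro a x
    simp only [hu, Function.update_self, Function.update_idem, Function.update_eq_self]
  have huF : ∀ a ∈ F, ∀ x ∈ I, u a x ∈ F := by
    intro a ha x hx
    rw [hF] at ha ⊢
    rw [Fintype.mem_piFinset]
    intro i'
    rw [Fintype.mem_piFinset]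
    intro l'
    rw [hu]
    have h1 := Fintype.mem_piFinset.1 (Fintype.mem_piFinset.1 ha i') l'
    by_cases hi : i' = i
    · subst hi
      simp only [Function.update_self]
      by_cases hl : l' = l
      · subst hl
        rw [Function.update_self]
        exact hx
      · rw [Function.update_of_ne hl]
        exact h1
    · simp only [Function.update_of_ne hi]
      exact h1
  have hFI : ∀ a ∈ F, a i l ∈ I := by
    intro a ha
    rw [hF] at ha
    exact Fintype.mem_piFinset.1 (Fintype.mem_piFinset.1 ha i) l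
  have e1 : ((F ×ˢ I).filter (fun y => R (u y.1 y.2))).card = ((F ×ˢ I).filter (fun y => R y.1)).card := by
    apply card_bij (fun y _ => (u y.1 y.2, y.1 i l))
    · intro y hy
      rw [mem_filter, mem_product] at hy ⊢
      exact ⟨⟨huF _ hy.1.1 _ hy.1.2, hFI _ hy.1.1⟩, hy.2⟩
    · intro y hy y' hy' he
      rw [Prod.mk.injEq] at he
      have h1 : y.1 = y'.1 := by
        rw [← hu2 y.1 y.2, ← hu2 y'.1 y'.2, he.1, he.2]
      have h2 : y.2 = y'.2 := by
        rw [← hu1 y.1 y.2, ← hu1 y'.1 y'.2, he.1]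
      exact Prod.ext h1 h2
    · intro y hy
      rw [mem_filter, mem_product] at hy
      refine ⟨(u y.1 y.2, y.1 i l), ?_, ?_⟩
      · rw [mem_filter, mem_product]
        refine ⟨⟨huF _ hy.1.1 _ hy.1.2, hFI _ hy.1.1⟩, ?_⟩
        simp only
        rw [hu2]
        exact hy.2
      · simp only
        rw [hu2, hu1]
  have e2 : (((F ×ˢ I).filter (fun y => R y.1)).card : ℝ) = (F.filter R).card * I.card := by
    have : (F ×ˢ I).filter (fun y => R y.1) = (F.filter R) ×ˢ I := by
      ext y
      simp only [mem_filter, mem_product]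
      tauto
    rw [this, card_product]
    push_cast
    rfl
  have e3 : (((F ×ˢ I).filter (fun y => R (u y.1 y.2))).card : ℝ) = ∑ a ∈ F, ((I.filter (fun x => R (u a x))).card : ℝ) := by
    rw [card_filter, sum_product]
    push_cast
    apply sum_congr rfl
    intro a _
    rw [card_filter]
    push_cast
    rfl
  have h1 : ((F.filter R).card : ℝ) * I.card ≤ (η * F.card) * I.card := by
    rw [← e2, ← e1, e3]
    refine (sum_le_sum (fun a ha => ?_ : ∀ a ∈ F, _ ≤ η * (I.card : ℝ))).trans ?_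
    · simp_rw [hu]
      exact h a ha
    · rw [sum_const, nsmul_eq_mul]
      apply le_of_eq
      ring
  have hI0 : (0 : ℝ) < I.card := by exact_mod_cast card_pos.2 hI
  exact le_of_mul_le_mul_right h1 hI0

/-- the arrays -/
noncomputable def ab (k d H : ℕ) : Finset (Fin k → Fin (d + 1) → ℤ) :=
  Fintype.piFinset fun _ => Fintype.piFinset fun _ => Icc (-(H : ℤ)) H

theorem ab_ne (k d H : ℕ) : (ab k d H).Nonempty := by
  unfold ab
  rw [Fintype.piFinset_nonempty]
  intro _
  rw [Fintype.piFinset_nonempty]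
  intro _
  exact ⟨0, by rw [mem_Icc]; omega⟩

theorem Icc_card (H : ℕ) : (Icc (-(H : ℤ)) H).card = 2 * H + 1 := by
  rw [Int.card_Icc]; omega

/-- few arrays leave the box -/
theorem shift_bad (H : ℕ) (v : Fin k → Fin (d + 1) → ℤ) (V : ℕ) (hv : ∀ i l, |v i l| ≤ V) [DecidablePred (fun a => a + v ∉ ab k d H)] :
    (((ab k d H).filter (fun a => a + v ∉ ab k d H)).card : ℝ) ≤ (k * (d + 1) * (V / (2 * H + 1))) * (ab k d H).card := by
  classical
  have h1 : (ab k d H).filter (fun a => a + v ∉ ab k d H) ⊆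
      (univ : Finset (Fin k × Fin (d + 1))).biUnion (fun x => (ab k d H).filter (fun a => a x.1 x.2 + v x.1 x.2 ∉ Icc (-(H : ℤ)) H)) := by
    intro a ha
    rw [mem_filter] at ha
    rw [mem_biUnion]
    have h2 : ¬ ∀ i l, (a + v) i l ∈ Icc (-(H : ℤ)) H := by
      intro h
      apply ha.2
      unfold ab
      rw [Fintype.mem_piFinset]
      intro i
      rw [Fintype.mem_piFinset]
      exact h i
    push Not at h2
    obtain ⟨i, l, h3⟩ := h2
    exact ⟨(i, l), mem_univ _, mem_filter.2 ⟨ha.1, h3⟩⟩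
  have h2 : ∀ x : Fin k × Fin (d + 1), (((ab k d H).filter (fun a => a x.1 x.2 + v x.1 x.2 ∉ Icc (-(H : ℤ)) H)).card : ℝ) ≤
      (V / (2 * H + 1)) * (ab k d H).card := by
    intro x
    unfold ab
    apply upd_count _ ⟨0, by rw [mem_Icc]; omega⟩ x.1 x.2
    intro a _
    simp only [Function.update_self]
    rw [Icc_card]
    have h3 : ((Icc (-(H : ℤ)) H).filter (fun y => y + v x.1 x.2 ∉ Icc (-(H : ℤ)) H)).card ≤ V := by
      have h4 := hv x.1 x.2
      rw [abs_le] at h4
      obtain ⟨w, hw⟩ : ∃ w, w = v x.1 x.2 := ⟨_, rfl⟩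
      rw [← hw] at h4 ⊢
      rcases le_or_gt 0 w with h5 | h5
      · have h6 : (Icc (-(H : ℤ)) H).filter (fun y => y + w ∉ Icc (-(H : ℤ)) H) ⊆ Ioc ((H : ℤ) - w) H := by
          intro y hy
          rw [mem_filter, mem_Icc, mem_Icc] at hy
          rw [mem_Ioc]
          omega
        refine (card_le_card h6).trans ?_
        rw [Int.card_Ioc]
        omega
      · have h6 : (Icc (-(H : ℤ)) H).filter (fun y => y + w ∉ Icc (-(H : ℤ)) H) ⊆ Ico (-(H : ℤ)) (-(H : ℤ) - w) := by
          intro y hy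
          rw [mem_filter, mem_Icc, mem_Icc] at hy
          rw [mem_Ico]
          omega
        refine (card_le_card h6).trans ?_
        rw [Int.card_Ico]
        omega
    have h7 : (((Icc (-(H : ℤ)) H).filter (fun y => y + v x.1 x.2 ∉ Icc (-(H : ℤ)) H)).card : ℝ) ≤ V := by exact_mod_cast h3
    refine h7.trans (le_of_eq ?_)
    push_cast
    field_simp
  have h3 : (((ab k d H).filter (fun a => a + v ∉ ab k d H)).card : ℝ) ≤
      ∑ x : Fin k × Fin (d + 1), (((ab k d H).filter (fun a => a x.1 x.2 + v x.1 x.2 ∉ Icc (-(H : ℤ)) H)).card : ℝ) := by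
    exact_mod_cast (card_le_card h1).trans card_biUnion_le
  refine h3.trans ((sum_le_sum fun x _ => h2 x).trans (le_of_eq ?_))
  rw [sum_const, card_univ, Fintype.card_prod, Fintype.card_fin, Fintype.card_fin, nsmul_eq_mul]
  push_cast
  ring

/-- the averages over translations -/
theorem avg_shift {β : Type*} (H : ℕ) (Ω : Finset β) (hΩ : Ω.Nonempty) (v : β → Fin k → Fin (d + 1) → ℤ) (V : ℕ)
    (hv : ∀ t ∈ Ω, ∀ i l, |v t i l| ≤ V) (Q Bd : (Fin k → Fin (d + 1) → ℤ) → Prop) [DecidablePred Q] [DecidablePred Bd] (ρ : ℝ) (hρ : 0 ≤ ρ)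
    (h : ∀ a ∈ ab k d H, ¬ Bd a → ((Ω.filter (fun t => Q (a + v t))).card : ℝ) ≤ ρ * Ω.card) :
    (((ab k d H).filter Q).card : ℝ) ≤ ((ab k d H).filter Bd).card + (ρ + k * (d + 1) * (V / (2 * H + 1))) * (ab k d H).card := by
  classical
  obtain ⟨δ, hδ⟩ : ∃ δ : ℝ, δ = k * (d + 1) * (V / (2 * H + 1)) := ⟨_, rfl⟩
  rw [← hδ]
  have h1 : ∀ t ∈ Ω, (((ab k d H).filter Q).card : ℝ) ≤ ((ab k d H).filter (fun a => Q (a + v t))).card + δ * (ab k d H).card := by
    intro t ht
    have h2 : ((ab k d H).filter Q).card ≤ ((ab k d H).filter (fun a => Q (a + v t))).card + ((ab k d H).filter (fun a => a + (- v t) ∉ ab k d H)).card := by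
      rw [← card_filter_add_card_filter_not (s := (ab k d H).filter Q) (p := fun a => a + (- v t) ∈ ab k d H)]
      apply add_le_add
      · apply card_le_card_of_injOn (fun a => a + (- v t))
        · intro a ha
          rw [mem_coe, mem_filter, mem_filter] at ha
          rw [mem_coe, mem_filter]
          refine ⟨ha.2, ?_⟩
          simp only [neg_add_cancel_right]
          exact ha.1.2
        · intro a _ b _ hab
          exact add_right_cancel hab
      · apply card_le_card
        intro a ha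
        rw [mem_filter, mem_filter] at ha
        rw [mem_filter]
        exact ⟨ha.1.1, ha.2⟩
    have h3 := shift_bad (k := k) (d := d) H (- v t) V (fun i l => by
      simp only [Pi.neg_apply, abs_neg]
      exact hv t ht i l)
    rw [hδ]
    have h4 : (((ab k d H).filter Q).card : ℝ) ≤ (((ab k d H).filter (fun a => Q (a + v t))).card : ℝ) +
        (((ab k d H).filter (fun a => a + (- v t) ∉ ab k d H)).card : ℝ) := by exact_mod_cast h2
    linarith
  have hc : (0 : ℝ) < Ω.card := by exact_mod_cast hΩ.card_pos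
  have h2 : (Ω.card : ℝ) * (((ab k d H).filter Q).card : ℝ) ≤ ∑ t ∈ Ω, ((((ab k d H).filter (fun a => Q (a + v t))).card : ℝ) + δ * (ab k d H).card) := by
    rw [← nsmul_eq_mul]
    exact card_nsmul_le_sum _ _ _ h1
  rw [sum_add_distrib, sum_const, nsmul_eq_mul] at h2
  have h3 : ∑ t ∈ Ω, (((ab k d H).filter (fun a => Q (a + v t))).card : ℝ) = ∑ a ∈ ab k d H, ((Ω.filter (fun t => Q (a + v t))).card : ℝ) := by
    simp only [card_filter]
    push_cast
    exact sum_comm
  have h4 : ∑ a ∈ ab k d H, ((Ω.filter (fun t => Q (a + v t))).card : ℝ) ≤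
      ∑ a ∈ ab k d H, ((if Bd a then (Ω.card : ℝ) else 0) + ρ * Ω.card) := by
    apply sum_le_sum
    intro a ha
    by_cases hb : Bd a
    · rw [if_pos hb]
      have : ((Ω.filter (fun t => Q (a + v t))).card : ℝ) ≤ Ω.card := by exact_mod_cast card_le_card (filter_subset _ _)
      have h0 : 0 ≤ ρ * Ω.card := by positivity
      linarith
    · rw [if_neg hb, zero_add]
      exact h a ha hb
  rw [sum_add_distrib, ← sum_filter, sum_const, sum_const, nsmul_eq_mul, nsmul_eq_mul] at h4
  rw [h3] at h2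
  have h5 : (Ω.card : ℝ) * (((ab k d H).filter Q).card : ℝ) ≤
      Ω.card * (((ab k d H).filter Bd).card + (ρ + δ) * (ab k d H).card) := by
    calc (Ω.card : ℝ) * (((ab k d H).filter Q).card : ℝ) ≤ (((ab k d H).filter Bd).card * (Ω.card : ℝ) + (ab k d H).card * (ρ * Ω.card)) +
          Ω.card * (δ * (ab k d H).card) := by linarith
      _ = _ := by ring
  exact le_of_mul_le_mul_left h5 hc

/-- a prime divides many coefficients -/
theorem exc_cnt (H : ℕ) (i : Fin k) (c : Fin (d + 1) → ℤ) (p : ℕ) (hp : 0 < p) (hpH : p ≤ 2 * H + 1)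
    [DecidablePred (fun a : Fin k → Fin (d + 1) → ℤ => ∀ l : Fin (d + 1), l ≠ 0 → (p : ℤ) ∣ c l + a i l)] :
    (((ab k d H).filter (fun a => ∀ l : Fin (d + 1), l ≠ 0 → (p : ℤ) ∣ c l + a i l)).card : ℝ) ≤ (2 / p) ^ d * (ab k d H).card := by
  classical
  have hp0 : (0 : ℝ) < p := by exact_mod_cast hp
  have hpz : (0 : ℤ) < p := by exact_mod_cast hp
  obtain ⟨I, hI⟩ : ∃ I, I = Icc (-(H : ℤ)) H := ⟨_, rfl⟩
  have hIc : (I.card : ℝ) = 2 * H + 1 := by rw [hI, Icc_card]; push_cast; ring
  have e : (ab k d H).filter (fun a => ∀ l : Fin (d + 1), l ≠ 0 → (p : ℤ) ∣ c l + a i l) =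
      Fintype.piFinset (fun i' : Fin k => Fintype.piFinset (fun l : Fin (d + 1) => if i' = i ∧ l ≠ 0 then I.filter (fun x => (p : ℤ) ∣ c l + x) else I)) := by
    ext a
    unfold ab
    rw [mem_filter, Fintype.mem_piFinset, Fintype.mem_piFinset]
    constructor
    · rintro ⟨h1, h2⟩ i'
      rw [Fintype.mem_piFinset]
      intro l
      have h3 := Fintype.mem_piFinset.1 (h1 i') l
      rw [← hI] at h3
      split_ifs with h4
      · rw [mem_filter]
        refine ⟨h3, ?_⟩
        have := h2 l h4.2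
        rw [h4.1]
        exact this
      · exact h3
    · intro h
      constructor
      · intro i'
        rw [Fintype.mem_piFinset]
        intro l
        have h1 := Fintype.mem_piFinset.1 (h i') l
        rw [← hI]
        split_ifs at h1 with h4
        · exact (mem_filter.1 h1).1
        · exact h1
      · intro l hl
        have h1 := Fintype.mem_piFinset.1 (h i) l
        rw [if_pos ⟨rfl, hl⟩] at h1
        exact (mem_filter.1 h1).2
  have hcnt : ∀ l : Fin (d + 1), ((I.filter (fun x => (p : ℤ) ∣ c l + x)).card : ℝ) ≤ 2 / p * I.card := by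
    intro l
    have h1 := (count_mod (-(H : ℤ) - 1) H (- c l) p hp (by omega)).1
    have e1 : Ioc (-(H : ℤ) - 1) H = I := by
      rw [hI]
      ext x; simp only [mem_Ioc, mem_Icc]; omega
    rw [e1] at h1
    have e2 : I.filter (fun x => (p : ℤ) ∣ c l + x) = I.filter (fun x => x ≡ - c l [ZMOD p]) := by
      apply filter_congr
      intro x _
      rw [Int.modEq_comm, Int.modEq_iff_dvd]
      have : x - - c l = c l + x := by ring
      rw [this]
    rw [e2]
    refine h1.trans ?_
    rw [hIc]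
    push_cast
    have hpH' : (p : ℝ) ≤ 2 * H + 1 := by exact_mod_cast hpH
    rw [div_add_one hp0.ne', div_mul_eq_mul_div]
    apply div_le_div_of_nonneg_right _ hp0.le
    linarith
  rw [e, Fintype.card_piFinset]
  push_cast
  have h1 : ∀ i' : Fin k, ((Fintype.piFinset (fun l : Fin (d + 1) => if i' = i ∧ l ≠ 0 then I.filter (fun x => (p : ℤ) ∣ c l + x) else I)).card : ℝ) ≤
      (if i' = i then (2 / (p : ℝ)) ^ d else 1) * (I.card : ℝ) ^ (d + 1) := by
    intro i'
    rw [Fintype.card_piFinset]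
    push_cast
    by_cases hi : i' = i
    · rw [if_pos hi, Fin.prod_univ_succ]
      have h0 : ¬ (i' = i ∧ (0 : Fin (d + 1)) ≠ 0) := fun h => h.2 rfl
      rw [if_neg h0]
      have h2 : ∏ l : Fin d, ((if i' = i ∧ l.succ ≠ 0 then I.filter (fun x => (p : ℤ) ∣ c l.succ + x) else I).card : ℝ) ≤ ∏ _l : Fin d, (2 / (p : ℝ) * I.card) := by
        apply Finset.prod_le_prod (fun _ _ => Nat.cast_nonneg _)
        intro l _
        rw [if_pos ⟨hi, Fin.succ_ne_zero l⟩]
        exact hcnt _
      rw [prod_const, card_univ, Fintype.card_fin] at h2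
      calc (I.card : ℝ) * ∏ l : Fin d, ((if i' = i ∧ l.succ ≠ 0 then I.filter (fun x => (p : ℤ) ∣ c l.succ + x) else I).card : ℝ) ≤
          I.card * (2 / (p : ℝ) * I.card) ^ d := mul_le_mul_of_nonneg_left h2 (Nat.cast_nonneg _)
        _ = (2 / (p : ℝ)) ^ d * (I.card : ℝ) ^ (d + 1) := by rw [mul_pow]; ring
    · rw [if_neg hi, one_mul]
      have h2 : ∀ l : Fin (d + 1), ((if i' = i ∧ l ≠ 0 then I.filter (fun x => (p : ℤ) ∣ c l + x) else I).card : ℝ) = I.card := by
        intro l
        rw [if_neg (fun h => hi h.1)]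
      rw [prod_congr rfl (fun l _ => h2 l), prod_const, card_univ, Fintype.card_fin]
  have h2 := Finset.prod_le_prod (s := (univ : Finset (Fin k))) (fun i' _ => (Nat.cast_nonneg _ : (0 : ℝ) ≤
    ((Fintype.piFinset (fun l : Fin (d + 1) => if i' = i ∧ l ≠ 0 then I.filter (fun x => (p : ℤ) ∣ c l + x) else I)).card : ℝ))) (fun i' _ => h1 i')
  refine h2.trans (le_of_eq ?_)
  rw [prod_mul_distrib, Finset.prod_ite_eq' univ i, if_pos (mem_univ _), prod_const, card_univ, Fintype.card_fin]
  unfold ab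
  rw [Fintype.card_piFinset]
  simp only [Fintype.card_piFinset, prod_const, card_univ, Fintype.card_fin]
  rw [← hI]
  push_cast
  rfl

/-- the number of roots of a polynomial in a window -/
theorem root_win (F : Polynomial ℤ) (E : ℕ) (hF : F.natDegree ≤ E) (p : ℕ) (hp : p.Prime)
    (hco : ∃ i, 1 ≤ i ∧ ¬ (p : ℤ) ∣ F.coeff i) (x : ℤ) (J L : ℕ) [DecidablePred (fun n : ℕ => (p : ℤ) ∣ F.eval (n : ℤ) + x)] :
    (((Ioc J (J + L)).filter (fun n : ℕ => (p : ℤ) ∣ F.eval (n : ℤ) + x)).card : ℝ) ≤ E * ((L : ℝ) / p + 1) := by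
  classical
  have hfact := Fact.mk hp
  obtain ⟨G, hG⟩ : ∃ G : Polynomial (ZMod p), G = F.map (Int.castRingHom (ZMod p)) + Polynomial.C (x : ZMod p) := ⟨_, rfl⟩
  obtain ⟨i0, hi0, hpi0⟩ := hco
  have hco : G.coeff i0 ≠ 0 := by
    rw [hG, Polynomial.coeff_add, Polynomial.coeff_map, Polynomial.coeff_C, if_neg (by omega), add_zero]
    intro h
    have h1 : ((F.coeff i0 : ℤ) : ZMod p) = 0 := h
    rw [ZMod.intCast_zmod_eq_zero_iff_dvd] at h1
    exact hpi0 h1
  have hG0 : G ≠ 0 := by
    intro h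
    rw [h] at hco
    simp at hco
  have hdeg : G.natDegree ≤ E := by
    rw [hG, Polynomial.natDegree_add_C]
    exact Polynomial.natDegree_map_le.trans hF
  have heval : ∀ n : ℕ, (p : ℤ) ∣ F.eval (n : ℤ) + x ↔ ((n : ℕ) : ZMod p) ∈ G.roots.toFinset := by
    intro n
    rw [Multiset.mem_toFinset, Polynomial.mem_roots hG0, Polynomial.IsRoot.def, hG, Polynomial.eval_add, Polynomial.eval_C]
    have h4 : Polynomial.eval (((n : ℕ) : ZMod p)) (F.map (Int.castRingHom (ZMod p))) = ((F.eval ((n : ℕ) : ℤ) : ℤ) : ZMod p) := by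
      have := Polynomial.eval_intCast_map (Int.castRingHom (ZMod p)) F ((n : ℕ) : ℤ)
      simpa using this
    rw [h4, ← Int.cast_add, ZMod.intCast_zmod_eq_zero_iff_dvd]
  have hcard : G.roots.toFinset.card ≤ E := (Multiset.toFinset_card_le _).trans ((Polynomial.card_roots' G).trans hdeg)
  have hsub : (Ioc J (J + L)).filter (fun n : ℕ => (p : ℤ) ∣ F.eval (n : ℤ) + x) ⊆
      G.roots.toFinset.biUnion (fun r => (Ioc J (J + L)).filter (fun n => n % p = r.val)) := by
    intro n hn
    rw [mem_filter] at hn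
    rw [mem_biUnion]
    refine ⟨(n : ZMod p), (heval n).1 hn.2, ?_⟩
    rw [mem_filter]
    exact ⟨hn.1, (ZMod.val_natCast p n).symm⟩
  have h1 : (((Ioc J (J + L)).filter (fun n : ℕ => (p : ℤ) ∣ F.eval (n : ℤ) + x)).card : ℝ) ≤
      ∑ r ∈ G.roots.toFinset, (((Ioc J (J + L)).filter (fun n => n % p = r.val)).card : ℝ) := by
    exact_mod_cast (card_le_card hsub).trans card_biUnion_le
  refine h1.trans ?_
  have h2 := sum_le_card_nsmul G.roots.toFinset (fun r => (((Ioc J (J + L)).filter (fun n => n % p = r.val)).card : ℝ)) ((L : ℝ) / p + 1)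
    (fun r _ => cls_card J L p r.val hp.pos)
  refine h2.trans ?_
  rw [nsmul_eq_mul]
  apply mul_le_mul_of_nonneg_right _ (by positivity)
  exact_mod_cast hcard

end Pool.Agent.H11A
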