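import Mathlib
import Pool.Agent.H11A.Az3
import Pool.Agent.H11P.Law

/-! Concentration for the middle primes: arrays. -/

set_option autoImplicit false

namespace Pool.Agent.H11A

open Finset Pool.Agent.H11P Pool.Agent.H11P.Law

variable {k d : ℕ}

/-- the full polynomial -/
noncomputable def fp (P : Polynomial ℤ) (a : Fin (d + 1) → ℤ) : Polynomial ℤ :=
  P + ∑ l : Fin (d + 1), Polynomial.C (a l) * Polynomial.X ^ (l : ℕ)

theorem fp_eval (P : Polynomial ℤ) (a : Fin (d + 1) → ℤ) (n : ℕ) : (fp P a).eval (n : ℤ) = value P a n := by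
  unfold fp value
  rw [Polynomial.eval_add, Polynomial.eval_finsetSum]
  simp only [Polynomial.eval_mul, Polynomial.eval_C, Polynomial.eval_pow, Polynomial.eval_X]

theorem fp_deg (P : Polynomial ℤ) (e : ℕ) (hP : P.natDegree ≤ e) (a : Fin (d + 1) → ℤ) : (fp P a).natDegree ≤ max e d := by
  unfold fp
  refine (Polynomial.natDegree_add_le _ _).trans (max_le_max hP ?_)
  apply Polynomial.natDegree_sum_le_of_forall_le
  intro l _
  refine (Polynomial.natDegree_C_mul_X_pow_le _ _).trans ?_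
  have := l.2
  omega

theorem fp_coeff (P : Polynomial ℤ) (a : Fin (d + 1) → ℤ) (j : Fin (d + 1)) : (fp P a).coeff (j : ℕ) = P.coeff (j : ℕ) + a j := by
  unfold fp
  rw [Polynomial.coeff_add, Polynomial.finsetSum_coeff]
  congr 1
  simp only [Polynomial.coeff_C_mul, Polynomial.coeff_X_pow]
  rw [sum_eq_single j]
  · simp
  · intro l _ hl
    rw [if_neg (fun h => hl (Fin.ext h.symm)), mul_zero]
  · intro h
    exact absurd (mem_univ _) h

/-- the exceptional arrays -/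
def Exc (P : Fin k → Polynomial ℤ) (z Y : ℕ) (a : Fin k → Fin (d + 1) → ℤ) : Prop :=
  ∃ i, ∃ p ∈ pri z Y, ∀ l : Fin (d + 1), l ≠ 0 → (p : ℤ) ∣ (P i).coeff (l : ℕ) + a i l

theorem exc_non (P : Fin k → Polynomial ℤ) (z Y : ℕ) (a : Fin k → Fin (d + 1) → ℤ) (h : ¬ Exc P z Y a) (i : Fin k) (p : ℕ) (hp : p ∈ pri z Y) :
    ∃ j, 1 ≤ j ∧ ¬ (p : ℤ) ∣ (fp (P i) (a i)).coeff j := by
  unfold Exc at h
  push Not at h
  obtain ⟨l, hl, h2⟩ := h i p hp
  refine ⟨(l : ℕ), ?_, ?_⟩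
  · have : (l : ℕ) ≠ 0 := fun h => hl (Fin.ext h)
    omega
  · rw [fp_coeff]
    exact h2

/-- the translation of the constant coefficients -/
def cst (t : Fin k → ℕ) : Fin k → Fin (d + 1) → ℤ := fun i l => if l = 0 then (t i : ℤ) else 0

theorem value_cst (P : Polynomial ℤ) (a : Fin k → Fin (d + 1) → ℤ) (t : Fin k → ℕ) (i : Fin k) (n : ℕ) :
    value P ((a + cst t : Fin k → Fin (d + 1) → ℤ) i) n = value P (a i) n + t i := by
  unfold value cst
  simp only [Pi.add_apply]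
  rw [add_assoc]
  congr 1
  have : ∀ l : Fin (d + 1), (a i l + (if l = 0 then (t i : ℤ) else 0)) * (n : ℤ) ^ (l : ℕ) =
      a i l * (n : ℤ) ^ (l : ℕ) + (if l = 0 then (t i : ℤ) else 0) := by
    intro l
    split_ifs with h
    · rw [h]; simp
    · ring
  rw [sum_congr rfl (fun l _ => this l), sum_add_distrib]
  simp

theorem Exc_cst (P : Fin k → Polynomial ℤ) (z Y : ℕ) (a : Fin k → Fin (d + 1) → ℤ) (t : Fin k → ℕ) : Exc P z Y (a + cst t) ↔ Exc P z Y a := by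
  unfold Exc
  apply exists_congr
  intro i
  apply exists_congr
  intro p
  apply and_congr_right
  intro _
  apply forall_congr'
  intro l
  apply imp_congr_right
  intro hl
  simp [cst, hl]

open Classical in
/-- the sifted window -/
noncomputable def NS (P : Fin k → Polynomial ℤ) (D : Finset ℕ) (z : ℕ) (a : Fin k → Fin (d + 1) → ℤ) : ℕ :=
  (D.filter (fun n => ∀ p ∈ pri 0 z, ∀ i, ¬ (p : ℤ) ∣ value (P i) (a i) n)).card

theorem kill_le (P : Fin k → Polynomial ℤ) (e : ℕ) (hP : ∀ i, (P i).natDegree ≤ e) (z Y J L : ℕ) (a : Fin k → Fin (d + 1) → ℤ)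
    (h : ¬ Exc P z Y a) (p : ℕ) (hp : p ∈ pri z Y) (t : Fin k → ℤ)
    [DecidablePred (fun n => ¬ okp (fun i n => value (P i) (a i) n) p t n)] :
    (((Ioc J (J + L)).filter (fun n => ¬ okp (fun i n => value (P i) (a i) n) p t n)).card : ℝ) ≤ k * (max e d : ℕ) * ((L : ℝ) / p + 1) := by
  classical
  have hpp := ((mem_pri _ _ _).1 hp).1
  have h1 : (Ioc J (J + L)).filter (fun n => ¬ okp (fun i n => value (P i) (a i) n) p t n) ⊆
      (univ : Finset (Fin k)).biUnion (fun i => (Ioc J (J + L)).filter (fun n : ℕ => (p : ℤ) ∣ (fp (P i) (a i)).eval (n : ℤ) + t i)) := by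
    intro n hn
    rw [mem_filter] at hn
    unfold okp at hn
    push Not at hn
    obtain ⟨i, hi⟩ := hn.2
    rw [mem_biUnion]
    refine ⟨i, mem_univ _, ?_⟩
    rw [mem_filter, fp_eval]
    exact ⟨hn.1, hi⟩
  have h2 : (((Ioc J (J + L)).filter (fun n => ¬ okp (fun i n => value (P i) (a i) n) p t n)).card : ℝ) ≤
      ∑ i : Fin k, (((Ioc J (J + L)).filter (fun n : ℕ => (p : ℤ) ∣ (fp (P i) (a i)).eval (n : ℤ) + t i)).card : ℝ) := by
    exact_mod_cast (card_le_card h1).trans card_biUnion_le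
  refine h2.trans ?_
  have h3 : ∀ i ∈ (univ : Finset (Fin k)), (((Ioc J (J + L)).filter (fun n : ℕ => (p : ℤ) ∣ (fp (P i) (a i)).eval (n : ℤ) + t i)).card : ℝ) ≤
      (max e d : ℕ) * ((L : ℝ) / p + 1) := fun i _ =>
    root_win (fp (P i) (a i)) (max e d) (fp_deg _ _ (hP i) _) p hpp (exc_non P z Y a h i p hp) (t i) J L
  refine (sum_le_card_nsmul _ _ _ h3).trans (le_of_eq ?_)
  rw [card_univ, Fintype.card_fin, nsmul_eq_mul]
  ring

theorem pri_union (Y' Y : ℕ) (h : Y' ≤ Y) : pri 0 Y' ∪ pri Y' Y = pri 0 Y := by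
  ext p
  rw [mem_union, mem_pri, mem_pri, mem_pri]
  constructor
  · rintro (⟨h1, h2, h3⟩ | ⟨h1, h2, h3⟩)
    · exact ⟨h1, h2, by omega⟩
    · exact ⟨h1, by omega, h3⟩
  · rintro ⟨h1, h2, h3⟩
    by_cases h : p ≤ Y'
    · exact Or.inl ⟨h1, h2, h⟩
    · exact Or.inr ⟨h1, by omega, h3⟩

theorem pri_dis (Y' Y : ℕ) : Disjoint (pri 0 Y') (pri Y' Y) := by
  rw [disjoint_left]
  intro p hp hp'
  rw [mem_pri] at hp hp'
  omega

theorem prod_pri2 (Y' Y : ℕ) (h : Y' ≤ Y) : (∏ p ∈ pri 0 Y', p) * ∏ p ∈ pri Y' Y, p = primorial Y := by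
  rw [← prod_union (pri_dis Y' Y), pri_union Y' Y h, prod_pri]

theorem cst_bd (W : ℕ) (t : Fin k → ℕ) (ht : t ∈ Fintype.piFinset (fun _ : Fin k => range W)) (i : Fin k) (l : Fin (d + 1)) :
    |(cst t : Fin k → Fin (d + 1) → ℤ) i l| ≤ W := by
  rw [Fintype.mem_piFinset] at ht
  have := mem_range.1 (ht i)
  unfold cst
  split_ifs
  · rw [abs_of_nonneg (by positivity)]; omega
  · rw [abs_zero]; positivity

open Classical in
/-- the middle primes -/
theorem mid (P : Fin k → Polynomial ℤ) (e : ℕ) (hP : ∀ i, (P i).natDegree ≤ e) (H Y' Y J L : ℕ) (hY : Y' ≤ Y) (V lam η : ℝ)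
    (hV : ∏ p ∈ pri Y' Y, 1 / (1 - 1 / (p : ℝ)) ^ k ≤ V) (hlam : 0 < lam)
    (hlK : ∀ p ∈ pri Y' Y, lam * (V * 2 ^ k * (k * (max e d : ℕ) * ((L : ℝ) / p + 1) + k * (Ioc J (J + L)).card / p)) ≤ 1) :
    (((ab k d H).filter (fun a => ¬ Exc P Y' Y a ∧ η * ∏ p ∈ pri Y' Y, (1 - 1 / (p : ℝ)) ^ k <
      |(NS P (Ioc J (J + L)) Y a : ℝ) - (∏ p ∈ pri Y' Y, (1 - 1 / (p : ℝ)) ^ k) * NS P (Ioc J (J + L)) Y' a|)).card : ℝ) ≤
      (2 * Real.exp (lam ^ 2 * ∑ p ∈ pri Y' Y, (V * 2 ^ k * (k * (max e d : ℕ) * ((L : ℝ) / p + 1) + k * (Ioc J (J + L)).card / p)) ^ 2 - lam * η) +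
        k * (d + 1) * ((primorial Y : ℕ) / (2 * H + 1))) * (ab k d H).card := by
  have h1 := avg_shift (k := k) (d := d) H (Fintype.piFinset (fun _ : Fin k => range (primorial Y))) (by
    rw [Fintype.piFinset_nonempty]
    intro _
    rw [nonempty_range_iff]
    exact (primorial_pos Y).ne') cst (primorial Y) (fun t ht i l => cst_bd _ t ht i l)
    (fun a => ¬ Exc P Y' Y a ∧ η * ∏ p ∈ pri Y' Y, (1 - 1 / (p : ℝ)) ^ k <
      |(NS P (Ioc J (J + L)) Y a : ℝ) - (∏ p ∈ pri Y' Y, (1 - 1 / (p : ℝ)) ^ k) * NS P (Ioc J (J + L)) Y' a|) (fun _ => False)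
    (2 * Real.exp (lam ^ 2 * ∑ p ∈ pri Y' Y, (V * 2 ^ k * (k * (max e d : ℕ) * ((L : ℝ) / p + 1) + k * (Ioc J (J + L)).card / p)) ^ 2 - lam * η))
    (by positivity) (by
    intro a _ _
    by_cases hE : Exc P Y' Y a
    · have : (Fintype.piFinset (fun _ : Fin k => range (primorial Y))).filter (fun t => ¬ Exc P Y' Y (a + cst t) ∧ η * ∏ p ∈ pri Y' Y, (1 - 1 / (p : ℝ)) ^ k <
        |(NS P (Ioc J (J + L)) Y (a + cst t) : ℝ) - (∏ p ∈ pri Y' Y, (1 - 1 / (p : ℝ)) ^ k) * NS P (Ioc J (J + L)) Y' (a + cst t)|) = ∅ := by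
        apply filter_false_of_mem
        intro t _ h
        rw [Exc_cst] at h
        exact h.1 hE
      rw [this, card_empty, Nat.cast_zero]
      positivity
    · have key := az_cnt (fun i n => value (P i) (a i) n) (pri 0 Y') (pri Y' Y) (fun p hp => ((mem_pri _ _ _).1 hp).1)
        (fun p hp => ((mem_pri _ _ _).1 hp).1) (pri_dis Y' Y) (Ioc J (J + L)) V lam η hV hlam
        (fun p => k * (max e d : ℕ) * ((L : ℝ) / p + 1)) (fun p hp t => by
          convert kill_le P e hP Y' Y J L a hE p hp t) hlK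
      rw [prod_pri2 Y' Y hY] at key
      rw [card_pir]
      refine le_trans ?_ (key.trans (le_of_eq (mul_comm _ _)))
      have hsub : (Fintype.piFinset (fun _ : Fin k => range (primorial Y))).filter (fun t => ¬ Exc P Y' Y (a + cst t) ∧ η * ∏ p ∈ pri Y' Y, (1 - 1 / (p : ℝ)) ^ k <
        |(NS P (Ioc J (J + L)) Y (a + cst t) : ℝ) - (∏ p ∈ pri Y' Y, (1 - 1 / (p : ℝ)) ^ k) * NS P (Ioc J (J + L)) Y' (a + cst t)|) ⊆
        (Fintype.piFinset (fun _ : Fin k => range (primorial Y))).filter (fun t => η * ∏ p ∈ pri Y' Y, (1 - 1 / (p : ℝ)) ^ k <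
          |(((Ioc J (J + L)).filter (fun n => ∀ p ∈ pri 0 Y' ∪ pri Y' Y, okp (fun i n => value (P i) (a i) n) p (fun i => (t i : ℤ)) n)).card : ℝ) -
          (∏ p ∈ pri Y' Y, (1 - 1 / (p : ℝ)) ^ k) * (((Ioc J (J + L)).filter (fun n => ∀ p ∈ pri 0 Y', okp (fun i n => value (P i) (a i) n) p (fun i => (t i : ℤ)) n)).card : ℝ)|) := by
        intro t ht
        rw [mem_filter] at ht ⊢
        refine ⟨ht.1, ?_⟩
        have h2 := ht.2.2
        unfold NS at h2
        simp only [value_cst] at h2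
        rw [pri_union Y' Y hY]
        unfold okp
        convert h2
      exact_mod_cast card_le_card hsub)
  refine h1.trans (le_of_eq ?_)
  have h2 : (ab k d H).filter (fun _ => False) = ∅ := filter_false_of_mem (fun _ _ h => h)
  rw [h2, card_empty, Nat.cast_zero, zero_add]

end Pool.Agent.H11A
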