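import Mathlib
import Pool.Agent.H11A.Az4

/-! Concentration of the truncated constants. -/

set_option autoImplicit false

namespace Pool.Agent.H11A

open Finset Pool.Agent.H11P Pool.Agent.H11P.Law

variable {k d : ℕ}

/-- the number of roots of a polynomial modulo a prime -/
theorem root_rng (F : Polynomial ℤ) (E : ℕ) (hF : F.natDegree ≤ E) (p : ℕ) (hp : p.Prime)
    (hco : ∃ i, 1 ≤ i ∧ ¬ (p : ℤ) ∣ F.coeff i) (x : ℤ) [DecidablePred (fun n : ℕ => (p : ℤ) ∣ F.eval (n : ℤ) + x)] :
    ((range p).filter (fun n : ℕ => (p : ℤ) ∣ F.eval (n : ℤ) + x)).card ≤ E := by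
  classical
  have hfact := Fact.mk hp
  obtain ⟨G, hG⟩ : ∃ G : Polynomial (ZMod p), G = F.map (Int.castRingHom (ZMod p)) + Polynomial.C (x : ZMod p) := ⟨_, rfl⟩
  obtain ⟨i0, hi0, hpi0⟩ := hco
  have hco : G.coeff i0 ≠ 0 := by
    rw [hG, Polynomial.coeff_add, Polynomial.coeff_map, Polynomial.coeff_C, if_neg (by omega), add_zero]
    intro h
    have h1 : ((F.coeff i0 : ℤ) : ZMod p) = 0 := h
    rw [ZMod.intCast_zmod_eq_zero_iff_dvd] at h1
    exact hpi0 h1
  have hG0 : G ≠ 0 := by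
    intro h
    rw [h] at hco
    simp at hco
  have hdeg : G.natDegree ≤ E := by
    rw [hG, Polynomial.natDegree_add_C]
    exact Polynomial.natDegree_map_le.trans hF
  refine le_trans ?_ ((Multiset.toFinset_card_le _).trans ((Polynomial.card_roots' G).trans hdeg))
  refine card_le_card_of_injOn (fun r => ((r : ℕ) : ZMod p)) ?_ ?_
  · intro r hr
    rw [mem_coe, mem_filter] at hr
    rw [mem_coe, Multiset.mem_toFinset, Polynomial.mem_roots hG0, Polynomial.IsRoot.def, hG, Polynomial.eval_add, Polynomial.eval_C]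
    have h4 : Polynomial.eval (((r : ℕ) : ZMod p)) (F.map (Int.castRingHom (ZMod p))) = ((F.eval ((r : ℕ) : ℤ) : ℤ) : ZMod p) := by
      have := Polynomial.eval_intCast_map (Int.castRingHom (ZMod p)) F ((r : ℕ) : ℤ)
      simpa using this
    simp only
    rw [h4, ← Int.cast_add, ZMod.intCast_zmod_eq_zero_iff_dvd]
    exact hr.2
  · intro a ha b hb hab
    rw [mem_coe, mem_filter, mem_range] at ha hb
    simp only at hab
    rw [ZMod.natCast_eq_natCast_iff] at hab
    exact Nat.ModEq.eq_of_lt_of_lt hab ha.1 hb.1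

/-- the local factor for the primes which behave regularly -/
noncomputable def zt (P : Fin k → Polynomial ℤ) (p : ℕ) (a : Fin k → Fin (d + 1) → ℤ) : ℝ :=
  (1 - (omega P a p : ℝ) / p) / (1 - 1 / (p : ℝ)) ^ k

open Classical in
/-- the local factor, as a function of the constants -/
noncomputable def FF (g : Fin k → ℕ → ℤ) (p : ℕ) (t : Fin k → ℤ) : ℝ :=
  (1 - (((range p).filter (fun n => ¬ okp g p t n)).card : ℝ) / p) / (1 - 1 / (p : ℝ)) ^ k - 1

theorem zt_FF (P : Fin k → Polynomial ℤ) (p : ℕ) (a : Fin k → Fin (d + 1) → ℤ) (t : Fin k → ℕ) :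
    zt P p (a + cst t) - 1 = FF (fun i n => value (P i) (a i) n) p (fun i => (t i : ℤ)) := by
  classical
  unfold zt FF omega
  simp only [value_cst]
  congr 4
  refine congrArg Nat.cast (congrArg Finset.card (filter_congr fun n _ => ?_))
  unfold okp
  push Not
  rfl

theorem FF_zero (g : Fin k → ℕ → ℤ) (p : ℕ) (hp : p.Prime) (b : Fin k → ℤ) (M : ℤ) (hM : ¬ (p : ℤ) ∣ M) :
    ∑ v ∈ Fintype.piFinset (fun _ : Fin k => range p), FF g p (fun i => b i + M * (v i : ℤ)) = 0 := by
  classical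
  have hp0 : (0 : ℝ) < p := by exact_mod_cast hp.pos
  obtain ⟨q1, q2, q3, q4⟩ := qpos p hp k
  obtain ⟨q, hq⟩ : ∃ q : ℝ, q = (1 - 1 / (p : ℝ)) ^ k := ⟨_, rfl⟩
  rw [← hq] at q1
  have hs : ∑ v ∈ Fintype.piFinset (fun _ : Fin k => range p), (((range p).filter (fun n => ¬ okp g p (fun i => b i + M * (v i : ℤ)) n)).card : ℝ) =
      p * ((p : ℝ) ^ k - q * (p : ℝ) ^ k) := by
    have h1 : ∀ v ∈ Fintype.piFinset (fun _ : Fin k => range p), (((range p).filter (fun n => ¬ okp g p (fun i => b i + M * (v i : ℤ)) n)).card : ℝ) =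
        ∑ n ∈ range p, (if ¬ okp g p (fun i => b i + M * (v i : ℤ)) n then (1 : ℝ) else 0) := by
      intro v _
      rw [card_filter]
      push_cast
      rfl
    rw [sum_congr rfl h1, sum_comm]
    have h2 : ∀ n ∈ range p, ∑ v ∈ Fintype.piFinset (fun _ : Fin k => range p), (if ¬ okp g p (fun i => b i + M * (v i : ℤ)) n then (1 : ℝ) else 0) =
        (p : ℝ) ^ k - q * (p : ℝ) ^ k := by
      intro n _
      have h3 := card_ok p hp (fun i => g i n + b i) M hM
      rw [← sum_filter, sum_const, nsmul_eq_mul, mul_one]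
      have h4 := card_filter_add_card_filter_not (s := Fintype.piFinset (fun _ : Fin k => range p)) (p := fun v => okp g p (fun i => b i + M * (v i : ℤ)) n)
      have h5 : (Fintype.piFinset (fun _ : Fin k => range p)).filter (fun v => okp g p (fun i => b i + M * (v i : ℤ)) n) =
          (Fintype.piFinset (fun _ : Fin k => range p)).filter (fun v => ∀ i, ¬ (p : ℤ) ∣ (g i n + b i) + M * (v i : ℤ)) := by
        apply filter_congr
        intro v _
        unfold okp
        apply forall_congr'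
        intro i
        rw [add_assoc]
      have h6 : (((Fintype.piFinset (fun _ : Fin k => range p)).filter (fun v => okp g p (fun i => b i + M * (v i : ℤ)) n)).card : ℝ) +
          (((Fintype.piFinset (fun _ : Fin k => range p)).filter (fun v => ¬ okp g p (fun i => b i + M * (v i : ℤ)) n)).card : ℝ) =
          (p : ℝ) ^ k := by
        rw [← card_pir p]
        exact_mod_cast h4
      rw [h5, h3, ← hq] at h6
      linarith
    rw [sum_congr rfl h2, sum_const, card_range, nsmul_eq_mul]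
  unfold FF
  rw [← hq]
  simp only [sum_sub_distrib, ← sum_div, sum_const, nsmul_eq_mul, mul_one, hs, card_pir]
  field_simp
  ring

theorem FF_per (g : Fin k → ℕ → ℤ) (p : ℕ) (b v : Fin k → ℤ) (M : ℤ) (hM : (p : ℤ) ∣ M) :
    FF g p (fun i => b i + M * v i) = FF g p b := by
  classical
  unfold FF
  simp only [okp_add g p b v M hM]

theorem FF_bd (g : Fin k → ℕ → ℤ) (p : ℕ) (hp : p.Prime) (E : ℕ) (hE : k ≤ E)
    (h : ∀ t : Fin k → ℤ, ∀ [DecidablePred (fun n => ¬ okp g p t n)], ((range p).filter (fun n => ¬ okp g p t n)).card ≤ E) (t : Fin k → ℤ) :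
    |FF g p t| ≤ 2 ^ k * E / p := by
  classical
  have hp0 : (0 : ℝ) < p := by exact_mod_cast hp.pos
  obtain ⟨q1, q2, q3, q4⟩ := qpos p hp k
  obtain ⟨q, hq⟩ : ∃ q : ℝ, q = (1 - 1 / (p : ℝ)) ^ k := ⟨_, rfl⟩
  rw [← hq] at q1 q2 q3 q4
  unfold FF
  rw [← hq]
  obtain ⟨w, hw⟩ : ∃ w : ℝ, w = (((range p).filter (fun n => ¬ okp g p t n)).card : ℝ) := ⟨_, rfl⟩
  rw [← hw]
  have hwE : w ≤ E := by rw [hw]; exact_mod_cast h t
  have hw0 : 0 ≤ w := by rw [hw]; positivity
  have hkE : (k : ℝ) ≤ E := by exact_mod_cast hE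
  have e : (1 - w / p) / q - 1 = (1 / q) * (1 - w / p - q) := by field_simp
  rw [e, abs_mul, abs_of_pos (by positivity : 0 < 1 / q)]
  have h1 : |1 - w / p - q| ≤ E / p := by
    have h2 : w / p ≤ E / p := div_le_div_of_nonneg_right hwE hp0.le
    have h3 : (k : ℝ) / p ≤ E / p := div_le_div_of_nonneg_right hkE hp0.le
    have h4 : 0 ≤ w / p := by positivity
    rw [abs_le]
    constructor <;> linarith
  calc (1 / q) * |1 - w / p - q| ≤ 2 ^ k * (E / p) := mul_le_mul q4 h1 (abs_nonneg _) (by positivity)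
    _ = 2 ^ k * E / p := by ring

theorem inv_sq_sum (z Y : ℕ) (hz : 1 ≤ z) (hY : z ≤ Y) : ∑ p ∈ pri z Y, ((p : ℝ) ^ 2)⁻¹ ≤ 1 / z := by
  have h1 : ∑ p ∈ pri z Y, ((p : ℝ) ^ 2)⁻¹ ≤ ∑ p ∈ Ioc z Y, ((p : ℝ) ^ 2)⁻¹ := by
    unfold pri
    exact sum_le_sum_of_subset_of_nonneg (filter_subset _ _) (fun _ _ _ => by positivity)
  have := sum_Ioc_inv_sq_le_sub (α := ℝ) (by omega : z ≠ 0) hY
  have h5 : (0 : ℝ) ≤ (Y : ℝ)⁻¹ := by positivity
  rw [one_div]
  linarith

open Classical in
/-- the truncated constants are concentrated -/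
theorem ratio (hk : 1 ≤ k) (hd : 1 ≤ d) (P : Fin k → Polynomial ℤ) (e : ℕ) (hP : ∀ i, (P i).natDegree ≤ e) (H z Y : ℕ) (hz : 1 ≤ z) (hY : z ≤ Y) (η : ℝ)
    (hη : 0 < η) (hη1 : η ≤ 1) (M : ℝ) (hM : M = 2 ^ k * ((k * max e d : ℕ) : ℝ)) :
    (((ab k d H).filter (fun a => ¬ Exc P z Y a ∧ η < |∑ p ∈ pri z Y, (zt P p a - 1)|)).card : ℝ) ≤
      (2 * Real.exp (-(η ^ 2 * z / (4 * M ^ 2))) + k * (d + 1) * ((primorial Y : ℕ) / (2 * H + 1))) * (ab k d H).card := by
  have hz0 : (0 : ℝ) < z := by exact_mod_cast hz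
  have hE1 : 1 ≤ k * max e d := Nat.mul_pos hk (lt_max_of_lt_right hd)
  have hM1 : 1 ≤ M := by
    rw [hM]
    have h1 : (1 : ℝ) ≤ 2 ^ k := one_le_pow₀ (by norm_num)
    have h2 : (1 : ℝ) ≤ ((k * max e d : ℕ) : ℝ) := by exact_mod_cast hE1
    calc (1 : ℝ) = 1 * 1 := by ring
      _ ≤ _ := mul_le_mul h1 h2 zero_le_one (by positivity)
  have hM0 : 0 < M := by linarith
  obtain ⟨lam, hlam⟩ : ∃ lam : ℝ, lam = η * z / (2 * M ^ 2) := ⟨_, rfl⟩
  have hlam0 : 0 < lam := by rw [hlam]; positivity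
  have h1 := avg_shift (k := k) (d := d) H (Fintype.piFinset (fun _ : Fin k => range (primorial Y))) (by
    rw [Fintype.piFinset_nonempty]
    intro _
    rw [nonempty_range_iff]
    exact (primorial_pos Y).ne') cst (primorial Y) (fun t ht i l => cst_bd _ t ht i l)
    (fun a => ¬ Exc P z Y a ∧ η < |∑ p ∈ pri z Y, (zt P p a - 1)|) (fun _ => False)
    (2 * Real.exp (-(η ^ 2 * z / (4 * M ^ 2))))
    (by positivity) (by
    intro a _ _
    by_cases hE : Exc P z Y a
    · have : (Fintype.piFinset (fun _ : Fin k => range (primorial Y))).filter (fun t => ¬ Exc P z Y (a + cst t) ∧ η < |∑ p ∈ pri z Y, (zt P p (a + cst t) - 1)|) = ∅ := by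
        apply filter_false_of_mem
        intro t _ h
        rw [Exc_cst] at h
        exact h.1 hE
      rw [this, card_empty, Nat.cast_zero]
      positivity
    · obtain ⟨g, hg⟩ : ∃ g : Fin k → ℕ → ℤ, g = fun i n => value (P i) (a i) n := ⟨_, rfl⟩
      obtain ⟨P0, hP0⟩ : ∃ P0, P0 = ∏ p ∈ pri 0 z, p := ⟨_, rfl⟩
      obtain ⟨P1, hP1⟩ : ∃ P1, P1 = ∏ p ∈ pri z Y, p := ⟨_, rfl⟩
      have hP0p : 0 < P0 := by rw [hP0]; exact prod_pos fun p hp => ((mem_pri _ _ _).1 hp).1.pos
      have hWW : primorial Y = P0 * P1 := by rw [hP0, hP1, prod_pri2 z Y hY]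
      have hsub : (Fintype.piFinset (fun _ : Fin k => range (primorial Y))).filter (fun t => ¬ Exc P z Y (a + cst t) ∧ η < |∑ p ∈ pri z Y, (zt P p (a + cst t) - 1)|) ⊆
          (Fintype.piFinset (fun _ : Fin k => range (primorial Y))).filter (fun t => η < |∑ p ∈ pri z Y, FF g p (fun i => (t i : ℤ))|) := by
        intro t ht
        rw [mem_filter] at ht ⊢
        refine ⟨ht.1, ?_⟩
        have h2 := ht.2.2
        simp only [zt_FF] at h2
        rw [hg]
        exact h2
      have h3 : (((Fintype.piFinset (fun _ : Fin k => range (primorial Y))).filter (fun t => ¬ Exc P z Y (a + cst t) ∧ η < |∑ p ∈ pri z Y, (zt P p (a + cst t) - 1)|)).card : ℝ) ≤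
        (((Fintype.piFinset (fun _ : Fin k => range (primorial Y))).filter (fun t => η < |∑ p ∈ pri z Y, FF g p (fun i => (t i : ℤ))|)).card : ℝ) := by
        exact_mod_cast card_le_card hsub
      refine h3.trans ?_
      rw [hWW, card_filter, Nat.cast_sum, sum_split P0 P1 hP0p, card_pir]
      have hpr : ∀ p ∈ pri z Y, p.Prime ∧ ¬ p ∣ P0 := by
        intro p hp
        refine ⟨((mem_pri _ _ _).1 hp).1, fun h => ?_⟩
        rw [hP0, Prime.dvd_finsetProd_iff ((mem_pri _ _ _).1 hp).1.prime] at h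
        obtain ⟨p', hp', hd⟩ := h
        have := (Nat.prime_dvd_prime_iff_eq ((mem_pri _ _ _).1 hp).1 ((mem_pri _ _ _).1 hp').1).1 hd
        rw [mem_pri] at hp hp'
        omega
      have hFb : ∀ p ∈ pri z Y, ∀ t : Fin k → ℤ, |FF g p t| ≤ M / p := by
        intro p hp t
        rw [hM]
        apply FF_bd g p ((mem_pri _ _ _).1 hp).1 (k * max e d) (Nat.le_mul_of_pos_right k (lt_max_of_lt_right hd))
        intro t _
        have h1 : (range p).filter (fun n => ¬ okp g p t n) ⊆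
            (univ : Finset (Fin k)).biUnion (fun i => (range p).filter (fun n : ℕ => (p : ℤ) ∣ (fp (P i) (a i)).eval (n : ℤ) + t i)) := by
          intro n hn
          rw [mem_filter] at hn
          unfold okp at hn
          push Not at hn
          obtain ⟨i, hi⟩ := hn.2
          rw [mem_biUnion]
          refine ⟨i, mem_univ _, ?_⟩
          rw [mem_filter, fp_eval]
          rw [hg] at hi
          exact ⟨hn.1, hi⟩
        refine (card_le_card h1).trans (card_biUnion_le.trans ?_)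
        have h3 : ∀ i ∈ (univ : Finset (Fin k)), ((range p).filter (fun n : ℕ => (p : ℤ) ∣ (fp (P i) (a i)).eval (n : ℤ) + t i)).card ≤ max e d := fun i _ =>
          root_rng (fp (P i) (a i)) (max e d) (fp_deg _ _ (hP i) _) p ((mem_pri _ _ _).1 hp).1 (exc_non P z Y a hE i p hp) (t i)
        refine (sum_le_card_nsmul _ _ _ h3).trans (le_of_eq ?_)
        rw [card_univ, Fintype.card_fin, smul_eq_mul]
      have hlm : ∀ p ∈ pri z Y, lam * (M / p) ≤ 1 := by
        intro p hp
        have hpz : (z : ℝ) ≤ p := by exact_mod_cast ((mem_pri _ _ _).1 hp).2.1.le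
        calc lam * (M / p) ≤ lam * (M / z) := by gcongr
          _ = η / (2 * M) := by rw [hlam]; field_simp
          _ ≤ 1 := by rw [div_le_one (by positivity)]; linarith
      have hsq : lam ^ 2 * ∑ p ∈ pri z Y, (M / p) ^ 2 ≤ lam ^ 2 * (M ^ 2 / z) := by
        apply mul_le_mul_of_nonneg_left _ (sq_nonneg _)
        have h4 : ∑ p ∈ pri z Y, (M / (p : ℝ)) ^ 2 = M ^ 2 * ∑ p ∈ pri z Y, ((p : ℝ) ^ 2)⁻¹ := by
          rw [mul_sum]
          apply sum_congr rfl
          intro p _
          rw [div_pow, div_eq_mul_inv]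
        rw [h4]
        have := mul_le_mul_of_nonneg_left (inv_sq_sum z Y hz hY) (sq_nonneg M)
        calc M ^ 2 * ∑ p ∈ pri z Y, ((p : ℝ) ^ 2)⁻¹ ≤ M ^ 2 * (1 / z) := this
          _ = M ^ 2 / z := by ring
      have hone : ∀ u : Fin k → ℕ, ∑ v ∈ Fintype.piFinset (fun _ : Fin k => range P1),
          (((if η < |∑ p ∈ pri z Y, FF g p (fun i => ((u i + P0 * v i : ℕ) : ℤ))| then 1 else 0) : ℕ) : ℝ) ≤
          (P1 : ℝ) ^ k * (2 * Real.exp (-(η ^ 2 * z / (4 * M ^ 2)))) := by
        intro u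
        have e1 : ∀ v : Fin k → ℕ, (fun i => ((u i + P0 * v i : ℕ) : ℤ)) = fun i => (u i : ℤ) + (P0 : ℤ) * (v i : ℤ) := by
          intro v
          funext i; push_cast; ring
        simp only [e1]
        rw [← Nat.cast_sum, ← card_filter]
        have a1 := ind_exp P0 (FF g) (fun p => M / p) lam (pri z Y) hpr (fun p _ b v M' hM' => FF_per g p b v M' hM')
          (fun p hp b M' hM' => FF_zero g p ((mem_pri _ _ _).1 hp).1 b M' hM') hFb (fun p hp => by
            rw [abs_of_pos hlam0]; exact hlm p hp) (fun i => (u i : ℤ))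
        have a2 := ind_exp P0 (FF g) (fun p => M / p) (-lam) (pri z Y) hpr (fun p _ b v M' hM' => FF_per g p b v M' hM')
          (fun p hp b M' hM' => FF_zero g p ((mem_pri _ _ _).1 hp).1 b M' hM') hFb (fun p hp => by
            rw [abs_neg, abs_of_pos hlam0]; exact hlm p hp) (fun i => (u i : ℤ))
        rw [neg_sq] at a2
        rw [← hP1] at a1 a2
        have hexp := Real.exp_le_exp.2 hsq
        have hPk : (0 : ℝ) ≤ (P1 : ℝ) ^ k := by positivity
        have b1 := a1.trans (mul_le_mul_of_nonneg_left hexp hPk)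
        have b2 := a2.trans (mul_le_mul_of_nonneg_left hexp hPk)
        rw [← card_pir P1] at b1 b2 ⊢
        have h5 := markov2 _ _ lam _ η hlam0 b1 b2
        have e2 : lam ^ 2 * (M ^ 2 / z) - lam * η = -(η ^ 2 * z / (4 * M ^ 2)) := by
          rw [hlam]; field_simp; ring
        rw [e2] at h5
        exact h5
      refine (sum_le_sum fun u _ => hone u).trans ?_
      rw [sum_const, nsmul_eq_mul, card_pir]
      push_cast
      rw [mul_pow]
      apply le_of_eq
      ring)
  refine h1.trans (le_of_eq ?_)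
  have h2 : (ab k d H).filter (fun _ => False) = ∅ := filter_false_of_mem (fun _ _ h => h)
  rw [h2, card_empty, Nat.cast_zero, zero_add]

end Pool.Agent.H11A
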