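import Mathlib
import Pool.Agent.H11P.One2

/-! Primes in a progression of integers: the asymptotic formula with a power of the logarithm saved. -/

set_option autoImplicit false

namespace Pool.Agent.H11A

open Finset Filter Pool.Agent.H11P
open ArithmeticFunction (vonMangoldt)

theorem cN_wN (a M S x : ℕ) (lam η : ℝ) (hM : 1 ≤ M) (hx : a + M * S ≤ x + 1) (hx1 : 1 ≤ x) (hη0 : 0 ≤ η)
    (hη : ∀ t < S, |Real.log ((a + M * t : ℕ) : ℝ) - lam| ≤ η) :
    |(cN a M S : ℝ) * lam - wN a M S| ≤ S * η + 2 * √(x : ℝ) * Real.log x := by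
  have h1 := wN_np a M S x hM hx hx1
  have h2 : wN a M S = ∑ t ∈ (range S).filter (fun t => (a + M * t).Prime), vonMangoldt (a + M * t) +
      ∑ t ∈ (range S).filter (fun t => ¬ (a + M * t).Prime), vonMangoldt (a + M * t) := by
    unfold wN
    rw [sum_filter_add_sum_filter_not]
  have h0 : 0 ≤ ∑ t ∈ (range S).filter (fun t => ¬ (a + M * t).Prime), vonMangoldt (a + M * t) :=
    sum_nonneg fun _ _ => ArithmeticFunction.vonMangoldt_nonneg
  have h3 : |(cN a M S : ℝ) * lam - ∑ t ∈ (range S).filter (fun t => (a + M * t).Prime), vonMangoldt (a + M * t)| ≤ S * η := by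
    have e : (cN a M S : ℝ) * lam = ∑ _t ∈ (range S).filter (fun t => (a + M * t).Prime), lam := by
      rw [sum_const, nsmul_eq_mul]; rfl
    rw [e, ← sum_sub_distrib]
    refine (abs_sum_le_sum_abs _ _).trans ?_
    calc ∑ t ∈ (range S).filter (fun t => (a + M * t).Prime), |lam - vonMangoldt (a + M * t)| ≤
          ∑ _t ∈ (range S).filter (fun t => (a + M * t).Prime), η := by
            apply sum_le_sum
            intro t ht
            rw [mem_filter, mem_range] at ht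
            rw [ArithmeticFunction.vonMangoldt_apply_prime ht.2, abs_sub_comm]
            exact hη t ht.1
      _ = (((range S).filter (fun t => (a + M * t).Prime)).card : ℝ) * η := by rw [sum_const, nsmul_eq_mul]
      _ ≤ S * η := by
          apply mul_le_mul_of_nonneg_right _ hη0
          have := card_filter_le (range S) (fun t => (a + M * t).Prime)
          rw [card_range] at this
          exact_mod_cast this
  rw [abs_le] at h3 ⊢
  constructor <;> linarith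

theorem wN_main (a M S x : ℕ) (E : ℝ) (hM : 1 ≤ M) (hx : a + M * S ≤ x + 1)
    (hE : ∀ y : ℕ, y ≤ x → |lamAP y M a - y / (Nat.totient M : ℝ)| ≤ E) :
    |wN a M S - (M : ℝ) * S / Nat.totient M| ≤ 1 + 2 * E := by
  have hφ0 : 1 ≤ Nat.totient M := Nat.totient_pos.2 hM
  have hφ : (1 : ℝ) ≤ Nat.totient M := by exact_mod_cast hφ0
  rcases Nat.eq_zero_or_pos S with hS | hS
  · subst hS
    have : 0 ≤ E := (abs_nonneg _).trans (hE 0 (Nat.zero_le _))
    unfold wN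
    simp
    linarith
  rw [wN_eq a M S hM]
  have h1 := hE (a + M * S - 1) (by omega)
  have h2 := hE (a - 1) (by
    have : 1 ≤ M * S := Nat.mul_pos hM hS
    omega)
  have h3 : |((a + M * S - 1 : ℕ) : ℝ) / (Nat.totient M : ℝ) - ((a - 1 : ℕ) : ℝ) / (Nat.totient M : ℝ) - (M : ℝ) * S / Nat.totient M| ≤ 1 := by
    rw [← sub_div, ← sub_div, abs_div, abs_of_pos (by linarith : (0 : ℝ) < Nat.totient M), div_le_one (by linarith)]
    have hMS : 1 ≤ M * S := Nat.mul_pos hM hS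
    rcases Nat.eq_zero_or_pos a with h | h
    · subst h
      have e : ((0 + M * S - 1 : ℕ) : ℝ) = (M : ℝ) * S - 1 := by
        rw [zero_add, Nat.cast_sub hMS]; push_cast; ring
      rw [e]
      have : (M : ℝ) * S - 1 - ((0 - 1 : ℕ) : ℝ) - M * S = -1 := by simp
      rw [this, abs_neg, abs_one]
      exact hφ
    · have e : ((a + M * S - 1 : ℕ) : ℝ) = (a : ℝ) + (M : ℝ) * S - 1 := by
        rw [Nat.cast_sub (by omega)]; push_cast; ring
      have e2 : ((a - 1 : ℕ) : ℝ) = (a : ℝ) - 1 := by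
        rw [Nat.cast_sub h]; simp
      rw [e, e2]
      have : (a : ℝ) + M * S - 1 - (a - 1) - M * S = 0 := by ring
      rw [this]
      simp
  rw [abs_le] at h1 h2 h3 ⊢
  constructor <;> linarith

theorem cN_pow (a M S x : ℕ) (E lam η : ℝ) (hM : 1 ≤ M) (hx : a + M * S ≤ x + 1) (hx1 : 1 ≤ x) (hη0 : 0 ≤ η)
    (hE : ∀ y : ℕ, y ≤ x → |lamAP y M a - y / (Nat.totient M : ℝ)| ≤ E)
    (hη : ∀ t < S, |Real.log ((a + M * t : ℕ) : ℝ) - lam| ≤ η) :
    |(cN a M S : ℝ) * lam - (M : ℝ) * S / Nat.totient M| ≤ S * η + 2 * √(x : ℝ) * Real.log x + 1 + 2 * E := by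
  have h1 := cN_wN a M S x lam η hM hx hx1 hη0 hη
  have h2 := wN_main a M S x E hM hx hE
  rw [abs_le] at h1 h2 ⊢
  constructor <;> linarith

theorem cZ_pow (A : ℤ) (M S x : ℕ) (E lam η : ℝ) (hM : 1 ≤ M) (hS : 1 ≤ S) (hx : A.natAbs + M * S ≤ x) (hx1 : 1 ≤ x)
    (hAM : M * S ≤ A.natAbs) (hη0 : 0 ≤ η) (hA : IsCoprime A (M : ℤ))
    (hE : ∀ a : ℕ, a.Coprime M → ∀ y : ℕ, y ≤ x → |lamAP y M a - y / (Nat.totient M : ℝ)| ≤ E)
    (hη : ∀ t : ℕ, t < S → |Real.log |((A + M * t : ℤ) : ℝ)| - lam| ≤ η) :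
    |(cZ A M S : ℝ) * lam - (M : ℝ) * S / Nat.totient M| ≤ S * η + 2 * √(x : ℝ) * Real.log x + 1 + 2 * E := by
  rcases le_or_gt 0 A with h0 | h0
  · rw [cZ_pos A M S h0]
    have hc := cop_toNat A M hA h0
    refine cN_pow A.toNat M S x E lam η hM (by omega) hx1 hη0 (hE _ hc) (fun t ht => ?_)
    have h1 := hη t ht
    have e : |((A + M * t : ℤ) : ℝ)| = ((A.toNat + M * t : ℕ) : ℝ) := by
      have h2 : ((A.toNat : ℕ) : ℤ) = A := Int.toNat_of_nonneg h0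
      have h3 : ((A.toNat : ℕ) : ℝ) = (A : ℝ) := by rw [← Int.cast_natCast, h2]
      have h4 : (0 : ℝ) ≤ A := by exact_mod_cast h0
      push_cast
      rw [h3, abs_of_nonneg (by positivity)]
    rwa [e] at h1
  · have hneg : ∀ t : ℕ, t < S → A + M * t < 0 := by
      intro t ht
      have h1 : M * t + M ≤ M * S := by
        calc M * t + M = M * (t + 1) := by ring
          _ ≤ M * S := Nat.mul_le_mul_left _ ht
      have h2 : ((M * t + M : ℕ) : ℤ) ≤ ((A.natAbs : ℕ) : ℤ) := by exact_mod_cast h1.trans hAM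
      push_cast at h2
      rw [abs_of_neg h0] at h2
      have : (1 : ℤ) ≤ M := by exact_mod_cast hM
      linarith
    rw [cZ_neg A M S hneg hS]
    have h1 := hneg (S - 1) (by omega)
    have hco : IsCoprime (-(A + M * (S - 1 : ℕ))) (M : ℤ) := (IsCoprime.add_mul_left_left hA _).neg_left
    have hc := cop_toNat _ M hco (by linarith)
    refine cN_pow _ M S x E lam η hM ?_ hx1 hη0 (hE _ hc) (fun t ht => ?_)
    · have h3 : (0 : ℤ) ≤ (M : ℤ) * ((S - 1 : ℕ) : ℤ) := by positivity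
      have h4 : (-(A + M * (S - 1 : ℕ))).toNat ≤ A.natAbs := by
        zify
        rw [Int.toNat_of_nonneg (by linarith)]
        have := neg_le_abs A
        linarith
      omega
    · have h2 := hη (S - 1 - t) (by omega)
      have h5 := hneg (S - 1 - t) (by omega)
      have e : |((A + M * ((S - 1 - t : ℕ) : ℤ) : ℤ) : ℝ)| = (((-(A + M * (S - 1 : ℕ))).toNat + M * t : ℕ) : ℝ) := by
        have h3 : (((-(A + M * (S - 1 : ℕ))).toNat : ℕ) : ℤ) = -(A + M * (S - 1 : ℕ)) := Int.toNat_of_nonneg (by linarith)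
        have h4 : (((-(A + M * (S - 1 : ℕ))).toNat + M * t : ℕ) : ℤ) = -(A + M * ((S - 1 - t : ℕ) : ℤ)) := by
          rw [Nat.cast_add, Nat.cast_mul, h3, Nat.cast_sub (by omega : t ≤ S - 1)]
          ring
        have h6 : ((((-(A + M * (S - 1 : ℕ))).toNat + M * t : ℕ) : ℤ) : ℝ) = ((-(A + M * ((S - 1 - t : ℕ) : ℤ)) : ℤ) : ℝ) := by
          rw [h4]
        rw [← abs_neg, ← Int.cast_neg, ← h6, abs_of_nonneg (by positivity)]
        norm_cast
      rwa [e] at h2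

theorem log_close (u v : ℝ) (hu : 0 < u) (e : ℝ) (he : e ≤ 1 / 2) (h : |v - u| ≤ e * u) : |Real.log v - Real.log u| ≤ 2 * e := by
  have he0 : 0 ≤ e := by
    by_contra hcon
    push Not at hcon
    have h1 := abs_nonneg (v - u)
    have h2 : e * u < 0 := mul_neg_of_neg_of_pos hcon hu
    linarith
  rw [abs_le] at h
  have hv : 0 < v := by
    have : e * u ≤ 1 / 2 * u := by gcongr
    linarith [h.1]
  have h1 : Real.log v - Real.log u = Real.log (v / u) := (Real.log_div hv.ne' hu.ne').symm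
  rw [h1, abs_le]
  have h2 : v / u ≤ 1 + e := by rw [div_le_iff₀ hu]; linarith [h.2]
  have h3 : 1 - e ≤ v / u := by rw [le_div_iff₀ hu]; linarith [h.1]
  constructor
  · have h4 := Real.one_sub_inv_le_log_of_pos (div_pos hv hu)
    have h5 : (v / u)⁻¹ ≤ 1 + 2 * e := by
      have h6 : (v / u)⁻¹ ≤ (1 - e)⁻¹ := by
        apply inv_anti₀ (by linarith) h3
      have h7 : (1 - e)⁻¹ ≤ 1 + 2 * e := by
        rw [inv_le_iff_one_le_mul₀ (by linarith)]
        nlinarith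
      linarith
    linarith
  · have h4 := Real.log_le_sub_one_of_pos (div_pos hv hu)
    linarith

theorem one_pow (hSW : SWU) (K E : ℕ) : ∀ᶠ H : ℕ in atTop, ∀ (A : ℤ) (M S : ℕ) (lam : ℝ), 1 ≤ M →
    (M : ℝ) ≤ Real.log H ^ K → |(A : ℝ)| ≤ H * Real.log H ^ K → (H : ℝ) ≤ S * Real.log H ^ K → S ≤ H →
    (M : ℝ) * S * Real.log H ^ (E + 1) ≤ |(A : ℝ)| → |Real.log |(A : ℝ)| - lam| ≤ 1 / Real.log H ^ (E + 1) →
    IsCoprime A (M : ℤ) →
    |(cZ A M S : ℝ) * lam / S - (M : ℝ) / Nat.totient M| ≤ 1 / Real.log H ^ E := by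
  obtain ⟨x0, hsw⟩ := (hSW (2 * K + E + 4) K).exists_forall_of_atTop
  filter_upwards [eventually_ge_atTop (max x0 2), ev_log 7, ev_pow (K + 1) 1 (1 / 4) (by norm_num),
    ev_pow (K + E + 3) 8 (1 / 4) (by norm_num)] with H g1 g2 g4 g5
  intro A M S lam hM hMK hA hHS hSH hMS hlam hco
  obtain ⟨ℓ, hℓ⟩ : ∃ ℓ : ℝ, ℓ = Real.log H := ⟨_, rfl⟩
  rw [← hℓ] at g2 g4 g5 hMK hA hHS hMS hlam ⊢
  have hℓ0 : 0 < ℓ := by linarith
  have hH2 : 2 ≤ H := (le_max_right _ _).trans g1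
  have hH : (2 : ℝ) ≤ H := by exact_mod_cast hH2
  have hH0 : (0 : ℝ) < H := by linarith
  have hM0 : (1 : ℝ) ≤ M := by exact_mod_cast hM
  have hℓK : 1 ≤ ℓ ^ K := one_le_pow₀ (by linarith)
  have hℓK0 : 0 < ℓ ^ K := by positivity
  have hS0 : (0 : ℝ) < S := by
    by_contra hcon
    push Not at hcon
    have : (S : ℝ) * ℓ ^ K ≤ 0 := mul_nonpos_of_nonpos_of_nonneg hcon hℓK0.le
    linarith
  have hS1 : 1 ≤ S := by exact_mod_cast hS0
  have hSHr : (S : ℝ) ≤ H := by exact_mod_cast hSH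
  have hE1 : 1 ≤ ℓ ^ (E + 1) := one_le_pow₀ (by linarith)
  have hE10 : 0 < ℓ ^ (E + 1) := by positivity
  -- x
  obtain ⟨x, hx⟩ : ∃ x : ℕ, x = ⌊(H : ℝ) * ℓ ^ (K + 1)⌋₊ := ⟨_, rfl⟩
  have hxle : (x : ℝ) ≤ H * ℓ ^ (K + 1) := by rw [hx]; exact Nat.floor_le (by positivity)
  have hAabs : ((A.natAbs : ℕ) : ℝ) = |(A : ℝ)| := by
    rw [Nat.cast_natAbs]; simp
  have hsum : A.natAbs + M * S ≤ x := by
    rw [hx]
    apply Nat.le_floor
    push_cast
    have h2 : (M : ℝ) * S ≤ ℓ ^ K * H := by gcongr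
    have h3 : ((A.natAbs : ℕ) : ℝ) ≤ H * ℓ ^ K := by rw [hAabs]; exact hA
    calc ((A.natAbs : ℕ) : ℝ) + M * S ≤ H * ℓ ^ K + ℓ ^ K * H := by linarith
      _ = H * ℓ ^ K * 2 := by ring
      _ ≤ H * ℓ ^ K * ℓ := by gcongr; linarith
      _ = H * ℓ ^ (K + 1) := by ring
  have hHx : H ≤ x := by
    rw [hx]
    apply Nat.le_floor
    have : 1 ≤ ℓ ^ (K + 1) := one_le_pow₀ (by linarith)
    exact le_mul_of_one_le_right hH0.le this
  have hHxr : (H : ℝ) ≤ x := by exact_mod_cast hHx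
  have hx2 : 2 ≤ x := by omega
  have hx0 : (0 : ℝ) < x := by linarith
  have hlx : ℓ ≤ Real.log x := by rw [hℓ]; exact Real.log_le_log hH0 hHxr
  have hlx0 : 0 < Real.log (x : ℝ) := by linarith
  have hxη : (x : ℝ) ≤ (H : ℝ) ^ (5 / 4 : ℝ) := by
    have e : (H : ℝ) ^ (5 / 4 : ℝ) = H * (H : ℝ) ^ (1 / 4 : ℝ) := by
      rw [show (5 / 4 : ℝ) = 1 + 1 / 4 by norm_num, Real.rpow_add hH0, Real.rpow_one]
    rw [e]
    refine hxle.trans ?_
    apply mul_le_mul_of_nonneg_left _ hH0.le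
    linarith
  have hlx2 : Real.log x ≤ 2 * ℓ := by
    have := Real.log_le_log hx0 hxη
    rw [Real.log_rpow hH0, ← hℓ] at this
    linarith
  -- the error in the theorem of Siegel and Walfisz
  obtain ⟨Er, hEr⟩ : ∃ Er : ℝ, Er = x / Real.log x ^ (2 * K + E + 4) := ⟨_, rfl⟩
  have hES : Er ≤ S / ℓ ^ (E + 2) := by
    rw [hEr, div_le_div_iff₀ (by positivity) (by positivity)]
    calc (x : ℝ) * ℓ ^ (E + 2) ≤ (H * ℓ ^ (K + 1)) * ℓ ^ (E + 2) := by gcongr
      _ ≤ (S * ℓ ^ K * ℓ ^ (K + 1)) * ℓ ^ (E + 2) := by gcongr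
      _ = S * ℓ ^ (2 * K + E + 3) := by ring
      _ ≤ S * ℓ ^ (2 * K + E + 4) := by
          have : ℓ ^ (2 * K + E + 3) ≤ ℓ ^ (2 * K + E + 4) := pow_le_pow_right₀ (by linarith) (by omega)
          gcongr
      _ ≤ S * Real.log x ^ (2 * K + E + 4) := by gcongr
  have hEall : ∀ a : ℕ, a.Coprime M → ∀ y : ℕ, y ≤ x → |lamAP y M a - y / (Nat.totient M : ℝ)| ≤ Er := by
    intro a ha y hy
    rw [hEr]
    refine hsw x (((le_max_left _ _).trans g1).trans hHx) y hy M hM (hMK.trans ?_) a ha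
    gcongr
  -- the size of the numbers
  have hA0 : 0 < |(A : ℝ)| := by
    have : (0 : ℝ) < M * S * ℓ ^ (E + 1) := by positivity
    linarith
  have hMSA : (M : ℝ) * S ≤ |(A : ℝ)| / ℓ ^ (E + 1) := by
    rw [le_div_iff₀ hE10]; exact hMS
  have hAM : M * S ≤ A.natAbs := by
    have h1 : ((M * S : ℕ) : ℝ) ≤ ((A.natAbs : ℕ) : ℝ) := by
      rw [hAabs]
      push_cast
      refine hMSA.trans ?_
      exact div_le_self hA0.le hE1
    exact_mod_cast h1
  have hinv : 1 / ℓ ^ (E + 1) ≤ 1 / 2 := by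
    apply one_div_le_one_div_of_le (by norm_num)
    calc (2 : ℝ) ≤ ℓ := by linarith
      _ = ℓ ^ 1 := (pow_one _).symm
      _ ≤ ℓ ^ (E + 1) := pow_le_pow_right₀ (by linarith) (by omega)
  have hη : ∀ t : ℕ, t < S → |Real.log |((A + M * t : ℤ) : ℝ)| - lam| ≤ 3 / ℓ ^ (E + 1) := by
    intro t ht
    have h1 : abs (abs ((A + M * t : ℤ) : ℝ) - abs (A : ℝ)) ≤ 1 / ℓ ^ (E + 1) * |(A : ℝ)| := by
      refine (abs_abs_sub_abs_le _ _).trans ?_
      push_cast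
      have e : (A : ℝ) + M * t - A = M * t := by ring
      rw [e, abs_of_nonneg (by positivity)]
      have h2 : (M : ℝ) * t ≤ M * S := by
        have : (t : ℝ) ≤ S := by exact_mod_cast ht.le
        gcongr
      calc (M : ℝ) * t ≤ M * S := h2
        _ ≤ |(A : ℝ)| / ℓ ^ (E + 1) := hMSA
        _ = 1 / ℓ ^ (E + 1) * |(A : ℝ)| := by ring
    have h3 := log_close |(A : ℝ)| |((A + M * t : ℤ) : ℝ)| hA0 (1 / ℓ ^ (E + 1)) hinv h1
    have h4 := abs_add_le (Real.log |((A + M * t : ℤ) : ℝ)| - Real.log |(A : ℝ)|) (Real.log |(A : ℝ)| - lam)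
    have e : Real.log |((A + M * t : ℤ) : ℝ)| - Real.log |(A : ℝ)| + (Real.log |(A : ℝ)| - lam) = Real.log |((A + M * t : ℤ) : ℝ)| - lam := by ring
    rw [e] at h4
    have e2 : 3 / ℓ ^ (E + 1) = 2 * (1 / ℓ ^ (E + 1)) + 1 / ℓ ^ (E + 1) := by ring
    rw [e2]
    linarith
  have key := cZ_pow A M S x Er lam (3 / ℓ ^ (E + 1)) hM hS1 hsum (by omega) hAM (by positivity) hco hEall hη
  -- the square root
  have hsq : 2 * √(x : ℝ) * Real.log x ≤ S / ℓ ^ (E + 1) := by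
    have h1 : √(x : ℝ) ≤ (H : ℝ) ^ (3 / 4 : ℝ) := by
      rw [Real.sqrt_eq_rpow]
      calc (x : ℝ) ^ (1 / 2 : ℝ) ≤ ((H : ℝ) ^ (5 / 4 : ℝ)) ^ (1 / 2 : ℝ) := by
            apply Real.rpow_le_rpow hx0.le hxη (by norm_num)
        _ = (H : ℝ) ^ ((5 / 4) * (1 / 2) : ℝ) := by rw [← Real.rpow_mul hH0.le]
        _ ≤ (H : ℝ) ^ (3 / 4 : ℝ) := by
            apply Real.rpow_le_rpow_of_exponent_le (by linarith)
            norm_num
    rw [le_div_iff₀ hE10]
    have h3 : (2 * √(x : ℝ) * Real.log x * ℓ ^ (E + 1)) * ℓ ^ K ≤ S * ℓ ^ K := by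
      calc (2 * √(x : ℝ) * Real.log x * ℓ ^ (E + 1)) * ℓ ^ K ≤ (2 * (H : ℝ) ^ (3 / 4 : ℝ) * (2 * ℓ) * ℓ ^ (E + 1)) * ℓ ^ K := by gcongr
        _ = (H : ℝ) ^ (3 / 4 : ℝ) * (4 * ℓ ^ (K + E + 2)) := by ring
        _ ≤ (H : ℝ) ^ (3 / 4 : ℝ) * (8 * ℓ ^ (K + E + 3)) := by
            have : ℓ ^ (K + E + 2) ≤ ℓ ^ (K + E + 3) := pow_le_pow_right₀ (by linarith) (by omega)
            have h0 : 0 ≤ ℓ ^ (K + E + 2) := by positivity
            have h4 : 4 * ℓ ^ (K + E + 2) ≤ 8 * ℓ ^ (K + E + 3) := by linarith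
            gcongr
        _ ≤ (H : ℝ) ^ (3 / 4 : ℝ) * (H : ℝ) ^ (1 / 4 : ℝ) := by gcongr
        _ = H := by rw [← Real.rpow_add hH0]; norm_num
        _ ≤ S * ℓ ^ K := hHS
    exact le_of_mul_le_mul_right h3 hℓK0
  have hone : 1 ≤ S / ℓ ^ (E + 1) := by
    refine le_trans ?_ hsq
    have h1 : 1 ≤ √(x : ℝ) := by
      rw [Real.one_le_sqrt]; linarith
    have h2 : 1 ≤ Real.log (x : ℝ) := by linarith
    calc (1 : ℝ) ≤ 2 * 1 * 1 := by norm_num
      _ ≤ 2 * √(x : ℝ) * Real.log x := by gcongr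
  have hEr2 : Er ≤ 1 / 7 * (S / ℓ ^ (E + 1)) := by
    refine hES.trans ?_
    rw [show E + 2 = (E + 1) + 1 by ring, pow_succ, ← div_div, mul_comm (1 / 7 : ℝ), mul_one_div]
    apply div_le_div_of_nonneg_left (by positivity) (by norm_num) g2
  have e1 : (cZ A M S : ℝ) * lam / S - (M : ℝ) / Nat.totient M = ((cZ A M S : ℝ) * lam - (M : ℝ) * S / Nat.totient M) / S := by
    field_simp
  rw [e1, abs_div, abs_of_pos hS0, div_le_iff₀ hS0]
  refine key.trans ?_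
  have e2 : (S : ℝ) * (3 / ℓ ^ (E + 1)) = 3 * (S / ℓ ^ (E + 1)) := by ring
  have e3 : 1 / ℓ ^ E * (S : ℝ) = ℓ * (S / ℓ ^ (E + 1)) := by
    rw [pow_succ]
    field_simp
  rw [e2, e3]
  have h5 : 0 ≤ (S : ℝ) / ℓ ^ (E + 1) := by positivity
  have h6 : 7 * ((S : ℝ) / ℓ ^ (E + 1)) ≤ ℓ * (S / ℓ ^ (E + 1)) := by gcongr
  linarith

end Pool.Agent.H11A
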