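import Mathlib
import Pool.Agent.H11A.E1
import Pool.Agent.H11P.Crt

/-! Correlations of the prime values of one random polynomial: comparison with a sieve model. -/

set_option autoImplicit false

namespace Pool.Agent.H11A

open Finset Pool.Agent.H11P

variable {d : ℕ}

theorem avg_abs (B : Finset (Fin (d + 1) → ℤ)) (hB : B.Nonempty) (f g : (Fin (d + 1) → ℤ) → ℝ) (η : ℝ)
    (h : ∀ b ∈ B, |f b - g b| ≤ η) : |avg B f - avg B g| ≤ η := by
  have h1 : avg B f ≤ avg B (fun b => g b + η) := avg_mono B _ _ (fun b hb => by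
    have := (abs_le.1 (h b hb)).2; linarith)
  have h2 : avg B g ≤ avg B (fun b => f b + η) := avg_mono B _ _ (fun b hb => by
    have := (abs_le.1 (h b hb)).1; linarith)
  rw [avg_add, avg_const B hB] at h1 h2
  rw [abs_le]
  constructor <;> linarith

/-- averaging over translations -/
theorem gstep (B : Finset (Fin (d + 1) → ℤ)) (hB : B.Nonempty) (V : ℕ) (δ : ℝ) (hNI : NI B 1 V δ) (T : Finset ℕ)
    (Y M S : ℕ) (hS : 1 ≤ S) (hY : ∀ m ∈ T, m ≤ Y) (hV : M * S * (1 + Y) ^ T.card ≤ V) (φ G ρ : (Fin (d + 1) → ℤ) → ℝ)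
    (hφ : ∀ b, 0 ≤ φ b ∧ φ b ≤ 1) (hG : ∀ b, 0 ≤ G b ∧ G b ≤ 1) (hGt : ∀ b, ∀ t : ℕ, G (b + tr M T t) = G b) (η : ℝ)
    (hρ : ∀ b ∈ B, |(∑ t ∈ range S, φ (b + tr M T t)) / S - ρ b| ≤ η) :
    |avg B (fun b => φ b * G b) - avg B (fun b => ρ b * G b)| ≤ δ + η := by
  have key := ni_avg_le B 1 V δ hNI hB (fun b => φ b * G b) (fun b =>
    ⟨mul_nonneg (hφ b).1 (hG b).1, mul_le_one₀ (hφ b).2 (hG b).1 (hG b).2⟩) (fun t => tr M T t) S hS
    (fun t ht l => tr_bd M 1 Y T hY (one_dvd _) t S V ht hV l)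
  have h2 : |avg B (fun b => (∑ t ∈ range S, φ (b + tr M T t) * G (b + tr M T t)) / S) - avg B (fun b => ρ b * G b)| ≤ η := by
    apply avg_abs B hB
    intro b hb
    simp only [hGt, ← sum_mul]
    have e : (∑ t ∈ range S, φ (b + tr M T t)) * G b / S - ρ b * G b = ((∑ t ∈ range S, φ (b + tr M T t)) / S - ρ b) * G b := by ring
    rw [e, abs_mul, abs_of_nonneg (hG b).1]
    calc |(∑ t ∈ range S, φ (b + tr M T t)) / S - ρ b| * G b ≤ η * 1 :=
          mul_le_mul (hρ b hb) (hG b).2 (hG b).1 ((abs_nonneg _).trans (hρ b hb))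
      _ = η := mul_one η
  have h3 := abs_add_le (avg B (fun b => φ b * G b) - avg B (fun b => (∑ t ∈ range S, φ (b + tr M T t) * G (b + tr M T t)) / S))
    (avg B (fun b => (∑ t ∈ range S, φ (b + tr M T t) * G (b + tr M T t)) / S) - avg B (fun b => ρ b * G b))
  have e : avg B (fun b => φ b * G b) - avg B (fun b => (∑ t ∈ range S, φ (b + tr M T t) * G (b + tr M T t)) / S) +
    (avg B (fun b => (∑ t ∈ range S, φ (b + tr M T t) * G (b + tr M T t)) / S) - avg B (fun b => ρ b * G b)) =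
    avg B (fun b => φ b * G b) - avg B (fun b => ρ b * G b) := by ring
  rw [e] at h3
  linarith

/-- the number of terms of a progression without prime factors in a set -/
theorem cnt_ind (s : Finset ℕ) (hs : ∀ p ∈ s, p.Prime) (A D : ℤ) (S : ℕ) (hS : 1 ≤ S)
    (h : ∀ p ∈ s, (p : ℤ) ∣ D → ¬ (p : ℤ) ∣ A) :
    |(((range S).filter (fun t : ℕ => ∀ p ∈ s, ¬ (p : ℤ) ∣ A + t * D)).card : ℝ) / S -
      ∏ p ∈ s.filter (fun p : ℕ => ¬ (p : ℤ) ∣ D), (1 - 1 / (p : ℝ))| ≤ 2 * (∏ p ∈ s, (p : ℝ)) / S := by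
  classical
  have hS0 : (0 : ℝ) < S := by exact_mod_cast hS
  obtain ⟨s', hs'⟩ : ∃ s', s' = s.filter (fun p : ℕ => ¬ (p : ℤ) ∣ D) := ⟨_, rfl⟩
  have hsp : ∀ p ∈ s', p.Prime ∧ ¬ (p : ℤ) ∣ D := by
    intro p hp
    rw [hs', mem_filter] at hp
    exact ⟨hs p hp.1, hp.2⟩
  rw [← hs']
  have e1 : (range S).filter (fun t : ℕ => ∀ p ∈ s, ¬ (p : ℤ) ∣ A + t * D) =
      (range S).filter (fun t : ℕ => ∀ p ∈ s', ¬ (p : ℤ) ∣ A + t * D) := by
    apply filter_congr
    intro t _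
    constructor
    · intro h1 p hp
      rw [hs', mem_filter] at hp
      exact h1 p hp.1
    · intro h1 p hp
      by_cases hd : (p : ℤ) ∣ D
      · intro h2
        exact h p hp hd ((dvd_add_left (hd.mul_left _)).1 h2)
      · exact h1 p (by rw [hs', mem_filter]; exact ⟨hp, hd⟩)
  rw [e1]
  obtain ⟨P, hP⟩ : ∃ P : ℕ, P = ∏ p ∈ s', p := ⟨_, rfl⟩
  have hP1 : 1 ≤ P := by
    rw [hP]
    apply Nat.one_le_iff_ne_zero.2
    apply prod_ne_zero_iff.2
    intro p hp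
    exact (hsp p hp).1.ne_zero
  have hper : ∀ p ∈ s', ∀ n : ℕ, (¬ (p : ℤ) ∣ A + ((n % p : ℕ) : ℤ) * D) ↔ ¬ (p : ℤ) ∣ A + (n : ℤ) * D := by
    intro p hp n
    rw [not_iff_not]
    have h1 : (p : ℤ) ∣ (n : ℤ) * D - ((n % p : ℕ) : ℤ) * D := by
      rw [← sub_mul]
      apply Dvd.dvd.mul_right
      have h2 : (n : ℤ) - ((n % p : ℕ) : ℤ) = p * ((n / p : ℕ) : ℤ) := by
        have := Nat.div_add_mod n p
        have h3 : (n : ℤ) = p * ((n / p : ℕ) : ℤ) + ((n % p : ℕ) : ℤ) := by exact_mod_cast this.symm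
        linarith
      rw [h2]
      exact Dvd.intro _ rfl
    have e2 : A + (n : ℤ) * D = (A + ((n % p : ℕ) : ℤ) * D) + ((n : ℤ) * D - ((n % p : ℕ) : ℤ) * D) := by ring
    rw [e2]
    exact (dvd_add_left h1).symm
  have hcard := crt_prod s' (fun p hp => (hsp p hp).1) (fun p n => ¬ (p : ℤ) ∣ A + (n : ℤ) * D) hper
  rw [← hP] at hcard
  have hloc : ∀ p ∈ s', (((range p).filter (fun n : ℕ => ¬ (p : ℤ) ∣ A + (n : ℤ) * D)).card : ℝ) / p = 1 - 1 / (p : ℝ) := by
    intro p hp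
    obtain ⟨hpp, hpD⟩ := hsp p hp
    have hp0 : (0 : ℝ) < p := by exact_mod_cast hpp.pos
    have hone : ((range p).filter (fun n : ℕ => (p : ℤ) ∣ A + (n : ℤ) * D)).card = 1 := by
      have hprime : Prime (p : ℤ) := Nat.prime_iff_prime_int.1 hpp
      have hco : IsCoprime D (p : ℤ) := ((hprime.coprime_iff_not_dvd).2 hpD).symm
      obtain ⟨x, y, hxy⟩ := hco
      rw [card_eq_one]
      have hpz : (0 : ℤ) < p := by exact_mod_cast hpp.pos
      refine ⟨((-A * x) % p).toNat, ?_⟩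
      have hnn := Int.emod_nonneg (-A * x) hpz.ne'
      have hlt := Int.emod_lt_of_pos (-A * x) hpz
      ext t
      rw [mem_filter, mem_range, mem_singleton]
      have hsol : (p : ℤ) ∣ A + (((-A * x) % p : ℤ)) * D := by
        have h1 : (p : ℤ) ∣ (-A * x) - ((-A * x) % p) := Int.dvd_self_sub_emod
        have h2 : A + ((-A * x) % p) * D = A * (1 - x * D) - ((-A * x) - ((-A * x) % p)) * D := by ring
        rw [h2]
        apply dvd_sub _ (h1.mul_right _)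
        have h3 : 1 - x * D = y * p := by linarith
        rw [h3]
        exact Dvd.intro_left (A * y) (by ring)
      constructor
      · rintro ⟨h1, h2⟩
        have h3 : (p : ℤ) ∣ ((t : ℤ) - (-A * x) % p) * D := by
          have := dvd_sub h2 hsol
          have e : A + (t : ℤ) * D - (A + (-A * x) % p * D) = ((t : ℤ) - (-A * x) % p) * D := by ring
          rwa [e] at this
        rcases hprime.dvd_or_dvd h3 with h4 | h4
        · have h5 : |(t : ℤ) - (-A * x) % p| < p := by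
            rw [abs_lt]
            constructor <;> omega
          have h6 := Int.eq_zero_of_abs_lt_dvd h4 h5
          omega
        · exact absurd h4 hpD
      · intro h1
        have h2 : (t : ℤ) = (-A * x) % p := by rw [h1, Int.toNat_of_nonneg hnn]
        refine ⟨by omega, ?_⟩
        rw [h2]
        exact hsol
    have h4 := Finset.card_filter_add_card_filter_not (s := range p) (p := fun n : ℕ => (p : ℤ) ∣ A + (n : ℤ) * D)
    rw [hone, card_range] at h4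
    have h5 : (1 : ℝ) + (((range p).filter (fun n : ℕ => ¬ (p : ℤ) ∣ A + (n : ℤ) * D)).card : ℝ) = p := by exact_mod_cast h4
    field_simp
    linarith
  have hprod : (((range P).filter (fun n : ℕ => ∀ p ∈ s', ¬ (p : ℤ) ∣ A + (n : ℤ) * D)).card : ℝ) / P =
      ∏ p ∈ s', (1 - 1 / (p : ℝ)) := by
    rw [hcard, hP]
    push_cast
    rw [← prod_div_distrib]
    exact prod_congr rfl hloc
  have hpc := periodic_count P hP1 (fun n : ℕ => ∀ p ∈ s', ¬ (p : ℤ) ∣ A + (n : ℤ) * D) (fun n => by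
    apply forall₂_congr
    intro p hp
    have hpP : p ∣ P := by rw [hP]; exact dvd_prod_of_mem _ hp
    have h1 := hper p hp (n % P)
    rw [Nat.mod_mod_of_dvd _ hpP] at h1
    exact h1.symm.trans (hper p hp n)) 0 S
  rw [hprod, zero_add] at hpc
  have hle1 : ((range S).filter (fun t : ℕ => ∀ p ∈ s', ¬ (p : ℤ) ∣ A + t * D)).card ≤
      ((Ioc 0 S).filter (fun t : ℕ => ∀ p ∈ s', ¬ (p : ℤ) ∣ A + t * D)).card + 1 := by
    have : (range S).filter (fun t : ℕ => ∀ p ∈ s', ¬ (p : ℤ) ∣ A + t * D) ⊆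
        insert 0 ((Ioc 0 S).filter (fun t : ℕ => ∀ p ∈ s', ¬ (p : ℤ) ∣ A + t * D)) := by
      intro t ht
      rw [mem_filter, mem_range] at ht
      rw [mem_insert, mem_filter, mem_Ioc]
      rcases Nat.eq_zero_or_pos t with h0 | h0
      · exact Or.inl h0
      · exact Or.inr ⟨⟨h0, ht.1.le⟩, ht.2⟩
    exact (card_le_card this).trans (card_insert_le _ _)
  have hle2 : ((Ioc 0 S).filter (fun t : ℕ => ∀ p ∈ s', ¬ (p : ℤ) ∣ A + t * D)).card ≤
      ((range S).filter (fun t : ℕ => ∀ p ∈ s', ¬ (p : ℤ) ∣ A + t * D)).card + 1 := by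
    have : (Ioc 0 S).filter (fun t : ℕ => ∀ p ∈ s', ¬ (p : ℤ) ∣ A + t * D) ⊆
        insert S ((range S).filter (fun t : ℕ => ∀ p ∈ s', ¬ (p : ℤ) ∣ A + t * D)) := by
      intro t ht
      rw [mem_filter, mem_Ioc] at ht
      rw [mem_insert, mem_filter, mem_range]
      rcases lt_or_ge t S with h0 | h0
      · exact Or.inr ⟨h0, ht.2⟩
      · exact Or.inl (by omega)
    exact (card_le_card this).trans (card_insert_le _ _)
  have hl1 : (((range S).filter (fun t : ℕ => ∀ p ∈ s', ¬ (p : ℤ) ∣ A + t * D)).card : ℝ) ≤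
      (((Ioc 0 S).filter (fun t : ℕ => ∀ p ∈ s', ¬ (p : ℤ) ∣ A + t * D)).card : ℝ) + 1 := by exact_mod_cast hle1
  have hl2 : (((Ioc 0 S).filter (fun t : ℕ => ∀ p ∈ s', ¬ (p : ℤ) ∣ A + t * D)).card : ℝ) ≤
      (((range S).filter (fun t : ℕ => ∀ p ∈ s', ¬ (p : ℤ) ∣ A + t * D)).card : ℝ) + 1 := by exact_mod_cast hle2
  have hPs : (P : ℝ) ≤ ∏ p ∈ s, (p : ℝ) := by
    rw [hP]
    push_cast
    rw [hs']
    apply Finset.prod_le_prod_of_subset_of_one_le (filter_subset _ _)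
    · intro p _
      positivity
    · intro p hp _
      exact_mod_cast (hs p hp).one_le
  have hP1r : (1 : ℝ) ≤ P := by exact_mod_cast hP1
  obtain ⟨x, hx⟩ : ∃ x : ℝ, x = (((range S).filter (fun t : ℕ => ∀ p ∈ s', ¬ (p : ℤ) ∣ A + t * D)).card : ℝ) := ⟨_, rfl⟩
  obtain ⟨y, hy⟩ : ∃ y : ℝ, y = (((Ioc 0 S).filter (fun t : ℕ => ∀ p ∈ s', ¬ (p : ℤ) ∣ A + t * D)).card : ℝ) := ⟨_, rfl⟩
  obtain ⟨w, hw⟩ : ∃ w : ℝ, w = ∏ p ∈ s', (1 - 1 / (p : ℝ)) := ⟨_, rfl⟩
  rw [← hx] at hl1 hl2 ⊢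
  rw [← hy] at hl1 hl2 hpc
  rw [← hw] at hpc ⊢
  rw [abs_le] at hpc
  have e3 : x / S - w = (x - S * w) / S := by field_simp
  rw [e3, abs_div, abs_of_pos hS0]
  apply div_le_div_of_nonneg_right _ hS0.le
  rw [abs_le]
  constructor <;> linarith

end Pool.Agent.H11A
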