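import Mathlib
import Pool.Agent.H11A.Corr2
import Pool.Agent.H11A.Bs

/-! Correlations of the prime values of one random polynomial: the conversion of the primes into rough numbers. -/

set_option autoImplicit false

namespace Pool.Agent.H11A

open Finset Pool.Agent.H11P

variable {d : ℕ}

section

variable (c : ℕ → ℤ)

open Classical in
/-- no value at a point of `R` has a prime factor in `s` -/
noncomputable def PsS (s R : Finset ℕ) (b : Fin (d + 1) → ℤ) : ℝ := if ∀ n ∈ R, ∀ p ∈ s, ¬ (p : ℤ) ∣ fv c b n then 1 else 0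

theorem PsS_bd (s R : Finset ℕ) (b : Fin (d + 1) → ℤ) : 0 ≤ PsS c s R b ∧ PsS c s R b ≤ 1 := by
  unfold PsS; split_ifs <;> simp

open Classical in
theorem PsS_insert (s R : Finset ℕ) (n0 : ℕ) (b : Fin (d + 1) → ℤ) :
    PsS c s (insert n0 R) b = (if ∀ p ∈ s, ¬ (p : ℤ) ∣ fv c b n0 then 1 else 0) * PsS c s R b := by
  unfold PsS
  by_cases h1 : ∀ p ∈ s, ¬ (p : ℤ) ∣ fv c b n0
  · rw [if_pos h1, one_mul]
    congr 1
    apply propext
    rw [forall_mem_insert]
    exact ⟨fun h => h.2, fun h => ⟨h1, h⟩⟩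
  · rw [if_neg h1, zero_mul, if_neg]
    intro h
    exact h1 (h n0 (mem_insert_self _ _))

theorem PsS_union (s R R' : Finset ℕ) (b : Fin (d + 1) → ℤ) : PsS c s (R ∪ R') b = PsS c s R b * PsS c s R' b := by
  classical
  induction R using Finset.induction_on with
  | empty => rw [empty_union]; simp [PsS]
  | insert n R hn ih => rw [insert_union, PsS_insert, ih, PsS_insert, mul_assoc]

theorem PsS_union' (s s' R : Finset ℕ) (b : Fin (d + 1) → ℤ) : PsS c (s ∪ s') R b = PsS c s R b * PsS c s' R b := by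
  classical
  unfold PsS
  by_cases h1 : ∀ n ∈ R, ∀ p ∈ s, ¬ (p : ℤ) ∣ fv c b n
  · rw [if_pos h1, one_mul]
    congr 1
    apply propext
    constructor
    · intro h n hn p hp
      exact h n hn p (mem_union_right _ hp)
    · intro h n hn p hp
      rcases mem_union.1 hp with hp | hp
      · exact h1 n hn p hp
      · exact h n hn p hp
  · rw [if_neg h1, zero_mul, if_neg]
    intro h
    exact h1 (fun n hn p hp => h n hn p (mem_union_left _ hp))

theorem fv_same (M : ℕ) (T : Finset ℕ) (hT : T.card ≤ d) (t : ℕ) (b : Fin (d + 1) → ℤ) (n : ℕ) (hn : n ∈ T) :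
    fv c (b + tr M T t) n = fv c b n := by
  rw [fv_tr c M T hT, prod_eq_zero hn (by ring), mul_zero, add_zero]

theorem PsS_same (s' R T : Finset ℕ) (hT : T.card ≤ d) (hR : R ⊆ T) (m t : ℕ) (b : Fin (d + 1) → ℤ) :
    PsS c s' R (b + tr m T t) = PsS c s' R b := by
  unfold PsS
  have : (∀ n ∈ R, ∀ p ∈ s', ¬ (p : ℤ) ∣ fv c (b + tr m T t) n) ↔ ∀ n ∈ R, ∀ p ∈ s', ¬ (p : ℤ) ∣ fv c b n := by
    apply forall₂_congr
    intro n hn
    rw [fv_same c m T hT t b n (hR hn)]
  simp only [this]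

theorem Phi_same (R T : Finset ℕ) (hT : T.card ≤ d) (hR : R ⊆ T) (m t : ℕ) (b : Fin (d + 1) → ℤ) :
    Phi c R (b + tr m T t) = Phi c R b := by
  unfold Phi
  have : (∀ n ∈ R, (fv c (b + tr m T t) n).natAbs.Prime) ↔ ∀ n ∈ R, (fv c b n).natAbs.Prime := by
    apply forall₂_congr
    intro n hn
    rw [fv_same c m T hT t b n (hR hn)]
  simp only [this]

theorem PsS_tr (s R T : Finset ℕ) (hT : T.card ≤ d) (m t : ℕ) (hm : ∀ p ∈ s, p ∣ m) (b : Fin (d + 1) → ℤ) :
    PsS c s R (b + tr m T t) = PsS c s R b := by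
  unfold PsS
  have : (∀ n ∈ R, ∀ p ∈ s, ¬ (p : ℤ) ∣ fv c (b + tr m T t) n) ↔ ∀ n ∈ R, ∀ p ∈ s, ¬ (p : ℤ) ∣ fv c b n := by
    apply forall₂_congr
    intro n _
    apply forall₂_congr
    intro p hp
    rw [fv_tr c m T hT, not_iff_not]
    apply dvd_add_left
    apply Dvd.dvd.mul_right
    apply Dvd.dvd.mul_right
    exact_mod_cast hm p hp
  simp only [this]

open Classical in
/-- one prime value becomes a rough value -/
theorem pconv (B : Finset (Fin (d + 1) → ℤ)) (hB : B.Nonempty) (V : ℕ) (δ : ℝ) (hNI : NI B 1 V δ) (s : Finset ℕ)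
    (hs : ∀ p ∈ s, p.Prime) (T : Finset ℕ) (hT : T.card ≤ d) (Y : ℕ) (hY : ∀ m ∈ T, m ≤ Y) (n0 : ℕ) (S : ℕ) (hS : 1 ≤ S)
    (hV : S * (1 + Y) ^ T.card ≤ V) (hD : dif T n0 ≠ 0) (hdiv : ∀ p : ℕ, p.Prime → (p : ℤ) ∣ dif T n0 → p ∈ s) (lam η : ℝ) (hlam : 1 ≤ lam)
    (h1 : ∀ b ∈ B, IsCoprime (fv c b n0) (((dif T n0).natAbs : ℕ) : ℤ) →
      |(cZ (sg (dif T n0) (fv c b n0)) (dif T n0).natAbs S : ℝ) * lam / S - kap (dif T n0).natAbs| ≤ η)
    (h2 : 2 * lam / S ≤ η) (h3 : 2 * (∏ p ∈ s, (p : ℝ)) / S ≤ η) (G : (Fin (d + 1) → ℤ) → ℝ)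
    (hG : ∀ b, 0 ≤ G b ∧ G b ≤ 1) (hGt : ∀ b, ∀ t : ℕ, G (b + tr 1 T t) = G b) :
    |lam * avg B (fun b => (if (fv c b n0).natAbs.Prime then 1 else 0) * G b) -
      kS s * avg B (fun b => (if ∀ p ∈ s, ¬ (p : ℤ) ∣ fv c b n0 then 1 else 0) * G b)| ≤ (lam + kS s) * (δ + η) := by
  obtain ⟨D, hDe⟩ : ∃ D, D = dif T n0 := ⟨_, rfl⟩
  rw [← hDe] at hD hdiv h1
  have hS0 : (0 : ℝ) < S := by exact_mod_cast hS
  have hk1 := kS_ge s hs
  have hk0 : 0 < kS s := by linarith
  have hl0 : 0 < lam := by linarith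
  obtain ⟨ρ, hρ⟩ : ∃ ρ : (Fin (d + 1) → ℤ) → ℝ, ρ = fun b => if (∀ p ∈ s, (p : ℤ) ∣ D → ¬ (p : ℤ) ∣ fv c b n0) then kap D.natAbs else 0 := ⟨_, rfl⟩
  have hval : ∀ (b : Fin (d + 1) → ℤ) (t : ℕ), fv c (b + tr 1 T t) n0 = fv c b n0 + t * D := by
    intro b t
    rw [fv_tr c 1 T hT, hDe]
    unfold dif
    push_cast
    ring
  have hcop : ∀ b : Fin (d + 1) → ℤ, (∀ p ∈ s, (p : ℤ) ∣ D → ¬ (p : ℤ) ∣ fv c b n0) ↔ IsCoprime (fv c b n0) ((D.natAbs : ℕ) : ℤ) := by
    intro b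
    constructor
    · intro h
      rw [Int.isCoprime_iff_gcd_eq_one]
      by_contra hcon
      obtain ⟨p, hp, hpd⟩ := Nat.exists_prime_and_dvd hcon
      have h7 : (p : ℤ) ∣ fv c b n0 := (Int.natCast_dvd_natCast.2 hpd).trans (Int.gcd_dvd_left _ _)
      have h8 : (p : ℤ) ∣ ((D.natAbs : ℕ) : ℤ) := (Int.natCast_dvd_natCast.2 hpd).trans (Int.gcd_dvd_right _ _)
      have h9 : (p : ℤ) ∣ D := Int.dvd_natAbs.1 h8
      exact h p (hdiv p hp h9) h9 h7
    · intro h p hp hpD hpf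
      have h12 := h.isUnit_of_dvd' hpf (Int.dvd_natAbs.2 hpD)
      exact (Nat.prime_iff_prime_int.1 (hs p hp)).not_isUnit h12
  have hη0 : 0 ≤ η := by
    refine le_trans ?_ h2
    positivity
  -- the first conversion
  have key1 := gstep B hB V δ hNI T Y 1 S hS hY (by rw [one_mul]; exact hV)
    (fun b => if (fv c b n0).natAbs.Prime then 1 else 0) G (fun b => ρ b / lam) (fun b => by split_ifs <;> simp) hG hGt (η / lam)
    (fun b hb => by
      have e1 : ∑ t ∈ range S, (if (fv c (b + tr 1 T t) n0).natAbs.Prime then (1 : ℝ) else 0) = cZ (sg D (fv c b n0)) D.natAbs S := by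
        unfold cZ
        rw [card_filter, Nat.cast_sum]
        apply sum_congr rfl
        intro t _
        rw [Nat.cast_ite, Nat.cast_one, Nat.cast_zero, hval]
        have e2 := sg_natAbs D (fv c b n0) 1 t
        have e3 : fv c b n0 + (t : ℤ) * D = fv c b n0 + ((1 : ℕ) : ℤ) * t * D := by push_cast; ring
        rw [e3, e2, one_mul]
      rw [e1]
      have e4 : (cZ (sg D (fv c b n0)) D.natAbs S : ℝ) / S - ρ b / lam = ((cZ (sg D (fv c b n0)) D.natAbs S : ℝ) * lam / S - ρ b) / lam := by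
        field_simp
      rw [e4, abs_div, abs_of_pos hl0]
      apply div_le_div_of_nonneg_right _ hl0.le
      rw [hρ]
      simp only
      by_cases hb' : ∀ p ∈ s, (p : ℤ) ∣ D → ¬ (p : ℤ) ∣ fv c b n0
      · rw [if_pos hb']
        exact h1 b hb ((hcop b).1 hb')
      · rw [if_neg hb', sub_zero]
        have hnc : ¬ IsCoprime (sg D (fv c b n0)) ((D.natAbs : ℕ) : ℤ) := by
          intro h
          apply hb'
          rw [hcop]
          unfold sg at h
          split_ifs at h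
          · exact h
          · exact (IsCoprime.neg_left_iff _ _).1 h
        have h5 := cZ_noncop (sg D (fv c b n0)) D.natAbs S (Int.natAbs_pos.2 hD) hnc
        have h6 : (cZ (sg D (fv c b n0)) D.natAbs S : ℝ) ≤ 2 := by exact_mod_cast h5
        rw [abs_of_nonneg (by positivity)]
        refine le_trans ?_ h2
        gcongr)
  -- the second conversion
  have key2 := gstep B hB V δ hNI T Y 1 S hS hY (by rw [one_mul]; exact hV)
    (fun b => if ∀ p ∈ s, ¬ (p : ℤ) ∣ fv c b n0 then 1 else 0) G (fun b => ρ b / kS s) (fun b => by split_ifs <;> simp) hG hGt η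
    (fun b _ => by
      have e1 : ∑ t ∈ range S, (if ∀ p ∈ s, ¬ (p : ℤ) ∣ fv c (b + tr 1 T t) n0 then (1 : ℝ) else 0) =
          (((range S).filter (fun t : ℕ => ∀ p ∈ s, ¬ (p : ℤ) ∣ fv c b n0 + t * D)).card : ℝ) := by
        rw [card_filter]
        push_cast
        apply sum_congr rfl
        intro t _
        rw [hval]
      rw [e1, hρ]
      simp only
      by_cases hb' : ∀ p ∈ s, (p : ℤ) ∣ D → ¬ (p : ℤ) ∣ fv c b n0
      · rw [if_pos hb']
        have h5 := cnt_ind s hs (fv c b n0) D S hS hb'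
        have e2 : kap D.natAbs / kS s = ∏ p ∈ s.filter (fun p : ℕ => ¬ (p : ℤ) ∣ D), (1 - 1 / (p : ℝ)) := by
          rw [div_eq_iff hk0.ne', kap_eq _ (Int.natAbs_pos.2 hD)]
          have e3 : D.natAbs.primeFactors = s.filter (fun p : ℕ => (p : ℤ) ∣ D) := by
            ext p
            rw [Nat.mem_primeFactors, mem_filter, Int.natCast_dvd]
            constructor
            · rintro ⟨h6, h7, _⟩
              exact ⟨hdiv p h6 (Int.natCast_dvd.2 h7), h7⟩
            · rintro ⟨h6, h7⟩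
              exact ⟨hs p h6, h7, Int.natAbs_ne_zero.2 hD⟩
          rw [e3]
          unfold kS
          rw [← prod_filter_mul_prod_filter_not s (fun p : ℕ => (p : ℤ) ∣ D) fac]
          have e4 : (∏ p ∈ s.filter (fun p : ℕ => ¬ (p : ℤ) ∣ D), (1 - 1 / (p : ℝ))) * ∏ p ∈ s.filter (fun p : ℕ => ¬ (p : ℤ) ∣ D), fac p = 1 := by
            rw [← prod_mul_distrib]
            apply prod_eq_one
            intro p hp
            have hpp := hs p (mem_filter.1 hp).1
            rw [fac_eq p hpp, one_div]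
            apply mul_inv_cancel₀
            have h8 : (2 : ℝ) ≤ p := by exact_mod_cast hpp.two_le
            have h9 : (p : ℝ)⁻¹ ≤ 2⁻¹ := inv_anti₀ (by norm_num) h8
            have : (2 : ℝ)⁻¹ < 1 := by norm_num
            linarith
          obtain ⟨a1, ha1⟩ : ∃ a1, a1 = ∏ p ∈ s.filter (fun p : ℕ => (p : ℤ) ∣ D), fac p := ⟨_, rfl⟩
          obtain ⟨a2, ha2⟩ : ∃ a2, a2 = ∏ p ∈ s.filter (fun p : ℕ => ¬ (p : ℤ) ∣ D), (1 - 1 / (p : ℝ)) := ⟨_, rfl⟩
          obtain ⟨a3, ha3⟩ : ∃ a3, a3 = ∏ p ∈ s.filter (fun p : ℕ => ¬ (p : ℤ) ∣ D), fac p := ⟨_, rfl⟩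
          rw [← ha2, ← ha3] at e4
          rw [← ha1, ← ha2, ← ha3]
          calc a1 = a1 * (a2 * a3) := by rw [e4, mul_one]
            _ = a2 * (a1 * a3) := by ring
        rw [e2]
        exact h5.trans h3
      · rw [if_neg hb', zero_div, sub_zero]
        have e5 : (range S).filter (fun t : ℕ => ∀ p ∈ s, ¬ (p : ℤ) ∣ fv c b n0 + t * D) = ∅ := by
          rw [filter_eq_empty_iff]
          intro t _ h
          push Not at hb'
          obtain ⟨p, hp, hpD, hpf⟩ := hb'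
          exact h p hp (dvd_add hpf (hpD.mul_left _))
        rw [e5, card_empty, Nat.cast_zero, zero_div, abs_zero]
        exact hη0)
  obtain ⟨X1, hX1⟩ : ∃ X1, X1 = avg B (fun b => (if (fv c b n0).natAbs.Prime then (1 : ℝ) else 0) * G b) := ⟨_, rfl⟩
  obtain ⟨X2, hX2⟩ : ∃ X2, X2 = avg B (fun b => (if ∀ p ∈ s, ¬ (p : ℤ) ∣ fv c b n0 then (1 : ℝ) else 0) * G b) := ⟨_, rfl⟩
  have e6 : avg B (fun b => ρ b / lam * G b) = avg B (fun b => ρ b * G b) / lam := by
    have : (fun b => ρ b / lam * G b) = fun b => (1 / lam) * (ρ b * G b) := by funext b; ring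
    rw [this, avg_smul]; ring
  have e7 : avg B (fun b => ρ b / kS s * G b) = avg B (fun b => ρ b * G b) / kS s := by
    have : (fun b => ρ b / kS s * G b) = fun b => (1 / kS s) * (ρ b * G b) := by funext b; ring
    rw [this, avg_smul]; ring
  rw [e6, ← hX1] at key1
  rw [e7, ← hX2] at key2
  rw [← hX1, ← hX2]
  obtain ⟨Z, hZ⟩ : ∃ Z, Z = avg B (fun b => ρ b * G b) := ⟨_, rfl⟩
  rw [← hZ] at key1 key2
  have a1 : |lam * X1 - Z| ≤ lam * δ + η := by
    have e8 : lam * X1 - Z = lam * (X1 - Z / lam) := by field_simp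
    rw [e8, abs_mul, abs_of_pos hl0]
    calc lam * |X1 - Z / lam| ≤ lam * (δ + η / lam) := by gcongr
      _ = lam * δ + η := by field_simp
  have a2 : |kS s * X2 - Z| ≤ kS s * (δ + η) := by
    have e8 : kS s * X2 - Z = kS s * (X2 - Z / kS s) := by field_simp
    rw [e8, abs_mul, abs_of_pos hk0]
    gcongr
  have a3 : η ≤ lam * η := le_mul_of_one_le_left hη0 hlam
  have a4 : (lam + kS s) * (δ + η) = lam * δ + lam * η + kS s * (δ + η) := by ring
  rw [a4]
  rw [abs_le] at a1 a2 ⊢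
  constructor <;> linarith

/-- all prime values become rough values -/
theorem conv_all (B : Finset (Fin (d + 1) → ℤ)) (hB : B.Nonempty) (V : ℕ) (δ : ℝ) (hδ : 0 ≤ δ) (hNI : NI B 1 V δ) (s y : Finset ℕ)
    (hs : ∀ p ∈ s, p.Prime) (U : Finset ℕ) (hU : U.card ≤ d + 1) (Y : ℕ) (hY : ∀ m ∈ U, m ≤ Y) (S : ℕ) (hS : 1 ≤ S)
    (hV : S * (1 + Y) ^ d ≤ V) (hdiv : ∀ n0 ∈ U, ∀ p : ℕ, p.Prime → (p : ℤ) ∣ dif (U.erase n0) n0 → p ∈ s) (lam : ℕ → ℝ) (Λ η : ℝ)
    (hlam : ∀ n ∈ U, 1 ≤ lam n ∧ lam n ≤ Λ) (hΛ : kS s ≤ Λ)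
    (h1 : ∀ n0 ∈ U, ∀ b ∈ B, IsCoprime (fv c b n0) (((dif (U.erase n0) n0).natAbs : ℕ) : ℤ) →
      |(cZ (sg (dif (U.erase n0) n0) (fv c b n0)) (dif (U.erase n0) n0).natAbs S : ℝ) * lam n0 / S - kap (dif (U.erase n0) n0).natAbs| ≤ η)
    (h2 : 2 * Λ / S ≤ η) (h3 : 2 * (∏ p ∈ s, (p : ℝ)) / S ≤ η) (S1 : Finset ℕ) :
    ∀ S2 R : Finset ℕ, Disjoint S1 S2 → Disjoint (S1 ∪ S2) R → S1 ∪ S2 ∪ R = U →
    |(∏ n ∈ S1, lam n) * avg B (fun b => Phi c S1 b * (PsS c s S2 b * PsS c y R b)) -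
      kS s ^ S1.card * avg B (fun b => PsS c s (S1 ∪ S2) b * PsS c y R b)| ≤ S1.card * (Λ ^ S1.card * (2 * Λ * (δ + η))) := by
  classical
  have hk1 := kS_ge s hs
  have hS0 : (0 : ℝ) < S := by exact_mod_cast hS
  have hΛ1 : 1 ≤ Λ := hk1.trans hΛ
  have hη0 : 0 ≤ η := by
    refine le_trans ?_ h2
    positivity
  induction S1 using Finset.induction_on with
  | empty =>
    intro S2 R _ _ _
    have e : (fun b : Fin (d + 1) → ℤ => Phi c ∅ b * (PsS c s S2 b * PsS c y R b)) = fun b => PsS c s (∅ ∪ S2) b * PsS c y R b := by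
      funext b
      simp [Phi]
    rw [e]
    simp
  | insert n0 S1 hn0 ih =>
    intro S2 R hd1 hd2 hun
    have hn0U : n0 ∈ U := by rw [← hun]; simp
    have hn2 : n0 ∉ S2 := by
      rw [Finset.disjoint_left] at hd1
      exact hd1 (mem_insert_self _ _)
    have hnR : n0 ∉ R := by
      rw [Finset.disjoint_left] at hd2
      exact hd2 (mem_union_left _ (mem_insert_self _ _))
    have hsub1 : S1 ⊆ U.erase n0 := by
      intro x hx
      rw [mem_erase]
      exact ⟨fun h => hn0 (h ▸ hx), by rw [← hun]; simp [hx]⟩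
    have hsub2 : S2 ⊆ U.erase n0 := by
      intro x hx
      rw [mem_erase]
      exact ⟨fun h => hn2 (h ▸ hx), by rw [← hun]; simp [hx]⟩
    have hsubR : R ⊆ U.erase n0 := by
      intro x hx
      rw [mem_erase]
      exact ⟨fun h => hnR (h ▸ hx), by rw [← hun]; simp [hx]⟩
    have hTc : (U.erase n0).card ≤ d := by
      rw [card_erase_of_mem hn0U]; omega
    have hDne : dif (U.erase n0) n0 ≠ 0 := by
      unfold dif
      apply prod_ne_zero_iff.2
      intro m hm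
      rw [sub_ne_zero]
      intro h
      exact (mem_erase.1 hm).1 (by exact_mod_cast h.symm)
    have step := pconv c B hB V δ hNI s hs (U.erase n0) hTc Y (fun m hm => hY m (mem_of_mem_erase hm)) n0 S hS
      (le_trans (Nat.mul_le_mul_left _ (Nat.pow_le_pow_right (by omega) hTc)) hV) hDne (hdiv n0 hn0U) (lam n0) η (hlam n0 hn0U).1 (h1 n0 hn0U)
      (le_trans (by have := (hlam n0 hn0U).2; gcongr) h2) h3
      (fun b => Phi c S1 b * (PsS c s S2 b * PsS c y R b)) (fun b => by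
        obtain ⟨a1, a2⟩ := Phi_bd c S1 b
        obtain ⟨a3, a4⟩ := PsS_bd c s S2 b
        obtain ⟨a5, a6⟩ := PsS_bd c y R b
        exact ⟨by positivity, mul_le_one₀ a2 (by positivity) (mul_le_one₀ a4 a5 a6)⟩) (fun b t => by
        rw [Phi_same c S1 _ hTc hsub1, PsS_same c s S2 _ hTc hsub2, PsS_same c y R _ hTc hsubR])
    have ih' := ih (insert n0 S2) R (by
      rw [Finset.disjoint_left] at hd1 ⊢
      intro x hx hx2
      rw [mem_insert] at hx2
      rcases hx2 with h | h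
      · exact hn0 (h ▸ hx)
      · exact hd1 (mem_insert_of_mem hx) h) (by
      rw [Finset.disjoint_left] at hd2 ⊢
      intro x hx
      apply hd2
      simp only [mem_union, mem_insert] at hx ⊢
      tauto) (by
      rw [← hun]
      ext x
      simp only [mem_union, mem_insert]
      tauto)
    obtain ⟨P, hP⟩ : ∃ P, P = ∏ n ∈ S1, lam n := ⟨_, rfl⟩
    have hP0 : 0 ≤ P := by
      rw [hP]
      apply prod_nonneg
      intro n hn
      have := (hlam n (by rw [← hun]; simp [hn])).1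
      linarith
    have hPΛ : P ≤ Λ ^ S1.card := by
      rw [hP]
      calc ∏ n ∈ S1, lam n ≤ ∏ _n ∈ S1, Λ := by
            apply prod_le_prod
            · intro n hn
              have := (hlam n (by rw [← hun]; simp [hn])).1
              linarith
            · intro n hn
              exact (hlam n (by rw [← hun]; simp [hn])).2
        _ = Λ ^ S1.card := by rw [prod_const]
    rw [← hP] at ih'
    rw [prod_insert hn0, ← hP, card_insert_of_notMem hn0]
    obtain ⟨A1, hA1⟩ : ∃ A1, A1 = avg B (fun b => (if (fv c b n0).natAbs.Prime then (1 : ℝ) else 0) * (Phi c S1 b * (PsS c s S2 b * PsS c y R b))) := ⟨_, rfl⟩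
    obtain ⟨A2, hA2⟩ : ∃ A2, A2 = avg B (fun b => (if ∀ p ∈ s, ¬ (p : ℤ) ∣ fv c b n0 then (1 : ℝ) else 0) * (Phi c S1 b * (PsS c s S2 b * PsS c y R b))) := ⟨_, rfl⟩
    obtain ⟨A3, hA3⟩ : ∃ A3, A3 = avg B (fun b => PsS c s (S1 ∪ insert n0 S2) b * PsS c y R b) := ⟨_, rfl⟩
    rw [← hA1, ← hA2] at step
    have e1 : avg B (fun b => Phi c (insert n0 S1) b * (PsS c s S2 b * PsS c y R b)) = A1 := by
      rw [hA1]
      congr 1
      funext b
      rw [Phi_insert, mul_assoc]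
    have e2 : avg B (fun b => Phi c S1 b * (PsS c s (insert n0 S2) b * PsS c y R b)) = A2 := by
      rw [hA2]
      congr 1
      funext b
      rw [PsS_insert]
      ring
    have e3 : insert n0 S1 ∪ S2 = S1 ∪ insert n0 S2 := by
      ext x
      simp only [mem_union, mem_insert]
      tauto
    rw [e1, e3, ← hA3]
    rw [e2, ← hA3] at ih'
    have hsum : lam n0 + kS s ≤ 2 * Λ := by
      have := (hlam n0 hn0U).2
      linarith
    have hde : 0 ≤ δ + η := by linarith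
    have b1 : |P * (lam n0 * A1 - kS s * A2)| ≤ Λ ^ S1.card * (2 * Λ * (δ + η)) := by
      rw [abs_mul, abs_of_nonneg hP0]
      have : |lam n0 * A1 - kS s * A2| ≤ 2 * Λ * (δ + η) := step.trans (mul_le_mul_of_nonneg_right hsum hde)
      exact mul_le_mul hPΛ this (abs_nonneg _) (by positivity)
    have b2 : |kS s * (P * A2 - kS s ^ S1.card * A3)| ≤ Λ * (S1.card * (Λ ^ S1.card * (2 * Λ * (δ + η)))) := by
      rw [abs_mul, abs_of_nonneg (by linarith)]
      exact mul_le_mul hΛ ih' (abs_nonneg _) (by linarith)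
    have e4 : lam n0 * P * A1 - kS s ^ (S1.card + 1) * A3 = P * (lam n0 * A1 - kS s * A2) + kS s * (P * A2 - kS s ^ S1.card * A3) := by ring
    rw [e4]
    refine (abs_add_le _ _).trans ?_
    have b3 : Λ ^ S1.card * (2 * Λ * (δ + η)) ≤ Λ * (Λ ^ S1.card * (2 * Λ * (δ + η))) :=
      le_mul_of_one_le_left (by positivity) hΛ1
    have e5 : (((S1.card + 1 : ℕ) : ℝ)) * (Λ ^ (S1.card + 1) * (2 * Λ * (δ + η))) =
        Λ * (S1.card * (Λ ^ S1.card * (2 * Λ * (δ + η)))) + Λ * (Λ ^ S1.card * (2 * Λ * (δ + η))) := by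
      push_cast; ring
    rw [e5]
    linarith

end

end Pool.Agent.H11A
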