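import Mathlib
import Pool.Agent.H11A.Corr3

/-! Correlations of the prime values of one random polynomial: the large primes. -/

set_option autoImplicit false

namespace Pool.Agent.H11A

open Finset Pool.Agent.H11P

variable {d : ℕ}

/-- the number of classes modulo `p` -/
def nuS (p : ℕ) (S : Finset ℕ) : ℕ := (S.image (fun n => n % p)).card

section

variable (c : ℕ → ℤ)

theorem fv_sub (hc : ∀ n m : ℕ, ((n : ℤ) - m) ∣ c n - c m) (b : Fin (d + 1) → ℤ) (n m : ℕ) :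
    ((n : ℤ) - m) ∣ fv c b n - fv c b m := by
  unfold fv
  have e : c n + evl b n - (c m + evl b m) = (c n - c m) + (evl b n - evl b m) := by ring
  rw [e]
  apply dvd_add (hc n m)
  unfold evl
  rw [← sum_sub_distrib]
  apply dvd_sum
  intro l _
  rw [← mul_sub]
  exact (sub_dvd_pow_sub_pow _ _ _).mul_left _

theorem dvd_iff_of_mod (hc : ∀ n m : ℕ, ((n : ℤ) - m) ∣ c n - c m) (b : Fin (d + 1) → ℤ) (n m p : ℕ) (h : n % p = m % p) :
    (p : ℤ) ∣ fv c b n ↔ (p : ℤ) ∣ fv c b m := by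
  have h1 : (p : ℤ) ∣ (n : ℤ) - m := by
    have : (m : ℤ) ≡ n [ZMOD p] := by
      unfold Int.ModEq
      exact_mod_cast h.symm
    exact this.dvd
  have h2 := h1.trans (fv_sub c hc b n m)
  exact ⟨fun h => (dvd_sub_right h).1 h2, fun h => (dvd_sub_left h).1 h2⟩

theorem peel_one (hc : ∀ n m : ℕ, ((n : ℤ) - m) ∣ c n - c m) (B : Finset (Fin (d + 1) → ℤ)) (hB : B.Nonempty) (V : ℕ) (δ : ℝ) (hδ : 0 ≤ δ)
    (hNI : NI B 1 V δ) (M p Y S : ℕ) (hp : p.Prime) (hpM : ¬ p ∣ M) (hS : 1 ≤ S) (hV : M * S * (1 + Y) ^ d ≤ V) (η : ℝ)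
    (hη : 2 * (p : ℝ) / S ≤ η) (G0 : (Fin (d + 1) → ℤ) → ℝ) (hG : ∀ b, 0 ≤ G0 b ∧ G0 b ≤ 1)
    (hG0 : ∀ T : Finset ℕ, T.card ≤ d → ∀ b, ∀ t : ℕ, G0 (b + tr M T t) = G0 b) (S' : Finset ℕ) :
    S'.card ≤ d + 1 → (∀ m ∈ S', m ≤ Y) →
    |avg B (fun b => G0 b * PsS c {p} S' b) - (1 - 1 / (p : ℝ)) ^ nuS p S' * avg B G0| ≤ S'.card * (δ + η) := by
  classical
  have hS0 : (0 : ℝ) < S := by exact_mod_cast hS
  have hp2 : (2 : ℝ) ≤ p := by exact_mod_cast hp.two_le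
  have hη0 : 0 ≤ η := le_trans (by positivity) hη
  have hq0 : 0 ≤ 1 - 1 / (p : ℝ) := by
    have : 1 / (p : ℝ) ≤ 1 := by rw [div_le_one (by linarith)]; linarith
    linarith
  have hq1 : 1 - 1 / (p : ℝ) ≤ 1 := by
    have : 0 ≤ 1 / (p : ℝ) := by positivity
    linarith
  induction S' using Finset.induction_on with
  | empty =>
    intro _ _
    have e : (fun b : Fin (d + 1) → ℤ => G0 b * PsS c {p} ∅ b) = G0 := by
      funext b
      simp [PsS]
    rw [e]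
    simp [nuS]
  | insert n0 S' hn0 ih =>
    intro hcard hY
    rw [card_insert_of_notMem hn0] at hcard ⊢
    have ih' := ih (by omega) (fun m hm => hY m (mem_insert_of_mem hm))
    push_cast
    by_cases hex : ∃ m ∈ S', n0 % p = m % p
    · obtain ⟨m, hm, hmod⟩ := hex
      have e1 : (fun b : Fin (d + 1) → ℤ => G0 b * PsS c {p} (insert n0 S') b) = fun b => G0 b * PsS c {p} S' b := by
        funext b
        rw [PsS_insert]
        by_cases h1 : ∀ q ∈ ({p} : Finset ℕ), ¬ (q : ℤ) ∣ fv c b n0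
        · rw [if_pos h1, one_mul]
        · rw [if_neg h1, zero_mul]
          have h2 : PsS c {p} S' b = 0 := by
            unfold PsS
            rw [if_neg]
            intro h
            apply h1
            intro q hq
            rw [mem_singleton] at hq
            subst hq
            rw [dvd_iff_of_mod c hc b n0 m q hmod]
            exact h m hm q (mem_singleton_self _)
          rw [h2]
      have e2 : nuS p (insert n0 S') = nuS p S' := by
        unfold nuS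
        rw [image_insert, insert_eq_of_mem]
        rw [mem_image]
        exact ⟨m, hm, hmod.symm⟩
      rw [e1, e2]
      have : 0 ≤ δ + η := by linarith
      linarith
    · push Not at hex
      have hnew : n0 % p ∉ S'.image (fun n => n % p) := by
        rw [mem_image]
        rintro ⟨m, hm, h⟩
        exact hex m hm h.symm
      have e2 : nuS p (insert n0 S') = nuS p S' + 1 := by
        unfold nuS
        rw [image_insert, card_insert_of_notMem hnew]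
      have hTc : S'.card ≤ d := by omega
      obtain ⟨w, hw⟩ : ∃ w : ℤ, w = ∏ m ∈ S', ((n0 : ℤ) - m) := ⟨_, rfl⟩
      have hpp := Nat.prime_iff_prime_int.1 hp
      have hpw : ¬ (p : ℤ) ∣ (M : ℤ) * w := by
        intro h
        rcases hpp.dvd_or_dvd h with h1 | h1
        · exact hpM (by exact_mod_cast h1)
        · rw [hw, hpp.dvd_finsetProd_iff] at h1
          obtain ⟨m, hm, h2⟩ := h1
          apply hex m hm
          have h3 : (m : ℤ) ≡ n0 [ZMOD p] := (Int.modEq_iff_dvd).2 h2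
          unfold Int.ModEq at h3
          exact_mod_cast h3.symm
      have step := gstep B hB V δ hNI S' Y M S hS (fun m hm => hY m (mem_insert_of_mem hm))
        (le_trans (Nat.mul_le_mul_left _ (Nat.pow_le_pow_right (by omega) hTc)) hV)
        (fun b => if ∀ q ∈ ({p} : Finset ℕ), ¬ (q : ℤ) ∣ fv c b n0 then 1 else 0) (fun b => G0 b * PsS c {p} S' b) (fun _ => 1 - 1 / (p : ℝ))
        (fun b => by split_ifs <;> simp) (fun b => by
          obtain ⟨a1, a2⟩ := hG b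
          obtain ⟨a3, a4⟩ := PsS_bd c {p} S' b
          exact ⟨by positivity, mul_le_one₀ a2 a3 a4⟩) (fun b t => by
          rw [hG0 S' hTc b t, PsS_same c {p} S' S' hTc (Subset.refl _) M t b]) η (fun b _ => by
          have e3 : ∑ t ∈ range S, (if ∀ q ∈ ({p} : Finset ℕ), ¬ (q : ℤ) ∣ fv c (b + tr M S' t) n0 then (1 : ℝ) else 0) =
              (((range S).filter (fun t : ℕ => ∀ q ∈ ({p} : Finset ℕ), ¬ (q : ℤ) ∣ fv c b n0 + t * (M * w))).card : ℝ) := by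
            rw [card_filter, Nat.cast_sum]
            apply sum_congr rfl
            intro t _
            rw [Nat.cast_ite, Nat.cast_one, Nat.cast_zero, fv_tr c M S' hTc, ← hw]
            have e4 : fv c b n0 + (M : ℤ) * t * w = fv c b n0 + t * (M * w) := by ring
            rw [e4]
          rw [e3]
          have h5 := cnt_ind {p} (fun q hq => by rw [mem_singleton] at hq; rw [hq]; exact hp) (fv c b n0) (M * w) S hS (fun q hq h => by
            rw [mem_singleton] at hq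
            rw [hq] at h
            exact absurd h hpw)
          have e5 : ({p} : Finset ℕ).filter (fun q : ℕ => ¬ (q : ℤ) ∣ (M : ℤ) * w) = {p} := by
            rw [filter_eq_self]
            intro q hq
            rw [mem_singleton] at hq
            rw [hq]
            exact hpw
          rw [e5, prod_singleton, prod_singleton] at h5
          exact h5.trans hη)
      obtain ⟨A1, hA1⟩ : ∃ A1, A1 = avg B (fun b => G0 b * PsS c {p} S' b) := ⟨_, rfl⟩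
      obtain ⟨A2, hA2⟩ : ∃ A2, A2 = avg B G0 := ⟨_, rfl⟩
      rw [avg_smul, ← hA1] at step
      rw [← hA1, ← hA2] at ih'
      rw [← hA2, e2, pow_succ]
      have e6 : avg B (fun b => G0 b * PsS c {p} (insert n0 S') b) =
          avg B (fun b => (if ∀ q ∈ ({p} : Finset ℕ), ¬ (q : ℤ) ∣ fv c b n0 then 1 else 0) * (G0 b * PsS c {p} S' b)) := by
        congr 1
        funext b
        rw [PsS_insert]
        ring
      rw [e6]
      obtain ⟨A3, hA3⟩ : ∃ A3, A3 = avg B (fun b => (if ∀ q ∈ ({p} : Finset ℕ), ¬ (q : ℤ) ∣ fv c b n0 then (1 : ℝ) else 0) * (G0 b * PsS c {p} S' b)) := ⟨_, rfl⟩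
      rw [← hA3] at step ⊢
      obtain ⟨q, hq⟩ : ∃ q : ℝ, q = 1 - 1 / (p : ℝ) := ⟨_, rfl⟩
      rw [← hq] at step ih' hq0 hq1 ⊢
      have b1 : |q * (A1 - q ^ nuS p S' * A2)| ≤ S'.card * (δ + η) := by
        rw [abs_mul, abs_of_nonneg hq0]
        calc q * |A1 - q ^ nuS p S' * A2| ≤ 1 * (S'.card * (δ + η)) := mul_le_mul hq1 ih' (abs_nonneg _) zero_le_one
          _ = _ := one_mul _
      have e7 : A3 - q ^ nuS p S' * q * A2 = (A3 - q * A1) + q * (A1 - q ^ nuS p S' * A2) := by ring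
      rw [e7]
      refine (abs_add_le _ _).trans ?_
      linarith

theorem peel_all (hc : ∀ n m : ℕ, ((n : ℤ) - m) ∣ c n - c m) (B : Finset (Fin (d + 1) → ℤ)) (hB : B.Nonempty) (V : ℕ) (δ : ℝ) (hδ : 0 ≤ δ)
    (hNI : NI B 1 V δ) (y PP U Sx : Finset ℕ) (hy : ∀ p ∈ y, p.Prime) (hPP : ∀ p ∈ PP, p.Prime) (hdis : Disjoint y PP) (Y S : ℕ)
    (hS : 1 ≤ S) (hV : (∏ p ∈ y ∪ PP, p) * S * (1 + Y) ^ d ≤ V) (η : ℝ)
    (hη : ∀ p ∈ PP, 2 * (p : ℝ) / S ≤ η) (hη0 : 0 ≤ η) (hSc : Sx.card ≤ d + 1) (hY : ∀ m ∈ Sx, m ≤ Y) (TT : Finset ℕ) :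
    TT ⊆ PP → |avg B (fun b => PsS c y U b * PsS c TT Sx b) - (∏ p ∈ TT, (1 - 1 / (p : ℝ)) ^ nuS p Sx) * avg B (PsS c y U)| ≤
      TT.card * (Sx.card * (δ + η)) := by
  classical
  induction TT using Finset.induction_on with
  | empty =>
    intro _
    have e : (fun b : Fin (d + 1) → ℤ => PsS c y U b * PsS c ∅ Sx b) = PsS c y U := by
      funext b
      simp [PsS]
    rw [e]
    simp
  | insert p TT hp ih =>
    intro hsub
    have hpPP : p ∈ PP := hsub (mem_insert_self _ _)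
    have hTT : TT ⊆ PP := (subset_insert _ _).trans hsub
    have hpp := hPP p hpPP
    have ih' := ih hTT
    have hp2 : (2 : ℝ) ≤ p := by exact_mod_cast hpp.two_le
    obtain ⟨M, hM⟩ : ∃ M : ℕ, M = ∏ q ∈ y ∪ TT, q := ⟨_, rfl⟩
    have hMle : M ≤ ∏ q ∈ y ∪ PP, q := by
      rw [hM]
      apply Finset.prod_le_prod_of_subset_of_one_le' (union_subset_union_right hTT)
      intro q hq _
      rcases mem_union.1 hq with h | h
      · exact (hy q h).one_le
      · exact (hPP q h).one_le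
    have hpM : ¬ p ∣ M := by
      rw [hM]
      intro h
      rw [hpp.prime.dvd_finsetProd_iff] at h
      obtain ⟨q, hq, h1⟩ := h
      have hqp : q.Prime := by
        rcases mem_union.1 hq with h | h
        · exact hy q h
        · exact hPP q (hTT h)
      have h2 : p = q := (Nat.prime_dvd_prime_iff_eq hpp hqp).1 h1
      rw [← h2] at hq
      rcases mem_union.1 hq with h | h
      · exact (Finset.disjoint_left.1 hdis) h hpPP
      · exact hp h
    have step := peel_one c hc B hB V δ hδ hNI M p Y S hpp hpM hS (le_trans (by gcongr) hV) η (hη p hpPP)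
      (fun b => PsS c y U b * PsS c TT Sx b) (fun b => by
        obtain ⟨a1, a2⟩ := PsS_bd c y U b
        obtain ⟨a3, a4⟩ := PsS_bd c TT Sx b
        exact ⟨by positivity, mul_le_one₀ a2 a3 a4⟩) (fun T hT b t => by
        rw [PsS_tr c y U T hT M t (fun q hq => by rw [hM]; exact dvd_prod_of_mem _ (mem_union_left _ hq)) b,
          PsS_tr c TT Sx T hT M t (fun q hq => by rw [hM]; exact dvd_prod_of_mem _ (mem_union_right _ hq)) b]) Sx hSc hY
    have e1 : (fun b : Fin (d + 1) → ℤ => PsS c y U b * PsS c (insert p TT) Sx b) =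
        fun b => PsS c y U b * PsS c TT Sx b * PsS c {p} Sx b := by
      funext b
      rw [insert_eq, PsS_union']
      ring
    rw [e1, prod_insert hp, card_insert_of_notMem hp]
    obtain ⟨A1, hA1⟩ : ∃ A1, A1 = avg B (fun b => PsS c y U b * PsS c TT Sx b) := ⟨_, rfl⟩
    obtain ⟨A2, hA2⟩ : ∃ A2, A2 = avg B (PsS c y U) := ⟨_, rfl⟩
    obtain ⟨A3, hA3⟩ : ∃ A3, A3 = avg B (fun b => PsS c y U b * PsS c TT Sx b * PsS c {p} Sx b) := ⟨_, rfl⟩
    obtain ⟨q, hq⟩ : ∃ q : ℝ, q = (1 - 1 / (p : ℝ)) ^ nuS p Sx := ⟨_, rfl⟩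
    obtain ⟨x, hx⟩ : ∃ x : ℝ, x = ∏ p ∈ TT, (1 - 1 / (p : ℝ)) ^ nuS p Sx := ⟨_, rfl⟩
    have hq01 : 0 ≤ 1 - 1 / (p : ℝ) ∧ 1 - 1 / (p : ℝ) ≤ 1 := by
      have h1 : 1 / (p : ℝ) ≤ 1 := by rw [div_le_one (by linarith)]; linarith
      have h2 : 0 ≤ 1 / (p : ℝ) := by positivity
      constructor <;> linarith
    have hq0 : 0 ≤ q := by rw [hq]; exact pow_nonneg hq01.1 _
    have hq1 : q ≤ 1 := by rw [hq]; exact pow_le_one₀ hq01.1 hq01.2
    rw [← hA1, ← hA2, ← hx] at ih'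
    rw [← hA1, ← hA3, ← hq] at step
    rw [← hA2, ← hA3, ← hq, ← hx]
    have b1 : |q * (A1 - x * A2)| ≤ TT.card * (Sx.card * (δ + η)) := by
      rw [abs_mul, abs_of_nonneg hq0]
      calc q * |A1 - x * A2| ≤ 1 * (TT.card * (Sx.card * (δ + η))) := mul_le_mul hq1 ih' (abs_nonneg _) zero_le_one
        _ = _ := one_mul _
    have e7 : A3 - q * x * A2 = (A3 - q * A1) + q * (A1 - x * A2) := by ring
    rw [e7]
    refine (abs_add_le _ _).trans ?_
    push_cast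
    linarith

/-- the correlation formula -/
theorem corr1 (hc : ∀ n m : ℕ, ((n : ℤ) - m) ∣ c n - c m) (B : Finset (Fin (d + 1) → ℤ)) (hB : B.Nonempty) (V : ℕ) (δ : ℝ) (hδ : 0 ≤ δ)
    (hNI : NI B 1 V δ) (y PP : Finset ℕ) (hy : ∀ p ∈ y, p.Prime) (hPP : ∀ p ∈ PP, p.Prime) (hdis : Disjoint y PP)
    (U : Finset ℕ) (hU : U.card ≤ d + 1) (Y : ℕ) (hY : ∀ m ∈ U, m ≤ Y) (S : ℕ) (hS : 1 ≤ S) (hV : S * (1 + Y) ^ d ≤ V)
    (S2 : ℕ) (hS2 : 1 ≤ S2) (hV2 : (∏ p ∈ y ∪ PP, p) * S2 * (1 + Y) ^ d ≤ V)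
    (hdiv : ∀ n0 ∈ U, ∀ p : ℕ, p.Prime → (p : ℤ) ∣ dif (U.erase n0) n0 → p ∈ y ∪ PP) (lam : ℕ → ℝ) (Λ η : ℝ)
    (hlam : ∀ n ∈ U, 1 ≤ lam n ∧ lam n ≤ Λ) (hΛ : kS (y ∪ PP) ≤ Λ)
    (h1 : ∀ n0 ∈ U, ∀ b ∈ B, IsCoprime (fv c b n0) (((dif (U.erase n0) n0).natAbs : ℕ) : ℤ) →
      |(cZ (sg (dif (U.erase n0) n0) (fv c b n0)) (dif (U.erase n0) n0).natAbs S : ℝ) * lam n0 / S - kap (dif (U.erase n0) n0).natAbs| ≤ η)
    (h2 : 2 * Λ / S ≤ η) (h3 : 2 * (∏ p ∈ y ∪ PP, (p : ℝ)) / S ≤ η) (h4 : ∀ p ∈ PP, 2 * (p : ℝ) / S2 ≤ η) (Sx : Finset ℕ) (hSx : Sx ⊆ U) :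
    |(∏ n ∈ Sx, lam n) * avg B (fun b => Phi c Sx b * PsS c y (U \ Sx) b) -
      kS (y ∪ PP) ^ Sx.card * (∏ p ∈ PP, (1 - 1 / (p : ℝ)) ^ nuS p Sx) * avg B (PsS c y U)| ≤
      (d + 1) * Λ ^ (d + 1) * ((2 * Λ + PP.card) * (δ + η)) := by
  classical
  have hs : ∀ p ∈ y ∪ PP, p.Prime := by
    intro p hp
    rcases mem_union.1 hp with h | h
    · exact hy p h
    · exact hPP p h
  have hk1 := kS_ge (y ∪ PP) hs
  have hΛ1 : 1 ≤ Λ := hk1.trans hΛ
  have hS0 : (0 : ℝ) < S := by exact_mod_cast hS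
  have hη0 : 0 ≤ η := by
    refine le_trans ?_ h2
    positivity
  have hSc : Sx.card ≤ d + 1 := (card_le_card hSx).trans hU
  have a1 := conv_all c B hB V δ hδ hNI (y ∪ PP) y hs U hU Y hY S hS hV hdiv lam Λ η hlam hΛ h1 h2 h3 Sx ∅ (U \ Sx)
    (disjoint_empty_right _) (by rw [union_empty]; exact disjoint_sdiff) (by rw [union_empty]; exact union_sdiff_of_subset hSx)
  have a2 := peel_all c hc B hB V δ hδ hNI y PP U Sx hy hPP hdis Y S2 hS2 hV2 η h4 hη0 hSc (fun m hm => hY m (hSx hm)) PP (Subset.refl _)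
  have e1 : (fun b : Fin (d + 1) → ℤ => Phi c Sx b * (PsS c (y ∪ PP) ∅ b * PsS c y (U \ Sx) b)) = fun b => Phi c Sx b * PsS c y (U \ Sx) b := by
    funext b
    have : PsS c (y ∪ PP) ∅ b = 1 := by simp [PsS]
    rw [this, one_mul]
  have e2 : (fun b : Fin (d + 1) → ℤ => PsS c (y ∪ PP) (Sx ∪ ∅) b * PsS c y (U \ Sx) b) = fun b => PsS c y U b * PsS c PP Sx b := by
    funext b
    rw [union_empty, PsS_union']
    have h5 := PsS_union c y Sx (U \ Sx) b
    rw [union_sdiff_of_subset hSx] at h5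
    rw [h5]
    ring
  rw [e1, e2] at a1
  obtain ⟨A1, hA1⟩ : ∃ A1, A1 = avg B (fun b => Phi c Sx b * PsS c y (U \ Sx) b) := ⟨_, rfl⟩
  obtain ⟨A2, hA2⟩ : ∃ A2, A2 = avg B (fun b => PsS c y U b * PsS c PP Sx b) := ⟨_, rfl⟩
  obtain ⟨A3, hA3⟩ : ∃ A3, A3 = avg B (PsS c y U) := ⟨_, rfl⟩
  obtain ⟨x, hx⟩ : ∃ x : ℝ, x = ∏ p ∈ PP, (1 - 1 / (p : ℝ)) ^ nuS p Sx := ⟨_, rfl⟩
  obtain ⟨L, hL⟩ : ∃ L : ℝ, L = ∏ n ∈ Sx, lam n := ⟨_, rfl⟩
  obtain ⟨κ, hκ⟩ : ∃ κ : ℝ, κ = kS (y ∪ PP) ^ Sx.card := ⟨_, rfl⟩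
  rw [← hA1, ← hA2, ← hL, ← hκ] at a1
  rw [← hA2, ← hA3, ← hx] at a2
  rw [← hA1, ← hA3, ← hx, ← hL, ← hκ]
  have hκ0 : 0 ≤ κ := by rw [hκ]; positivity
  have hκΛ : κ ≤ Λ ^ (d + 1) := by
    rw [hκ]
    calc kS (y ∪ PP) ^ Sx.card ≤ Λ ^ Sx.card := by gcongr
      _ ≤ Λ ^ (d + 1) := pow_le_pow_right₀ hΛ1 hSc
  have hde : 0 ≤ δ + η := by linarith
  have hcr : (Sx.card : ℝ) ≤ d + 1 := by exact_mod_cast hSc
  have b1 : (Sx.card : ℝ) * (Λ ^ Sx.card * (2 * Λ * (δ + η))) ≤ (d + 1) * (Λ ^ (d + 1) * (2 * Λ * (δ + η))) := by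
    have : Λ ^ Sx.card ≤ Λ ^ (d + 1) := pow_le_pow_right₀ hΛ1 hSc
    gcongr
  have b2 : |κ * (A2 - x * A3)| ≤ Λ ^ (d + 1) * (PP.card * ((d + 1) * (δ + η))) := by
    rw [abs_mul, abs_of_nonneg hκ0]
    have : |A2 - x * A3| ≤ PP.card * ((d + 1) * (δ + η)) := by
      refine a2.trans ?_
      gcongr
    exact mul_le_mul hκΛ this (abs_nonneg _) (by positivity)
  have e3 : L * A1 - κ * x * A3 = (L * A1 - κ * A2) + κ * (A2 - x * A3) := by ring
  rw [e3]
  refine (abs_add_le _ _).trans ?_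
  have e4 : (d + 1) * Λ ^ (d + 1) * ((2 * Λ + PP.card) * (δ + η)) = (d + 1) * (Λ ^ (d + 1) * (2 * Λ * (δ + η))) +
      Λ ^ (d + 1) * (PP.card * ((d + 1) * (δ + η))) := by ring
  rw [e4]
  linarith

end

end Pool.Agent.H11A
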