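import Mathlib
import Pool.Agent.H11A.Az5
import Pool.Agent.H11P.Crt
import Pool.Agent.Y880.RS.Fl

/-! The small primes: the fundamental lemma for the windows. -/

set_option autoImplicit false

namespace Pool.Agent.H11A

open Finset Filter Pool.Agent.H11P Pool.Agent.H11P.Law
open Pool.Agent.TH423.SH (PS)

variable {k d : ℕ}

/-- the number of roots, if the polynomial does not vanish -/
theorem root_nz (F : Polynomial ℤ) (E : ℕ) (hF : F.natDegree ≤ E) (p : ℕ) (hp : p.Prime)
    (hco : ∃ n : ℕ, ¬ (p : ℤ) ∣ F.eval (n : ℤ)) [DecidablePred (fun n : ℕ => (p : ℤ) ∣ F.eval (n : ℤ))] :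
    ((range p).filter (fun n : ℕ => (p : ℤ) ∣ F.eval (n : ℤ))).card ≤ E := by
  classical
  have hfact := Fact.mk hp
  obtain ⟨G, hG⟩ : ∃ G : Polynomial (ZMod p), G = F.map (Int.castRingHom (ZMod p)) := ⟨_, rfl⟩
  have heval : ∀ n : ℕ, G.eval (n : ZMod p) = ((F.eval ((n : ℕ) : ℤ) : ℤ) : ZMod p) := by
    intro n
    have := Polynomial.eval_intCast_map (Int.castRingHom (ZMod p)) F ((n : ℕ) : ℤ)
    rw [hG]
    simpa using this
  obtain ⟨n0, hn0⟩ := hco
  have hG0 : G ≠ 0 := by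
    intro h
    apply hn0
    rw [← ZMod.intCast_zmod_eq_zero_iff_dvd, ← heval, h, Polynomial.eval_zero]
  have hdeg : G.natDegree ≤ E := by
    rw [hG]
    exact Polynomial.natDegree_map_le.trans hF
  refine le_trans ?_ ((Multiset.toFinset_card_le _).trans ((Polynomial.card_roots' G).trans hdeg))
  refine card_le_card_of_injOn (fun r => ((r : ℕ) : ZMod p)) ?_ ?_
  · intro r hr
    rw [mem_coe, mem_filter] at hr
    rw [mem_coe, Multiset.mem_toFinset, Polynomial.mem_roots hG0, Polynomial.IsRoot.def, heval, ZMod.intCast_zmod_eq_zero_iff_dvd]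
    exact hr.2
  · intro a ha b hb hab
    rw [mem_coe, mem_filter, mem_range] at ha hb
    simp only at hab
    rw [ZMod.natCast_eq_natCast_iff] at hab
    exact Nat.ModEq.eq_of_lt_of_lt hab ha.1 hb.1

/-- no fixed prime divisor -/
def Adm (P : Fin k → Polynomial ℤ) (a : Fin k → Fin (d + 1) → ℤ) : Prop :=
  ∀ p : ℕ, p.Prime → ∃ n : ℕ, ∀ i, ¬ (p : ℤ) ∣ value (P i) (a i) n

theorem omega_adm (P : Fin k → Polynomial ℤ) (e : ℕ) (hP : ∀ i, (P i).natDegree ≤ e) (a : Fin k → Fin (d + 1) → ℤ) (h : Adm P a) (p : ℕ) (hp : p.Prime) :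
    omega P a p ≤ k * max e d ∧ omega P a p < p := by
  classical
  obtain ⟨n0, hn0⟩ := h p hp
  constructor
  · unfold omega
    have h1 : (range p).filter (fun n => ∃ i, (p : ℤ) ∣ value (P i) (a i) n) ⊆
        (univ : Finset (Fin k)).biUnion (fun i => (range p).filter (fun n : ℕ => (p : ℤ) ∣ (fp (P i) (a i)).eval (n : ℤ))) := by
      intro n hn
      rw [mem_filter] at hn
      obtain ⟨i, hi⟩ := hn.2
      rw [mem_biUnion]
      refine ⟨i, mem_univ _, ?_⟩
      rw [mem_filter, fp_eval]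
      exact ⟨hn.1, hi⟩
    refine (card_le_card h1).trans (card_biUnion_le.trans ?_)
    have h3 : ∀ i ∈ (univ : Finset (Fin k)), ((range p).filter (fun n : ℕ => (p : ℤ) ∣ (fp (P i) (a i)).eval (n : ℤ))).card ≤ max e d := fun i _ =>
      root_nz (fp (P i) (a i)) (max e d) (fp_deg _ _ (hP i) _) p hp ⟨n0, by rw [fp_eval]; exact hn0 i⟩
    refine (sum_le_card_nsmul _ _ _ h3).trans (le_of_eq ?_)
    rw [card_univ, Fintype.card_fin, smul_eq_mul]
  · unfold omega
    calc ((range p).filter (fun n => ∃ i, (p : ℤ) ∣ value (P i) (a i) n)).card < (range p).card := by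
          apply card_lt_card
          rw [ssubset_iff_of_subset (filter_subset _ _)]
          refine ⟨n0 % p, mem_range.2 (Nat.mod_lt _ hp.pos), ?_⟩
          rw [mem_filter]
          push Not
          intro _ i hi
          apply hn0 i
          have := value_mod (P i) (a i) p n0
          exact (dvd_sub_right hi).1 this
      _ = p := card_range p

/-- the product of the local densities -/
noncomputable def Pz (P : Fin k → Polynomial ℤ) (z : ℕ) (a : Fin k → Fin (d + 1) → ℤ) : ℝ := ∏ p ∈ pri 0 z, (1 - (omega P a p : ℝ) / p)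

theorem Pz_fac (P : Fin k → Polynomial ℤ) (e : ℕ) (hP : ∀ i, (P i).natDegree ≤ e) (a : Fin k → Fin (d + 1) → ℤ) (h : Adm P a) (p : ℕ) (hp : p.Prime) :
    1 / (p : ℝ) ≤ 1 - (omega P a p : ℝ) / p ∧ 1 - (omega P a p : ℝ) / p ≤ 1 := by
  have hp0 : (0 : ℝ) < p := by exact_mod_cast hp.pos
  have h1 := (omega_adm P e hP a h p hp).2
  have h2 : (omega P a p : ℝ) + 1 ≤ p := by exact_mod_cast h1
  constructor
  · rw [div_le_iff₀ hp0, sub_mul, div_mul_cancel₀ _ hp0.ne']
    linarith
  · have : 0 ≤ (omega P a p : ℝ) / p := by positivity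
    linarith

/-- the lower bound for the product of the local densities -/
theorem Pz_low (P : Fin k → Polynomial ℤ) (e : ℕ) (hP : ∀ i, (P i).natDegree ≤ e) (a : Fin k → Fin (d + 1) → ℤ) (h : Adm P a) (z κ : ℕ)
    (hκ : κ = k * max e d) : 1 / (primorial (2 * κ) : ℝ) * (1 / kS (pri 0 z)) ^ (2 * κ) ≤ Pz P z a := by
  have hκ' : ∀ p : ℕ, p.Prime → (omega P a p : ℝ) ≤ κ := by
    intro p hp
    rw [hκ]
    exact_mod_cast (omega_adm P e hP a h p hp).1
  have hfac1 : ∀ p : ℕ, p.Prime → 0 < 1 / fac p ∧ 1 / fac p ≤ 1 := by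
    intro p hp
    have := fac_ge p hp
    exact ⟨by positivity, by rw [div_le_one (by linarith)]; exact this⟩
  have hone : ∀ p ∈ pri 0 z, (if p ≤ 2 * κ then 1 / (p : ℝ) else 1) * (1 / fac p) ^ (2 * κ) ≤ 1 - (omega P a p : ℝ) / p := by
    intro p hp
    have hpp := ((mem_pri _ _ _).1 hp).1
    have hp0 : (0 : ℝ) < p := by exact_mod_cast hpp.pos
    obtain ⟨f1, f2⟩ := hfac1 p hpp
    have f3 : (1 / fac p) ^ (2 * κ) ≤ 1 := pow_le_one₀ f1.le f2
    split_ifs with h1
    · have := (Pz_fac P e hP a h p hpp).1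
      calc 1 / (p : ℝ) * (1 / fac p) ^ (2 * κ) ≤ 1 / (p : ℝ) * 1 := mul_le_mul_of_nonneg_left f3 (by positivity)
        _ = 1 / (p : ℝ) := mul_one _
        _ ≤ _ := this
    · rw [one_mul]
      push Not at h1
      have hp2κ : 2 * (κ : ℝ) < p := by exact_mod_cast h1
      have e1 : 1 / fac p = 1 - 1 / (p : ℝ) := by rw [fac_eq p hpp, one_div, inv_inv, one_div]
      rw [e1]
      have h2 : (1 - 1 / (p : ℝ)) ≤ Real.exp (-(1 / (p : ℝ))) := by
        have := Real.add_one_le_exp (-(1 / (p : ℝ)))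
        linarith
      have h3 : (0 : ℝ) ≤ 1 - 1 / (p : ℝ) := by rw [← e1]; exact f1.le
      have h4 : (1 - 1 / (p : ℝ)) ^ (2 * κ) ≤ Real.exp (-(2 * (κ / p))) := by
        refine (pow_le_pow_left₀ h3 h2 _).trans (le_of_eq ?_)
        rw [← Real.exp_nat_mul]
        congr 1
        push_cast
        ring
      have h5 : (κ : ℝ) / p ≤ 1 / 2 := by rw [div_le_div_iff₀ hp0 (by norm_num)]; linarith
      have h50 : (0 : ℝ) ≤ (κ : ℝ) / p := by positivity
      have h6 : Real.exp (-(2 * ((κ : ℝ) / p))) ≤ 1 - κ / p := by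
        obtain ⟨u, hu⟩ : ∃ u : ℝ, u = (κ : ℝ) / p := ⟨_, rfl⟩
        rw [← hu] at h5 h50 ⊢
        have h7 : 1 / (1 - u) ≤ Real.exp (2 * u) := by
          have h8 := Real.add_one_le_exp (2 * u)
          refine le_trans ?_ h8
          rw [div_le_iff₀ (by linarith)]
          nlinarith
        rw [Real.exp_neg, ← one_div, div_le_iff₀ (Real.exp_pos _)]
        rw [div_le_iff₀ (by linarith)] at h7
        linarith
      have h7 : (omega P a p : ℝ) / p ≤ κ / p := div_le_div_of_nonneg_right (hκ' p hpp) hp0.le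
      linarith
  have h1 : ∏ p ∈ pri 0 z, ((if p ≤ 2 * κ then 1 / (p : ℝ) else 1) * (1 / fac p) ^ (2 * κ)) ≤ Pz P z a := by
    unfold Pz
    apply Finset.prod_le_prod
    · intro p hp
      have hpp := ((mem_pri _ _ _).1 hp).1
      obtain ⟨f1, f2⟩ := hfac1 p hpp
      split_ifs <;> positivity
    · exact hone
  refine le_trans ?_ h1
  rw [prod_mul_distrib]
  have h2 : (1 / kS (pri 0 z)) ^ (2 * κ) = ∏ p ∈ pri 0 z, (1 / fac p) ^ (2 * κ) := by
    unfold kS
    rw [prod_pow]
    congr 1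
    rw [one_div, ← prod_inv_distrib]
    exact prod_congr rfl fun p _ => by rw [one_div]
  rw [← h2]
  have hkS := kS_ge (pri 0 z) (fun p hp => ((mem_pri _ _ _).1 hp).1)
  apply mul_le_mul_of_nonneg_right _ (by positivity)
  rw [← prod_filter]
  have h3 : ∏ p ∈ (pri 0 z).filter (fun p => p ≤ 2 * κ), (1 / (p : ℝ)) = 1 / ((∏ p ∈ (pri 0 z).filter (fun p => p ≤ 2 * κ), p : ℕ) : ℝ) := by
    push_cast
    rw [one_div, ← prod_inv_distrib]
    exact prod_congr rfl fun p _ => by rw [one_div]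
  rw [h3]
  apply one_div_le_one_div_of_le
  · have : 0 < ∏ p ∈ (pri 0 z).filter (fun p => p ≤ 2 * κ), p := prod_pos fun p hp => ((mem_pri _ _ _).1 (mem_filter.1 hp).1).1.pos
    exact_mod_cast this
  · have h4 : ∏ p ∈ (pri 0 z).filter (fun p => p ≤ 2 * κ), p ∣ primorial (2 * κ) := by
      rw [← prod_pri]
      apply prod_dvd_prod_of_subset
      intro p hp
      rw [mem_filter, mem_pri] at hp
      rw [mem_pri]
      exact ⟨hp.1.1, hp.1.2.1, hp.2⟩
    exact_mod_cast Nat.le_of_dvd (primorial_pos _) h4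

/-- the local densities of the smallest primes, as a count -/
theorem small_cnt (P : Fin k → Polynomial ℤ) (m : ℕ) (a : Fin k → Fin (d + 1) → ℤ)
    [DecidablePred (fun n => ∀ p ∈ pri 0 m, ∀ i, ¬ (p : ℤ) ∣ value (P i) (a i) n)] :
    (((range (primorial m)).filter (fun n => ∀ p ∈ pri 0 m, ∀ i, ¬ (p : ℤ) ∣ value (P i) (a i) n)).card : ℝ) = primorial m * Pz P m a := by
  classical
  have hpr : ∀ p ∈ pri 0 m, p.Prime := fun p hp => ((mem_pri _ _ _).1 hp).1
  have h1 := crt_prod (pri 0 m) hpr (fun p n => ∀ i, ¬ (p : ℤ) ∣ value (P i) (a i) n) (fun p hp n => by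
    apply forall_congr'
    intro i
    have := value_mod (P i) (a i) p n
    rw [not_iff_not]
    exact ⟨fun h => (dvd_sub_right h).1 this, fun h => (dvd_sub_left h).1 this⟩)
  rw [prod_pri] at h1
  have h1' : (((range (primorial m)).filter (fun n => ∀ p ∈ pri 0 m, ∀ i, ¬ (p : ℤ) ∣ value (P i) (a i) n)).card : ℝ) =
      ((∏ p ∈ pri 0 m, ((range p).filter (fun n => ∀ i, ¬ (p : ℤ) ∣ value (P i) (a i) n)).card : ℕ) : ℝ) := by
    convert congrArg (Nat.cast (R := ℝ)) h1
  rw [h1']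
  unfold Pz
  have h2 : ((primorial m : ℕ) : ℝ) = ∏ p ∈ pri 0 m, (p : ℝ) := by
    rw [← prod_pri]; push_cast; rfl
  rw [h2, ← prod_mul_distrib]
  push_cast
  apply prod_congr rfl
  intro p hp
  have hp0 : (0 : ℝ) < p := by exact_mod_cast (hpr p hp).pos
  have h3 : (((range p).filter (fun n => ∀ i, ¬ (p : ℤ) ∣ value (P i) (a i) n)).card : ℝ) = p - omega P a p := by
    have h4 := Finset.card_filter_add_card_filter_not (s := range p) (p := fun n => ∃ i, (p : ℤ) ∣ value (P i) (a i) n)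
    rw [card_range] at h4
    have h5 : ((range p).filter (fun n => ¬ ∃ i, (p : ℤ) ∣ value (P i) (a i) n)) = ((range p).filter (fun n => ∀ i, ¬ (p : ℤ) ∣ value (P i) (a i) n)) := by
      apply filter_congr
      intro n _
      push Not
      rfl
    rw [h5] at h4
    have h6 : ((omega P a p : ℕ) : ℝ) + (((range p).filter (fun n => ∀ i, ¬ (p : ℤ) ∣ value (P i) (a i) n)).card : ℝ) = p := by
      exact_mod_cast h4
    linarith
  rw [h3]
  field_simp

end Pool.Agent.H11A
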