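import Mathlib
import Pool.Agent.H11A.Fl1

/-! The small primes: the fundamental lemma for the windows. -/

set_option autoImplicit false

namespace Pool.Agent.H11A

open Finset Filter Pool.Agent.H11P Pool.Agent.H11P.Law
open Pool.Agent.TH423.SH (PS)

variable {k d : ℕ}

theorem PS_pri (m z : ℕ) : PS (primorial m) z = pri m z := by
  ext p
  unfold PS
  rw [mem_filter, mem_Icc, mem_pri]
  constructor
  · rintro ⟨⟨h1, h2⟩, h3, h4⟩
    rw [h3.dvd_primorial_iff] at h4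
    exact ⟨h3, by omega, h2⟩
  · rintro ⟨h1, h2, h3⟩
    refine ⟨⟨h1.pos, h3⟩, h1, ?_⟩
    rw [h1.dvd_primorial_iff]
    omega

theorem fl_win (k d e : ℕ) (ε : ℝ) (hε : 0 < ε) : ∃ Cf : ℕ, 1 ≤ Cf ∧ ∀ (P : Fin k → Polynomial ℤ), (∀ i, (P i).natDegree ≤ e) →
    ∀ a : Fin k → Fin (d + 1) → ℤ, Adm P a → ∀ J0 J L : ℕ, Cf ≤ 2 ^ 2 ^ J0 →
    |(NS P (Ioc J (J + L)) (2 ^ 2 ^ J0) a : ℝ) - L * Pz P (2 ^ 2 ^ J0) a| ≤ ε * (L * Pz P (2 ^ 2 ^ J0) a) + Cf * ((2 : ℝ) ^ 2 ^ J0) ^ Cf := by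
  classical
  obtain ⟨κ, hκ⟩ : ∃ κ, κ = k * max e d := ⟨_, rfl⟩
  obtain ⟨C, hC1, hfl⟩ := Pool.Agent.Y880.RS.fl
  obtain ⟨m, hm⟩ : ∃ m, m = C * (κ + 1) := ⟨_, rfl⟩
  obtain ⟨n0, hn0⟩ := exists_pow_lt_of_lt_one hε (by norm_num : (1 / 2 : ℝ) < 1)
  obtain ⟨b, hb⟩ : ∃ b, b = max m n0 := ⟨_, rfl⟩
  obtain ⟨Q, hQ⟩ : ∃ Q, Q = primorial m := ⟨_, rfl⟩
  have hQ1 : 1 ≤ Q := by rw [hQ]; exact primorial_pos m
  have hQ0 : (0 : ℝ) < Q := by exact_mod_cast hQ1
  obtain ⟨Cf, hCf⟩ : ∃ Cf, Cf = max (max m (C * b)) Q := ⟨_, rfl⟩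
  have hCfm : m ≤ Cf := by rw [hCf]; exact (le_max_left _ _).trans (le_max_left _ _)
  have hCfb : C * b ≤ Cf := by rw [hCf]; exact (le_max_right _ _).trans (le_max_left _ _)
  have hCfQ : Q ≤ Cf := by rw [hCf]; exact le_max_right _ _
  refine ⟨Cf, by omega, ?_⟩
  intro P hP a ha J0 J L hJ0
  obtain ⟨z, hz⟩ : ∃ z, z = 2 ^ 2 ^ J0 := ⟨_, rfl⟩
  rw [← hz] at hJ0 ⊢
  have hmz : m ≤ z := hCfm.trans hJ0
  obtain ⟨Om, hOm⟩ : ∃ Om : ℕ → Finset ℕ, Om = fun p => (range p).filter (fun n => ∃ i, (p : ℤ) ∣ value (P i) (a i) n) := ⟨_, rfl⟩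
  have hOmc : ∀ p, (Om p).card = omega P a p := by
    intro p
    rw [hOm]
    unfold omega
    simp only
  obtain ⟨good, hgood⟩ : ∃ good, good = (range Q).filter (fun n => ∀ p ∈ pri 0 m, ∀ i, ¬ (p : ℤ) ∣ value (P i) (a i) n) := ⟨_, rfl⟩
  have hgc : (good.card : ℝ) = Q * Pz P m a := by
    rw [hgood, hQ]
    exact small_cnt P m a
  have hgQ : good.card ≤ Q := by
    rw [hgood]
    refine (card_le_card (filter_subset _ _)).trans ?_
    rw [card_range]
  -- the fibres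
  obtain ⟨N, hN⟩ : ∃ N, N = (Ioc J (J + L)).filter (fun n => ∀ p ∈ pri 0 z, ∀ i, ¬ (p : ℤ) ∣ value (P i) (a i) n) := ⟨_, rfl⟩
  have hNS : NS P (Ioc J (J + L)) z a = N.card := by
    rw [hN]
    unfold NS
    congr!
  have hmodp : ∀ p n : ℕ, ∀ i, ((p : ℤ) ∣ value (P i) (a i) (n % p) ↔ (p : ℤ) ∣ value (P i) (a i) n) := by
    intro p n i
    have := value_mod (P i) (a i) p n
    exact ⟨fun h => (dvd_sub_right h).1 this, fun h => (dvd_sub_left h).1 this⟩
  have hmodQ : ∀ p ∈ pri 0 m, ∀ n : ℕ, ∀ i, ((p : ℤ) ∣ value (P i) (a i) (n % Q) ↔ (p : ℤ) ∣ value (P i) (a i) n) := by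
    intro p hp n i
    have h1 := value_mod (P i) (a i) Q n
    have h2 : (p : ℤ) ∣ (Q : ℤ) := by
      rw [mem_pri] at hp
      have : p ∣ Q := by rw [hQ]; exact hp.1.dvd_primorial_iff.2 hp.2.2
      exact_mod_cast this
    have h3 := h2.trans h1
    exact ⟨fun h => (dvd_sub_right h).1 h3, fun h => (dvd_sub_left h).1 h3⟩
  have hsum : N.card = ∑ α ∈ good, (N.filter (fun n => n % Q = α)).card := by
    apply card_eq_sum_card_fiberwise
    intro n hn
    rw [mem_coe, hN, mem_filter] at hn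
    rw [mem_coe, hgood, mem_filter, mem_range]
    refine ⟨Nat.mod_lt _ hQ1, ?_⟩
    intro p hp i h
    rw [hmodQ p hp n i] at h
    have hp' := (mem_pri _ _ _).1 hp
    exact hn.2 p (by rw [mem_pri]; exact ⟨hp'.1, hp'.2.1, by omega⟩) i h
  obtain ⟨main, hmain⟩ : ∃ main : ℝ, main = (L : ℝ) / Q * ∏ p ∈ pri m z, (1 - ((Om p).card : ℝ) / p) := ⟨_, rfl⟩
  have hmainall : (good.card : ℝ) * main = L * Pz P z a := by
    rw [hgc, hmain]
    have e1 : Pz P z a = Pz P m a * ∏ p ∈ pri m z, (1 - ((Om p).card : ℝ) / p) := by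
      unfold Pz
      rw [← pri_union m z hmz, prod_union (pri_dis m z)]
      congr 1
      apply prod_congr rfl
      intro p _
      rw [hOmc]
    rw [e1]
    field_simp
  have hfib : ∀ α ∈ good, |((N.filter (fun n => n % Q = α)).card : ℝ) - main| ≤ (1 / 2 : ℝ) ^ b * main + ((2 : ℝ) ^ 2 ^ J0) ^ (C * b) := by
    intro α hα
    rw [hgood, mem_filter, mem_range] at hα
    have h1 := hfl κ b Q (by rw [hb, ← hm]; exact le_max_left _ _) (fun p hp hpm => by
      rw [hQ]; exact hp.dvd_primorial_iff.2 (by rw [hm]; exact hpm)) Om J0 Q α J L hQ1 (by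
      intro p hp
      rw [hQ, PS_pri, mem_pri] at hp
      rw [hQ, hp.1.dvd_primorial_iff]
      omega) (by
      intro p hp
      rw [hQ, PS_pri, mem_pri] at hp
      constructor
      · rw [hOmc, hκ]
        exact (omega_adm P e hP a ha p hp.1).1
      · intro c hc
        rw [hOm] at hc
        exact mem_range.1 (mem_filter.1 hc).1) (N.filter (fun n => n % Q = α)) (by
      intro n
      rw [mem_filter, hN, mem_filter, Nat.mod_eq_of_lt hα.1, hQ, PS_pri, ← hQ, ← hz]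
      constructor
      · rintro ⟨⟨h2, h3⟩, h4⟩
        refine ⟨h2, h4, ?_⟩
        intro p hp
        have hp' := (mem_pri _ _ _).1 hp
        rw [hOm]
        simp only [mem_filter, not_and]
        rintro _ ⟨i, hi⟩
        rw [hmodp] at hi
        exact h3 p (by rw [mem_pri]; exact ⟨hp'.1, hp'.1.pos, hp'.2.2⟩) i hi
      · rintro ⟨h2, h3, h4⟩
        refine ⟨⟨h2, ?_⟩, h3⟩
        intro p hp i hi
        have hp' := (mem_pri _ _ _).1 hp
        by_cases hpm : p ≤ m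
        · have hp2 : p ∈ pri 0 m := by rw [mem_pri]; exact ⟨hp'.1, hp'.2.1, hpm⟩
          apply hα.2 p hp2 i
          rw [← h3, hmodQ p hp2]
          exact hi
        · have hp2 : p ∈ pri m z := by rw [mem_pri]; exact ⟨hp'.1, by omega, hp'.2.2⟩
          have h5 := h4 p hp2
          rw [hOm] at h5
          simp only [mem_filter, not_and, mem_range] at h5
          apply h5 (Nat.mod_lt _ hp'.1.pos)
          exact ⟨i, (hmodp p n i).2 hi⟩)
    have e2 : PS Q (2 ^ 2 ^ J0) = pri m z := by rw [hQ, PS_pri, hz]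
    rw [e2] at h1
    rw [hmain]
    exact h1
  have hmain0 : 0 ≤ main := by
    rw [hmain]
    apply mul_nonneg (by positivity)
    apply prod_nonneg
    intro p hp
    have hpp := ((mem_pri _ _ _).1 hp).1
    rw [hOmc]
    have := (Pz_fac P e hP a ha p hpp).1
    have h0 : 0 ≤ 1 / (p : ℝ) := by positivity
    linarith
  rw [hNS, hsum]
  push_cast
  have e3 : ∑ α ∈ good, ((N.filter (fun n => n % Q = α)).card : ℝ) - L * Pz P z a =
      ∑ α ∈ good, (((N.filter (fun n => n % Q = α)).card : ℝ) - main) := by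
    rw [sum_sub_distrib, sum_const, nsmul_eq_mul, hmainall]
  rw [e3]
  refine (abs_sum_le_sum_abs _ _).trans ((sum_le_card_nsmul _ _ _ hfib).trans ?_)
  rw [nsmul_eq_mul, mul_add]
  apply add_le_add
  · have h1 : (1 / 2 : ℝ) ^ b ≤ ε := by
      refine le_trans ?_ hn0.le
      apply pow_le_pow_of_le_one (by norm_num) (by norm_num)
      rw [hb]; exact le_max_right _ _
    calc (good.card : ℝ) * ((1 / 2 : ℝ) ^ b * main) = (1 / 2 : ℝ) ^ b * (good.card * main) := by ring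
      _ = (1 / 2 : ℝ) ^ b * (L * Pz P z a) := by rw [hmainall]
      _ ≤ ε * (L * Pz P z a) := by
          apply mul_le_mul_of_nonneg_right h1
          rw [← hmainall]
          positivity
  · have h2 : (good.card : ℝ) ≤ Cf := by exact_mod_cast hgQ.trans hCfQ
    have h3 : ((2 : ℝ) ^ 2 ^ J0) ^ (C * b) ≤ ((2 : ℝ) ^ 2 ^ J0) ^ Cf := pow_le_pow_right₀ (one_le_pow₀ (by norm_num)) hCfb
    exact mul_le_mul h2 h3 (by positivity) (by positivity)

end Pool.Agent.H11A
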