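import Mathlib
import Pool.Agent.H11A.Az5

/-! The middle primes: asymptotic bounds. -/

set_option autoImplicit false

namespace Pool.Agent.H11A

open Finset Filter Pool.Agent.H11P Pool.Agent.H11P.Law

variable {k d : ℕ}

theorem tx : Tendsto (fun H : ℕ => Real.log (Real.log H)) atTop atTop :=
  Real.tendsto_log_atTop.comp (Real.tendsto_log_atTop.comp (tendsto_natCast_atTop_atTop (R := ℝ)))

theorem ev_x (c : ℝ) : ∀ᶠ H : ℕ in atTop, c ≤ Real.log (Real.log H) := tx.eventually_ge_atTop c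

theorem prim_le (H Y : ℕ) (hH : 2 ≤ H) (hY : 8 * (Y : ℝ) ≤ Real.log H) : ((primorial Y : ℕ) : ℝ) ≤ (H : ℝ) ^ (1 / 4 : ℝ) := by
  have hH0 : (0 : ℝ) < H := by exact_mod_cast (by omega : 0 < H)
  have h1 : ((primorial Y : ℕ) : ℝ) ≤ (4 : ℝ) ^ Y := by exact_mod_cast primorial_le_four_pow Y
  refine h1.trans ?_
  have h4 : (4 : ℝ) ^ Y = Real.exp (Real.log 4 * Y) := by rw [Real.exp_mul, Real.exp_log (by norm_num), Real.rpow_natCast]
  rw [h4]
  have h5 : (H : ℝ) ^ (1 / 4 : ℝ) = Real.exp (Real.log H * (1 / 4)) := by rw [Real.exp_mul, Real.exp_log hH0]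
  rw [h5]
  apply Real.exp_le_exp.2
  have h2 : Real.log 4 ≤ 2 := by
    have := Real.log_two_lt_d9
    rw [show (4 : ℝ) = 2 ^ 2 by norm_num, Real.log_pow]
    push_cast
    linarith
  have hY0 : (0 : ℝ) ≤ Y := Nat.cast_nonneg _
  have := mul_le_mul_of_nonneg_right h2 hY0
  linarith

theorem ev_primo (c : ℝ) (E : ℕ) (hc : 0 ≤ c) : ∀ᶠ H : ℕ in atTop, ∀ Y : ℕ, 8 * (Y : ℝ) ≤ Real.log H →
    c * ((primorial Y : ℕ) / (2 * H + 1)) ≤ 1 / (2 * Real.log H ^ E) := by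
  filter_upwards [ev_pow E (2 * c) (1 / 2) (by norm_num), eventually_ge_atTop 2, ev_log 1] with H g1 g2 g3
  intro Y hY
  have hH0 : (0 : ℝ) < H := by exact_mod_cast (by omega : 0 < H)
  have hH1 : (1 : ℝ) ≤ H := by exact_mod_cast (by omega : 1 ≤ H)
  have hℓ0 : 0 < Real.log H := by linarith
  have h1 := prim_le H Y g2 hY
  rw [mul_div_assoc', div_le_div_iff₀ (by positivity) (by positivity), one_mul]
  have e : (H : ℝ) ^ (1 / 2 : ℝ) * (H : ℝ) ^ (1 / 2 : ℝ) = H := by rw [← Real.rpow_add hH0]; norm_num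
  have h2 : (H : ℝ) ^ (1 / 4 : ℝ) ≤ (H : ℝ) ^ (1 / 2 : ℝ) := Real.rpow_le_rpow_of_exponent_le hH1 (by norm_num)
  calc c * ((primorial Y : ℕ) : ℝ) * (2 * Real.log H ^ E) ≤ c * (H : ℝ) ^ (1 / 4 : ℝ) * (2 * Real.log H ^ E) := by gcongr
    _ = (H : ℝ) ^ (1 / 4 : ℝ) * (2 * c * Real.log H ^ E) := by ring
    _ ≤ (H : ℝ) ^ (1 / 2 : ℝ) * (H : ℝ) ^ (1 / 2 : ℝ) := mul_le_mul h2 g1 (by positivity) (by positivity)
    _ = H := e
    _ ≤ 2 * H + 1 := by linarith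

/-- exponentials of powers of `log log` are small -/
theorem ev_exp (c : ℝ) (hc : 0 < c) (E : ℕ) : ∀ᶠ H : ℕ in atTop, 2 * Real.exp (-(c * Real.log (Real.log H) ^ 3)) ≤ 1 / (2 * Real.log H ^ E) := by
  filter_upwards [ev_x 1, ev_x (((E : ℝ) + 2) / c), ev_log 1] with H g1 g2 g3
  obtain ⟨x, hx⟩ : ∃ x, x = Real.log (Real.log H) := ⟨_, rfl⟩
  rw [← hx] at g1 g2 ⊢
  have hℓ0 : 0 < Real.log H := by linarith
  have h1 : Real.log H ^ E = Real.exp (E * x) := by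
    rw [hx, mul_comm, Real.exp_mul, Real.exp_log hℓ0, Real.rpow_natCast]
  rw [h1]
  have h2 : (E + 2) * x ≤ c * x ^ 3 := by
    rw [div_le_iff₀ hc] at g2
    calc ((E : ℝ) + 2) * x ≤ x * c * x := mul_le_mul_of_nonneg_right g2 (by linarith)
      _ = c * x ^ 2 * 1 := by ring
      _ ≤ c * x ^ 2 * x := mul_le_mul_of_nonneg_left g1 (by positivity)
      _ = c * x ^ 3 := by ring
  have h3 : Real.exp (-(c * x ^ 3)) ≤ Real.exp (-((E + 2) * x)) := Real.exp_le_exp.2 (by linarith)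
  have h4 : Real.exp (-((E + 2) * x)) = Real.exp (-(2 * x)) * Real.exp (-(E * x)) := by rw [← Real.exp_add]; congr 1; ring
  have h5 : Real.exp (-(2 * x)) ≤ 1 / 4 := by
    have h6 : (4 : ℝ) ≤ Real.exp (2 * x) := by
      have h7 : Real.exp 1 ≤ Real.exp x := Real.exp_le_exp.2 g1
      have h8 := Real.exp_one_gt_d9
      have h9 : Real.exp (2 * x) = Real.exp x * Real.exp x := by rw [← Real.exp_add]; congr 1; ring
      rw [h9]
      nlinarith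
    rw [Real.exp_neg, ← one_div]
    exact one_div_le_one_div_of_le (by norm_num) h6
  have h6 := Real.exp_pos (-(E * x))
  rw [one_div, mul_inv, ← Real.exp_neg]
  calc 2 * Real.exp (-(c * x ^ 3)) ≤ 2 * (Real.exp (-(2 * x)) * Real.exp (-(E * x))) := by linarith
    _ ≤ 2 * (1 / 4 * Real.exp (-(E * x))) := by gcongr
    _ = 2⁻¹ * Real.exp (-(E * x)) := by ring

open Classical in
theorem mid_asym (k d e E K B : ℕ) (hk : 1 ≤ k) (hB : B = 2 * k + 2 * K + 3) : ∀ᶠ H : ℕ in atTop,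
    ∀ (P : Fin k → Polynomial ℤ) (Y' J L : ℕ), (∀ i, (P i).natDegree ≤ e) → Real.log (Real.log H) ^ B ≤ Y' → Y' ≤ Yh H → Real.log H ≤ L →
    (((ab k d H).filter (fun a => ¬ Exc P Y' (Yh H) a ∧ (L : ℝ) / Real.log (Real.log H) ^ K * ∏ p ∈ pri Y' (Yh H), (1 - 1 / (p : ℝ)) ^ k <
      |(NS P (Ioc J (J + L)) (Yh H) a : ℝ) - (∏ p ∈ pri Y' (Yh H), (1 - 1 / (p : ℝ)) ^ k) * NS P (Ioc J (J + L)) Y' a|)).card : ℝ) ≤
      (1 / Real.log H ^ E) * (ab k d H).card := by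
  obtain ⟨Cm, hCm0, hCm⟩ := kap_mertens
  obtain ⟨Cv, hCv⟩ : ∃ Cv : ℝ, Cv = Cm ^ k * 2 ^ k * (k * (((max e d : ℕ) : ℝ) + 1)) := ⟨_, rfl⟩
  have hk0 : (0 : ℝ) < k := by exact_mod_cast hk
  have hCv0 : 0 < Cv := by rw [hCv]; positivity
  filter_upwards [ev_log 32, ev_x 1, ev_primo (k * (d + 1)) E (by positivity), ev_exp (1 / (16 * Cv ^ 2)) (by positivity) E, ev_x (1 / Cv)] with H g1 g2 g3 g4 g5
  intro P Y' J L hP hY'B hY'Y hL
  obtain ⟨ℓ, hℓ⟩ : ∃ ℓ : ℝ, ℓ = Real.log H := ⟨_, rfl⟩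
  obtain ⟨x, hx⟩ : ∃ x, x = Real.log ℓ := ⟨_, rfl⟩
  obtain ⟨Y, hY⟩ : ∃ Y, Y = Yh H := ⟨_, rfl⟩
  rw [← hY] at hY'Y ⊢
  unfold Yh at hY
  rw [← hℓ] at g1 g2 g3 g4 g5 hY hY'B hL ⊢
  rw [← hx] at g2 g4 g5 hY'B ⊢
  have hℓ0 : 0 < ℓ := by linarith
  have hx0 : 0 < x := by linarith
  have hYle : (Y : ℝ) ≤ ℓ / 8 := by rw [hY]; exact Nat.floor_le (by positivity)
  have hY4 : 4 ≤ Y := by
    rw [hY]
    apply Nat.le_floor
    push_cast
    linarith
  have hY'0 : (0 : ℝ) < Y' := lt_of_lt_of_le (by positivity) hY'B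
  have hY'1 : 1 ≤ Y' := by exact_mod_cast hY'0
  have hY'Yr : (Y' : ℝ) ≤ Y := by exact_mod_cast hY'Y
  have hL0 : (0 : ℝ) < L := by linarith
  -- V
  obtain ⟨V, hV⟩ : ∃ V : ℝ, V = Cm ^ k * x ^ k := ⟨_, rfl⟩
  have hV0 : 0 < V := by rw [hV]; positivity
  have hkSx : kS (pri 0 Y) ≤ Cm * x := by
    rw [kS_pri]
    refine (hCm Y (by omega)).trans ?_
    apply mul_le_mul_of_nonneg_left _ hCm0.le
    rw [hx]
    exact Real.log_le_log (by exact_mod_cast (by omega : 0 < Y)) (by linarith)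
  have hfacpos : ∀ s : Finset ℕ, (∀ p ∈ s, p.Prime) → 1 ≤ ∏ p ∈ s, fac p := fun s hs => kS_ge s hs
  have hVb : ∏ p ∈ pri Y' Y, 1 / (1 - 1 / (p : ℝ)) ^ k ≤ V := by
    have h1 : ∏ p ∈ pri Y' Y, 1 / (1 - 1 / (p : ℝ)) ^ k = (∏ p ∈ pri Y' Y, fac p) ^ k := by
      rw [← prod_pow]
      apply prod_congr rfl
      intro p hp
      rw [fac_eq p ((mem_pri _ _ _).1 hp).1, one_div, one_div, inv_pow]
    rw [h1, hV, ← mul_pow]
    have h2 := hfacpos (pri Y' Y) (fun p hp => ((mem_pri _ _ _).1 hp).1)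
    have h3 := kS_split Y' Y hY'Y
    have h4 := kS_ge (pri 0 Y') (fun p hp => ((mem_pri _ _ _).1 hp).1)
    apply pow_le_pow_left₀ (by linarith)
    refine le_trans ?_ hkSx
    rw [h3]
    exact le_mul_of_one_le_left (by linarith) h4
  obtain ⟨V1, hV1⟩ : ∃ V1 : ℝ, V1 = Cv * x ^ k := ⟨_, rfl⟩
  have hV10 : 0 < V1 := by rw [hV1]; positivity
  have hV11 : 1 ≤ V1 := by
    rw [hV1]
    have h1 : 1 ≤ Cv * x := by
      rw [div_le_iff₀ hCv0] at g5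
      linarith
    calc 1 ≤ Cv * x := h1
      _ = Cv * x ^ 1 := by ring
      _ ≤ Cv * x ^ k := by
          apply mul_le_mul_of_nonneg_left _ hCv0.le
          exact pow_le_pow_right₀ g2 hk
  have hcardL : (((Ioc J (J + L)).card : ℕ) : ℝ) = L := by rw [Nat.card_Ioc, Nat.add_sub_cancel_left]
  have hmp : ∀ p ∈ pri Y' Y, V * 2 ^ k * (k * (max e d : ℕ) * ((L : ℝ) / p + 1) + k * (Ioc J (J + L)).card / p) ≤ V1 * ((L : ℝ) / p + 1) := by
    intro p hp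
    have hp0 : (0 : ℝ) < p := by exact_mod_cast ((mem_pri _ _ _).1 hp).1.pos
    rw [hcardL]
    have h1 : (k : ℝ) * L / p ≤ k * ((L : ℝ) / p + 1) := by
      have : (k : ℝ) * L / p = k * ((L : ℝ) / p) := by ring
      rw [this]
      apply mul_le_mul_of_nonneg_left _ hk0.le
      linarith
    have h2 : k * (max e d : ℕ) * ((L : ℝ) / p + 1) + k * L / p ≤ k * (((max e d : ℕ) : ℝ) + 1) * ((L : ℝ) / p + 1) := by
      calc k * (max e d : ℕ) * ((L : ℝ) / p + 1) + k * L / p ≤ k * (max e d : ℕ) * ((L : ℝ) / p + 1) + k * ((L : ℝ) / p + 1) := by linarith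
        _ = _ := by ring
    calc V * 2 ^ k * (k * (max e d : ℕ) * ((L : ℝ) / p + 1) + k * L / p) ≤ V * 2 ^ k * (k * (((max e d : ℕ) : ℝ) + 1) * ((L : ℝ) / p + 1)) := by gcongr
      _ = V1 * ((L : ℝ) / p + 1) := by rw [hV, hV1, hCv]; ring
  have hmp0 : ∀ p ∈ pri Y' Y, 0 ≤ V * 2 ^ k * (k * (max e d : ℕ) * ((L : ℝ) / p + 1) + k * (Ioc J (J + L)).card / p) := by
    intro p _
    positivity
  obtain ⟨η, hη⟩ : ∃ η : ℝ, η = 1 / x ^ K := ⟨_, rfl⟩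
  have hη0 : 0 < η := by rw [hη]; positivity
  have hη1 : η ≤ 1 := by rw [hη, div_le_one (by positivity)]; exact one_le_pow₀ g2
  obtain ⟨lam, hlam⟩ : ∃ lam : ℝ, lam = η * Y' / (8 * V1 ^ 2 * L) := ⟨_, rfl⟩
  have hlam0 : 0 < lam := by rw [hlam]; positivity
  have hLY' : (Y' : ℝ) ≤ L := by linarith
  have key := mid (k := k) (d := d) P e hP H Y' Y J L hY'Y V lam (L / x ^ K) hVb hlam0 (by
    intro p hp
    have hp0 : (0 : ℝ) < p := by exact_mod_cast ((mem_pri _ _ _).1 hp).1.pos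
    have hpY : (Y' : ℝ) ≤ p := by exact_mod_cast ((mem_pri _ _ _).1 hp).2.1.le
    have h1 : (L : ℝ) / p + 1 ≤ 2 * (L / Y') := by
      have h2 : (L : ℝ) / p ≤ L / Y' := div_le_div_of_nonneg_left hL0.le hY'0 hpY
      have h3 : 1 ≤ (L : ℝ) / Y' := by rw [le_div_iff₀ hY'0]; linarith
      linarith
    calc lam * (V * 2 ^ k * (k * (max e d : ℕ) * ((L : ℝ) / p + 1) + k * (Ioc J (J + L)).card / p)) ≤ lam * (V1 * ((L : ℝ) / p + 1)) :=
          mul_le_mul_of_nonneg_left (hmp p hp) hlam0.le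
      _ ≤ lam * (V1 * (2 * (L / Y'))) := by gcongr
      _ = η / (4 * V1) := by rw [hlam]; field_simp; ring
      _ ≤ 1 := by rw [div_le_one (by positivity)]; linarith)
  refine key.trans ?_
  apply mul_le_mul_of_nonneg_right _ (Nat.cast_nonneg _)
  have hsum : ∑ p ∈ pri Y' Y, (V * 2 ^ k * (k * (max e d : ℕ) * ((L : ℝ) / p + 1) + k * (Ioc J (J + L)).card / p)) ^ 2 ≤ V1 ^ 2 * (4 * L ^ 2 / Y') := by
    calc ∑ p ∈ pri Y' Y, (V * 2 ^ k * (k * (max e d : ℕ) * ((L : ℝ) / p + 1) + k * (Ioc J (J + L)).card / p)) ^ 2 ≤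
        ∑ p ∈ pri Y' Y, V1 ^ 2 * (2 * L ^ 2 * ((p : ℝ) ^ 2)⁻¹ + 2) := by
          apply sum_le_sum
          intro p hp
          have hp0 : (0 : ℝ) < p := by exact_mod_cast ((mem_pri _ _ _).1 hp).1.pos
          refine (pow_le_pow_left₀ (hmp0 p hp) (hmp p hp) 2).trans ?_
          rw [mul_pow]
          apply mul_le_mul_of_nonneg_left _ (sq_nonneg _)
          have h1 := sq_nonneg ((L : ℝ) / p - 1)
          have e1 : 2 * (L : ℝ) ^ 2 * ((p : ℝ) ^ 2)⁻¹ = 2 * ((L : ℝ) / p) ^ 2 := by rw [div_pow]; ring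
          rw [e1]
          nlinarith
      _ = V1 ^ 2 * (2 * L ^ 2 * ∑ p ∈ pri Y' Y, ((p : ℝ) ^ 2)⁻¹ + 2 * (pri Y' Y).card) := by
          rw [← mul_sum, sum_add_distrib, ← mul_sum, sum_const, nsmul_eq_mul]
          ring
      _ ≤ V1 ^ 2 * (2 * L ^ 2 * (1 / Y') + 2 * Y) := by
          have h1 := inv_sq_sum Y' Y hY'1 hY'Y
          have h2 : ((pri Y' Y).card : ℝ) ≤ Y := by
            have h3 : (pri Y' Y).card ≤ Y := by
              unfold pri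
              refine (card_le_card (filter_subset _ _)).trans ?_
              rw [Nat.card_Ioc]
              omega
            exact_mod_cast h3
          gcongr
      _ ≤ V1 ^ 2 * (4 * L ^ 2 / Y') := by
          apply mul_le_mul_of_nonneg_left _ (sq_nonneg _)
          have h1 : (Y : ℝ) * Y' ≤ L ^ 2 := by
            rw [pow_two]
            exact mul_le_mul (by linarith) (by linarith) hY'0.le hL0.le
          have h2 : (Y : ℝ) ≤ L ^ 2 / Y' := by rw [le_div_iff₀ hY'0]; exact h1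
          have e1 : 4 * (L : ℝ) ^ 2 / Y' = 2 * L ^ 2 * (1 / Y') + 2 * (L ^ 2 / Y') := by ring
          rw [e1]
          linarith
  have hexp : lam ^ 2 * ∑ p ∈ pri Y' Y, (V * 2 ^ k * (k * (max e d : ℕ) * ((L : ℝ) / p + 1) + k * (Ioc J (J + L)).card / p)) ^ 2 - lam * (L / x ^ K) ≤
      -(1 / (16 * Cv ^ 2) * x ^ 3) := by
    have h1 := mul_le_mul_of_nonneg_left hsum (sq_nonneg lam)
    have e1 : lam ^ 2 * (V1 ^ 2 * (4 * (L : ℝ) ^ 2 / Y')) = η ^ 2 * Y' / (16 * V1 ^ 2) := by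
      rw [hlam]; field_simp; ring
    have e2 : lam * (L / x ^ K) = η ^ 2 * Y' / (8 * V1 ^ 2) := by
      rw [hlam, hη]; field_simp
    have h2 : 1 / (16 * Cv ^ 2) * x ^ 3 ≤ η ^ 2 * Y' / (16 * V1 ^ 2) := by
      have e3 : η ^ 2 * Y' / (16 * V1 ^ 2) = Y' / (16 * Cv ^ 2 * x ^ (2 * k + 2 * K)) := by
        rw [hη, hV1, pow_add, pow_mul, pow_mul]
        field_simp
        ring
      rw [e3, le_div_iff₀ (by positivity)]
      calc 1 / (16 * Cv ^ 2) * x ^ 3 * (16 * Cv ^ 2 * x ^ (2 * k + 2 * K)) = x ^ B := by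
            rw [hB, pow_add]
            field_simp
            ring
        _ ≤ Y' := hY'B
    rw [e1] at h1
    rw [e2]
    have e4 : η ^ 2 * (Y' : ℝ) / (8 * V1 ^ 2) = η ^ 2 * Y' / (16 * V1 ^ 2) + η ^ 2 * Y' / (16 * V1 ^ 2) := by field_simp; ring
    linarith
  have h5 := Real.exp_le_exp.2 hexp
  have h6 := g3 Y (by linarith)
  have t3 : (1 : ℝ) / ℓ ^ E = 1 / (2 * ℓ ^ E) + 1 / (2 * ℓ ^ E) := by field_simp; norm_num
  rw [t3]
  linarith

open Classical in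
theorem ratio_asym (k d e E : ℕ) (hk : 1 ≤ k) (hd : 1 ≤ d) (M : ℝ) (hM : M = 2 ^ k * ((k * max e d : ℕ) : ℝ)) : ∀ᶠ H : ℕ in atTop,
    ∀ (P : Fin k → Polynomial ℤ) (z : ℕ), (∀ i, (P i).natDegree ≤ e) → 1 ≤ z → z ≤ Yh H → ∀ η : ℝ, 0 < η → η ≤ 1 →
    (((ab k d H).filter (fun a => ¬ Exc P z (Yh H) a ∧ η < |∑ p ∈ pri z (Yh H), (zt P p a - 1)|)).card : ℝ) ≤
      (2 * Real.exp (-(η ^ 2 * z / (4 * M ^ 2))) + 1 / (2 * Real.log H ^ E)) * (ab k d H).card := by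
  filter_upwards [ev_log 32, ev_primo (k * (d + 1)) E (by positivity)] with H g1 g3
  intro P z hP hz hzY η hη hη1
  have hYle : ((Yh H : ℕ) : ℝ) ≤ Real.log H / 8 := by unfold Yh; exact Nat.floor_le (by positivity)
  refine (ratio hk hd P e hP H z (Yh H) hz hzY η hη hη1 M hM).trans ?_
  apply mul_le_mul_of_nonneg_right _ (Nat.cast_nonneg _)
  have := g3 (Yh H) (by linarith)
  linarith

end Pool.Agent.H11A
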