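import Mathlib

/-! Products of independent stages: a bound for the moments. -/

set_option autoImplicit false

namespace Pool.Agent.H11A

open Finset

theorem pow_quad (r : ℕ) (z : ℝ) (h1 : -1 ≤ z) (h2 : z ≤ 3) : (1 + z) ^ r ≤ 1 + r * z + 5 ^ r * z ^ 2 := by
  induction r with
  | zero => simp; positivity
  | succ r ih =>
    have h0 : 0 ≤ 1 + z := by linarith
    have h3 := mul_le_mul_of_nonneg_right ih h0
    rw [pow_succ]
    refine h3.trans ?_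
    have hr : (r : ℝ) ≤ 5 ^ r := by
      have : r < 5 ^ r := Nat.lt_pow_self (by norm_num)
      exact_mod_cast this.le
    have h5 : (0 : ℝ) ≤ 5 ^ r := by positivity
    have hz2 : 0 ≤ z ^ 2 := sq_nonneg z
    have e : (1 + (r : ℝ) * z + 5 ^ r * z ^ 2) * (1 + z) = 1 + ((r : ℝ) + 1) * z + (r * z ^ 2 + 5 ^ r * z ^ 2 + 5 ^ r * z ^ 2 * z) := by ring
    rw [e]
    have a1 : r * z ^ 2 ≤ 5 ^ r * z ^ 2 := mul_le_mul_of_nonneg_right hr hz2
    have a2 : 5 ^ r * z ^ 2 * z ≤ 5 ^ r * z ^ 2 * 3 := mul_le_mul_of_nonneg_left h2 (by positivity)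
    push_cast
    have e2 : (5 : ℝ) ^ (r + 1) * z ^ 2 = 5 ^ r * z ^ 2 * 5 := by ring
    rw [e2]
    linarith

/-- one step of the potential -/
theorem pot_one (r : ℕ) (X θ M D : ℝ) (hθ : 0 < θ) (hM : M ^ 2 ≤ θ) (hD : |D| ≤ M) :
    ((X + D) ^ 2 + θ) ^ r ≤ (X ^ 2 + θ) ^ r * (1 + r * ((2 * X * D + D ^ 2) / (X ^ 2 + θ)) + 5 ^ r * (8 * D ^ 2 / (X ^ 2 + θ))) := by
  have hP : 0 < X ^ 2 + θ := by positivity
  have hM0 : 0 ≤ M := (abs_nonneg D).trans hD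
  have hD2 : D ^ 2 ≤ M ^ 2 := by
    rw [← sq_abs D]
    exact pow_le_pow_left₀ (abs_nonneg _) hD 2
  obtain ⟨z, hz⟩ : ∃ z, z = (2 * X * D + D ^ 2) / (X ^ 2 + θ) := ⟨_, rfl⟩
  have hz1 : -1 ≤ z := by
    rw [hz, le_div_iff₀ hP]
    have := sq_nonneg (X + D)
    nlinarith
  have hz3 : z ≤ 3 := by
    rw [hz, div_le_iff₀ hP]
    have := sq_nonneg (X - D)
    nlinarith
  have e : (X + D) ^ 2 + θ = (X ^ 2 + θ) * (1 + z) := by
    rw [hz]
    field_simp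
    ring
  rw [e, mul_pow, ← hz]
  apply mul_le_mul_of_nonneg_left _ (by positivity)
  refine (pow_quad r z hz1 hz3).trans ?_
  have hzz : z ^ 2 ≤ 8 * D ^ 2 / (X ^ 2 + θ) := by
    rw [hz, div_pow, div_le_div_iff₀ (by positivity) hP]
    have b1 : (2 * X * D + D ^ 2) ^ 2 ≤ 8 * D ^ 2 * (X ^ 2 + θ) := by
      have c1 : (2 * X * D + D ^ 2) ^ 2 = D ^ 2 * (2 * X + D) ^ 2 := by ring
      rw [c1]
      have c2 : (2 * X + D) ^ 2 ≤ 8 * (X ^ 2 + θ) := by
        have := sq_nonneg (2 * X - D)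
        nlinarith
      calc D ^ 2 * (2 * X + D) ^ 2 ≤ D ^ 2 * (8 * (X ^ 2 + θ)) := mul_le_mul_of_nonneg_left c2 (sq_nonneg _)
        _ = 8 * D ^ 2 * (X ^ 2 + θ) := by ring
    calc (2 * X * D + D ^ 2) ^ 2 * (X ^ 2 + θ) ≤ (8 * D ^ 2 * (X ^ 2 + θ)) * (X ^ 2 + θ) := mul_le_mul_of_nonneg_right b1 hP.le
      _ = 8 * D ^ 2 * (X ^ 2 + θ) ^ 2 := by ring
  have := mul_le_mul_of_nonneg_left hzz (by positivity : (0 : ℝ) ≤ 5 ^ r)
  linarith

/-- one stage of the potential -/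
theorem pot (r : ℕ) (X θ N q : ℝ) (hθ : 0 < θ) (hq : 0 < q) (hq1 : q ≤ 1) (hN : 0 ≤ N) (hNθ : (N / q) ^ 2 ≤ θ) :
    q * ((X + (1 / q - 1) * N) ^ 2 + θ) ^ r + (1 - q) * ((X - N) ^ 2 + θ) ^ r ≤
      (X ^ 2 + θ + 9 * 5 ^ r * ((N / q) ^ 2 * q * (1 - q))) ^ r := by
  rcases Nat.eq_zero_or_pos r with h0 | h0
  · subst h0
    simp
  have hP : 0 < X ^ 2 + θ := by positivity
  obtain ⟨M, hM⟩ : ∃ M, M = N / q := ⟨_, rfl⟩
  have hM0 : 0 ≤ M := by rw [hM]; positivity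
  have hNM : N = M * q := by rw [hM]; field_simp
  rw [← hM] at hNθ ⊢
  have e1 : (1 / q - 1) * N = M * (1 - q) := by rw [hNM]; field_simp
  rw [e1]
  have p1 := pot_one r X θ M (M * (1 - q)) hθ hNθ (by
    rw [abs_of_nonneg (mul_nonneg hM0 (by linarith))]
    calc M * (1 - q) ≤ M * 1 := mul_le_mul_of_nonneg_left (by linarith) hM0
      _ = M := mul_one M)
  have p2 := pot_one r X θ M (-(M * q)) hθ hNθ (by
    rw [abs_neg, abs_of_nonneg (mul_nonneg hM0 hq.le)]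
    calc M * q ≤ M * 1 := mul_le_mul_of_nonneg_left hq1 hM0
      _ = M := mul_one M)
  have e2 : X - N = X + -(M * q) := by rw [hNM]; ring
  rw [e2]
  have s1 := mul_le_mul_of_nonneg_left p1 hq.le
  have s2 := mul_le_mul_of_nonneg_left p2 (by linarith : 0 ≤ 1 - q)
  refine (add_le_add s1 s2).trans ?_
  obtain ⟨s, hs⟩ : ∃ s, s = M ^ 2 * q * (1 - q) := ⟨_, rfl⟩
  have hs0 : 0 ≤ s := by
    rw [hs]
    exact mul_nonneg (mul_nonneg (sq_nonneg _) hq.le) (by linarith)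
  have e3 : q * ((X ^ 2 + θ) ^ r * (1 + r * ((2 * X * (M * (1 - q)) + (M * (1 - q)) ^ 2) / (X ^ 2 + θ)) + 5 ^ r * (8 * (M * (1 - q)) ^ 2 / (X ^ 2 + θ)))) +
      (1 - q) * ((X ^ 2 + θ) ^ r * (1 + r * ((2 * X * -(M * q) + (-(M * q)) ^ 2) / (X ^ 2 + θ)) + 5 ^ r * (8 * (-(M * q)) ^ 2 / (X ^ 2 + θ)))) =
      (X ^ 2 + θ) ^ r * (1 + (r + 8 * 5 ^ r) * (s / (X ^ 2 + θ))) := by
    rw [hs]
    field_simp
    ring
  rw [e3, ← hs]
  have hr : (r : ℝ) ≤ 5 ^ r := by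
    have : r < 5 ^ r := Nat.lt_pow_self (by norm_num)
    exact_mod_cast this.le
  have hsP : 0 ≤ s / (X ^ 2 + θ) := by positivity
  have h4 : 1 + (r + 8 * 5 ^ r) * (s / (X ^ 2 + θ)) ≤ (1 + 9 * 5 ^ r * (s / (X ^ 2 + θ))) ^ r := by
    have h5 : 1 + (r + 8 * 5 ^ r) * (s / (X ^ 2 + θ)) ≤ 1 + 9 * 5 ^ r * (s / (X ^ 2 + θ)) := by
      have := mul_le_mul_of_nonneg_right (by linarith : (r : ℝ) + 8 * 5 ^ r ≤ 9 * 5 ^ r) hsP
      linarith
    refine h5.trans ?_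
    exact le_self_pow₀ (by
      have : 0 ≤ 9 * 5 ^ r * (s / (X ^ 2 + θ)) := by positivity
      linarith) (by omega)
  calc (X ^ 2 + θ) ^ r * (1 + (r + 8 * 5 ^ r) * (s / (X ^ 2 + θ))) ≤ (X ^ 2 + θ) ^ r * (1 + 9 * 5 ^ r * (s / (X ^ 2 + θ))) ^ r :=
        mul_le_mul_of_nonneg_left h4 (by positivity)
    _ = (X ^ 2 + θ + 9 * 5 ^ r * s) ^ r := by
        rw [← mul_pow]
        congr 1
        field_simp

/-- the multiplication on a set -/
noncomputable def mulOn (A : Finset ℕ) (x : ℝ) (v : ℕ → ℝ) : ℕ → ℝ := fun n => if n ∈ A then v n * x else v n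

/-- the expectation after the stages of the list -/
noncomputable def Em : List (Finset ℕ × ℝ) → ((ℕ → ℝ) → ℝ) → (ℕ → ℝ) → ℝ
  | [], F, v => F v
  | s :: l, F, v => s.2 * Em l F (mulOn s.1 (1 / s.2) v) + (1 - s.2) * Em l F (mulOn s.1 0 v)

/-- the total factor -/
noncomputable def wg (l : List (Finset ℕ × ℝ)) (n : ℕ) : ℝ := (l.map (fun s => if n ∈ s.1 then 1 / s.2 else 1)).prod

theorem wg_nil (n : ℕ) : wg [] n = 1 := by simp [wg]

theorem wg_cons (s : Finset ℕ × ℝ) (l : List (Finset ℕ × ℝ)) (n : ℕ) :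
    wg (s :: l) n = (if n ∈ s.1 then 1 / s.2 else 1) * wg l n := by simp [wg]

theorem wg_append (l l' : List (Finset ℕ × ℝ)) (n : ℕ) : wg (l ++ l') n = wg l n * wg l' n := by simp [wg]

theorem wg_ge (l : List (Finset ℕ × ℝ)) (hl : ∀ s ∈ l, 0 < s.2 ∧ s.2 ≤ 1) (n : ℕ) : 1 ≤ wg l n := by
  induction l with
  | nil => rw [wg_nil]
  | cons s l ih =>
    rw [wg_cons]
    have h1 := ih (fun s' hs' => hl s' (List.mem_cons_of_mem _ hs'))
    obtain ⟨h2, h3⟩ := hl s List.mem_cons_self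
    have h4 : (1 : ℝ) ≤ if n ∈ s.1 then 1 / s.2 else 1 := by
      split_ifs
      · rw [le_div_iff₀ h2]; linarith
      · exact le_refl _
    calc (1 : ℝ) = 1 * 1 := by ring
      _ ≤ _ := mul_le_mul h4 h1 zero_le_one (by linarith)

theorem Em_append (l l' : List (Finset ℕ × ℝ)) (F : (ℕ → ℝ) → ℝ) (v : ℕ → ℝ) :
    Em (l ++ l') F v = Em l (fun v' => Em l' F v') v := by
  induction l generalizing v with
  | nil => rfl
  | cons s l ih =>
    simp only [List.cons_append, Em]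
    rw [ih, ih]

theorem Em_smul (l : List (Finset ℕ × ℝ)) (c : ℝ) (F : (ℕ → ℝ) → ℝ) (v : ℕ → ℝ) :
    Em l (fun v => c * F v) v = c * Em l F v := by
  induction l generalizing v with
  | nil => rfl
  | cons s l ih =>
    simp only [Em]
    rw [ih, ih]
    ring

theorem Em_sum {ι : Type*} (I : Finset ι) (l : List (Finset ℕ × ℝ)) (F : ι → (ℕ → ℝ) → ℝ) (v : ℕ → ℝ) :
    Em l (fun v => ∑ i ∈ I, F i v) v = ∑ i ∈ I, Em l (F i) v := by
  induction l generalizing v with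
  | nil => rfl
  | cons s l ih =>
    simp only [Em]
    rw [ih, ih, mul_sum, mul_sum, ← sum_add_distrib]

theorem Em_congr (D : Finset ℕ) (l : List (Finset ℕ × ℝ)) (F G : (ℕ → ℝ) → ℝ) (v : ℕ → ℝ)
    (h : ∀ v' : ℕ → ℝ, (∀ n ∈ D, v' n = 0 ∨ v' n = v n * wg l n) → F v' = G v') : Em l F v = Em l G v := by
  induction l generalizing v with
  | nil =>
    simp only [Em]
    apply h
    intro n _
    right
    rw [wg_nil, mul_one]
  | cons s l ih =>
    simp only [Em]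
    rw [ih (mulOn s.1 (1 / s.2) v), ih (mulOn s.1 0 v)]
    · intro v' hv'
      apply h
      intro n hn
      rcases hv' n hn with h1 | h1
      · exact Or.inl h1
      · unfold mulOn at h1
        rw [wg_cons]
        by_cases hA : n ∈ s.1
        · rw [if_pos hA] at h1
          left; rw [h1]; ring
        · rw [if_neg hA] at h1
          right; rw [h1, if_neg hA]; ring
    · intro v' hv'
      apply h
      intro n hn
      rcases hv' n hn with h1 | h1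
      · exact Or.inl h1
      · unfold mulOn at h1
        rw [wg_cons]
        by_cases hA : n ∈ s.1
        · rw [if_pos hA] at h1
          right; rw [h1, if_pos hA]; ring
        · rw [if_neg hA] at h1
          right; rw [h1, if_neg hA]; ring

/-- the factor of a stage -/
noncomputable def pf (S : Finset ℕ) (s : Finset ℕ × ℝ) : ℝ := if (S ∩ s.1).Nonempty then s.2 * (1 / s.2) ^ (S ∩ s.1).card else 1

theorem prod_mulOn (S A : Finset ℕ) (x : ℝ) (v : ℕ → ℝ) : ∏ n ∈ S, mulOn A x v n = (∏ n ∈ S, v n) * x ^ (S ∩ A).card := by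
  classical
  have h : ∀ n ∈ S, mulOn A x v n = v n * (if n ∈ A then x else 1) := by
    intro n _
    unfold mulOn
    split_ifs <;> ring
  rw [prod_congr rfl h, prod_mul_distrib]
  congr 1
  rw [← prod_filter, prod_const, filter_mem_eq_inter]

theorem Em_prod (l : List (Finset ℕ × ℝ)) (S : Finset ℕ) (v : ℕ → ℝ) :
    Em l (fun v => ∏ n ∈ S, v n) v = (∏ n ∈ S, v n) * (l.map (pf S)).prod := by
  induction l generalizing v with
  | nil => simp [Em]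
  | cons s l ih =>
    simp only [Em]
    rw [ih, ih, prod_mulOn, prod_mulOn, List.map_cons, List.prod_cons]
    unfold pf
    split_ifs with h
    · have : (S ∩ s.1).card ≠ 0 := (card_pos.2 h).ne'
      rw [zero_pow this]
      ring
    · rw [not_nonempty_iff_eq_empty] at h
      rw [h, card_empty, pow_zero, pow_zero]
      ring

theorem sum_mulOn (D A : Finset ℕ) (hA : A ⊆ D) (x : ℝ) (v : ℕ → ℝ) :
    ∑ n ∈ D, mulOn A x v n = ∑ n ∈ D, v n + (x - 1) * ∑ n ∈ A, v n := by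
  classical
  have h : ∀ n ∈ D, mulOn A x v n = v n + (if n ∈ A then (x - 1) * v n else 0) := by
    intro n _
    unfold mulOn
    split_ifs <;> ring
  rw [sum_congr rfl h, sum_add_distrib, mul_sum, ← sum_filter]
  congr 2
  ext n
  rw [mem_filter]
  exact ⟨fun h => h.2, fun h => ⟨hA h, h⟩⟩

/-- the bound for the moments -/
theorem Em_bound (r : ℕ) (D : Finset ℕ) (τ : ℝ) (V : ℕ → ℝ) (G : (ℕ → ℝ) → ℝ) (θ : ℝ) (hθ : 0 < θ)
    (hG : ∀ v : ℕ → ℝ, (∀ n ∈ D, 0 ≤ v n ∧ v n ≤ V n) → G v ≤ ((∑ n ∈ D, v n - τ) ^ 2 + θ) ^ r)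
    (l : List (Finset ℕ × ℝ)) (hl : ∀ s ∈ l, s.1 ⊆ D ∧ 0 < s.2 ∧ s.2 ≤ 1 ∧ (∑ n ∈ s.1, V n) ^ 2 ≤ θ) (v : ℕ → ℝ)
    (hv : ∀ n ∈ D, 0 ≤ v n ∧ v n * wg l n ≤ V n) :
    Em l G v ≤ ((∑ n ∈ D, v n - τ) ^ 2 + θ + (l.map (fun s => 9 * 5 ^ r * ((∑ n ∈ s.1, V n) ^ 2 * s.2 * (1 - s.2)))).sum) ^ r := by
  induction l generalizing v with
  | nil =>
    simp only [Em, List.map_nil, List.sum_nil, add_zero]
    apply hG
    intro n hn
    have := hv n hn
    rwa [wg_nil, mul_one] at this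
  | cons s l ih =>
    simp only [Em, List.map_cons, List.sum_cons]
    have hl' : ∀ s' ∈ l, s'.1 ⊆ D ∧ 0 < s'.2 ∧ s'.2 ≤ 1 ∧ (∑ n ∈ s'.1, V n) ^ 2 ≤ θ := fun s' hs' => hl s' (List.mem_cons_of_mem _ hs')
    obtain ⟨hA, hq, hq1, hAθ⟩ := hl s List.mem_cons_self
    obtain ⟨S', hS'⟩ : ∃ S', S' = (l.map (fun s => 9 * 5 ^ r * ((∑ n ∈ s.1, V n) ^ 2 * s.2 * (1 - s.2)))).sum := ⟨_, rfl⟩
    have hS0 : 0 ≤ S' := by
      rw [hS']
      apply List.sum_nonneg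
      intro x hx
      rw [List.mem_map] at hx
      obtain ⟨s', hs', rfl⟩ := hx
      obtain ⟨_, h2, h3, _⟩ := hl' s' hs'
      exact mul_nonneg (by positivity) (mul_nonneg (mul_nonneg (sq_nonneg _) h2.le) (by linarith))
    have hwg : ∀ n, 1 ≤ wg l n := wg_ge l (fun s' hs' => ⟨(hl' s' hs').2.1, (hl' s' hs').2.2.1⟩)
    have h1q : 1 ≤ 1 / s.2 := by rw [le_div_iff₀ hq]; linarith
    have hv1 : ∀ n ∈ D, 0 ≤ mulOn s.1 (1 / s.2) v n ∧ mulOn s.1 (1 / s.2) v n * wg l n ≤ V n := by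
      intro n hn
      obtain ⟨a1, a2⟩ := hv n hn
      rw [wg_cons] at a2
      unfold mulOn
      split_ifs at a2 ⊢ with h
      · exact ⟨mul_nonneg a1 (by linarith), by rw [mul_assoc]; exact a2⟩
      · exact ⟨a1, by rw [one_mul] at a2; exact a2⟩
    have hv0 : ∀ n ∈ D, 0 ≤ mulOn s.1 0 v n ∧ mulOn s.1 0 v n * wg l n ≤ V n := by
      intro n hn
      obtain ⟨a1, a2⟩ := hv n hn
      obtain ⟨b1, b2⟩ := hv1 n hn
      rw [wg_cons] at a2
      unfold mulOn at b1 b2 ⊢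
      split_ifs at a2 b1 b2 ⊢ with h
      · rw [mul_zero, zero_mul]
        refine ⟨le_refl _, le_trans ?_ b2⟩
        exact mul_nonneg b1 (by linarith [hwg n])
      · exact ⟨a1, by rw [one_mul] at a2; exact a2⟩
    have i1 := ih hl' (mulOn s.1 (1 / s.2) v) hv1
    have i0 := ih hl' (mulOn s.1 0 v) hv0
    rw [← hS', sum_mulOn D s.1 hA] at i1 i0
    obtain ⟨N, hN⟩ : ∃ N, N = ∑ n ∈ s.1, v n := ⟨_, rfl⟩
    have hN0 : 0 ≤ N := by
      rw [hN]
      exact sum_nonneg fun n hn => (hv n (hA hn)).1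
    have hNV : N / s.2 ≤ ∑ n ∈ s.1, V n := by
      rw [hN, sum_div]
      apply sum_le_sum
      intro n hn
      obtain ⟨b1, b2⟩ := hv1 n (hA hn)
      unfold mulOn at b1 b2
      rw [if_pos hn] at b1 b2
      have e : v n / s.2 = v n * (1 / s.2) := by ring
      rw [e]
      refine le_trans ?_ b2
      have := mul_le_mul_of_nonneg_left (hwg n) b1
      linarith
    have hNq0 : 0 ≤ N / s.2 := by positivity
    have hsq : (N / s.2) ^ 2 ≤ (∑ n ∈ s.1, V n) ^ 2 := pow_le_pow_left₀ hNq0 hNV 2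
    rw [← hN] at i1 i0
    have key := pot r (∑ n ∈ D, v n - τ) (θ + S') N s.2 (by linarith) hq hq1 hN0 (by linarith)
    have e1 : ∑ n ∈ D, v n + (1 / s.2 - 1) * N - τ = ∑ n ∈ D, v n - τ + (1 / s.2 - 1) * N := by ring
    have e0 : ∑ n ∈ D, v n + (0 - 1) * N - τ = ∑ n ∈ D, v n - τ - N := by ring
    rw [e1, add_assoc] at i1
    rw [e0, add_assoc] at i0
    have j1 := mul_le_mul_of_nonneg_left i1 hq.le
    have j0 := mul_le_mul_of_nonneg_left i0 (by linarith : 0 ≤ 1 - s.2)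
    refine (add_le_add j1 j0).trans (key.trans ?_)
    apply pow_le_pow_left₀
    · have : 0 ≤ (N / s.2) ^ 2 * s.2 * (1 - s.2) := mul_nonneg (mul_nonneg (sq_nonneg _) hq.le) (by linarith)
      have h5 : (0 : ℝ) ≤ 9 * 5 ^ r := by positivity
      have := mul_nonneg h5 this
      have := sq_nonneg (∑ n ∈ D, v n - τ)
      linarith
    · have h1 : (N / s.2) ^ 2 * s.2 * (1 - s.2) ≤ (∑ n ∈ s.1, V n) ^ 2 * s.2 * (1 - s.2) :=
        mul_le_mul_of_nonneg_right (mul_le_mul_of_nonneg_right hsq hq.le) (by linarith)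
      have h2 := mul_le_mul_of_nonneg_left h1 (by positivity : (0 : ℝ) ≤ 9 * 5 ^ r)
      linarith

end Pool.Agent.H11A
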