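import Mathlib
import Pool.Agent.H11A.Mo1
import Pool.Agent.H11A.Corr4

/-! The moments of a sum with the correlations of a product of independent stages. -/

set_option autoImplicit false

namespace Pool.Agent.H11A

open Finset

/-- the stages of the primes -/
noncomputable def lP (D P : Finset ℕ) (q : ℕ → ℝ) : List (Finset ℕ × ℝ) :=
  (P.sigma (fun p => range p)).toList.map (fun x => (D.filter (fun n => n % x.1 = x.2), q x.1))

/-- the last stages -/
noncomputable def lL (D : Finset ℕ) (K : ℝ) (lam : ℕ → ℝ) : List (Finset ℕ × ℝ) :=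
  D.toList.map (fun n => ({n}, K / lam n))

theorem prod_lP (D P : Finset ℕ) (q : ℕ → ℝ) (f : Finset ℕ × ℝ → ℝ) :
    ((lP D P q).map f).prod = ∏ p ∈ P, ∏ c ∈ range p, f (D.filter (fun n => n % p = c), q p) := by
  unfold lP
  rw [List.map_map, Finset.prod_map_toList, Finset.prod_sigma]
  rfl

theorem sum_lP (D P : Finset ℕ) (q : ℕ → ℝ) (f : Finset ℕ × ℝ → ℝ) :
    ((lP D P q).map f).sum = ∑ p ∈ P, ∑ c ∈ range p, f (D.filter (fun n => n % p = c), q p) := by
  unfold lP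
  rw [List.map_map, Finset.sum_map_toList, Finset.sum_sigma]
  rfl

theorem prod_lL (D : Finset ℕ) (K : ℝ) (lam : ℕ → ℝ) (f : Finset ℕ × ℝ → ℝ) :
    ((lL D K lam).map f).prod = ∏ n ∈ D, f ({n}, K / lam n) := by
  unfold lL
  rw [List.map_map, Finset.prod_map_toList]
  rfl

theorem sum_lL (D : Finset ℕ) (K : ℝ) (lam : ℕ → ℝ) (f : Finset ℕ × ℝ → ℝ) :
    ((lL D K lam).map f).sum = ∑ n ∈ D, f ({n}, K / lam n) := by
  unfold lL
  rw [List.map_map, Finset.sum_map_toList]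
  rfl

theorem wg_lP (D P : Finset ℕ) (q : ℕ → ℝ) (hP : ∀ p ∈ P, 0 < p) (n : ℕ) (hn : n ∈ D) :
    wg (lP D P q) n = ∏ p ∈ P, 1 / q p := by
  unfold wg
  rw [prod_lP]
  apply prod_congr rfl
  intro p hp
  have h1 : ∀ c ∈ range p, (if n ∈ D.filter (fun n => n % p = c) then 1 / q p else 1) = if n % p = c then 1 / q p else 1 := by
    intro c _
    simp only [mem_filter, hn, true_and]
  simp only at h1 ⊢
  rw [prod_congr rfl h1, Finset.prod_ite_eq, if_pos (mem_range.2 (Nat.mod_lt _ (hP p hp)))]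

theorem wg_lL (D : Finset ℕ) (K : ℝ) (lam : ℕ → ℝ) (n : ℕ) (hn : n ∈ D) :
    wg (lL D K lam) n = 1 / (K / lam n) := by
  unfold wg
  rw [prod_lL]
  have h1 : ∀ m ∈ D, (if n ∈ ({m} : Finset ℕ) then 1 / (K / lam m) else 1) = if n = m then 1 / (K / lam m) else 1 := by
    intro m _
    simp only [mem_singleton]
  simp only at h1 ⊢
  rw [prod_congr rfl h1, Finset.prod_ite_eq, if_pos hn]

theorem pf_lP (D P S : Finset ℕ) (hS : S ⊆ D) (q : ℕ → ℝ) (hP : ∀ p ∈ P, 0 < p) :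
    ((lP D P q).map (pf S)).prod = ∏ p ∈ P, (q p ^ nuS p S * (1 / q p) ^ S.card) := by
  classical
  rw [prod_lP]
  apply prod_congr rfl
  intro p hp
  have hp0 := hP p hp
  have hint : ∀ c, S ∩ D.filter (fun n => n % p = c) = S.filter (fun n => n % p = c) := by
    intro c
    ext n
    simp only [mem_inter, mem_filter]
    exact ⟨fun h => ⟨h.1, h.2.2⟩, fun h => ⟨h.1, hS h.1, h.2⟩⟩
  have h1 : ∀ c ∈ range p, pf S (D.filter (fun n => n % p = c), q p) =
      (if (S.filter (fun n => n % p = c)).Nonempty then q p else 1) * (1 / q p) ^ (S.filter (fun n => n % p = c)).card := by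
    intro c _
    unfold pf
    simp only [hint]
    split_ifs with h
    · rfl
    · rw [not_nonempty_iff_eq_empty] at h
      rw [h, card_empty, pow_zero, mul_one]
  rw [prod_congr rfl h1, prod_mul_distrib]
  congr 1
  · rw [← prod_filter, prod_const]
    congr 1
    unfold nuS
    congr 1
    ext c
    simp only [mem_filter, mem_range, mem_image]
    constructor
    · rintro ⟨_, n, hn⟩
      rw [mem_filter] at hn
      exact ⟨n, hn.1, hn.2⟩
    · rintro ⟨n, hn, rfl⟩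
      exact ⟨Nat.mod_lt _ hp0, n, by rw [mem_filter]; exact ⟨hn, rfl⟩⟩
  · rw [prod_pow_eq_pow_sum]
    congr 1
    exact (card_eq_sum_card_fiberwise (f := fun n => n % p) (t := range p) (fun n _ => by
      simp only [coe_range, Set.mem_Iio]
      exact Nat.mod_lt _ hp0)).symm

theorem pf_lL (D S : Finset ℕ) (K : ℝ) (lam : ℕ → ℝ) (hq : ∀ n ∈ D, K / lam n ≠ 0) :
    ((lL D K lam).map (pf S)).prod = 1 := by
  classical
  rw [prod_lL]
  apply prod_eq_one
  intro n hn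
  unfold pf
  by_cases h : n ∈ S
  · have e : S ∩ {n} = {n} := by
      ext m; simp only [mem_inter, mem_singleton]
      exact ⟨fun h => h.2, fun h' => ⟨h' ▸ h, h'⟩⟩
    rw [e, card_singleton, if_pos (singleton_nonempty n), pow_one]
    exact mul_one_div_cancel (hq n hn)
  · have e : S ∩ {n} = ∅ := by
      ext m; simp only [mem_inter, mem_singleton, notMem_empty, iff_false, not_and]
      rintro h1 rfl
      exact h h1
    rw [e, if_neg (by simp)]

/-- the powers of a difference of two functions with two values -/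
theorem two_val (x g lam κ : ℝ) (hlam : lam ≠ 0) (hκ : κ ≠ 0) (hg : g = 0 ∨ g = κ) (hx : x = 0 ∨ (x = lam ∧ g = κ)) (e : ℕ) (he : e ≠ 0) :
    (x - g) ^ e = ((lam - κ) ^ e - (-κ) ^ e) / lam * x + (-κ) ^ e / κ * g := by
  rcases hx with hx | ⟨hx, hg'⟩
  · rcases hg with hg | hg
    · rw [hx, hg, sub_zero, zero_pow he]; ring
    · rw [hx, hg, zero_sub]; field_simp; ring
  · rw [hx, hg']; field_simp; ring

theorem coef_a (lam κ Λ : ℝ) (h1 : 1 ≤ κ) (h2 : κ ≤ lam) (h3 : lam ≤ Λ) (e : ℕ) (he : e ≠ 0) :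
    |((lam - κ) ^ e - (-κ) ^ e) / lam| ≤ (2 * Λ) ^ e := by
  have hlam : 0 < lam := by linarith
  have a1 : |(lam - κ) ^ e - (-κ) ^ e| ≤ Λ ^ e + Λ ^ e := by
    refine (abs_sub _ _).trans (add_le_add ?_ ?_)
    · rw [abs_pow, abs_of_nonneg (by linarith)]
      exact pow_le_pow_left₀ (by linarith) (by linarith) e
    · rw [abs_pow, abs_neg, abs_of_nonneg (by linarith)]
      exact pow_le_pow_left₀ (by linarith) (by linarith) e
  rw [abs_div, abs_of_pos hlam, div_le_iff₀ hlam]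
  have a2 : Λ ^ e + Λ ^ e ≤ (2 * Λ) ^ e := by
    rw [mul_pow]
    have h4 : (2 : ℝ) ≤ 2 ^ e := le_self_pow₀ (by norm_num) he
    have h5 : 0 ≤ Λ ^ e := by
      have : 0 ≤ Λ := by linarith
      positivity
    nlinarith
  have h6 : 0 ≤ (2 * Λ) ^ e := by
    have : 0 ≤ Λ := by linarith
    positivity
  nlinarith

theorem coef_b (κ Λ : ℝ) (h1 : 1 ≤ κ) (h3 : κ ≤ Λ) (e : ℕ) : |(-κ) ^ e / κ| ≤ (2 * Λ) ^ e := by
  have hκ : 0 < κ := by linarith
  rw [abs_div, abs_of_pos hκ, div_le_iff₀ hκ, abs_pow, abs_neg, abs_of_pos hκ]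
  have h4 : κ ^ e ≤ (2 * Λ) ^ e := pow_le_pow_left₀ hκ.le (by linarith) e
  have h6 : 0 ≤ (2 * Λ) ^ e := by
    have : 0 ≤ Λ := by linarith
    positivity
  nlinarith

/-- the multiplicity of a value -/
def mlt {R : ℕ} (φ : Fin R → ℕ) (n : ℕ) : ℕ := (univ.filter (fun j => φ j = n)).card

/-- the coefficient of a term -/
noncomputable def cf {R : ℕ} (lam : ℕ → ℝ) (κ : ℝ) (φ : Fin R → ℕ) (S : Finset ℕ) : ℝ :=
  (∏ n ∈ S, ((lam n - κ) ^ mlt φ n - (-κ) ^ mlt φ n) / lam n) * ∏ n ∈ univ.image φ \ S, (-κ) ^ mlt φ n / κ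

theorem expand (R : ℕ) (D : Finset ℕ) (x g lam : ℕ → ℝ) (κ : ℝ) (hκ : κ ≠ 0)
    (h : ∀ n ∈ D, lam n ≠ 0 ∧ (g n = 0 ∨ g n = κ) ∧ (x n = 0 ∨ (x n = lam n ∧ g n = κ))) :
    (∑ n ∈ D, (x n - g n)) ^ R = ∑ φ ∈ Fintype.piFinset (fun _ : Fin R => D), ∑ S ∈ (univ.image φ).powerset,
      cf lam κ φ S * ((∏ n ∈ S, x n) * ∏ n ∈ univ.image φ \ S, g n) := by
  classical
  rw [sum_pow']
  apply sum_congr rfl
  intro φ hφ
  rw [Fintype.mem_piFinset] at hφ
  rw [prod_comp (fun n => x n - g n) φ]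
  have h1 : ∀ n ∈ univ.image φ, (x n - g n) ^ (univ.filter (fun j => φ j = n)).card =
      ((lam n - κ) ^ mlt φ n - (-κ) ^ mlt φ n) / lam n * x n + (-κ) ^ mlt φ n / κ * g n := by
    intro n hn
    rw [mem_image] at hn
    obtain ⟨j, _, hj⟩ := hn
    have hnD : n ∈ D := hj ▸ hφ j
    obtain ⟨a1, a2, a3⟩ := h n hnD
    apply two_val _ _ _ _ a1 hκ a2 a3
    apply ne_of_gt
    rw [card_pos]
    exact ⟨j, by rw [mem_filter]; exact ⟨mem_univ _, hj⟩⟩
  rw [prod_congr rfl h1, prod_add]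
  apply sum_congr rfl
  intro S _
  unfold cf
  rw [prod_mul_distrib, prod_mul_distrib]
  ring

theorem cf_le {R : ℕ} (D : Finset ℕ) (lam : ℕ → ℝ) (κ Λ : ℝ) (h1 : 1 ≤ κ) (h : ∀ n ∈ D, κ ≤ lam n ∧ lam n ≤ Λ)
    (φ : Fin R → ℕ) (hφ : ∀ j, φ j ∈ D) (S : Finset ℕ) (hS : S ⊆ univ.image φ) : |cf lam κ φ S| ≤ (2 * Λ) ^ R := by
  classical
  have hmem : ∀ n ∈ univ.image φ, n ∈ D ∧ mlt φ n ≠ 0 := by
    intro n hn
    rw [mem_image] at hn
    obtain ⟨j, _, hj⟩ := hn
    refine ⟨hj ▸ hφ j, ?_⟩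
    unfold mlt
    apply ne_of_gt
    rw [card_pos]
    exact ⟨j, by rw [mem_filter]; exact ⟨mem_univ _, hj⟩⟩
  have e : ∑ n ∈ univ.image φ, mlt φ n = R := by
    have := card_eq_sum_card_image φ (univ : Finset (Fin R))
    rw [card_univ, Fintype.card_fin] at this
    exact this.symm
  unfold cf
  rw [abs_mul, abs_prod, abs_prod]
  calc (∏ n ∈ S, |((lam n - κ) ^ mlt φ n - (-κ) ^ mlt φ n) / lam n|) * ∏ n ∈ univ.image φ \ S, |(-κ) ^ mlt φ n / κ| ≤
      (∏ n ∈ S, (2 * Λ) ^ mlt φ n) * ∏ n ∈ univ.image φ \ S, (2 * Λ) ^ mlt φ n := by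
        apply mul_le_mul
        · apply prod_le_prod (fun _ _ => abs_nonneg _)
          intro n hn
          obtain ⟨hD, he⟩ := hmem n (hS hn)
          exact coef_a _ _ _ h1 (h n hD).1 (h n hD).2 _ he
        · apply prod_le_prod (fun _ _ => abs_nonneg _)
          intro n hn
          obtain ⟨hD, he⟩ := hmem n (mem_sdiff.1 hn).1
          exact coef_b _ _ h1 ((h n hD).1.trans (h n hD).2) _
        · exact prod_nonneg fun _ _ => abs_nonneg _
        · apply prod_nonneg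
          intro n hn
          obtain ⟨hD, he⟩ := hmem n (hS hn)
          have := h n hD
          have : 0 ≤ 2 * Λ := by linarith
          positivity
    _ = ∏ n ∈ univ.image φ, (2 * Λ) ^ mlt φ n := by rw [mul_comm]; exact prod_sdiff hS
    _ = (2 * Λ) ^ R := by rw [prod_pow_eq_pow_sum, e]

/-- the moments of the model -/
theorem model_bound (D P : Finset ℕ) (q : ℕ → ℝ) (hq : ∀ p ∈ P, 0 < p ∧ 0 < q p ∧ q p ≤ 1) (lam : ℕ → ℝ) (κ K Λ : ℝ) (hκ : 1 ≤ κ)
    (hK : K = κ * ∏ p ∈ P, (1 / q p)) (hlam : ∀ n ∈ D, K ≤ lam n ∧ lam n ≤ Λ) (hΛ : 1 ≤ Λ) (g : ℕ → ℝ)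
    (hg : ∀ n ∈ D, g n = 0 ∨ g n = κ) (r : ℕ) (N : ℕ → ℝ) (hN : ∀ p ∈ P, ∀ c < p, ((D.filter (fun n => n % p = c)).card : ℝ) ≤ N p)
    (N0 : ℝ) (hN0 : ∀ p ∈ P, N p ≤ N0) :
    Em (lP D P q ++ lL D K lam) (fun v => (∑ n ∈ D, (v n - g n)) ^ (2 * r)) g ≤
      (Λ ^ 2 + (K * N0) ^ 2 + 9 * 5 ^ r * (K ^ 2 * D.card * (∑ p ∈ P, (1 - q p) * N p) + D.card * Λ * K)) ^ r := by
  classical
  have hprod : 1 ≤ ∏ p ∈ P, (1 / q p) := by
    have : ∏ _p ∈ P, (1 : ℝ) ≤ ∏ p ∈ P, (1 / q p) := prod_le_prod (fun _ _ => zero_le_one) (fun p hp => by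
      obtain ⟨_, h2, h3⟩ := hq p hp
      rw [le_div_iff₀ h2]; linarith)
    rwa [prod_const_one] at this
  have hK1 : 1 ≤ K := by
    rw [hK]
    calc (1 : ℝ) = 1 * 1 := by ring
      _ ≤ _ := mul_le_mul hκ hprod zero_le_one (by linarith)
  have hK0 : 0 < K := by linarith
  obtain ⟨θ, hθ⟩ : ∃ θ, θ = Λ ^ 2 + (K * N0) ^ 2 := ⟨_, rfl⟩
  have hθ0 : 0 < θ := by rw [hθ]; positivity
  obtain ⟨S2, hS2⟩ : ∃ S2, S2 = 9 * 5 ^ r * (D.card * Λ * K) := ⟨_, rfl⟩
  have hS20 : 0 ≤ S2 := by rw [hS2]; positivity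
  have inner : ∀ v : ℕ → ℝ, (∀ n ∈ D, 0 ≤ v n ∧ v n ≤ K) →
      Em (lL D K lam) (fun v => (∑ n ∈ D, (v n - g n)) ^ (2 * r)) v ≤ ((∑ n ∈ D, v n - ∑ n ∈ D, g n) ^ 2 + (θ + S2)) ^ r := by
    intro v hv
    have h1 := Em_bound r D (∑ n ∈ D, g n) lam (fun v => (∑ n ∈ D, (v n - g n)) ^ (2 * r)) θ hθ0 (by
      intro v' _
      rw [sum_sub_distrib, pow_mul]
      exact pow_le_pow_left₀ (sq_nonneg _) (by linarith) r) (lL D K lam) (by
      intro s hs
      unfold lL at hs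
      rw [List.mem_map] at hs
      obtain ⟨n, hn, rfl⟩ := hs
      rw [mem_toList] at hn
      obtain ⟨b1, b2⟩ := hlam n hn
      have hl0 : 0 < lam n := by linarith
      refine ⟨by simpa using hn, by positivity, by rw [div_le_one hl0]; exact b1, ?_⟩
      simp only [sum_singleton]
      rw [hθ]
      have := pow_le_pow_left₀ hl0.le b2 2
      have := sq_nonneg (K * N0)
      linarith) v (by
      intro n hn
      obtain ⟨b1, b2⟩ := hlam n hn
      have hl0 : 0 < lam n := by linarith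
      refine ⟨(hv n hn).1, ?_⟩
      rw [wg_lL D K lam n hn, one_div_div]
      calc v n * (lam n / K) ≤ K * (lam n / K) := mul_le_mul_of_nonneg_right (hv n hn).2 (by positivity)
        _ = lam n := by field_simp)
    refine h1.trans ?_
    have hs : ((lL D K lam).map (fun s => 9 * 5 ^ r * ((∑ n ∈ s.1, lam n) ^ 2 * s.2 * (1 - s.2)))).sum ≤ S2 := by
      rw [sum_lL, hS2]
      calc ∑ n ∈ D, 9 * 5 ^ r * ((∑ n ∈ ({n} : Finset ℕ), lam n) ^ 2 * (K / lam n) * (1 - K / lam n)) ≤ ∑ _n ∈ D, 9 * 5 ^ r * (Λ * K) := by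
            apply sum_le_sum
            intro n hn
            obtain ⟨b1, b2⟩ := hlam n hn
            have hl0 : 0 < lam n := by linarith
            apply mul_le_mul_of_nonneg_left _ (by positivity)
            rw [sum_singleton]
            have e : lam n ^ 2 * (K / lam n) = lam n * K := by field_simp
            rw [e]
            have h3 : 1 - K / lam n ≤ 1 := by
              have : 0 ≤ K / lam n := by positivity
              linarith
            calc lam n * K * (1 - K / lam n) ≤ lam n * K * 1 := mul_le_mul_of_nonneg_left h3 (by positivity)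
              _ = lam n * K := mul_one _
              _ ≤ Λ * K := mul_le_mul_of_nonneg_right b2 hK0.le
        _ = 9 * 5 ^ r * (D.card * Λ * K) := by rw [sum_const, nsmul_eq_mul]; ring
    apply pow_le_pow_left₀
    · have h5 : 0 ≤ ((lL D K lam).map (fun s => 9 * 5 ^ r * ((∑ n ∈ s.1, lam n) ^ 2 * s.2 * (1 - s.2)))).sum := by
        rw [sum_lL]
        apply sum_nonneg
        intro n hn
        obtain ⟨b1, b2⟩ := hlam n hn
        have hl0 : 0 < lam n := by linarith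
        have h3 : 0 ≤ 1 - K / lam n := by
          have : K / lam n ≤ 1 := by rw [div_le_one hl0]; exact b1
          linarith
        exact mul_nonneg (by positivity) (mul_nonneg (by positivity) h3)
      have := sq_nonneg (∑ n ∈ D, v n - ∑ n ∈ D, g n)
      linarith
    · linarith
  rw [Em_append]
  have h2 := Em_bound r D (∑ n ∈ D, g n) (fun _ => K) (fun v' => Em (lL D K lam) (fun v => (∑ n ∈ D, (v n - g n)) ^ (2 * r)) v')
    (θ + S2) (by linarith) inner (lP D P q) (by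
      intro s hs
      unfold lP at hs
      rw [List.mem_map] at hs
      obtain ⟨x, hx, rfl⟩ := hs
      rw [mem_toList, mem_sigma, mem_range] at hx
      obtain ⟨b0, b1, b2⟩ := hq x.1 hx.1
      refine ⟨filter_subset _ _, b1, b2, ?_⟩
      simp only [sum_const, nsmul_eq_mul]
      have h3 := (hN x.1 hx.1 x.2 hx.2).trans (hN0 x.1 hx.1)
      have h4 : ((D.filter (fun n => n % x.1 = x.2)).card : ℝ) * K ≤ K * N0 := by
        rw [mul_comm]
        exact mul_le_mul_of_nonneg_left h3 hK0.le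
      have h5 := pow_le_pow_left₀ (by positivity) h4 2
      rw [hθ]
      have := sq_nonneg Λ
      linarith) g (by
      intro n hn
      have h3 : 0 ≤ g n := by
        rcases hg n hn with h | h <;> rw [h]
        linarith
      refine ⟨h3, ?_⟩
      rw [wg_lP D P q (fun p hp => (hq p hp).1) n hn, hK]
      apply mul_le_mul_of_nonneg_right _ (by linarith)
      rcases hg n hn with h | h <;> rw [h]
      linarith)
  refine h2.trans ?_
  rw [sub_self]
  have hs : ((lP D P q).map (fun s => 9 * 5 ^ r * ((∑ n ∈ s.1, K) ^ 2 * s.2 * (1 - s.2)))).sum ≤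
      9 * 5 ^ r * (K ^ 2 * D.card * (∑ p ∈ P, (1 - q p) * N p)) := by
    rw [sum_lP]
    have e1 : 9 * 5 ^ r * (K ^ 2 * D.card * (∑ p ∈ P, (1 - q p) * N p)) = ∑ p ∈ P, 9 * 5 ^ r * (K ^ 2 * D.card * ((1 - q p) * N p)) := by
      rw [mul_sum, mul_sum]
    rw [e1]
    apply sum_le_sum
    intro p hp
    obtain ⟨b0, b1, b2⟩ := hq p hp
    have e2 : (D.card : ℝ) = ∑ c ∈ range p, ((D.filter (fun n => n % p = c)).card : ℝ) := by
      have := card_eq_sum_card_fiberwise (s := D) (f := fun n => n % p) (t := range p) (fun n _ => by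
        simp only [coe_range, Set.mem_Iio]
        exact Nat.mod_lt _ b0)
      exact_mod_cast this
    rw [e2, mul_sum, sum_mul, mul_sum]
    apply sum_le_sum
    intro c hc
    rw [mem_range] at hc
    simp only [sum_const, nsmul_eq_mul]
    apply mul_le_mul_of_nonneg_left _ (by positivity)
    obtain ⟨m, hm⟩ : ∃ m : ℝ, m = ((D.filter (fun n => n % p = c)).card : ℝ) := ⟨_, rfl⟩
    have h3 := hN p hp c hc
    rw [← hm] at h3 ⊢
    have hm0 : 0 ≤ m := by rw [hm]; positivity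
    calc (m * K) ^ 2 * q p * (1 - q p) ≤ (m * K) ^ 2 * 1 * (1 - q p) :=
          mul_le_mul_of_nonneg_right (mul_le_mul_of_nonneg_left b2 (sq_nonneg _)) (by linarith)
      _ = K ^ 2 * m * ((1 - q p) * m) := by ring
      _ ≤ K ^ 2 * m * ((1 - q p) * N p) :=
          mul_le_mul_of_nonneg_left (mul_le_mul_of_nonneg_left h3 (by linarith)) (by positivity)
  apply pow_le_pow_left₀
  · have h5 : 0 ≤ ((lP D P q).map (fun s => 9 * 5 ^ r * ((∑ n ∈ s.1, K) ^ 2 * s.2 * (1 - s.2)))).sum := by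
      rw [sum_lP]
      apply sum_nonneg
      intro p hp
      obtain ⟨b0, b1, b2⟩ := hq p hp
      apply sum_nonneg
      intro c _
      exact mul_nonneg (by positivity) (mul_nonneg (mul_nonneg (sq_nonneg _) b1.le) (by linarith))
    linarith
  · rw [hθ, hS2] at *
    linarith

/-- the moments of a sum with the correlations of the model -/
theorem moment {α : Type*} (Ω : Finset α) (hΩ : Ω.Nonempty) (D P : Finset ℕ) (q : ℕ → ℝ)
    (hq : ∀ p ∈ P, 0 < p ∧ 0 < q p ∧ q p ≤ 1) (lam : ℕ → ℝ) (κ K Λ : ℝ) (hκ : 1 ≤ κ)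
    (hK : K = κ * ∏ p ∈ P, (1 / q p)) (hlam : ∀ n ∈ D, K ≤ lam n ∧ lam n ≤ Λ) (hΛ : 1 ≤ Λ) (aa gg : α → ℕ → ℝ)
    (hg : ∀ ω ∈ Ω, ∀ n ∈ D, gg ω n = 0 ∨ gg ω n = κ) (ha : ∀ ω ∈ Ω, ∀ n ∈ D, aa ω n = 0 ∨ (aa ω n = lam n ∧ gg ω n = κ))
    (r : ℕ) (err : ℝ) (herr : 0 ≤ err) (hstar : ∀ U ⊆ D, U.card ≤ 2 * r → ∀ S ⊆ U,
      |(∑ ω ∈ Ω, (∏ n ∈ S, aa ω n) * ∏ n ∈ U \ S, gg ω n) / Ω.card -
        (∏ p ∈ P, (q p ^ nuS p S * (1 / q p) ^ S.card)) * ((∑ ω ∈ Ω, ∏ n ∈ U, gg ω n) / Ω.card)| ≤ err)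
    (N : ℕ → ℝ) (hN : ∀ p ∈ P, ∀ c < p, ((D.filter (fun n => n % p = c)).card : ℝ) ≤ N p)
    (N0 : ℝ) (hN0 : ∀ p ∈ P, N p ≤ N0) :
    (∑ ω ∈ Ω, (∑ n ∈ D, (aa ω n - gg ω n)) ^ (2 * r)) / Ω.card ≤
      (Λ ^ 2 + (K * N0) ^ 2 + 9 * 5 ^ r * (K ^ 2 * D.card * (∑ p ∈ P, (1 - q p) * N p) + D.card * Λ * K)) ^ r +
        (D.card : ℝ) ^ (2 * r) * (4 * Λ) ^ (2 * r) * err := by
  classical
  have hc : (0 : ℝ) < Ω.card := by exact_mod_cast hΩ.card_pos
  have hprod : 1 ≤ ∏ p ∈ P, (1 / q p) := by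
    have : ∏ _p ∈ P, (1 : ℝ) ≤ ∏ p ∈ P, (1 / q p) := prod_le_prod (fun _ _ => zero_le_one) (fun p hp => by
      obtain ⟨_, h2, h3⟩ := hq p hp
      rw [le_div_iff₀ h2]; linarith)
    rwa [prod_const_one] at this
  have hκK : κ ≤ K := by
    rw [hK]
    calc κ = κ * 1 := by ring
      _ ≤ _ := mul_le_mul_of_nonneg_left hprod (by linarith)
  obtain ⟨l, hl⟩ : ∃ l, l = lP D P q ++ lL D K lam := ⟨_, rfl⟩
  obtain ⟨x, hx⟩ : ∃ x : Finset ℕ → ℝ, x = fun S => ∏ p ∈ P, (q p ^ nuS p S * (1 / q p) ^ S.card) := ⟨_, rfl⟩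
  -- the expansion for the real sum
  have hreal : ∀ ω ∈ Ω, (∑ n ∈ D, (aa ω n - gg ω n)) ^ (2 * r) = ∑ φ ∈ Fintype.piFinset (fun _ : Fin (2 * r) => D),
      ∑ S ∈ (univ.image φ).powerset, cf lam κ φ S * ((∏ n ∈ S, aa ω n) * ∏ n ∈ univ.image φ \ S, gg ω n) := by
    intro ω hω
    apply expand _ _ _ _ _ _ (by linarith)
    intro n hn
    obtain ⟨b1, b2⟩ := hlam n hn
    exact ⟨by linarith, hg ω hω n hn, ha ω hω n hn⟩
  -- the expansion for the model
  have hmodel : ∀ ω ∈ Ω, Em l (fun v => (∑ n ∈ D, (v n - gg ω n)) ^ (2 * r)) (gg ω) =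
      ∑ φ ∈ Fintype.piFinset (fun _ : Fin (2 * r) => D),
      ∑ S ∈ (univ.image φ).powerset, cf lam κ φ S * (x S * ∏ n ∈ univ.image φ, gg ω n) := by
    intro ω hω
    have h1 : Em l (fun v => (∑ n ∈ D, (v n - gg ω n)) ^ (2 * r)) (gg ω) =
        Em l (fun v => ∑ φ ∈ Fintype.piFinset (fun _ : Fin (2 * r) => D), ∑ S ∈ (univ.image φ).powerset,
          (cf lam κ φ S * ∏ n ∈ univ.image φ \ S, gg ω n) * (∏ n ∈ S, v n)) (gg ω) := by
      apply Em_congr D
      intro v' hv'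
      rw [expand (2 * r) D v' (gg ω) lam κ (by linarith)]
      · apply sum_congr rfl
        intro φ _
        apply sum_congr rfl
        intro S _
        ring
      · intro n hn
        obtain ⟨b1, b2⟩ := hlam n hn
        refine ⟨by linarith, hg ω hω n hn, ?_⟩
        have hw : wg l n = lam n / κ := by
          rw [hl, wg_append, wg_lP D P q (fun p hp => (hq p hp).1) n hn, wg_lL D K lam n hn, hK]
          have : (∏ p ∈ P, (1 / q p)) ≠ 0 := by linarith
          have : κ ≠ 0 := by linarith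
          have : lam n ≠ 0 := by linarith
          field_simp
        rcases hv' n hn with h | h
        · exact Or.inl h
        · rcases hg ω hω n hn with h2 | h2
          · left; rw [h, h2, zero_mul]
          · right
            refine ⟨?_, h2⟩
            rw [h, h2, hw]
            have : κ ≠ 0 := by linarith
            field_simp
    rw [h1, Em_sum]
    apply sum_congr rfl
    intro φ hφ
    rw [Fintype.mem_piFinset] at hφ
    rw [Em_sum]
    apply sum_congr rfl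
    intro S hS
    rw [mem_powerset] at hS
    have hUD : univ.image φ ⊆ D := by
      intro n hn
      rw [mem_image] at hn
      obtain ⟨j, _, rfl⟩ := hn
      exact hφ j
    rw [Em_smul, Em_prod, hl, List.map_append, List.prod_append, pf_lP D P S (hS.trans hUD) q (fun p hp => (hq p hp).1),
      pf_lL D S K lam (fun n hn => by
        obtain ⟨b1, b2⟩ := hlam n hn
        have : 0 < K := by linarith
        have : 0 < lam n := by linarith
        positivity), mul_one, hx]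
    have e := prod_sdiff (f := gg ω) hS
    simp only
    rw [← e]
    ring
  have hm : ∀ ω ∈ Ω, Em l (fun v => (∑ n ∈ D, (v n - gg ω n)) ^ (2 * r)) (gg ω) ≤
      (Λ ^ 2 + (K * N0) ^ 2 + 9 * 5 ^ r * (K ^ 2 * D.card * (∑ p ∈ P, (1 - q p) * N p) + D.card * Λ * K)) ^ r := by
    intro ω hω
    rw [hl]
    exact model_bound D P q hq lam κ K Λ hκ hK hlam hΛ (gg ω) (hg ω hω) r N hN N0 hN0
  have hmavg : (∑ ω ∈ Ω, Em l (fun v => (∑ n ∈ D, (v n - gg ω n)) ^ (2 * r)) (gg ω)) / Ω.card ≤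
      (Λ ^ 2 + (K * N0) ^ 2 + 9 * 5 ^ r * (K ^ 2 * D.card * (∑ p ∈ P, (1 - q p) * N p) + D.card * Λ * K)) ^ r := by
    rw [div_le_iff₀ hc]
    have h7 := sum_le_card_nsmul _ _ _ hm
    rw [nsmul_eq_mul] at h7
    linarith
  have hdiff : |(∑ ω ∈ Ω, (∑ n ∈ D, (aa ω n - gg ω n)) ^ (2 * r)) / Ω.card -
      (∑ ω ∈ Ω, Em l (fun v => (∑ n ∈ D, (v n - gg ω n)) ^ (2 * r)) (gg ω)) / Ω.card| ≤
      (D.card : ℝ) ^ (2 * r) * (4 * Λ) ^ (2 * r) * err := by
    have e1 : (∑ ω ∈ Ω, (∑ n ∈ D, (aa ω n - gg ω n)) ^ (2 * r)) / Ω.card -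
      (∑ ω ∈ Ω, Em l (fun v => (∑ n ∈ D, (v n - gg ω n)) ^ (2 * r)) (gg ω)) / Ω.card =
      ∑ φ ∈ Fintype.piFinset (fun _ : Fin (2 * r) => D), ∑ S ∈ (univ.image φ).powerset, cf lam κ φ S *
        ((∑ ω ∈ Ω, (∏ n ∈ S, aa ω n) * ∏ n ∈ univ.image φ \ S, gg ω n) / Ω.card -
        x S * ((∑ ω ∈ Ω, ∏ n ∈ univ.image φ, gg ω n) / Ω.card)) := by
      rw [sum_congr rfl hreal, sum_congr rfl hmodel, ← sub_div, ← sum_sub_distrib]
      have e2 : ∀ ω ∈ Ω, (∑ φ ∈ Fintype.piFinset (fun _ : Fin (2 * r) => D),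
          ∑ S ∈ (univ.image φ).powerset, cf lam κ φ S * ((∏ n ∈ S, aa ω n) * ∏ n ∈ univ.image φ \ S, gg ω n) -
          ∑ φ ∈ Fintype.piFinset (fun _ : Fin (2 * r) => D),
          ∑ S ∈ (univ.image φ).powerset, cf lam κ φ S * (x S * ∏ n ∈ univ.image φ, gg ω n)) =
          ∑ φ ∈ Fintype.piFinset (fun _ : Fin (2 * r) => D),
          ∑ S ∈ (univ.image φ).powerset, (cf lam κ φ S * ((∏ n ∈ S, aa ω n) * ∏ n ∈ univ.image φ \ S, gg ω n) -
            cf lam κ φ S * (x S * ∏ n ∈ univ.image φ, gg ω n)) := by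
        intro ω _
        rw [← sum_sub_distrib]
        apply sum_congr rfl
        intro φ _
        rw [← sum_sub_distrib]
      rw [sum_congr rfl e2, sum_comm, sum_div]
      apply sum_congr rfl
      intro φ _
      rw [sum_comm, sum_div]
      apply sum_congr rfl
      intro S _
      rw [sum_sub_distrib, ← mul_sum, ← mul_sum, ← mul_sum]
      ring
    rw [e1]
    refine (abs_sum_le_sum_abs _ _).trans ?_
    have hone : ∀ φ ∈ Fintype.piFinset (fun _ : Fin (2 * r) => D), |∑ S ∈ (univ.image φ).powerset, cf lam κ φ S *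
        ((∑ ω ∈ Ω, (∏ n ∈ S, aa ω n) * ∏ n ∈ univ.image φ \ S, gg ω n) / Ω.card -
        x S * ((∑ ω ∈ Ω, ∏ n ∈ univ.image φ, gg ω n) / Ω.card))| ≤ (4 * Λ) ^ (2 * r) * err := by
      intro φ hφ
      rw [Fintype.mem_piFinset] at hφ
      have hUD : univ.image φ ⊆ D := by
        intro n hn
        rw [mem_image] at hn
        obtain ⟨j, _, rfl⟩ := hn
        exact hφ j
      have hUc : (univ.image φ).card ≤ 2 * r := by
        refine card_image_le.trans ?_
        rw [card_univ, Fintype.card_fin]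
      refine (abs_sum_le_sum_abs _ _).trans ?_
      calc ∑ S ∈ (univ.image φ).powerset, |cf lam κ φ S *
        ((∑ ω ∈ Ω, (∏ n ∈ S, aa ω n) * ∏ n ∈ univ.image φ \ S, gg ω n) / Ω.card -
        x S * ((∑ ω ∈ Ω, ∏ n ∈ univ.image φ, gg ω n) / Ω.card))| ≤ ∑ _S ∈ (univ.image φ).powerset, (2 * Λ) ^ (2 * r) * err := by
            apply sum_le_sum
            intro S hS
            rw [mem_powerset] at hS
            rw [abs_mul]
            have h3 := hstar (univ.image φ) hUD hUc S hS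
            rw [hx]
            exact mul_le_mul (cf_le D lam κ Λ hκ (fun n hn => ⟨hκK.trans (hlam n hn).1, (hlam n hn).2⟩) φ hφ S hS) h3
              (abs_nonneg _) (by positivity)
        _ = ((univ.image φ).powerset.card : ℝ) * ((2 * Λ) ^ (2 * r) * err) := by rw [sum_const, nsmul_eq_mul]
        _ ≤ 2 ^ (2 * r) * ((2 * Λ) ^ (2 * r) * err) := by
            apply mul_le_mul_of_nonneg_right _ (by positivity)
            rw [card_powerset]
            push_cast
            exact pow_le_pow_right₀ (by norm_num) hUc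
        _ = (4 * Λ) ^ (2 * r) * err := by
            rw [← mul_assoc, ← mul_pow]
            congr 2
            ring
    refine (sum_le_sum hone).trans ?_
    rw [sum_const, nsmul_eq_mul, Fintype.card_piFinset]
    simp only [prod_const, card_univ, Fintype.card_fin]
    push_cast
    rw [mul_assoc]
  have := (abs_le.1 hdiff).2
  linarith

end Pool.Agent.H11A
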