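import Mathlib
import Pool.Agent.H11A.Corr4
import Pool.Agent.H11P.SWc

/-! The correlations of one random polynomial: asymptotic form. -/

set_option autoImplicit false

namespace Pool.Agent.H11A

open Finset Filter Pool.Agent.H11P

variable {d : ℕ}

theorem evl_bd (H1 X : ℕ) (b : Fin (d + 1) → ℤ) (hb : b ∈ bx H1 1 (0 : Fin (d + 1) → ℤ)) (n : ℕ) (hn : n ≤ X) (hX : 1 ≤ X) :
    |((evl b n : ℤ) : ℝ)| ≤ (d + 1) * H1 * (X : ℝ) ^ d := by
  unfold evl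
  push_cast
  refine (abs_sum_le_sum_abs _ _).trans ?_
  have h1 : ∀ l : Fin (d + 1), |(b l : ℝ) * (n : ℝ) ^ (l : ℕ)| ≤ H1 * (X : ℝ) ^ d := by
    intro l
    rw [abs_mul, abs_of_nonneg (by positivity : (0 : ℝ) ≤ (n : ℝ) ^ (l : ℕ))]
    have h2 : |(b l : ℝ)| ≤ H1 := by
      unfold bx at hb
      rw [Fintype.mem_piFinset] at hb
      have := hb l
      unfold cls at this
      rw [mem_filter, mem_Icc] at this
      have h3 : |b l| ≤ H1 := abs_le.2 this.1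
      exact_mod_cast h3
    have h3 : (n : ℝ) ^ (l : ℕ) ≤ (X : ℝ) ^ d := by
      have hX' : (1 : ℝ) ≤ X := by exact_mod_cast hX
      calc (n : ℝ) ^ (l : ℕ) ≤ (X : ℝ) ^ (l : ℕ) := pow_le_pow_left₀ (Nat.cast_nonneg _) (by exact_mod_cast hn) _
        _ ≤ (X : ℝ) ^ d := pow_le_pow_right₀ hX' (by have := l.2; omega)
    exact mul_le_mul h2 h3 (by positivity) (Nat.cast_nonneg _)
  refine (sum_le_sum fun l _ => h1 l).trans ?_
  rw [sum_const, card_univ, Fintype.card_fin, nsmul_eq_mul]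
  push_cast
  apply le_of_eq
  ring

theorem flr (ℓ x : ℝ) (K : ℕ) (hℓ : 2 ≤ ℓ) (hx : ℓ ^ (K + 1) ≤ x) : ∃ S : ℕ, 1 ≤ S ∧ S * ℓ ^ K ≤ x ∧ x ≤ S * ℓ ^ (K + 1) := by
  have hK : 0 < ℓ ^ K := by positivity
  have h1 : ℓ ≤ x / ℓ ^ K := by rw [le_div_iff₀ hK]; rw [pow_succ] at hx; linarith
  refine ⟨⌊x / ℓ ^ K⌋₊, ?_, ?_, ?_⟩
  · apply Nat.le_floor
    push_cast
    linarith
  · have := Nat.floor_le (by linarith : 0 ≤ x / ℓ ^ K)
    rwa [le_div_iff₀ hK] at this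
  · have h2 := Nat.lt_floor_add_one (x / ℓ ^ K)
    have h3 : (1 : ℝ) ≤ ⌊x / ℓ ^ K⌋₊ := by
      have : 1 ≤ ⌊x / ℓ ^ K⌋₊ := by apply Nat.le_floor; push_cast; linarith
      exact_mod_cast this
    have h4 : x / ℓ ^ K ≤ ⌊x / ℓ ^ K⌋₊ * ℓ := by
      calc x / ℓ ^ K ≤ ⌊x / ℓ ^ K⌋₊ + 1 := h2.le
        _ ≤ ⌊x / ℓ ^ K⌋₊ * 2 := by linarith
        _ ≤ ⌊x / ℓ ^ K⌋₊ * ℓ := by gcongr
    rw [div_le_iff₀ hK] at h4
    rw [pow_succ]
    linarith

/-- the primes which divide a difference -/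
def PPU (Y X : ℕ) (U : Finset ℕ) : Finset ℕ := (pri Y X).filter (fun p => p ∣ qU U)

theorem PPU_prod (Y X : ℕ) (U : Finset ℕ) : ∏ p ∈ PPU Y X U, p ≤ qU U := by
  apply Nat.le_of_dvd (qU_pos U)
  apply Finset.prod_primes_dvd
  · intro p hp
    unfold PPU at hp
    rw [mem_filter, mem_pri] at hp
    exact hp.1.1.prime
  · intro p hp
    unfold PPU at hp
    rw [mem_filter] at hp
    exact hp.2

theorem PPU_two (Y X : ℕ) (U : Finset ℕ) : (2 : ℝ) ^ (PPU Y X U).card ≤ qU U := by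
  have h1 : ∏ _p ∈ PPU Y X U, 2 ≤ ∏ p ∈ PPU Y X U, p := by
    apply Finset.prod_le_prod' (N := ℕ)
    intro p hp
    unfold PPU at hp
    rw [mem_filter, mem_pri] at hp
    exact hp.1.1.two_le
  rw [prod_const] at h1
  exact_mod_cast h1.trans (PPU_prod Y X U)

/-- a prime which divides no difference of elements of `S` -/
theorem nuS_full (p : ℕ) (U S : Finset ℕ) (hS : S ⊆ U) (hp : ¬ p ∣ qU U) : nuS p S = S.card := by
  unfold nuS
  apply card_image_of_injOn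
  intro n hn m hm h
  by_contra hne
  apply hp
  unfold qU
  have h1 : p ∣ ((n : ℤ) - m).natAbs := by
    rw [← Int.natCast_dvd]
    exact (Nat.modEq_iff_dvd.1 h.symm)
  exact h1.trans (dvd_prod_of_mem (fun x : ℕ × ℕ => ((x.1 : ℤ) - x.2).natAbs) (by
    rw [mem_offDiag]
    exact ⟨hS hn, hS hm, hne⟩ : ((n, m) : ℕ × ℕ) ∈ U.offDiag))

theorem dif_mem (Y X : ℕ) (U : Finset ℕ) (hU : U ⊆ Icc 1 X) (n0 : ℕ) (hn0 : n0 ∈ U) (p : ℕ) (hp : p.Prime)
    (h : (p : ℤ) ∣ dif (U.erase n0) n0) : p ∈ pri 0 Y ∪ PPU Y X U := by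
  have h1 : p ∣ qU U := by
    have h2 := dif_dvd U (U.erase n0) (erase_subset _ _) n0 hn0 (notMem_erase _ _)
    exact (Int.natCast_dvd.1 h).trans h2
  have hX : p ≤ X := by
    unfold dif at h
    have hpZ : Prime (p : ℤ) := Nat.prime_iff_prime_int.1 hp
    rw [Prime.dvd_finsetProd_iff hpZ] at h
    obtain ⟨m, hm, hd⟩ := h
    rw [mem_erase] at hm
    have a1 := mem_Icc.1 (hU hm.2)
    have a2 := mem_Icc.1 (hU hn0)
    have h3 : p ∣ ((n0 : ℤ) - m).natAbs := Int.natCast_dvd.1 hd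
    have h4 : 0 < ((n0 : ℤ) - m).natAbs := by
      have := hm.1
      omega
    have := Nat.le_of_dvd h4 h3
    omega
  rw [mem_union]
  by_cases hY : p ≤ Y
  · left
    rw [mem_pri]
    exact ⟨hp, hp.pos, hY⟩
  · right
    unfold PPU
    rw [mem_filter, mem_pri]
    exact ⟨⟨hp, by omega, hX⟩, h1⟩

theorem pri_disj (Y X : ℕ) (U : Finset ℕ) : Disjoint (pri 0 Y) (PPU Y X U) := by
  rw [disjoint_left]
  intro p hp hp'
  unfold PPU at hp'
  rw [mem_pri] at hp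
  rw [mem_filter, mem_pri] at hp'
  omega

/-- the factors of the primes which divide no difference are `1` -/
theorem fac_eq_all (Y X : ℕ) (U S : Finset ℕ) (hS : S ⊆ U) :
    kS (pri 0 Y ∪ PPU Y X U) ^ S.card * (∏ p ∈ PPU Y X U, (1 - 1 / (p : ℝ)) ^ nuS p S) =
      kS (pri 0 Y) ^ S.card * (∏ p ∈ pri Y X, ((1 - 1 / (p : ℝ)) ^ nuS p S * fac p ^ S.card)) := by
  have h1 : kS (pri 0 Y ∪ PPU Y X U) = kS (pri 0 Y) * ∏ p ∈ PPU Y X U, fac p := by
    unfold kS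
    rw [prod_union (pri_disj Y X U)]
  have h2 : ∏ p ∈ pri Y X, ((1 - 1 / (p : ℝ)) ^ nuS p S * fac p ^ S.card) =
      ∏ p ∈ PPU Y X U, ((1 - 1 / (p : ℝ)) ^ nuS p S * fac p ^ S.card) := by
    symm
    apply prod_subset (filter_subset _ _)
    intro p hp hp'
    have hpp := ((mem_pri _ _ _).1 hp).1
    have h3 : ¬ p ∣ qU U := by
      intro h
      apply hp'
      rw [mem_filter]
      exact ⟨hp, h⟩
    rw [nuS_full p U S hS h3, fac_eq p hpp, ← mul_pow]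
    have hp2 : (2 : ℝ) ≤ p := by exact_mod_cast hpp.two_le
    have h4 : (1 - 1 / (p : ℝ)) * (1 - (p : ℝ)⁻¹)⁻¹ = 1 := by
      rw [one_div]
      apply mul_inv_cancel₀
      have : (p : ℝ)⁻¹ ≤ 2⁻¹ := inv_anti₀ (by norm_num) hp2
      have h5 : (2 : ℝ)⁻¹ < 1 := by norm_num
      linarith
    rw [h4, _root_.one_pow]
  rw [h1, h2, mul_pow, prod_mul_distrib, prod_pow]
  ring

end Pool.Agent.H11A
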