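import Mathlib
import Pool.Agent.H11A.St1

/-! The correlations of one random polynomial: asymptotic form. -/

set_option autoImplicit false

namespace Pool.Agent.H11A

open Finset Filter Pool.Agent.H11P

variable {d : ℕ}

theorem star1 (hSW : SWU) (d A A' C E0 K1 E1 C1 : ℕ) (hK1 : K1 = (A + 1) * ((d + 1) * (d + 1))) (hE1 : E1 = E0 + (K1 + 2) * (d + 2) + 2)
    (hC1 : C1 = K1 + A * d + E1 + 4) : ∀ᶠ H : ℕ in atTop, ∀ (c : ℕ → ℤ) (H1 X Y : ℕ) (U : Finset ℕ),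
    (∀ n m : ℕ, ((n : ℤ) - m) ∣ c n - c m) → H1 ≤ H → (H : ℝ) ≤ H1 * Real.log H ^ C → 8 * (Y : ℝ) ≤ Real.log H →
    (X : ℝ) ≤ Real.log H ^ A → U ⊆ Icc 1 X → U.card ≤ d + 1 →
    (∀ n ∈ U, H1 * Real.log H ^ C1 ≤ |(c n : ℝ)| ∧ |(c n : ℝ)| ≤ H * Real.log H ^ A') → ∀ S ⊆ U,
    |(∏ n ∈ S, Real.log |(c n : ℝ)|) * avg (bx H1 1 (0 : Fin (d + 1) → ℤ)) (fun b => Phi c S b * PsS c (pri 0 Y) (U \ S) b) -
      kS (pri 0 Y) ^ S.card * (∏ p ∈ pri Y X, ((1 - 1 / (p : ℝ)) ^ nuS p S * fac p ^ S.card)) *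
        avg (bx H1 1 (0 : Fin (d + 1) → ℤ)) (PsS c (pri 0 Y) U)| ≤ 1 / Real.log H ^ E0 := by
  obtain ⟨K2, hK2⟩ : ∃ K2, K2 = C + E1 + 2 + (A + 1) * d := ⟨_, rfl⟩
  obtain ⟨K, hK⟩ : ∃ K, K = K1 + K2 + 1 + A' + A * d + 2 := ⟨_, rfl⟩
  obtain ⟨Cm, hCm0, hCm⟩ := kap_mertens
  have hev : ∀ᶠ H : ℕ in atTop, ∀ Y : ℕ, 8 * (Y : ℝ) ≤ Real.log H → kS (pri 0 Y) ≤ Real.log H := by
    filter_upwards [ev_log 8, ev_log (Cm ^ 2), ev_log (kap (primorial 0)), ev_log (kap (primorial 1)), ev_log (kap (primorial 2))] with H g1 g2 g3 g4 g5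
    intro Y hY
    rw [kS_pri]
    by_cases h3 : 3 ≤ Y
    · refine (hCm Y h3).trans ?_
      have hY0 : (0 : ℝ) < Y := by exact_mod_cast (by omega : 0 < Y)
      have h4 : Real.log Y ≤ 2 * (Real.log H) ^ (1 / 2 : ℝ) / 2 := by
        have h5 : (Y : ℝ) ≤ Real.log H / 8 := by linarith
        have h6 := Real.log_le_log hY0 h5
        have h7 : Real.log (Real.log H / 8) ≤ Real.sqrt (Real.log H / 8) * 2 := by
          have h8 : 0 < Real.log H / 8 := by linarith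
          have h9 := Real.log_le_sub_one_of_pos (Real.sqrt_pos.2 h8)
          have h10 : Real.log (Real.log H / 8) = 2 * Real.log (Real.sqrt (Real.log H / 8)) := by
            rw [Real.log_sqrt h8.le]; ring
          rw [h10]; linarith
        have h11 : Real.sqrt (Real.log H / 8) * 2 ≤ (Real.log H) ^ (1 / 2 : ℝ) := by
          rw [← Real.sqrt_eq_rpow]
          have h12 : Real.sqrt (Real.log H / 8) = Real.sqrt (Real.log H) / Real.sqrt 8 := Real.sqrt_div (by linarith) _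
          rw [h12]
          have h13 : (2 : ℝ) ≤ Real.sqrt 8 := by
            rw [show (2 : ℝ) = Real.sqrt 4 by rw [show (4 : ℝ) = 2 ^ 2 by norm_num, Real.sqrt_sq (by norm_num)]]
            exact Real.sqrt_le_sqrt (by norm_num)
          rw [div_mul_eq_mul_div, div_le_iff₀ (by linarith)]
          exact mul_le_mul_of_nonneg_left h13 (Real.sqrt_nonneg _)
        linarith
      rw [← Real.sqrt_eq_rpow] at h4
      have h5 : Cm ≤ Real.sqrt (Real.log H) := by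
        apply Real.le_sqrt_of_sq_le
        exact g2
      have h6 : Real.log Y ≤ Real.sqrt (Real.log H) := by linarith
      calc Cm * Real.log Y ≤ Real.sqrt (Real.log H) * Real.sqrt (Real.log H) :=
            mul_le_mul h5 h6 (Real.log_nonneg (by exact_mod_cast (by omega : 1 ≤ Y))) (Real.sqrt_nonneg _)
        _ = Real.log H := Real.mul_self_sqrt (by linarith)
    · interval_cases Y
      · exact g3
      · exact g4
      · exact g5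
  filter_upwards [one_pow hSW K E1, hev, ev_log 6, ev_log (4 * ((d : ℝ) + 1)), ev_pow (E1 + 3 + C) 1 1 one_pos,
    ev_pow (K2 + 1) 1 1 one_pos, ev_pow (K1 + E1 + 3 + K2 + 1) 1 (1 / 2) (by norm_num),
    ev_pow (E1 + 2 + C + K1 + A + E1 + 2 + (A + 1) * d) 1 (1 / 2) (by norm_num), eventually_ge_atTop 2, ev_pow A' 1 1 one_pos] with
    H hone hkS g1 g2 g3 g4 g5 g6 g7 g8
  intro c H1 X Y U hc hH1 hHC hY hX hU hUc hcn S hS
  rw [Real.rpow_one] at g3 g4 g8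
  obtain ⟨ℓ, hℓ⟩ : ∃ ℓ : ℝ, ℓ = Real.log H := ⟨_, rfl⟩
  have hkY := hkS Y hY
  rw [← hℓ] at g1 g2 g3 g4 g5 g6 g8 hHC hY hX hcn hone hkY ⊢
  rw [one_mul] at g3 g4 g5 g6 g8
  have hℓ0 : 0 < ℓ := by linarith
  have hℓ1 : 1 ≤ ℓ := by linarith
  have hH0 : (0 : ℝ) < H := by exact_mod_cast (by omega : 0 < H)
  have hd0 : (0 : ℝ) ≤ d := Nat.cast_nonneg _
  -- trivial case: U empty
  rcases U.eq_empty_or_nonempty with hUe | ⟨u0, hu0⟩
  · subst hUe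
    have : S = ∅ := subset_empty.1 hS
    subst this
    have hB : (bx H1 1 (0 : Fin (d + 1) → ℤ)).Nonempty := by
      apply bx_nonempty _ _ _ (le_refl 1)
      by_contra hcon
      have : H1 = 0 := by omega
      rw [this] at hHC
      simp at hHC
      omega
    have h0 : (0 : ℝ) ≤ 1 / ℓ ^ E0 := by positivity
    have e1 : PsS c (pri 0 Y) ∅ = fun _ : Fin (d + 1) → ℤ => (1 : ℝ) := by funext b; simp [PsS]
    have e2 : (fun b : Fin (d + 1) → ℤ => Phi c ∅ b * PsS c (pri 0 Y) (∅ \ ∅) b) = fun _ : Fin (d + 1) → ℤ => (1 : ℝ) := by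
      funext b; simp [PsS, Phi]
    rw [e1, e2, avg_const _ hB]
    simp only [card_empty, pow_zero, prod_empty, nuS, image_empty, mul_one, prod_const_one, sub_self, abs_zero]
    exact h0
  have hX1 : 1 ≤ X := by
    have := mem_Icc.1 (hU hu0)
    omega
  have hH1pos : 1 ≤ H1 := by
    by_contra hcon
    have : H1 = 0 := by omega
    rw [this] at hHC
    simp at hHC
    omega
  have hH10 : (0 : ℝ) < H1 := by exact_mod_cast hH1pos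
  have hH1r : (H1 : ℝ) ≤ H := by exact_mod_cast hH1
  -- sizes
  have hX1r : (1 + X : ℝ) ≤ ℓ ^ (A + 1) := by
    have h1 : 1 ≤ ℓ ^ A := one_le_pow₀ hℓ1
    calc (1 + X : ℝ) ≤ ℓ ^ A + ℓ ^ A := by linarith
      _ = ℓ ^ A * 2 := by ring
      _ ≤ ℓ ^ A * ℓ := by gcongr; linarith
      _ = ℓ ^ (A + 1) := by ring
  have hq1 := qU_pos U
  have hq : (qU U : ℝ) ≤ ℓ ^ K1 := by
    have h1 := qU_le U (1 + X) (d + 1) (fun m hm => by have := mem_Icc.1 (hU hm); omega) (by omega) hUc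
    calc (qU U : ℝ) ≤ ((1 + X : ℕ) : ℝ) ^ ((d + 1) * (d + 1)) := by exact_mod_cast h1
      _ = (1 + X : ℝ) ^ ((d + 1) * (d + 1)) := by push_cast; rfl
      _ ≤ (ℓ ^ (A + 1)) ^ ((d + 1) * (d + 1)) := by gcongr
      _ = ℓ ^ K1 := by rw [← pow_mul, hK1]
  -- V and S
  have hH1big : ℓ ^ (E1 + 2) ≤ H1 := by
    have h1 : ℓ ^ (E1 + 2) * ℓ ^ C ≤ H1 * ℓ ^ C := by
      calc ℓ ^ (E1 + 2) * ℓ ^ C = ℓ ^ (E1 + 2 + C) := by ring
        _ ≤ ℓ ^ (E1 + 3 + C) := pow_le_pow_right₀ hℓ1 (by omega)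
        _ ≤ H := g3
        _ ≤ _ := hHC
    exact le_of_mul_le_mul_right h1 (by positivity)
  obtain ⟨V, hV1, hV2, hV3⟩ := flr ℓ H1 (E1 + 1) (by linarith) hH1big
  obtain ⟨T, hT1, hT2, hT3⟩ := flr ℓ H K2 (by linarith) g4
  have hT0 : (0 : ℝ) < T := by exact_mod_cast hT1
  have hV0 : (0 : ℝ) < V := by exact_mod_cast hV1
  have hTV : (T : ℝ) * (1 + X : ℝ) ^ d ≤ V := by
    have h1 : (T : ℝ) * ℓ ^ K2 ≤ V * ℓ ^ (E1 + 2 + C) := by
      calc (T : ℝ) * ℓ ^ K2 ≤ H := hT2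
        _ ≤ H1 * ℓ ^ C := hHC
        _ ≤ (V * ℓ ^ (E1 + 1 + 1)) * ℓ ^ C := by gcongr
        _ = V * ℓ ^ (E1 + 2 + C) := by ring
    have h2 : (T : ℝ) * ℓ ^ ((A + 1) * d) ≤ V := by
      have h3 : ((T : ℝ) * ℓ ^ ((A + 1) * d)) * ℓ ^ (E1 + 2 + C) ≤ V * ℓ ^ (E1 + 2 + C) := by
        calc ((T : ℝ) * ℓ ^ ((A + 1) * d)) * ℓ ^ (E1 + 2 + C) = T * ℓ ^ K2 := by rw [hK2]; ring
          _ ≤ _ := h1
      exact le_of_mul_le_mul_right h3 (by positivity)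
    calc (T : ℝ) * (1 + X : ℝ) ^ d ≤ T * (ℓ ^ (A + 1)) ^ d := by gcongr
      _ = T * ℓ ^ ((A + 1) * d) := by rw [← pow_mul]
      _ ≤ V := h2
  have hTV' : T * (1 + X) ^ d ≤ V := by exact_mod_cast hTV
  -- the primes
  obtain ⟨PP, hPP⟩ : ∃ PP, PP = PPU Y X U := ⟨_, rfl⟩
  have hPPp : ∀ p ∈ PP, p.Prime ∧ p ≤ X := by
    intro p hp
    rw [hPP] at hp
    unfold PPU at hp
    rw [mem_filter, mem_pri] at hp
    exact ⟨hp.1.1, hp.1.2.2⟩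
  have hyp : ∀ p ∈ pri 0 Y, p.Prime := fun p hp => ((mem_pri _ _ _).1 hp).1
  have hdis : Disjoint (pri 0 Y) PP := by rw [hPP]; exact pri_disj Y X U
  have hPPq : ((∏ p ∈ PP, p : ℕ) : ℝ) ≤ ℓ ^ K1 := by
    have : ((∏ p ∈ PP, p : ℕ) : ℝ) ≤ qU U := by
      rw [hPP]; exact_mod_cast PPU_prod Y X U
    exact this.trans hq
  have hPPc : (PP.card : ℝ) ≤ ℓ ^ K1 := by
    have h1 := PPU_two Y X U
    rw [← hPP] at h1
    have h2 : (PP.card : ℝ) ≤ (2 : ℝ) ^ PP.card := by exact_mod_cast Nat.lt_two_pow_self.le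
    linarith
  have hprim : ((∏ p ∈ pri 0 Y, p : ℕ) : ℝ) ≤ (H : ℝ) ^ (1 / 4 : ℝ) := by
    rw [prod_pri]
    have h1 : ((primorial Y : ℕ) : ℝ) ≤ (4 : ℝ) ^ Y := by exact_mod_cast primorial_le_four_pow Y
    refine h1.trans ?_
    have h4 : (4 : ℝ) ^ Y = Real.exp (Real.log 4 * Y) := by rw [Real.exp_mul, Real.exp_log (by norm_num), Real.rpow_natCast]
    rw [h4, show (H : ℝ) = Real.exp ℓ by rw [hℓ, Real.exp_log hH0], ← Real.exp_mul]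
    apply Real.exp_le_exp.2
    have h2 : Real.log 4 ≤ 2 := by
      have := Real.log_two_lt_d9
      rw [show (4 : ℝ) = 2 ^ 2 by norm_num, Real.log_pow]
      push_cast
      linarith
    have hY0 : (0 : ℝ) ≤ Y := Nat.cast_nonneg _
    have := mul_le_mul_of_nonneg_right h2 hY0
    linarith
  have hprodall : ((∏ p ∈ pri 0 Y ∪ PP, p : ℕ) : ℝ) ≤ (H : ℝ) ^ (1 / 4 : ℝ) * ℓ ^ K1 := by
    rw [prod_union hdis]
    push_cast at hprim hPPq ⊢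
    exact mul_le_mul hprim hPPq (prod_nonneg fun _ _ => Nat.cast_nonneg _) (by positivity)
  have hprodall' : (∏ p ∈ pri 0 Y ∪ PP, (p : ℝ)) ≤ (H : ℝ) ^ (1 / 4 : ℝ) * ℓ ^ K1 := by
    push_cast at hprodall
    exact hprodall
  have hHquarter : (H : ℝ) ^ (1 / 4 : ℝ) * (H : ℝ) ^ (1 / 4 : ℝ) * (H : ℝ) ^ (1 / 2 : ℝ) = H := by
    rw [← Real.rpow_add hH0, ← Real.rpow_add hH0]
    norm_num
  have hHhalf : (H : ℝ) ^ (1 / 2 : ℝ) * (H : ℝ) ^ (1 / 2 : ℝ) = H := by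
    rw [← Real.rpow_add hH0]
    norm_num
  have hHq1 : (1 : ℝ) ≤ (H : ℝ) ^ (1 / 4 : ℝ) := Real.one_le_rpow (by exact_mod_cast (by omega : 1 ≤ H)) (by norm_num)
  have hHh0 : (0 : ℝ) < (H : ℝ) ^ (1 / 2 : ℝ) := by positivity
  have hHq0 : (0 : ℝ) < (H : ℝ) ^ (1 / 4 : ℝ) := by positivity
  have hHqh : (H : ℝ) ^ (1 / 4 : ℝ) ≤ (H : ℝ) ^ (1 / 2 : ℝ) :=
    Real.rpow_le_rpow_of_exponent_le (by exact_mod_cast (by omega : 1 ≤ H)) (by norm_num)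
  -- kS
  obtain ⟨Λ, hΛ⟩ : ∃ Λ, Λ = ℓ ^ (K1 + 2) := ⟨_, rfl⟩
  have hkSall : kS (pri 0 Y ∪ PP) ≤ Λ := by
    unfold kS at hkY ⊢
    rw [prod_union hdis]
    have h1 : ∏ p ∈ PP, fac p ≤ ℓ ^ K1 := by
      have h2 : ∏ p ∈ PP, fac p ≤ ∏ p ∈ PP, (p : ℝ) := by
        apply Finset.prod_le_prod
        · intro p hp
          have := fac_ge p (hPPp p hp).1
          linarith
        · intro p hp
          have a1 := fac_le p (hPPp p hp).1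
          have a2 : (2 : ℝ) ≤ p := by exact_mod_cast (hPPp p hp).1.two_le
          have a3 : 2 / (p : ℝ) ≤ 1 := by rw [div_le_one (by linarith)]; exact a2
          linarith
      push_cast at hPPq
      linarith
    have h0 : 0 ≤ ∏ p ∈ PP, fac p := prod_nonneg fun p hp => by
      have := fac_ge p (hPPp p hp).1
      linarith
    calc (∏ p ∈ pri 0 Y, fac p) * ∏ p ∈ PP, fac p ≤ ℓ * ℓ ^ K1 := mul_le_mul hkY h1 h0 hℓ0.le
      _ ≤ Λ := by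
          rw [hΛ]
          calc ℓ * ℓ ^ K1 = ℓ ^ (K1 + 1) := by ring
            _ ≤ ℓ ^ (K1 + 2) := pow_le_pow_right₀ hℓ1 (by omega)
  -- the logarithms
  have hClow : ∀ n ∈ U, H1 * ℓ ^ C1 ≤ |(c n : ℝ)| := fun n hn => (hcn n hn).1
  have hHlog : ∀ n ∈ U, 1 ≤ Real.log |(c n : ℝ)| ∧ Real.log |(c n : ℝ)| ≤ Λ := by
    intro n hn
    obtain ⟨a1, a2⟩ := hcn n hn
    have h1 : ℓ ≤ |(c n : ℝ)| := by
      have h2 : ℓ ≤ ℓ ^ C1 := le_self_pow₀ hℓ1 (by omega)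
      have h3 : ℓ ^ C1 ≤ H1 * ℓ ^ C1 := le_mul_of_one_le_left (by positivity) (by exact_mod_cast hH1pos)
      linarith
    have h0 : 0 < |(c n : ℝ)| := by linarith
    constructor
    · have h2 : Real.exp 1 ≤ |(c n : ℝ)| := by
        have := Real.exp_one_lt_d9
        linarith
      have := Real.log_le_log (Real.exp_pos 1) h2
      rwa [Real.log_exp] at this
    · have h2 : Real.log |(c n : ℝ)| ≤ Real.log (H * ℓ ^ A') := Real.log_le_log h0 a2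
      have h3 : Real.log (H * ℓ ^ A') = ℓ + A' * Real.log ℓ := by
        rw [Real.log_mul hH0.ne' (by positivity), Real.log_pow, ← hℓ]
      have h4 : A' * Real.log ℓ ≤ ℓ := by
        have h5 := Real.log_le_log (by positivity) g8
        rwa [Real.log_pow, ← hℓ] at h5
      have h5 : 2 * ℓ ≤ Λ := by
        rw [hΛ]
        calc 2 * ℓ ≤ ℓ * ℓ := by gcongr; linarith
          _ = ℓ ^ 2 := by ring
          _ ≤ ℓ ^ (K1 + 2) := pow_le_pow_right₀ hℓ1 (by omega)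
      linarith
  have hXd : (X : ℝ) ^ d ≤ ℓ ^ (A * d) := by
    calc (X : ℝ) ^ d ≤ (ℓ ^ A) ^ d := by gcongr
      _ = ℓ ^ (A * d) := by rw [← pow_mul]
  have hfv : ∀ n ∈ U, ∀ b ∈ bx H1 1 (0 : Fin (d + 1) → ℤ), |((fv c b n : ℤ) : ℝ) - (c n : ℝ)| ≤ (d + 1) * H1 * ℓ ^ (A * d) := by
    intro n hn b hb
    have h1 := evl_bd H1 X b hb n (mem_Icc.1 (hU hn)).2 hX1
    unfold fv
    push_cast
    rw [add_sub_cancel_left]
    refine h1.trans ?_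
    gcongr
  obtain ⟨ee, hee⟩ : ∃ ee, ee = 1 / (2 * ℓ ^ (E1 + 1)) := ⟨_, rfl⟩
  have hee0 : 0 < ee := by rw [hee]; positivity
  have hee2 : ee ≤ 1 / 2 := by
    rw [hee]
    apply one_div_le_one_div_of_le (by norm_num)
    have : 1 ≤ ℓ ^ (E1 + 1) := one_le_pow₀ hℓ1
    linarith
  have hfv2 : ∀ n ∈ U, ∀ b ∈ bx H1 1 (0 : Fin (d + 1) → ℤ), |((fv c b n : ℤ) : ℝ) - (c n : ℝ)| ≤ ee * |(c n : ℝ)| := by
    intro n hn b hb
    refine (hfv n hn b hb).trans ?_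
    have h1 := hClow n hn
    have h2 : (d + 1) * H1 * ℓ ^ (A * d) ≤ ee * (H1 * ℓ ^ C1) := by
      rw [hee, div_mul_eq_mul_div, le_div_iff₀ (by positivity), one_mul]
      calc ((d : ℝ) + 1) * H1 * ℓ ^ (A * d) * (2 * ℓ ^ (E1 + 1)) = (2 * (d + 1)) * (H1 * (ℓ ^ (A * d) * ℓ ^ (E1 + 1))) := by ring
        _ ≤ ℓ * (H1 * (ℓ ^ (A * d) * ℓ ^ (E1 + 1))) := by
            apply mul_le_mul_of_nonneg_right _ (by positivity)
            linarith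
        _ = H1 * ℓ ^ (A * d + E1 + 2) := by ring
        _ ≤ H1 * ℓ ^ C1 := by
            apply mul_le_mul_of_nonneg_left _ hH10.le
            exact pow_le_pow_right₀ hℓ1 (by omega)
    exact h2.trans (mul_le_mul_of_nonneg_left h1 hee0.le)
  have hc0 : ∀ n ∈ U, 0 < |(c n : ℝ)| := by
    intro n hn
    have h1 := hClow n hn
    have : 0 < H1 * ℓ ^ C1 := by positivity
    linarith
  have habs : ∀ n ∈ U, ∀ b ∈ bx H1 1 (0 : Fin (d + 1) → ℤ), |(|((fv c b n : ℤ) : ℝ)| - |(c n : ℝ)|)| ≤ ee * |(c n : ℝ)| := by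
    intro n hn b hb
    exact (abs_abs_sub_abs_le _ _).trans (hfv2 n hn b hb)
  -- the near invariance
  have hB : (bx H1 1 (0 : Fin (d + 1) → ℤ)).Nonempty := bx_nonempty _ _ _ (le_refl 1) hH1pos
  have hNI := bx_NI H1 1 V (0 : Fin (d + 1) → ℤ) (le_refl 1) hH1pos
  obtain ⟨δ, hδ⟩ : ∃ δ : ℝ, δ = (d + 1) * ((V : ℝ) + (1 : ℕ)) / H1 := ⟨_, rfl⟩
  rw [← hδ] at hNI
  have hδ0 : 0 ≤ δ := by rw [hδ]; positivity
  have hδ1 : δ ≤ 1 / ℓ ^ E1 := by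
    rw [hδ, div_le_div_iff₀ hH10 (by positivity)]
    have h1 : (1 : ℝ) ≤ V := by exact_mod_cast hV1
    calc ((d : ℝ) + 1) * (V + (1 : ℕ)) * ℓ ^ E1 ≤ (d + 1) * (V + V) * ℓ ^ E1 := by gcongr
      _ = (2 * (d + 1)) * (V * ℓ ^ E1) := by ring
      _ ≤ ℓ * (V * ℓ ^ E1) := by
          apply mul_le_mul_of_nonneg_right _ (by positivity)
          linarith
      _ = V * ℓ ^ (E1 + 1) := by ring
      _ ≤ 1 * H1 := by rw [one_mul]; exact hV2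
  obtain ⟨η, hη⟩ : ∃ η : ℝ, η = 1 / ℓ ^ E1 := ⟨_, rfl⟩
  have hη0 : 0 < η := by rw [hη]; positivity
  -- S2
  obtain ⟨T2, hT2d⟩ : ∃ T2 : ℕ, T2 = ⌈2 * ℓ ^ (A + E1)⌉₊ := ⟨_, rfl⟩
  have hT2a : 2 * ℓ ^ (A + E1) ≤ T2 := by rw [hT2d]; exact Nat.le_ceil _
  have hT2b : (T2 : ℝ) ≤ ℓ ^ (A + E1 + 1) := by
    have h1 : (T2 : ℝ) < 2 * ℓ ^ (A + E1) + 1 := by rw [hT2d]; exact Nat.ceil_lt_add_one (by positivity)
    have h2 : 1 ≤ ℓ ^ (A + E1) := one_le_pow₀ hℓ1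
    calc (T2 : ℝ) ≤ 3 * ℓ ^ (A + E1) := by linarith
      _ ≤ ℓ * ℓ ^ (A + E1) := by gcongr; linarith
      _ = ℓ ^ (A + E1 + 1) := by ring
  have hT21 : 1 ≤ T2 := by
    have h2 : 1 ≤ ℓ ^ (A + E1) := one_le_pow₀ hℓ1
    have : (1 : ℝ) ≤ T2 := by linarith
    exact_mod_cast this
  have hV2' : (∏ p ∈ pri 0 Y ∪ PP, p) * T2 * (1 + X) ^ d ≤ V := by
    have h1 : ((∏ p ∈ pri 0 Y ∪ PP, p : ℕ) : ℝ) * T2 * (1 + X : ℝ) ^ d ≤ V := by
      have h2 : ((∏ p ∈ pri 0 Y ∪ PP, p : ℕ) : ℝ) * T2 * (1 + X : ℝ) ^ d * ℓ ^ (E1 + 2 + C) ≤ V * ℓ ^ (E1 + 2 + C) := by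
        calc ((∏ p ∈ pri 0 Y ∪ PP, p : ℕ) : ℝ) * T2 * (1 + X : ℝ) ^ d * ℓ ^ (E1 + 2 + C) ≤
            ((H : ℝ) ^ (1 / 4 : ℝ) * ℓ ^ K1) * ℓ ^ (A + E1 + 1) * (ℓ ^ (A + 1)) ^ d * ℓ ^ (E1 + 2 + C) := by gcongr
          _ = (H : ℝ) ^ (1 / 4 : ℝ) * ℓ ^ (K1 + (A + E1 + 1) + (A + 1) * d + (E1 + 2 + C)) := by ring
          _ ≤ (H : ℝ) ^ (1 / 2 : ℝ) * (H : ℝ) ^ (1 / 2 : ℝ) := by
              apply mul_le_mul hHqh _ (by positivity) hHh0.le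
              refine le_trans ?_ g6
              exact pow_le_pow_right₀ hℓ1 (by omega)
          _ = H := hHhalf
          _ ≤ H1 * ℓ ^ C := hHC
          _ ≤ (V * ℓ ^ (E1 + 1 + 1)) * ℓ ^ C := by gcongr
          _ = V * ℓ ^ (E1 + 2 + C) := by ring
      exact le_of_mul_le_mul_right h2 (by positivity)
    exact_mod_cast h1
  have hΛ0 : 0 < Λ := by rw [hΛ]; positivity
  have hTbig : ∀ x : ℝ, x ≤ (H : ℝ) ^ (1 / 4 : ℝ) * ℓ ^ K1 * ℓ ^ 2 → 2 * x / T ≤ η := by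
    intro x hx
    rw [hη, div_le_div_iff₀ hT0 (by positivity), one_mul]
    have h1 : 2 * x * ℓ ^ E1 * ℓ ^ (K2 + 1) ≤ T * ℓ ^ (K2 + 1) := by
      calc 2 * x * ℓ ^ E1 * ℓ ^ (K2 + 1) ≤ 2 * ((H : ℝ) ^ (1 / 4 : ℝ) * ℓ ^ K1 * ℓ ^ 2) * ℓ ^ E1 * ℓ ^ (K2 + 1) := by gcongr
        _ ≤ ℓ * ((H : ℝ) ^ (1 / 4 : ℝ) * ℓ ^ K1 * ℓ ^ 2) * ℓ ^ E1 * ℓ ^ (K2 + 1) := by gcongr; linarith
        _ = (H : ℝ) ^ (1 / 4 : ℝ) * ℓ ^ (K1 + E1 + 3 + K2 + 1) := by ring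
        _ ≤ (H : ℝ) ^ (1 / 2 : ℝ) * (H : ℝ) ^ (1 / 2 : ℝ) := mul_le_mul hHqh g5 (by positivity) hHh0.le
        _ = H := hHhalf
        _ ≤ T * ℓ ^ (K2 + 1) := hT3
    exact le_of_mul_le_mul_right h1 (by positivity)
  have key := corr1 c hc (bx H1 1 (0 : Fin (d + 1) → ℤ)) hB V δ hδ0 hNI (pri 0 Y) PP hyp (fun p hp => (hPPp p hp).1) hdis U hUc X
    (fun m hm => (mem_Icc.1 (hU hm)).2) T hT1 hTV' T2 hT21 hV2' (fun n0 hn0 p hp hd => by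
      rw [hPP]; exact dif_mem Y X U hU n0 hn0 p hp hd) (fun n => Real.log |(c n : ℝ)|) Λ η hHlog hkSall (by
    intro n0 hn0 b hb hco
    have hdif1 : 1 ≤ (dif (U.erase n0) n0).natAbs := by
      have h1 := dif_dvd U (U.erase n0) (erase_subset _ _) n0 hn0 (notMem_erase _ _)
      exact Nat.pos_of_dvd_of_pos h1 (qU_pos U)
    have hdifle : ((dif (U.erase n0) n0).natAbs : ℝ) ≤ ℓ ^ K1 := by
      have h1 := Nat.le_of_dvd (qU_pos U) (dif_dvd U (U.erase n0) (erase_subset _ _) n0 hn0 (notMem_erase _ _))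
      have h2 : ((dif (U.erase n0) n0).natAbs : ℝ) ≤ qU U := by exact_mod_cast h1
      exact h2.trans hq
    have hab := abs_le.1 (habs n0 hn0 b hb)
    have hcn0 := hcn n0 hn0
    have hcpos := hc0 n0 hn0
    have hel : ee * |(c n0 : ℝ)| ≤ 1 / 2 * |(c n0 : ℝ)| := mul_le_mul_of_nonneg_right hee2 hcpos.le
    have h5 : (|((fv c b n0 : ℤ) : ℝ)|) ≤ 2 * |(c n0 : ℝ)| := by linarith
    have h6 : |(c n0 : ℝ)| / 2 ≤ |((fv c b n0 : ℤ) : ℝ)| := by linarith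
    rw [hη]
    unfold kap
    apply hone _ _ _ _ hdif1
    · refine hdifle.trans (pow_le_pow_right₀ hℓ1 (by omega))
    · rw [sg_abs]
      calc |((fv c b n0 : ℤ) : ℝ)| ≤ 2 * |(c n0 : ℝ)| := h5
        _ ≤ ℓ * (H * ℓ ^ A') := mul_le_mul (by linarith) hcn0.2 (abs_nonneg _) hℓ0.le
        _ = H * ℓ ^ (A' + 1) := by ring
        _ ≤ H * ℓ ^ K := by
            apply mul_le_mul_of_nonneg_left _ hH0.le
            exact pow_le_pow_right₀ hℓ1 (by omega)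
    · calc (H : ℝ) ≤ T * ℓ ^ (K2 + 1) := hT3
        _ ≤ T * ℓ ^ K := by
            apply mul_le_mul_of_nonneg_left _ hT0.le
            exact pow_le_pow_right₀ hℓ1 (by omega)
    · have h7 : (T : ℝ) ≤ H := by
        have h8 : 1 ≤ ℓ ^ K2 := one_le_pow₀ hℓ1
        have h9 : (T : ℝ) * 1 ≤ T * ℓ ^ K2 := mul_le_mul_of_nonneg_left h8 hT0.le
        linarith
      exact_mod_cast h7
    · rw [sg_abs]
      refine le_trans ?_ h6
      rw [le_div_iff₀ (by norm_num)]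
      have hTV2 : (T : ℝ) ≤ V := by
        have h8 : (1 : ℝ) ≤ (1 + X : ℝ) ^ d := one_le_pow₀ (by
          have : (0 : ℝ) ≤ X := Nat.cast_nonneg _
          linarith)
        have h9 : (T : ℝ) * 1 ≤ T * (1 + X : ℝ) ^ d := mul_le_mul_of_nonneg_left h8 hT0.le
        linarith
      calc ((dif (U.erase n0) n0).natAbs : ℝ) * T * ℓ ^ (E1 + 1) * 2 ≤ ℓ ^ K1 * V * ℓ ^ (E1 + 1) * ℓ := by gcongr; linarith
        _ = ℓ ^ (K1 + 1) * (V * ℓ ^ (E1 + 1)) := by ring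
        _ ≤ ℓ ^ (K1 + 1) * H1 := by gcongr
        _ ≤ ℓ ^ C1 * H1 := by
            apply mul_le_mul_of_nonneg_right _ hH10.le
            exact pow_le_pow_right₀ hℓ1 (by omega)
        _ = H1 * ℓ ^ C1 := by ring
        _ ≤ |(c n0 : ℝ)| := hcn0.1
    · rw [sg_abs]
      have h10 := log_close |(c n0 : ℝ)| |((fv c b n0 : ℤ) : ℝ)| hcpos ee hee2 (habs n0 hn0 b hb)
      refine h10.trans (le_of_eq ?_)
      rw [hee]
      field_simp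
    · unfold sg
      split_ifs
      · exact hco
      · exact hco.neg_left) (hTbig Λ (by
      rw [hΛ]
      calc ℓ ^ (K1 + 2) = 1 * ℓ ^ K1 * ℓ ^ 2 := by ring
        _ ≤ (H : ℝ) ^ (1 / 4 : ℝ) * ℓ ^ K1 * ℓ ^ 2 := by gcongr)) (hTbig _ (by
      refine hprodall'.trans ?_
      apply le_mul_of_one_le_right (by positivity)
      exact one_le_pow₀ hℓ1)) (by
      intro p hp
      have h1 : (p : ℝ) ≤ ℓ ^ A := le_trans (by exact_mod_cast (hPPp p hp).2) hX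
      have hT20 : (0 : ℝ) < T2 := by exact_mod_cast hT21
      rw [hη, div_le_div_iff₀ hT20 (by positivity), one_mul]
      calc 2 * (p : ℝ) * ℓ ^ E1 ≤ 2 * ℓ ^ A * ℓ ^ E1 := by gcongr
        _ = 2 * ℓ ^ (A + E1) := by ring
        _ ≤ T2 := hT2a) S hS
  rw [hPP, fac_eq_all Y X U S hS] at key
  refine key.trans ?_
  rw [← hPP]
  have hPPΛ : (PP.card : ℝ) ≤ Λ := by
    rw [hΛ]
    exact hPPc.trans (pow_le_pow_right₀ hℓ1 (by omega))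
  have hd4 : ((d : ℝ) + 1) * 6 ≤ ℓ * ℓ := by
    calc ((d : ℝ) + 1) * 6 ≤ ℓ * 6 := by gcongr; linarith
      _ ≤ ℓ * ℓ := by gcongr
  calc ((d : ℝ) + 1) * Λ ^ (d + 1) * ((2 * Λ + PP.card) * (δ + η)) ≤ (d + 1) * Λ ^ (d + 1) * ((2 * Λ + Λ) * (1 / ℓ ^ E1 + 1 / ℓ ^ E1)) := by
        gcongr
        exact hη.le
    _ = ((d + 1) * 6) * (Λ ^ (d + 2) / ℓ ^ E1) := by ring
    _ ≤ (ℓ * ℓ) * (Λ ^ (d + 2) / ℓ ^ E1) := mul_le_mul_of_nonneg_right hd4 (by positivity)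
    _ = ℓ ^ ((K1 + 2) * (d + 2) + 2) / ℓ ^ E1 := by
        rw [hΛ, ← pow_mul, pow_add]
        ring
    _ = 1 / ℓ ^ E0 := by
        rw [hE1, div_eq_div_iff (by positivity) (by positivity)]
        ring

end Pool.Agent.H11A
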