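import Mathlib
import Pool.Agent.H11A.St2
import Pool.Agent.H11A.Mo2
import Pool.Agent.H11P.Sys

/-! The correlations of systems of random polynomials. -/

set_option autoImplicit false

namespace Pool.Agent.H11A

open Finset Filter Pool.Agent.H11P

variable {k d : ℕ}

theorem prod_diff {ι : Type*} (s : Finset ι) (x y : ι → ℝ) (M ε : ℝ) (hM : 1 ≤ M) (hε : 0 ≤ ε) (hx : ∀ i ∈ s, |x i| ≤ M) (hy : ∀ i ∈ s, |y i| ≤ M)
    (h : ∀ i ∈ s, |x i - y i| ≤ ε) : |∏ i ∈ s, x i - ∏ i ∈ s, y i| ≤ s.card * M ^ s.card * ε := by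
  classical
  induction s using Finset.induction_on with
  | empty => simp
  | insert i s hi ih =>
    have ih' := ih (fun j hj => hx j (mem_insert_of_mem hj)) (fun j hj => hy j (mem_insert_of_mem hj)) (fun j hj => h j (mem_insert_of_mem hj))
    rw [prod_insert hi, prod_insert hi, card_insert_of_notMem hi]
    have hY : |∏ j ∈ s, y j| ≤ M ^ s.card := by
      rw [abs_prod]
      calc ∏ j ∈ s, |y j| ≤ ∏ _j ∈ s, M := Finset.prod_le_prod (fun _ _ => abs_nonneg _) (fun j hj => hy j (mem_insert_of_mem hj))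
        _ = M ^ s.card := by rw [prod_const]
    have e : x i * ∏ j ∈ s, x j - y i * ∏ j ∈ s, y j = x i * (∏ j ∈ s, x j - ∏ j ∈ s, y j) + (x i - y i) * ∏ j ∈ s, y j := by ring
    rw [e]
    refine (abs_add_le _ _).trans ?_
    rw [abs_mul, abs_mul]
    have a1 := mul_le_mul (hx i (mem_insert_self _ _)) ih' (abs_nonneg _) (by linarith)
    have a2 := mul_le_mul (h i (mem_insert_self _ _)) hY (abs_nonneg _) hε
    have a3 : ε * M ^ s.card ≤ ε * M ^ (s.card + 1) := mul_le_mul_of_nonneg_left (pow_le_pow_right₀ hM (by omega)) hε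
    push_cast
    calc |x i| * |∏ j ∈ s, x j - ∏ j ∈ s, y j| + |x i - y i| * |∏ j ∈ s, y j| ≤ M * (s.card * M ^ s.card * ε) + ε * M ^ (s.card + 1) := by linarith
      _ = (s.card + 1) * M ^ (s.card + 1) * ε := by ring

theorem avg_prod (B : Finset (Fin (d + 1) → ℤ)) (F : Fin k → (Fin (d + 1) → ℤ) → ℝ) :
    (∑ a ∈ Fintype.piFinset (fun _ : Fin k => B), ∏ i, F i (a i)) / (Fintype.piFinset (fun _ : Fin k => B)).card = ∏ i, avg B (F i) := by
  rw [← prod_univ_sum, Fintype.card_piFinset]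
  push_cast
  rw [← prod_div_distrib]
  rfl

/-- all values are primes -/
noncomputable def PhK (c : Fin k → ℕ → ℤ) (n : ℕ) (a : Fin k → Fin (d + 1) → ℤ) : ℝ := ∏ i, Phi (c i) {n} (a i)

/-- no prime of `s` divides a value -/
noncomputable def PsK (c : Fin k → ℕ → ℤ) (s : Finset ℕ) (n : ℕ) (a : Fin k → Fin (d + 1) → ℤ) : ℝ := ∏ i, PsS (c i) s {n} (a i)

theorem Phi_prod (c : ℕ → ℤ) (S : Finset ℕ) (b : Fin (d + 1) → ℤ) : ∏ n ∈ S, Phi c {n} b = Phi c S b := by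
  classical
  induction S using Finset.induction_on with
  | empty => simp [Phi]
  | insert n S hn ih =>
    rw [prod_insert hn, ih, Phi_insert]
    congr 1
    unfold Phi
    simp

theorem PsS_prod (c : ℕ → ℤ) (s S : Finset ℕ) (b : Fin (d + 1) → ℤ) : ∏ n ∈ S, PsS c s {n} b = PsS c s S b := by
  classical
  induction S using Finset.induction_on with
  | empty => simp [PsS]
  | insert n S hn ih =>
    rw [prod_insert hn, ih, PsS_insert]
    congr 1
    unfold PsS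
    simp

theorem PhK_prod (c : Fin k → ℕ → ℤ) (S : Finset ℕ) (a : Fin k → Fin (d + 1) → ℤ) : ∏ n ∈ S, PhK c n a = ∏ i, Phi (c i) S (a i) := by
  unfold PhK
  rw [Finset.prod_comm]
  exact prod_congr rfl fun i _ => Phi_prod (c i) S (a i)

theorem PsK_prod (c : Fin k → ℕ → ℤ) (s S : Finset ℕ) (a : Fin k → Fin (d + 1) → ℤ) : ∏ n ∈ S, PsK c s n a = ∏ i, PsS (c i) s S (a i) := by
  unfold PsK
  rw [Finset.prod_comm]
  exact prod_congr rfl fun i _ => PsS_prod (c i) s S (a i)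

theorem PhK_val (c : Fin k → ℕ → ℤ) (n : ℕ) (a : Fin k → Fin (d + 1) → ℤ) [Decidable (∀ i, (fv (c i) (a i) n).natAbs.Prime)] :
    PhK c n a = if ∀ i, (fv (c i) (a i) n).natAbs.Prime then 1 else 0 := by
  unfold PhK Phi
  split_ifs with h
  · apply prod_eq_one
    intro i _
    rw [if_pos (by simpa using h i)]
  · push Not at h
    obtain ⟨i, hi⟩ := h
    apply prod_eq_zero (mem_univ i)
    rw [if_neg (by simpa using hi)]

theorem PsK_val (c : Fin k → ℕ → ℤ) (s : Finset ℕ) (n : ℕ) (a : Fin k → Fin (d + 1) → ℤ) [Decidable (∀ i, ∀ p ∈ s, ¬ (p : ℤ) ∣ fv (c i) (a i) n)] :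
    PsK c s n a = if ∀ i, ∀ p ∈ s, ¬ (p : ℤ) ∣ fv (c i) (a i) n then 1 else 0 := by
  unfold PsK PsS
  split_ifs with h
  · apply prod_eq_one
    intro i _
    rw [if_pos (by simpa using h i)]
  · push Not at h
    obtain ⟨i, p, hp, hd⟩ := h
    apply prod_eq_zero (mem_univ i)
    rw [if_neg (by
      push Not
      exact ⟨n, mem_singleton_self _, p, hp, hd⟩)]

/-- the correlations of a system -/
theorem starK (c : Fin k → ℕ → ℤ) (B : Finset (Fin (d + 1) → ℤ)) (y P U S : Finset ℕ) (hS : S ⊆ U) (lam : ℕ → Fin k → ℝ) (M ε : ℝ)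
    (hM : 1 ≤ M) (hε : 0 ≤ ε) (hP : ∀ p ∈ P, p.Prime) (hk1 : 1 ≤ kS y)
    (h : ∀ i, |(∏ n ∈ S, lam n i) * avg B (fun b => Phi (c i) S b * PsS (c i) y (U \ S) b) -
      kS y ^ S.card * (∏ p ∈ P, ((1 - 1 / (p : ℝ)) ^ nuS p S * fac p ^ S.card)) * avg B (PsS (c i) y U)| ≤ ε)
    (hx : ∀ i, |(∏ n ∈ S, lam n i) * avg B (fun b => Phi (c i) S b * PsS (c i) y (U \ S) b)| ≤ M)
    (hy : ∀ i, |kS y ^ S.card * (∏ p ∈ P, ((1 - 1 / (p : ℝ)) ^ nuS p S * fac p ^ S.card)) * avg B (PsS (c i) y U)| ≤ M) :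
    |(∑ a ∈ Fintype.piFinset (fun _ : Fin k => B), (∏ n ∈ S, ((∏ i, lam n i) * PhK c n a)) * ∏ n ∈ U \ S, (kS y ^ k * PsK c y n a)) /
        (Fintype.piFinset (fun _ : Fin k => B)).card -
      (∏ p ∈ P, (((1 - 1 / (p : ℝ)) ^ k) ^ nuS p S * (1 / (1 - 1 / (p : ℝ)) ^ k) ^ S.card)) *
        ((∑ a ∈ Fintype.piFinset (fun _ : Fin k => B), ∏ n ∈ U, (kS y ^ k * PsK c y n a)) / (Fintype.piFinset (fun _ : Fin k => B)).card)| ≤
      kS y ^ (k * U.card) * (k * M ^ k * ε) := by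
  classical
  have e1 : (∑ a ∈ Fintype.piFinset (fun _ : Fin k => B), (∏ n ∈ S, ((∏ i, lam n i) * PhK c n a)) * ∏ n ∈ U \ S, (kS y ^ k * PsK c y n a)) /
        (Fintype.piFinset (fun _ : Fin k => B)).card =
      (kS y ^ k) ^ (U \ S).card * ∏ i, ((∏ n ∈ S, lam n i) * avg B (fun b => Phi (c i) S b * PsS (c i) y (U \ S) b)) := by
    have h1 : ∀ a : Fin k → Fin (d + 1) → ℤ, (∏ n ∈ S, ((∏ i, lam n i) * PhK c n a)) * ∏ n ∈ U \ S, (kS y ^ k * PsK c y n a) =
        ((kS y ^ k) ^ (U \ S).card * ∏ i, ∏ n ∈ S, lam n i) * ∏ i, (Phi (c i) S (a i) * PsS (c i) y (U \ S) (a i)) := by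
      intro a
      rw [prod_mul_distrib, prod_mul_distrib, PhK_prod, PsK_prod, prod_const, prod_mul_distrib, Finset.prod_comm (s := S)]
      ring
    rw [sum_congr rfl (fun a _ => h1 a), ← mul_sum, mul_div_assoc, avg_prod B (fun i b => Phi (c i) S b * PsS (c i) y (U \ S) b),
      prod_mul_distrib]
    ring
  have e2 : (∏ p ∈ P, (((1 - 1 / (p : ℝ)) ^ k) ^ nuS p S * (1 / (1 - 1 / (p : ℝ)) ^ k) ^ S.card)) *
        ((∑ a ∈ Fintype.piFinset (fun _ : Fin k => B), ∏ n ∈ U, (kS y ^ k * PsK c y n a)) / (Fintype.piFinset (fun _ : Fin k => B)).card) =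
      (kS y ^ k) ^ (U \ S).card * ∏ i, (kS y ^ S.card * (∏ p ∈ P, ((1 - 1 / (p : ℝ)) ^ nuS p S * fac p ^ S.card)) * avg B (PsS (c i) y U)) := by
    have h1 : ∀ a : Fin k → Fin (d + 1) → ℤ, ∏ n ∈ U, (kS y ^ k * PsK c y n a) = (kS y ^ k) ^ U.card * ∏ i, PsS (c i) y U (a i) := by
      intro a
      rw [prod_mul_distrib, PsK_prod, prod_const]
    have h5 : ∏ i : Fin k, (kS y ^ S.card * (∏ p ∈ P, ((1 - 1 / (p : ℝ)) ^ nuS p S * fac p ^ S.card)) * avg B (PsS (c i) y U)) =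
        (kS y ^ S.card * (∏ p ∈ P, ((1 - 1 / (p : ℝ)) ^ nuS p S * fac p ^ S.card))) ^ k * ∏ i, avg B (PsS (c i) y U) := by
      rw [prod_mul_distrib, prod_const, card_univ, Fintype.card_fin]
    rw [h5, sum_congr rfl (fun a _ => h1 a), ← mul_sum, mul_div_assoc, avg_prod B (fun i => PsS (c i) y U)]
    have h2 : ∏ p ∈ P, (((1 - 1 / (p : ℝ)) ^ k) ^ nuS p S * (1 / (1 - 1 / (p : ℝ)) ^ k) ^ S.card) =
        (∏ p ∈ P, ((1 - 1 / (p : ℝ)) ^ nuS p S * fac p ^ S.card)) ^ k := by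
      rw [← prod_pow]
      apply prod_congr rfl
      intro p hp
      rw [fac_eq p (hP p hp), mul_pow, one_div, one_div]
      ring
    have h3 : (kS y ^ k) ^ U.card = (kS y ^ k) ^ (U \ S).card * (kS y ^ k) ^ S.card := by
      rw [← pow_add, card_sdiff_add_card_eq_card hS]
    rw [h2, h3, mul_pow]
    ring
  rw [e1, e2, ← mul_sub, abs_mul]
  have h4 := prod_diff (univ : Finset (Fin k)) (fun i => (∏ n ∈ S, lam n i) * avg B (fun b => Phi (c i) S b * PsS (c i) y (U \ S) b))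
    (fun i => kS y ^ S.card * (∏ p ∈ P, ((1 - 1 / (p : ℝ)) ^ nuS p S * fac p ^ S.card)) * avg B (PsS (c i) y U)) M ε hM hε
    (fun i _ => hx i) (fun i _ => hy i) (fun i _ => h i)
  rw [card_univ, Fintype.card_fin] at h4
  apply mul_le_mul _ h4 (abs_nonneg _) (by positivity)
  rw [abs_of_nonneg (by positivity), ← pow_mul]
  apply pow_le_pow_right₀ hk1
  exact Nat.mul_le_mul_left k (card_le_card sdiff_subset)

end Pool.Agent.H11A
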