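import Mathlib

/-! An elementary inequality. -/

set_option autoImplicit false

namespace Pool.Agent.H11A

theorem fin_ineq (k r A : ℕ) (ℓ x L Y X K Cx Ct δ δ' S : ℝ) (hℓ : 1 ≤ ℓ) (hx : 1 ≤ x) (hL : ℓ ^ ((k : ℝ) + δ) ≤ L) (hk : 1 ≤ k)
    (hδ : 0 < δ) (hδ1 : δ ≤ 1) (hY : ℓ / 16 ≤ Y) (hK : 1 ≤ K) (hK2 : K ≤ Cx ^ k * x ^ k) (hCx : 1 ≤ Cx) (hX : Real.log X ≤ A * x)
    (hS : S ≤ k * (L / Y + 1 + Real.log X)) (hS0 : 0 ≤ S)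
    (hCt : Ct = 4 ^ k + 289 * Cx ^ (2 * k) + 9 * 5 ^ r * (Cx ^ (2 * k) * (k * (17 + A)) + 2 ^ k * Cx ^ k) + 1)
    (hg : Ct * x ^ (2 * k + 1) ≤ ℓ ^ (δ - δ')) :
    ((2 * ℓ) ^ k) ^ 2 + (K * (L / Y + 1)) ^ 2 + 9 * 5 ^ r * (K ^ 2 * L * S + L * (2 * ℓ) ^ k * K) + 1 ≤ L ^ 2 * ℓ ^ (-δ') := by
  have hℓ0 : 0 < ℓ := by linarith
  have hk1 : (1 : ℝ) ≤ k := by exact_mod_cast hk
  have hk0 : (0 : ℝ) ≤ k := by linarith
  have hA0 : (0 : ℝ) ≤ A := Nat.cast_nonneg _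
  have hY0 : 0 < Y := by linarith
  obtain ⟨E, hE⟩ : ∃ E, E = L ^ 2 * ℓ ^ (-δ) := ⟨_, rfl⟩
  have hℓδ : ℓ ^ (-δ) = 1 / ℓ ^ δ := by rw [Real.rpow_neg hℓ0.le, one_div]
  have hℓδ1 : 1 ≤ ℓ ^ δ := Real.one_le_rpow hℓ hδ.le
  have hℓδ0 : 0 < ℓ ^ δ := by linarith
  have hℓδℓ : ℓ ^ δ ≤ ℓ := by
    calc ℓ ^ δ ≤ ℓ ^ (1 : ℝ) := Real.rpow_le_rpow_of_exponent_le hℓ hδ1
      _ = ℓ := Real.rpow_one ℓ
  have hkL : ℓ ^ k * ℓ ^ δ ≤ L := by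
    rw [Real.rpow_add hℓ0, Real.rpow_natCast] at hL
    exact hL
  have hℓk : ℓ ≤ ℓ ^ k := le_self_pow₀ hℓ (by omega)
  have hℓk1 : 1 ≤ ℓ ^ k := one_le_pow₀ hℓ
  have hℓL : ℓ ≤ L := by
    calc ℓ ≤ ℓ ^ k * 1 := by rw [mul_one]; exact hℓk
      _ ≤ ℓ ^ k * ℓ ^ δ := mul_le_mul_of_nonneg_left hℓδ1 (by positivity)
      _ ≤ L := hkL
  have hL0 : 0 < L := by linarith
  have hL1 : 1 ≤ L := by linarith
  have hE1 : L ^ 2 / ℓ ≤ E := by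
    rw [hE, hℓδ, mul_one_div]
    exact div_le_div_of_nonneg_left (by positivity) hℓδ0 hℓδℓ
  have hE0 : 0 < E := by rw [hE]; positivity
  have hE2 : ℓ ^ k * L ≤ E := by
    rw [hE, hℓδ, mul_one_div, le_div_iff₀ hℓδ0]
    calc ℓ ^ k * L * ℓ ^ δ = (ℓ ^ k * ℓ ^ δ) * L := by ring
      _ ≤ L * L := mul_le_mul_of_nonneg_right hkL hL0.le
      _ = L ^ 2 := by ring
  have hkL' : ℓ ^ k ≤ L := by
    calc ℓ ^ k = ℓ ^ k * 1 := (mul_one _).symm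
      _ ≤ ℓ ^ k * ℓ ^ δ := mul_le_mul_of_nonneg_left hℓδ1 (by positivity)
      _ ≤ L := hkL
  have hLE : L ≤ E := by
    calc L = 1 * L := (one_mul _).symm
      _ ≤ ℓ ^ k * L := mul_le_mul_of_nonneg_right hℓk1 hL0.le
      _ ≤ E := hE2
  -- the terms
  have t1 : ((2 * ℓ) ^ k) ^ 2 ≤ 4 ^ k * E := by
    calc ((2 * ℓ) ^ k) ^ 2 = 4 ^ k * (ℓ ^ k * ℓ ^ k) := by
          rw [mul_pow, mul_pow, ← pow_mul, mul_comm k 2, pow_mul]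
          norm_num
          ring
      _ ≤ 4 ^ k * (ℓ ^ k * L) := by gcongr
      _ ≤ 4 ^ k * E := by gcongr
  have hLY : L / Y + 1 ≤ 17 * (L / ℓ) := by
    have h1 : L / Y ≤ L / (ℓ / 16) := div_le_div_of_nonneg_left hL0.le (by positivity) hY
    have h2 : L / (ℓ / 16) = 16 * (L / ℓ) := by field_simp
    have h3 : 1 ≤ L / ℓ := by rw [le_div_iff₀ hℓ0]; linarith
    linarith
  have hLY0 : 0 ≤ L / Y + 1 := by positivity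
  obtain ⟨κ, hκ⟩ : ∃ κ, κ = Cx ^ k * x ^ k := ⟨_, rfl⟩
  rw [← hκ] at hK2
  have hκ0 : 0 < κ := by linarith
  have hx0 : 0 ≤ x := by linarith
  have hxx : ∀ j, j ≤ 2 * k + 1 → x ^ j ≤ x ^ (2 * k + 1) := fun j hj => pow_le_pow_right₀ hx hj
  have hκ2 : κ ^ 2 = Cx ^ (2 * k) * x ^ (2 * k) := by rw [hκ]; ring
  have t2 : (K * (L / Y + 1)) ^ 2 ≤ 289 * Cx ^ (2 * k) * x ^ (2 * k + 1) * E := by
    calc (K * (L / Y + 1)) ^ 2 ≤ (κ * (17 * (L / ℓ))) ^ 2 := by gcongr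
      _ = 289 * κ ^ 2 * (L ^ 2 / ℓ / ℓ) := by field_simp; ring
      _ ≤ 289 * κ ^ 2 * (L ^ 2 / ℓ) := by
          apply mul_le_mul_of_nonneg_left _ (by positivity)
          exact div_le_self (by positivity) hℓ
      _ ≤ 289 * κ ^ 2 * E := mul_le_mul_of_nonneg_left hE1 (by positivity)
      _ = 289 * Cx ^ (2 * k) * x ^ (2 * k) * E := by rw [hκ2]; ring
      _ ≤ 289 * Cx ^ (2 * k) * x ^ (2 * k + 1) * E := by
          have := hxx (2 * k) (by omega)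
          gcongr
  have t3 : K ^ 2 * L * S ≤ Cx ^ (2 * k) * (k * (17 + A)) * x ^ (2 * k + 1) * E := by
    have h1 : L * S ≤ k * (17 + A) * x * E := by
      have h2 : L * (L / Y + 1) ≤ 17 * E := by
        calc L * (L / Y + 1) ≤ L * (17 * (L / ℓ)) := by gcongr
          _ = 17 * (L ^ 2 / ℓ) := by ring
          _ ≤ 17 * E := by gcongr
      have h3 : L * Real.log X ≤ A * x * E := by
        calc L * Real.log X ≤ L * (A * x) := by gcongr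
          _ = A * x * L := by ring
          _ ≤ A * x * E := by gcongr
      calc L * S ≤ L * (k * (L / Y + 1 + Real.log X)) := by gcongr
        _ = k * (L * (L / Y + 1) + L * Real.log X) := by ring
        _ ≤ k * (17 * E + A * x * E) := by gcongr
        _ ≤ k * (17 * x * E + A * x * E) := by
            have : 17 * 1 * E ≤ 17 * x * E := by gcongr
            gcongr
            linarith
        _ = k * (17 + A) * x * E := by ring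
    calc K ^ 2 * L * S = K ^ 2 * (L * S) := by ring
      _ ≤ κ ^ 2 * (k * (17 + A) * x * E) := by gcongr
      _ = Cx ^ (2 * k) * (k * (17 + A)) * x ^ (2 * k + 1) * E := by rw [hκ2]; ring
  have t4 : L * (2 * ℓ) ^ k * K ≤ 2 ^ k * Cx ^ k * x ^ (2 * k + 1) * E := by
    calc L * (2 * ℓ) ^ k * K ≤ L * (2 * ℓ) ^ k * κ := by gcongr
      _ = 2 ^ k * κ * (ℓ ^ k * L) := by rw [mul_pow]; ring
      _ ≤ 2 ^ k * κ * E := by gcongr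
      _ = 2 ^ k * Cx ^ k * x ^ k * E := by rw [hκ]; ring
      _ ≤ 2 ^ k * Cx ^ k * x ^ (2 * k + 1) * E := by
          have := hxx k (by omega)
          gcongr
  have t5 : (1 : ℝ) ≤ 1 * x ^ (2 * k + 1) * E := by
    have h1 : 1 ≤ x ^ (2 * k + 1) := one_le_pow₀ hx
    have h2 : 1 ≤ E := by linarith
    calc (1 : ℝ) = 1 * 1 * 1 := by norm_num
      _ ≤ 1 * x ^ (2 * k + 1) * E := by gcongr
  have t1' : ((2 * ℓ) ^ k) ^ 2 ≤ 4 ^ k * x ^ (2 * k + 1) * E := by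
    refine t1.trans ?_
    have h1 : 1 ≤ x ^ (2 * k + 1) := one_le_pow₀ hx
    calc (4 : ℝ) ^ k * E = 4 ^ k * 1 * E := by ring
      _ ≤ 4 ^ k * x ^ (2 * k + 1) * E := by gcongr
  have htot : ((2 * ℓ) ^ k) ^ 2 + (K * (L / Y + 1)) ^ 2 + 9 * 5 ^ r * (K ^ 2 * L * S + L * (2 * ℓ) ^ k * K) + 1 ≤ Ct * x ^ (2 * k + 1) * E := by
    have h6 : 9 * 5 ^ r * (K ^ 2 * L * S + L * (2 * ℓ) ^ k * K) ≤
        9 * 5 ^ r * (Cx ^ (2 * k) * (k * (17 + A)) * x ^ (2 * k + 1) * E + 2 ^ k * Cx ^ k * x ^ (2 * k + 1) * E) := by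
      gcongr
    have e : Ct * x ^ (2 * k + 1) * E = 4 ^ k * x ^ (2 * k + 1) * E + 289 * Cx ^ (2 * k) * x ^ (2 * k + 1) * E +
        9 * 5 ^ r * (Cx ^ (2 * k) * (k * (17 + A)) * x ^ (2 * k + 1) * E + 2 ^ k * Cx ^ k * x ^ (2 * k + 1) * E) + 1 * x ^ (2 * k + 1) * E := by
      rw [hCt]; ring
    rw [e]
    linarith
  refine htot.trans ?_
  calc Ct * x ^ (2 * k + 1) * E ≤ ℓ ^ (δ - δ') * E := mul_le_mul_of_nonneg_right hg hE0.le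
    _ = L ^ 2 * ℓ ^ (-δ') := by
        rw [hE]
        have : ℓ ^ (δ - δ') * ℓ ^ (-δ) = ℓ ^ (-δ') := by rw [← Real.rpow_add hℓ0]; congr 1; ring
        rw [← this]; ring

theorem tiny_ineq (k d r A : ℕ) (hr : 2 * r ≤ d + 1) (ℓ L s M : ℝ) (hℓ : 4 ≤ ℓ) (hL : 0 ≤ L) (hLA : L ≤ ℓ ^ A) (hs : 1 ≤ s) (hsℓ : s ≤ ℓ)
    (hkℓ : (k : ℝ) ≤ ℓ) (hM : M = ℓ ^ (2 * d + 3)) (E0 : ℕ) (hE0 : E0 = (d + 1) * (A + 3 * k + 2) + 1 + k * (2 * d + 3) + 1) :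
    L ^ (2 * r) * (4 * (2 * ℓ) ^ k) ^ (2 * r) * (s ^ (k * (d + 1)) * (k * M ^ k * (1 / ℓ ^ E0))) ≤ 1 := by
  have hℓ1 : 1 ≤ ℓ := by linarith
  have h1 : L ^ (2 * r) ≤ ℓ ^ (A * (d + 1)) := by
    calc L ^ (2 * r) ≤ (ℓ ^ A) ^ (2 * r) := pow_le_pow_left₀ hL hLA _
      _ ≤ (ℓ ^ A) ^ (d + 1) := pow_le_pow_right₀ (one_le_pow₀ hℓ1) hr
      _ = ℓ ^ (A * (d + 1)) := by rw [← pow_mul]
  have h2 : (4 * (2 * ℓ) ^ k) ^ (2 * r) ≤ ℓ ^ ((2 * k + 1) * (d + 1)) := by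
    have h3 : 4 * (2 * ℓ) ^ k ≤ ℓ ^ (2 * k + 1) := by
      calc 4 * (2 * ℓ) ^ k ≤ ℓ * (ℓ * ℓ) ^ k := by gcongr; linarith
        _ = ℓ ^ (2 * k + 1) := by ring
    calc (4 * (2 * ℓ) ^ k) ^ (2 * r) ≤ (ℓ ^ (2 * k + 1)) ^ (2 * r) := pow_le_pow_left₀ (by positivity) h3 _
      _ ≤ (ℓ ^ (2 * k + 1)) ^ (d + 1) := pow_le_pow_right₀ (one_le_pow₀ hℓ1) hr
      _ = ℓ ^ ((2 * k + 1) * (d + 1)) := by rw [← pow_mul]
  have h3 : s ^ (k * (d + 1)) ≤ ℓ ^ (k * (d + 1)) := pow_le_pow_left₀ (by linarith) hsℓ _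
  have hE0' : 0 < ℓ ^ E0 := by positivity
  calc L ^ (2 * r) * (4 * (2 * ℓ) ^ k) ^ (2 * r) * (s ^ (k * (d + 1)) * (k * M ^ k * (1 / ℓ ^ E0))) ≤
      ℓ ^ (A * (d + 1)) * ℓ ^ ((2 * k + 1) * (d + 1)) * (ℓ ^ (k * (d + 1)) * (ℓ * (ℓ ^ (2 * d + 3)) ^ k * (1 / ℓ ^ E0))) := by
        rw [hM]
        gcongr
    _ = ℓ ^ (A * (d + 1) + (2 * k + 1) * (d + 1) + k * (d + 1) + 1 + (2 * d + 3) * k) / ℓ ^ E0 := by
        rw [← pow_mul]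
        ring
    _ ≤ 1 := by
        rw [div_le_one hE0', hE0]
        apply pow_le_pow_right₀ hℓ1
        nlinarith

theorem pow_add_one_le (X1 t : ℝ) (hX : 0 ≤ X1) (ht : t ≤ 1) (r : ℕ) (hr : 1 ≤ r) : X1 ^ r + t ≤ (X1 + 1) ^ r := by
  have h : ∀ r : ℕ, 1 ≤ r → X1 ^ r + 1 ≤ (X1 + 1) ^ r := by
    intro r hr
    induction r, hr using Nat.le_induction with
    | base => simp
    | succ r hr ih =>
      have h1 := mul_le_mul_of_nonneg_right ih (by linarith : 0 ≤ X1 + 1)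
      rw [pow_succ (X1 + 1) r]
      refine le_trans ?_ h1
      have : 0 ≤ X1 ^ r := by positivity
      calc X1 ^ (r + 1) + 1 ≤ X1 ^ (r + 1) + 1 + (X1 ^ r + X1) := by linarith
        _ = (X1 ^ r + 1) * (X1 + 1) := by ring
  have := h r hr
  linarith

end Pool.Agent.H11A
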