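import Mathlib
import Pool.Agent.H11A.St3
import Pool.Agent.H11A.St4a

/-! The moments of the prime points of systems of random polynomials. -/

set_option autoImplicit false

namespace Pool.Agent.H11A

open Finset Filter Pool.Agent.H11P

variable {k d : ℕ}

theorem q_le (p : ℕ) (hp : p.Prime) (k : ℕ) : 0 < (1 - 1 / (p : ℝ)) ^ k ∧ (1 - 1 / (p : ℝ)) ^ k ≤ 1 ∧ 1 - (1 - 1 / (p : ℝ)) ^ k ≤ k / p := by
  have hp2 : (2 : ℝ) ≤ p := by exact_mod_cast hp.two_le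
  have h1 : 1 / (p : ℝ) ≤ 1 / 2 := one_div_le_one_div_of_le (by norm_num) hp2
  have h2 : 0 < 1 / (p : ℝ) := by positivity
  refine ⟨pow_pos (by linarith) _, pow_le_one₀ (by linarith) (by linarith), ?_⟩
  have h3 := one_add_mul_le_pow (by linarith : (-2 : ℝ) ≤ -(1 / (p : ℝ))) k
  have e : 1 + -(1 / (p : ℝ)) = 1 - 1 / (p : ℝ) := by ring
  rw [e] at h3
  have e2 : (k : ℝ) / p = k * (1 / (p : ℝ)) := by ring
  rw [e2]
  linarith

theorem sum_N (Y X L k : ℕ) (hY : 1 ≤ Y) (hYX : Y ≤ X) :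
    ∑ p ∈ pri Y X, (1 - (1 - 1 / (p : ℝ)) ^ k) * ((L : ℝ) / p + 1) ≤ k * ((L : ℝ) / Y + 1 + Real.log X) := by
  have h1 : ∑ p ∈ pri Y X, (1 - (1 - 1 / (p : ℝ)) ^ k) * ((L : ℝ) / p + 1) ≤ ∑ p ∈ pri Y X, (k / p) * ((L : ℝ) / p + 1) := by
    apply sum_le_sum
    intro p hp
    have hpp := ((mem_pri _ _ _).1 hp).1
    exact mul_le_mul_of_nonneg_right (q_le p hpp k).2.2 (by positivity)
  have h2 : ∑ p ∈ pri Y X, ((k : ℝ) / p) * ((L : ℝ) / p + 1) ≤ ∑ p ∈ Ioc Y X, ((k : ℝ) / p) * ((L : ℝ) / p + 1) := by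
    unfold pri
    exact sum_le_sum_of_subset_of_nonneg (filter_subset _ _) (fun _ _ _ => by positivity)
  have h3 : ∑ p ∈ Ioc Y X, ((k : ℝ) / p) * ((L : ℝ) / p + 1) = k * (L * ∑ p ∈ Ioc Y X, ((p : ℝ) ^ 2)⁻¹ + ∑ p ∈ Ioc Y X, (p : ℝ)⁻¹) := by
    rw [mul_sum, ← sum_add_distrib, mul_sum]
    apply sum_congr rfl
    intro p hp
    have : (p : ℝ) ≠ 0 := by
      have := (mem_Ioc.1 hp).1
      exact_mod_cast (by omega : p ≠ 0)
    field_simp
  have h4 : ∑ p ∈ Ioc Y X, ((p : ℝ) ^ 2)⁻¹ ≤ (Y : ℝ)⁻¹ := by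
    have := sum_Ioc_inv_sq_le_sub (α := ℝ) (by omega : Y ≠ 0) hYX
    have h5 : (0 : ℝ) ≤ (X : ℝ)⁻¹ := by positivity
    linarith
  have h5 : ∑ p ∈ Ioc Y X, (p : ℝ)⁻¹ ≤ 1 + Real.log X := by
    have h6 := harmonic_le_one_add_log X
    have h7 : ((harmonic X : ℚ) : ℝ) = ∑ p ∈ Icc 1 X, (p : ℝ)⁻¹ := by
      rw [harmonic_eq_sum_Icc]
      push_cast
      rfl
    rw [h7] at h6
    refine le_trans ?_ h6
    apply sum_le_sum_of_subset_of_nonneg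
    · intro p hp
      rw [mem_Ioc] at hp
      rw [mem_Icc]
      omega
    · intro _ _ _
      positivity
  have hL0 : (0 : ℝ) ≤ L := Nat.cast_nonneg _
  have hk0 : (0 : ℝ) ≤ k := Nat.cast_nonneg _
  calc ∑ p ∈ pri Y X, (1 - (1 - 1 / (p : ℝ)) ^ k) * ((L : ℝ) / p + 1) ≤ k * (L * ∑ p ∈ Ioc Y X, ((p : ℝ) ^ 2)⁻¹ + ∑ p ∈ Ioc Y X, (p : ℝ)⁻¹) := by
        rw [← h3]; exact h1.trans h2
    _ ≤ k * (L * (Y : ℝ)⁻¹ + (1 + Real.log X)) := by gcongr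
    _ = k * ((L : ℝ) / Y + 1 + Real.log X) := by ring

theorem mom_asym (hSW : SWU) (k d r A A' : ℕ) (hk : 1 ≤ k) (hr : 1 ≤ r) (hrd : 2 * r ≤ d + 1) (δ δ' : ℝ) (hδ' : 0 < δ') (hδδ : δ' < δ)
    (hδ1 : δ ≤ 1) : ∃ C1 : ℕ, ∀ C : ℕ, ∀ᶠ H : ℕ in atTop, ∀ (c : Fin k → ℕ → ℤ) (H1 J L : ℕ),
    (∀ i, ∀ n m : ℕ, ((n : ℤ) - m) ∣ c i n - c i m) → H1 ≤ H → (H : ℝ) ≤ H1 * Real.log H ^ C →
    Real.log H ^ ((k : ℝ) + δ) ≤ L → ((J + L : ℕ) : ℝ) ≤ Real.log H ^ A →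
    (∀ i, ∀ n ∈ Ioc J (J + L), H1 * Real.log H ^ C1 ≤ |(c i n : ℝ)| ∧ |(c i n : ℝ)| ≤ H * Real.log H ^ A') →
    (∑ a ∈ Fintype.piFinset (fun _ : Fin k => bx H1 1 (0 : Fin (d + 1) → ℤ)),
      (∑ n ∈ Ioc J (J + L), ((∏ i, Real.log |(c i n : ℝ)|) * PhK c n a - kS (pri 0 (Yh H)) ^ k * PsK c (pri 0 (Yh H)) n a)) ^ (2 * r)) /
      (Fintype.piFinset (fun _ : Fin k => bx H1 1 (0 : Fin (d + 1) → ℤ))).card ≤ ((L : ℝ) ^ 2 * Real.log H ^ (-δ')) ^ r := by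
  obtain ⟨E0, hE0⟩ : ∃ E0, E0 = (d + 1) * (A + 3 * k + 2) + 1 + k * (2 * d + 3) + 1 := ⟨_, rfl⟩
  obtain ⟨K1, hK1⟩ : ∃ K1, K1 = (A + 1) * ((d + 1) * (d + 1)) := ⟨_, rfl⟩
  obtain ⟨E1, hE1⟩ : ∃ E1, E1 = E0 + (K1 + 2) * (d + 2) + 2 := ⟨_, rfl⟩
  obtain ⟨C1, hC1⟩ : ∃ C1, C1 = K1 + A * d + E1 + 4 := ⟨_, rfl⟩
  refine ⟨C1, fun C => ?_⟩
  obtain ⟨Cm, hCm0, hCm⟩ := kap_mertens
  obtain ⟨Cx, hCx⟩ : ∃ Cx : ℝ, Cx = Cm * A + 1 := ⟨_, rfl⟩
  have hCx1 : 1 ≤ Cx := by rw [hCx]; have : 0 ≤ Cm * A := by positivity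
                           linarith
  obtain ⟨Ct, hCt⟩ : ∃ Ct : ℝ, Ct = 4 ^ k + 289 * Cx ^ (2 * k) + 9 * 5 ^ r * (Cx ^ (2 * k) * (k * (17 + A)) + 2 ^ k * Cx ^ k) + 1 := ⟨_, rfl⟩
  filter_upwards [star1 hSW d A A' C E0 K1 E1 C1 hK1 hE1 hC1, ev_log 32, ev_ll (2 * k + 1) Ct (δ - δ') (by linarith),
    ev_ll 1 (2 * Cx) 1 one_pos, ev_ll 1 (2 * C) 1 one_pos, ev_log (Real.exp 1), ev_log (k : ℝ), ev_pow A' 1 1 one_pos,
    eventually_ge_atTop 2, ev_pow (C + 1) 1 1 one_pos, ev_log (2 * ((d : ℝ) + 1))] with H hst g1 g2 g3 g4 g5 g6 g7 g8 g9 g10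
  intro c H1 J L hc hH1 hHC hL hJL hcn
  obtain ⟨ℓ, hℓ⟩ : ∃ ℓ : ℝ, ℓ = Real.log H := ⟨_, rfl⟩
  obtain ⟨Y, hY⟩ : ∃ Y, Y = Yh H := ⟨_, rfl⟩
  rw [← hY]
  unfold Yh at hY
  rw [Real.rpow_one] at g3 g4 g7 g9
  rw [← hℓ] at g1 g2 g3 g4 g5 g6 g7 g9 g10 hHC hL hJL hcn hst hY ⊢
  rw [one_mul] at g7 g9
  rw [pow_one] at g3 g4
  have hℓ0 : 0 < ℓ := by linarith
  have hℓ1 : 1 ≤ ℓ := by linarith
  have hH0 : (0 : ℝ) < H := by exact_mod_cast (by omega : 0 < H)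
  obtain ⟨x, hx⟩ : ∃ x, x = Real.log ℓ := ⟨_, rfl⟩
  have hx1 : 1 ≤ x := by
    rw [hx, Real.le_log_iff_exp_le hℓ0]; exact g5
  rw [← hx] at g2 g3 g4
  have hYle : (Y : ℝ) ≤ ℓ / 8 := by rw [hY]; exact Nat.floor_le (by positivity)
  have hYge : ℓ / 16 ≤ Y := by
    have := Nat.lt_floor_add_one (ℓ / 8)
    rw [← hY] at this
    linarith
  have hY2 : (2 : ℝ) ≤ Y := by linarith
  have hY0 : (0 : ℝ) < Y := by linarith
  have hY1 : 1 ≤ Y := by exact_mod_cast hY0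
  -- X
  obtain ⟨X, hX⟩ : ∃ X, X = J + L := ⟨_, rfl⟩
  have hDX : Ioc J (J + L) ⊆ Icc 1 X := by
    intro n hn
    rw [mem_Ioc] at hn
    rw [mem_Icc]
    omega
  have hk1 : (1 : ℝ) ≤ k := by exact_mod_cast hk
  have hℓL : ℓ ≤ L := by
    calc ℓ = ℓ ^ (1 : ℝ) := (Real.rpow_one ℓ).symm
      _ ≤ ℓ ^ ((k : ℝ) + δ) := Real.rpow_le_rpow_of_exponent_le hℓ1 (by linarith)
      _ ≤ L := hL
  have hL0 : (0 : ℝ) < L := by linarith
  have hL1 : (1 : ℝ) ≤ L := by linarith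
  have hXL : (L : ℝ) ≤ X := by rw [hX]; push_cast; linarith [(Nat.cast_nonneg J : (0 : ℝ) ≤ J)]
  have hYX : Y ≤ X := by
    have : (Y : ℝ) ≤ X := by linarith
    exact_mod_cast this
  have hXA : (X : ℝ) ≤ ℓ ^ A := by rw [hX]; exact hJL
  have hX3 : 3 ≤ X := by
    have : (3 : ℝ) ≤ X := by linarith
    exact_mod_cast this
  -- the constants
  obtain ⟨κ, hκ⟩ : ∃ κ, κ = kS (pri 0 Y) ^ k := ⟨_, rfl⟩
  have hkS1 : 1 ≤ kS (pri 0 Y) := kS_ge _ (fun p hp => ((mem_pri _ _ _).1 hp).1)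
  have hκ1 : 1 ≤ κ := by rw [hκ]; exact one_le_pow₀ hkS1
  obtain ⟨K, hK⟩ : ∃ K, K = κ * ∏ p ∈ pri Y X, (1 / (1 - 1 / (p : ℝ)) ^ k) := ⟨_, rfl⟩
  have hKeq : K = kS (pri 0 X) ^ k := by
    rw [hK, hκ, kS_split Y X hYX, mul_pow, ← prod_pow]
    congr 1
    apply prod_congr rfl
    intro p hp
    rw [fac_eq p ((mem_pri _ _ _).1 hp).1, one_div, one_div, inv_pow]
  have hlogX : Real.log X ≤ A * x := by
    have h1 := Real.log_le_log (by linarith) hXA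
    rwa [Real.log_pow, ← hx] at h1
  have hlogX0 : 0 ≤ Real.log X := Real.log_nonneg (by linarith)
  have hkX : kS (pri 0 X) ≤ Cx * x := by
    rw [kS_pri]
    refine (hCm X hX3).trans ?_
    rw [hCx]
    have h1 := mul_le_mul_of_nonneg_left hlogX hCm0.le
    linarith
  have hkX1 : 1 ≤ kS (pri 0 X) := kS_ge _ (fun p hp => ((mem_pri _ _ _).1 hp).1)
  have hKle : K ≤ Cx ^ k * x ^ k := by
    rw [hKeq, ← mul_pow]
    exact pow_le_pow_left₀ (by linarith) hkX k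
  have hK1' : 1 ≤ K := by rw [hKeq]; exact one_le_pow₀ hkX1
  have hkYX : kS (pri 0 Y) ≤ kS (pri 0 X) := by
    rw [kS_split Y X hYX]
    have : 1 ≤ ∏ p ∈ pri Y X, fac p := kS_ge _ (fun p hp => ((mem_pri _ _ _).1 hp).1)
    exact le_mul_of_one_le_right (by linarith) this
  have hkYℓ : kS (pri 0 Y) ≤ ℓ := by
    have : Cx * x ≤ ℓ := by
      have : 0 ≤ Cx * x := by positivity
      linarith
    linarith
  -- the logarithms
  have hH1pos : 1 ≤ H1 := by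
    by_contra hcon
    have : H1 = 0 := by omega
    rw [this] at hHC
    simp at hHC
    omega
  have hH10 : (0 : ℝ) < H1 := by exact_mod_cast hH1pos
  have hlog1 : ∀ i, ∀ n ∈ Ioc J (J + L), ℓ / 2 ≤ Real.log |(c i n : ℝ)| ∧ Real.log |(c i n : ℝ)| ≤ 2 * ℓ := by
    intro i n hn
    obtain ⟨a1, a2⟩ := hcn i n hn
    have h0 : 0 < H1 * ℓ ^ C1 := by positivity
    constructor
    · have h1 : (H : ℝ) / ℓ ^ C ≤ |(c i n : ℝ)| := by
        rw [div_le_iff₀ (by positivity)]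
        calc (H : ℝ) ≤ H1 * ℓ ^ C := hHC
          _ ≤ (H1 * ℓ ^ C1) * ℓ ^ C := by
              apply mul_le_mul_of_nonneg_right _ (by positivity)
              exact le_mul_of_one_le_right hH10.le (one_le_pow₀ hℓ1)
          _ ≤ |(c i n : ℝ)| * ℓ ^ C := mul_le_mul_of_nonneg_right a1 (by positivity)
      have h2 := Real.log_le_log (by positivity) h1
      rw [Real.log_div hH0.ne' (by positivity), Real.log_pow, ← hℓ, ← hx] at h2
      linarith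
    · have h1 := Real.log_le_log (by linarith) a2
      rw [Real.log_mul hH0.ne' (by positivity), Real.log_pow, ← hℓ] at h1
      have h2 := Real.log_le_log (by positivity) g7
      rw [Real.log_pow, ← hℓ] at h2
      linarith
  obtain ⟨lam, hlam⟩ : ∃ lam : ℕ → ℝ, lam = fun n => ∏ i, Real.log |(c i n : ℝ)| := ⟨_, rfl⟩
  have hlamb : ∀ n ∈ Ioc J (J + L), K ≤ lam n ∧ lam n ≤ (2 * ℓ) ^ k := by
    intro n hn
    rw [hlam]
    constructor
    · calc K ≤ Cx ^ k * x ^ k := hKle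
        _ = (Cx * x) ^ k := (mul_pow _ _ _).symm
        _ ≤ (ℓ / 2) ^ k := pow_le_pow_left₀ (by positivity) (by linarith) k
        _ = ∏ _i : Fin k, (ℓ / 2) := by rw [prod_const, card_univ, Fintype.card_fin]
        _ ≤ _ := Finset.prod_le_prod (fun _ _ => by positivity) (fun i _ => (hlog1 i n hn).1)
    · calc ∏ i, Real.log |(c i n : ℝ)| ≤ ∏ _i : Fin k, (2 * ℓ) :=
            Finset.prod_le_prod (fun i _ => by have := (hlog1 i n hn).1; linarith) (fun i _ => (hlog1 i n hn).2)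
        _ = (2 * ℓ) ^ k := by rw [prod_const, card_univ, Fintype.card_fin]
  -- the values are large
  have hX1 : 1 ≤ X := by omega
  have hbig : ∀ i, ∀ n ∈ Ioc J (J + L), ∀ b ∈ bx H1 1 (0 : Fin (d + 1) → ℤ), (Y : ℝ) < |((fv (c i) b n : ℤ) : ℝ)| := by
    intro i n hn b hb
    have h1 := evl_bd H1 X b hb n (mem_Icc.1 (hDX hn)).2 hX1
    have h2 := (hcn i n hn).1
    have h3 : (d + 1) * H1 * (X : ℝ) ^ d ≤ H1 * ℓ ^ C1 / 2 := by
      have h4 : (X : ℝ) ^ d ≤ ℓ ^ (A * d) := by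
        calc (X : ℝ) ^ d ≤ (ℓ ^ A) ^ d := by gcongr
          _ = ℓ ^ (A * d) := by rw [← pow_mul]
      rw [le_div_iff₀ (by norm_num)]
      calc (d + 1) * H1 * (X : ℝ) ^ d * 2 ≤ (d + 1) * H1 * ℓ ^ (A * d) * 2 := by gcongr
        _ = (2 * (d + 1)) * (H1 * ℓ ^ (A * d)) := by ring
        _ ≤ ℓ * (H1 * ℓ ^ (A * d)) := mul_le_mul_of_nonneg_right g10 (by positivity)
        _ = H1 * ℓ ^ (A * d + 1) := by ring
        _ ≤ H1 * ℓ ^ C1 := by
            apply mul_le_mul_of_nonneg_left _ hH10.le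
            exact pow_le_pow_right₀ hℓ1 (by omega)
    have h5 : ((fv (c i) b n : ℤ) : ℝ) = (c i n : ℝ) + ((evl b n : ℤ) : ℝ) := by unfold fv; push_cast; rfl
    have h6 : |(c i n : ℝ)| - |((evl b n : ℤ) : ℝ)| ≤ |((fv (c i) b n : ℤ) : ℝ)| := by
      rw [h5]
      have := abs_sub_abs_le_abs_sub (c i n : ℝ) (-((evl b n : ℤ) : ℝ))
      rwa [abs_neg, sub_neg_eq_add] at this
    have h7 : ℓ ≤ H1 * ℓ ^ C1 := by
      have h8 : ℓ ≤ ℓ ^ C1 := le_self_pow₀ hℓ1 (by omega)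
      have h9 : ℓ ^ C1 ≤ H1 * ℓ ^ C1 := le_mul_of_one_le_left (by positivity) (by exact_mod_cast hH1pos)
      linarith
    linarith
  have hℬ : (Fintype.piFinset (fun _ : Fin k => bx H1 1 (0 : Fin (d + 1) → ℤ))).Nonempty := by
    rw [Fintype.piFinset_nonempty]
    intro _
    exact bx_nonempty _ _ _ (le_refl 1) hH1pos
  obtain ⟨M, hM⟩ : ∃ M : ℝ, M = ℓ ^ (2 * d + 3) := ⟨_, rfl⟩
  have hM1 : 1 ≤ M := by rw [hM]; exact one_le_pow₀ hℓ1
  have hE01 : (1 : ℝ) / ℓ ^ E0 ≤ 1 := by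
    rw [div_le_one (by positivity)]
    exact one_le_pow₀ hℓ1
  obtain ⟨err, herr⟩ : ∃ err : ℝ, err = kS (pri 0 Y) ^ (k * (d + 1)) * (k * M ^ k * (1 / ℓ ^ E0)) := ⟨_, rfl⟩
  have herr0 : 0 ≤ err := by rw [herr]; positivity
  have key := moment (Fintype.piFinset (fun _ : Fin k => bx H1 1 (0 : Fin (d + 1) → ℤ))) hℬ (Ioc J (J + L)) (pri Y X)
    (fun p => (1 - 1 / (p : ℝ)) ^ k) (fun p hp => by
      have hpp := ((mem_pri _ _ _).1 hp).1
      exact ⟨hpp.pos, (q_le p hpp k).1, (q_le p hpp k).2.1⟩) lam κ K ((2 * ℓ) ^ k) hκ1 hK hlamb (one_le_pow₀ (by linarith))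
    (fun a n => lam n * PhK c n a) (fun a n => κ * PsK c (pri 0 Y) n a) (by
      intro a _ n _
      classical
      rw [PsK_val]
      split_ifs
      · right; ring
      · left; ring) (by
      intro a ha n hn
      rw [Fintype.mem_piFinset] at ha
      classical
      rw [PhK_val, PsK_val]
      split_ifs with h1 h2
      · right; constructor <;> ring
      · exfalso
        apply h2
        intro i p hp hd
        rw [mem_pri] at hp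
        have h3 := hbig i n hn (a i) (ha i)
        have h4 : p ∣ (fv (c i) (a i) n).natAbs := Int.natCast_dvd.1 hd
        have h5 := (Nat.prime_dvd_prime_iff_eq hp.1 (h1 i)).1 h4
        have h6 : (((fv (c i) (a i) n).natAbs : ℕ) : ℝ) = |((fv (c i) (a i) n : ℤ) : ℝ)| := by
          rw [Nat.cast_natAbs]; simp
        rw [← h6, ← h5] at h3
        have : Y < p := by exact_mod_cast h3
        omega
      · left; ring
      · left; ring) r err herr0 (by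
      intro U hU hUc S hS
      have hs := fun i => hst (c i) H1 X Y U (hc i) hH1 hHC (by linarith) hXA (hU.trans hDX) (by omega)
        (fun n hn => hcn i n (hU hn)) S hS
      have hScard : S.card ≤ d + 1 := (card_le_card hS).trans (by omega)
      have hxb : ∀ i, |(∏ n ∈ S, Real.log |(c i n : ℝ)|) * avg (bx H1 1 (0 : Fin (d + 1) → ℤ)) (fun b => Phi (c i) S b * PsS (c i) (pri 0 Y) (U \ S) b)| ≤ ℓ ^ (2 * d + 2) := by
        intro i
        have hB : (bx H1 1 (0 : Fin (d + 1) → ℤ)).Nonempty := bx_nonempty _ _ _ (le_refl 1) hH1pos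
        have h1 : 0 ≤ avg (bx H1 1 (0 : Fin (d + 1) → ℤ)) (fun b => Phi (c i) S b * PsS (c i) (pri 0 Y) (U \ S) b) :=
          avg_nonneg _ _ (fun b => mul_nonneg (Phi_bd _ _ _).1 (PsS_bd _ _ _ _).1)
        have h2 : avg (bx H1 1 (0 : Fin (d + 1) → ℤ)) (fun b => Phi (c i) S b * PsS (c i) (pri 0 Y) (U \ S) b) ≤ 1 := by
          rw [← avg_const _ hB 1]
          apply avg_mono
          intro b _
          exact mul_le_one₀ (Phi_bd _ _ _).2 (PsS_bd _ _ _ _).1 (PsS_bd _ _ _ _).2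
        have h3 : 0 ≤ ∏ n ∈ S, Real.log |(c i n : ℝ)| := prod_nonneg fun n hn => by
          have := (hlog1 i n (hU (hS hn))).1
          linarith
        rw [abs_of_nonneg (mul_nonneg h3 h1)]
        calc (∏ n ∈ S, Real.log |(c i n : ℝ)|) * avg (bx H1 1 (0 : Fin (d + 1) → ℤ)) (fun b => Phi (c i) S b * PsS (c i) (pri 0 Y) (U \ S) b) ≤
            (∏ n ∈ S, Real.log |(c i n : ℝ)|) * 1 := mul_le_mul_of_nonneg_left h2 h3
          _ ≤ ∏ _n ∈ S, ℓ ^ 2 := by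
              rw [mul_one]
              apply Finset.prod_le_prod
              · intro n hn
                have := (hlog1 i n (hU (hS hn))).1
                linarith
              · intro n hn
                have := (hlog1 i n (hU (hS hn))).2
                have : 2 * ℓ ≤ ℓ ^ 2 := by rw [pow_two]; apply mul_le_mul_of_nonneg_right _ hℓ0.le; linarith
                linarith
          _ = (ℓ ^ 2) ^ S.card := by rw [prod_const]
          _ ≤ (ℓ ^ 2) ^ (d + 1) := pow_le_pow_right₀ (one_le_pow₀ hℓ1) hScard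
          _ = ℓ ^ (2 * d + 2) := by rw [← pow_mul]; congr 1
      have hMb : ℓ ^ (2 * d + 2) + 1 ≤ M := by
        rw [hM]
        have h1 : 1 ≤ ℓ ^ (2 * d + 2) := one_le_pow₀ hℓ1
        calc ℓ ^ (2 * d + 2) + 1 ≤ ℓ ^ (2 * d + 2) * 2 := by linarith
          _ ≤ ℓ ^ (2 * d + 2) * ℓ := by gcongr; linarith
          _ = ℓ ^ (2 * d + 3) := by ring
      have hfin := starK c (bx H1 1 (0 : Fin (d + 1) → ℤ)) (pri 0 Y) (pri Y X) U S hS (fun n i => Real.log |(c i n : ℝ)|) M (1 / ℓ ^ E0) hM1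
        (by positivity) (fun p hp => ((mem_pri _ _ _).1 hp).1) hkS1 hs (fun i => (hxb i).trans (by linarith)) (fun i => by
          have h1 := hs i
          rw [abs_sub_comm] at h1
          have h2 := abs_sub_abs_le_abs_sub (kS (pri 0 Y) ^ S.card * (∏ p ∈ pri Y X, ((1 - 1 / (p : ℝ)) ^ nuS p S * fac p ^ S.card)) *
            avg (bx H1 1 (0 : Fin (d + 1) → ℤ)) (PsS (c i) (pri 0 Y) U))
            ((∏ n ∈ S, Real.log |(c i n : ℝ)|) * avg (bx H1 1 (0 : Fin (d + 1) → ℤ)) (fun b => Phi (c i) S b * PsS (c i) (pri 0 Y) (U \ S) b))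
          have h3 := hxb i
          linarith)
      rw [hlam, hκ]
      refine hfin.trans ?_
      rw [herr]
      apply mul_le_mul_of_nonneg_right _ (by positivity)
      exact pow_le_pow_right₀ hkS1 (Nat.mul_le_mul_left k (by omega))) (fun p => (L : ℝ) / p + 1) (by
      intro p hp c _
      exact cls_card J L p c ((mem_pri _ _ _).1 hp).1.pos) ((L : ℝ) / Y + 1) (by
      intro p hp
      have h1 : (Y : ℝ) ≤ p := by exact_mod_cast ((mem_pri _ _ _).1 hp).2.1.le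
      have : (L : ℝ) / p ≤ L / Y := div_le_div_of_nonneg_left hL0.le hY0 h1
      linarith)
  rw [hlam, hκ] at key
  refine key.trans ?_
  rw [Nat.card_Ioc, Nat.add_sub_cancel_left]
  have hS := sum_N Y X L k hY1 hYX
  obtain ⟨S, hSd⟩ : ∃ S, S = ∑ p ∈ pri Y X, (1 - (1 - 1 / (p : ℝ)) ^ k) * ((L : ℝ) / p + 1) := ⟨_, rfl⟩
  rw [← hSd] at hS ⊢
  have hS0 : 0 ≤ S := by
    rw [hSd]
    apply sum_nonneg
    intro p hp
    have := (q_le p ((mem_pri _ _ _).1 hp).1 k).2.1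
    exact mul_nonneg (by linarith) (by positivity)
  have hfi := fin_ineq k r A ℓ x L Y X K Cx Ct δ δ' S hℓ1 hx1 hL hk (by linarith) hδ1 hYge hK1' hKle hCx1 hlogX hS hS0 hCt g2
  have hLA : (L : ℝ) ≤ ℓ ^ A := by linarith
  have hti := tiny_ineq k d r A hrd ℓ L (kS (pri 0 Y)) M (by linarith) hL0.le hLA hkS1 hkYℓ g6 hM E0 hE0
  rw [← herr] at hti
  obtain ⟨X1, hX1d⟩ : ∃ X1, X1 = ((2 * ℓ) ^ k) ^ 2 + (K * ((L : ℝ) / Y + 1)) ^ 2 + 9 * 5 ^ r * (K ^ 2 * L * S + L * (2 * ℓ) ^ k * K) := ⟨_, rfl⟩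
  rw [← hX1d] at hfi ⊢
  have hX10 : 0 ≤ X1 := by
    rw [hX1d]
    positivity
  refine (pow_add_one_le X1 _ hX10 hti r hr).trans ?_
  exact pow_le_pow_left₀ (by linarith) hfi r

end Pool.Agent.H11A
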