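import Mathlib
import Pool.Agent.H11A.Az4
import Pool.Agent.H11A.St4

/-! The prime points of a window and the sifted window: arrays. -/

set_option autoImplicit false

namespace Pool.Agent.H11A

open Finset Filter Pool.Agent.H11P Pool.Agent.H11P.Law

variable {k d : ℕ}

/-- the number of the prime points -/
noncomputable def pts (P : Fin k → Polynomial ℤ) (D : Finset ℕ) (a : Fin k → Fin (d + 1) → ℤ) : ℕ :=
  (D.filter (fun n => ∀ i, (value (P i) (a i) n).natAbs.Prime)).card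

theorem value_add (P : Polynomial ℤ) (a b : Fin (d + 1) → ℤ) (n : ℕ) : value P (a + b) n = fv (fun n => value P a n) b n := by
  unfold value fv evl
  simp only [Pi.add_apply]
  rw [add_assoc]
  congr 1
  rw [← sum_add_distrib]
  apply sum_congr rfl
  intro l _
  ring

theorem value_dvd (P : Polynomial ℤ) (a : Fin (d + 1) → ℤ) (n m : ℕ) : ((n : ℤ) - m) ∣ value P a n - value P a m := by
  rw [← fp_eval, ← fp_eval]
  exact Polynomial.sub_dvd_eval_sub _ _ _

theorem value_bd (P : Polynomial ℤ) (H X : ℕ) (a : Fin (d + 1) → ℤ) (ha : ∀ l, |a l| ≤ H) (n : ℕ) (hn : n ≤ X) (hX : 1 ≤ X) :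
    |((value P a n : ℤ) : ℝ)| ≤ |((P.eval (n : ℤ) : ℤ) : ℝ)| + (d + 1) * H * (X : ℝ) ^ d := by
  have h1 : value P a n = P.eval (n : ℤ) + evl a n := rfl
  rw [h1]
  push_cast
  refine (abs_add_le _ _).trans ?_
  have h2 := evl_bd H X a (by
    unfold bx
    rw [Fintype.mem_piFinset]
    intro l
    unfold cls
    rw [mem_filter, mem_Icc]
    refine ⟨abs_le.1 (ha l), ?_⟩
    have : ((1 : ℕ) : ℤ) = 1 := rfl
    rw [this]
    exact Int.modEq_one) n hn hX
  linarith

open Classical in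
/-- few centres are bad -/
theorem bad_centre (P : Fin k → Polynomial ℤ) (H : ℕ) (D : Finset ℕ) (B : ℝ) (hB : 0 ≤ B) :
    (((ab k d H).filter (fun a => ∃ i, ∃ n ∈ D, |((value (P i) (a i) n : ℤ) : ℝ)| < B)).card : ℝ) ≤
      (k * D.card * ((2 * B + 1) / (2 * H + 1))) * (ab k d H).card := by
  have h1 : (ab k d H).filter (fun a => ∃ i, ∃ n ∈ D, |((value (P i) (a i) n : ℤ) : ℝ)| < B) ⊆
      ((univ : Finset (Fin k)) ×ˢ D).biUnion (fun x => (ab k d H).filter (fun a => |((value (P x.1) (a x.1) x.2 : ℤ) : ℝ)| < B)) := by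
    intro a ha
    rw [mem_filter] at ha
    obtain ⟨h0, i, n, hn, h2⟩ := ha
    rw [mem_biUnion]
    exact ⟨(i, n), mem_product.2 ⟨mem_univ _, hn⟩, mem_filter.2 ⟨h0, h2⟩⟩
  have h2 : ∀ x ∈ (univ : Finset (Fin k)) ×ˢ D, (((ab k d H).filter (fun a => |((value (P x.1) (a x.1) x.2 : ℤ) : ℝ)| < B)).card : ℝ) ≤
      ((2 * B + 1) / (2 * H + 1)) * (ab k d H).card := by
    intro x _
    unfold ab
    apply upd_count _ ⟨0, by rw [mem_Icc]; omega⟩ x.1 0
    intro a _
    rw [Icc_card]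
    obtain ⟨w, hw⟩ : ∃ w : ℤ, w = value (P x.1) (Function.update (a x.1) 0 0) x.2 := ⟨_, rfl⟩
    have h3 : ∀ y : ℤ, value (P x.1) ((Function.update a x.1 (Function.update (a x.1) 0 y)) x.1) x.2 = w + y := by
      intro y
      rw [Function.update_self, hw]
      unfold value
      rw [Fin.sum_univ_succ, Fin.sum_univ_succ (f := fun l : Fin (d + 1) => Function.update (a x.1) 0 0 l * (x.2 : ℤ) ^ (l : ℕ))]
      simp only [Function.update_self, Fin.val_zero, pow_zero, mul_one]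
      have h4 : ∀ y : ℤ, ∀ l : Fin d, Function.update (a x.1) 0 y l.succ = a x.1 l.succ := fun y l => Function.update_of_ne (Fin.succ_ne_zero l) _ _
      simp only [h4]
      ring
    simp only [h3]
    have h5 : (Icc (-(H : ℤ)) H).filter (fun y : ℤ => |((w + y : ℤ) : ℝ)| < B) ⊆ Icc (⌈-B - w⌉) (⌊B - w⌋) := by
      intro y hy
      rw [mem_filter] at hy
      rw [mem_Icc]
      have h6 := abs_lt.1 hy.2
      push_cast at h6
      constructor
      · apply Int.ceil_le.2; linarith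
      · apply Int.le_floor.2; linarith
    have h6 : (((Icc (-(H : ℤ)) H).filter (fun y : ℤ => |((w + y : ℤ) : ℝ)| < B)).card : ℝ) ≤ ((Icc (⌈-B - w⌉) (⌊B - w⌋)).card : ℝ) := by
      exact_mod_cast card_le_card h5
    refine h6.trans ?_
    rw [Int.card_Icc]
    have f1 := Int.le_ceil (-B - w)
    have f2 := Int.floor_le (B - w)
    have h7 : (((⌊B - w⌋ + 1 - ⌈-B - w⌉).toNat : ℕ) : ℝ) ≤ 2 * B + 1 := by
      rcases le_or_gt 0 (⌊B - w⌋ + 1 - ⌈-B - w⌉) with h | h
      · have h8 : (((⌊B - w⌋ + 1 - ⌈-B - w⌉).toNat : ℕ) : ℝ) = ((⌊B - w⌋ + 1 - ⌈-B - w⌉ : ℤ) : ℝ) := by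
          have h9 : (((⌊B - w⌋ + 1 - ⌈-B - w⌉).toNat : ℕ) : ℤ) = (⌊B - w⌋ + 1 - ⌈-B - w⌉ : ℤ) := Int.toNat_of_nonneg h
          exact_mod_cast congrArg (fun z : ℤ => (z : ℝ)) h9
        rw [h8]
        push_cast
        linarith
      · rw [Int.toNat_of_nonpos h.le]
        push_cast
        linarith
    refine h7.trans (le_of_eq ?_)
    push_cast
    field_simp
  have h3 : (((ab k d H).filter (fun a => ∃ i, ∃ n ∈ D, |((value (P i) (a i) n : ℤ) : ℝ)| < B)).card : ℝ) ≤
      ∑ x ∈ (univ : Finset (Fin k)) ×ˢ D, (((ab k d H).filter (fun a => |((value (P x.1) (a x.1) x.2 : ℤ) : ℝ)| < B)).card : ℝ) := by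
    exact_mod_cast (card_le_card h1).trans card_biUnion_le
  refine h3.trans ((sum_le_card_nsmul _ _ _ h2).trans (le_of_eq ?_))
  rw [card_product, card_univ, Fintype.card_fin, nsmul_eq_mul]
  push_cast
  ring

theorem sum_PhK (P : Fin k → Polynomial ℤ) (D : Finset ℕ) (a b : Fin k → Fin (d + 1) → ℤ) (f : ℕ → ℝ) :
    ∑ n ∈ D, f n * PhK (fun i n => value (P i) (a i) n) n b =
      ∑ n ∈ D.filter (fun n => ∀ i, (value (P i) ((a + b) i) n).natAbs.Prime), f n := by
  classical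
  rw [sum_filter]
  apply sum_congr rfl
  intro n _
  rw [PhK_val]
  have e : (∀ i, (fv (fun n => value (P i) (a i) n) (b i) n).natAbs.Prime) ↔ ∀ i, (value (P i) ((a + b) i) n).natAbs.Prime := by
    apply forall_congr'
    intro i
    rw [Pi.add_apply, value_add]
  simp only [e]
  split_ifs <;> ring

theorem sum_PsK (P : Fin k → Polynomial ℤ) (D : Finset ℕ) (z : ℕ) (a b : Fin k → Fin (d + 1) → ℤ) (κ : ℝ) :
    ∑ n ∈ D, κ * PsK (fun i n => value (P i) (a i) n) (pri 0 z) n b = κ * NS P D z (a + b) := by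
  classical
  unfold NS
  rw [← mul_sum, card_filter]
  congr 1
  push_cast
  apply sum_congr rfl
  intro n _
  rw [PsK_val]
  have e : (∀ i, ∀ p ∈ pri 0 z, ¬ (p : ℤ) ∣ fv (fun n => value (P i) (a i) n) (b i) n) ↔
      ∀ p ∈ pri 0 z, ∀ i, ¬ (p : ℤ) ∣ value (P i) ((a + b) i) n := by
    constructor
    · intro h p hp i
      have := h i p hp
      rwa [← value_add] at this
    · intro h i p hp
      have := h p hp i
      rwa [Pi.add_apply, value_add] at this
  simp only [e]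

end Pool.Agent.H11A
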