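import Mathlib
import Pool.Agent.H11A.Pr1

/-! The prime points of a window and the sifted window: arrays. -/

set_option autoImplicit false

namespace Pool.Agent.H11A

open Finset Filter Pool.Agent.H11P Pool.Agent.H11P.Law

variable {k d : ℕ}

theorem arith1 (u w s t ε κL : ℝ) (hu : 0 ≤ u) (h1 : |w - s| ≤ t) (h2 : |u - w| ≤ ε * u) (hε : 0 ≤ ε) (hε2 : ε ≤ 1 / 2) (hs : s ≤ κL) :
    |u - s| ≤ t + 2 * ε * (t + κL) := by
  have a1 := abs_le.1 h1
  have a2 := abs_le.1 h2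
  have h3 : ε * u ≤ 1 / 2 * u := mul_le_mul_of_nonneg_right hε2 hu
  have h4 : u ≤ 2 * (t + κL) := by linarith
  have h5 : ε * u ≤ ε * (2 * (t + κL)) := mul_le_mul_of_nonneg_left h4 hε
  rw [abs_le]
  constructor <;> linarith

theorem prim (hSW : SWU) (k d r A A' E K : ℕ) (hk : 1 ≤ k) (hr : 1 ≤ r) (hrd : 2 * r ≤ d + 1) (δ δ' : ℝ) (hδ' : 0 < δ') (hδδ : δ' < δ)
    (hδ1 : δ ≤ 1) : ∀ᶠ H : ℕ in atTop, ∀ (P : Fin k → Polynomial ℤ) (J L : ℕ),
    Real.log H ^ ((k : ℝ) + δ) ≤ L → ((J + L : ℕ) : ℝ) ≤ Real.log H ^ A →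
    (∀ i, ∀ n ∈ Ioc J (J + L), |(((P i).eval (n : ℤ) : ℤ) : ℝ)| ≤ H * Real.log H ^ A') →
    (((ab k d H).filter (fun a => (L : ℝ) / Real.log (Real.log H) ^ K <
      |Real.log H ^ k * pts P (Ioc J (J + L)) a - kS (pri 0 (Yh H)) ^ k * NS P (Ioc J (J + L)) (Yh H) a|)).card : ℝ) ≤
      ((Real.log H ^ (-δ')) ^ r + 1 / Real.log H ^ E) * (ab k d H).card := by
  obtain ⟨δ1, hδ1d⟩ : ∃ δ1, δ1 = (δ' + δ) / 2 := ⟨_, rfl⟩
  obtain ⟨A2, hA2⟩ : ∃ A2, A2 = A' + A * d + 1 := ⟨_, rfl⟩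
  obtain ⟨C1, hC1⟩ := mom_asym hSW k d r A A2 hk hr hrd δ δ1 (by linarith) (by linarith) hδ1
  obtain ⟨C, hC⟩ : ∃ C, C = A + C1 + E + 3 := ⟨_, rfl⟩
  obtain ⟨Cm, hCm0, hCm⟩ := kap_mertens
  obtain ⟨C3, hC3⟩ : ∃ C3 : ℝ, C3 = A2 + C + 1 := ⟨_, rfl⟩
  have hC30 : 0 < C3 := by rw [hC3]; positivity
  filter_upwards [hC1 (C + 1), ev_log 32, ev_ll (k + K + 1) (4 * (1 + Cm ^ k) * (k * 2 ^ k * C3)) 1 one_pos,
    ev_ll (2 * K) 4 (δ1 - δ') (by linarith), ev_ll 1 C3 1 one_pos, ev_log (Real.exp 1), ev_log (k : ℝ), ev_log ((d : ℝ) + 2),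
    eventually_ge_atTop 2, ev_pow (C + 1) 1 1 one_pos, ev_ll 1 (2 * (k * 2 ^ k * C3)) 1 one_pos] with H hmom g1 g2 g3 g4 g5 g6 g7 g8 g9 g10
  intro P J L hL hJL hP
  obtain ⟨ℓ, hℓ⟩ : ∃ ℓ : ℝ, ℓ = Real.log H := ⟨_, rfl⟩
  obtain ⟨Y, hY⟩ : ∃ Y, Y = Yh H := ⟨_, rfl⟩
  rw [← hY] at hmom ⊢
  unfold Yh at hY
  rw [Real.rpow_one] at g2 g4 g9 g10
  rw [← hℓ] at g1 g2 g3 g4 g5 g6 g7 g9 g10 hL hJL hP hmom hY ⊢
  rw [one_mul] at g9
  rw [pow_one] at g4 g10
  have hℓ0 : 0 < ℓ := by linarith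
  have hℓ1 : 1 ≤ ℓ := by linarith
  have hH0 : (0 : ℝ) < H := by exact_mod_cast (by omega : 0 < H)
  obtain ⟨x, hx⟩ : ∃ x, x = Real.log ℓ := ⟨_, rfl⟩
  have hx1 : 1 ≤ x := by
    rw [hx, Real.le_log_iff_exp_le hℓ0]; exact g5
  rw [← hx] at g2 g3 g4 g10 ⊢
  have hx0 : 0 < x := by linarith
  have hYle : (Y : ℝ) ≤ ℓ / 8 := by rw [hY]; exact Nat.floor_le (by positivity)
  have hYge : ℓ / 16 ≤ Y := by
    have := Nat.lt_floor_add_one (ℓ / 8)
    rw [← hY] at this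
    linarith
  have hY2 : (2 : ℝ) ≤ Y := by linarith
  have hk1 : (1 : ℝ) ≤ k := by exact_mod_cast hk
  have hℓL : ℓ ≤ L := by
    calc ℓ = ℓ ^ (1 : ℝ) := (Real.rpow_one ℓ).symm
      _ ≤ ℓ ^ ((k : ℝ) + δ) := Real.rpow_le_rpow_of_exponent_le hℓ1 (by linarith)
      _ ≤ L := hL
  have hL0 : (0 : ℝ) < L := by linarith
  obtain ⟨D, hD⟩ : ∃ D, D = Ioc J (J + L) := ⟨_, rfl⟩
  have hDc : D.card = L := by rw [hD, Nat.card_Ioc, Nat.add_sub_cancel_left]
  rw [← hD] at hP ⊢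
  -- κ
  obtain ⟨κ, hκ⟩ : ∃ κ, κ = kS (pri 0 Y) ^ k := ⟨_, rfl⟩
  have hkS1 : 1 ≤ kS (pri 0 Y) := kS_ge _ (fun p hp => ((mem_pri _ _ _).1 hp).1)
  have hκ1 : 1 ≤ κ := by rw [hκ]; exact one_le_pow₀ hkS1
  have hkSx : kS (pri 0 Y) ≤ Cm * x := by
    rw [kS_pri]
    by_cases h3 : 3 ≤ Y
    · refine (hCm Y h3).trans ?_
      apply mul_le_mul_of_nonneg_left _ hCm0.le
      rw [hx]
      exact Real.log_le_log (by linarith) (by linarith)
    · exfalso
      have h4 : Y ≤ 2 := by omega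
      have : (Y : ℝ) ≤ 2 := by exact_mod_cast h4
      have h5 : (Y : ℝ) < 3 := by linarith
      have h6 : 32 / 8 ≤ ℓ / 8 := by linarith
      have h7 : 4 ≤ Y := by
        rw [hY]
        apply Nat.le_floor
        push_cast
        linarith
      omega
  have hκx : κ ≤ Cm ^ k * x ^ k := by
    rw [hκ, ← mul_pow]
    exact pow_le_pow_left₀ (by linarith) hkSx k
  rw [← hκ] at hmom ⊢
  -- H1
  obtain ⟨H1, hH11, hH12, hH13⟩ := flr ℓ H C (by linarith) g9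
  have hH10 : (0 : ℝ) < H1 := by exact_mod_cast hH11
  have hH1H : H1 ≤ H := by
    have h1 : (H1 : ℝ) ≤ H := by
      have h2 : (H1 : ℝ) * 1 ≤ H1 * ℓ ^ C := mul_le_mul_of_nonneg_left (one_le_pow₀ hℓ1) hH10.le
      linarith
    exact_mod_cast h1
  obtain ⟨ρ, hρ⟩ : ∃ ρ : ℝ, ρ = (ℓ ^ (-δ')) ^ r := ⟨_, rfl⟩
  have hρ0 : 0 ≤ ρ := by rw [hρ]; positivity
  obtain ⟨ε2, hε2⟩ : ∃ ε2 : ℝ, ε2 = k * 2 ^ k * (C3 * x / ℓ) := ⟨_, rfl⟩
  have hε20 : 0 ≤ ε2 := by rw [hε2]; positivity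
  have hε2half : ε2 ≤ 1 / 2 := by
    rw [hε2, mul_div_assoc', div_le_iff₀ hℓ0]
    linarith
  have hε2κ : 2 * ε2 * (L / x ^ K / 2 + κ * L) ≤ L / x ^ K / 2 := by
    have h1 : ε2 * (4 * (1 + κ) * x ^ K) ≤ 1 := by
      rw [hε2]
      have h2 : 1 + κ ≤ (1 + Cm ^ k) * x ^ k := by
        have : 1 ≤ x ^ k := one_le_pow₀ hx1
        linarith
      calc k * 2 ^ k * (C3 * x / ℓ) * (4 * (1 + κ) * x ^ K) ≤ k * 2 ^ k * (C3 * x / ℓ) * (4 * ((1 + Cm ^ k) * x ^ k) * x ^ K) := by gcongr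
        _ = 4 * (1 + Cm ^ k) * (k * 2 ^ k * C3) * x ^ (k + K + 1) / ℓ := by
            rw [pow_add, pow_add, pow_one]; ring
        _ ≤ 1 := by rw [div_le_one hℓ0]; exact g2
    have hxK : 0 < x ^ K := by positivity
    have hxK1 : 1 ≤ x ^ K := one_le_pow₀ hx1
    have h3 : L / x ^ K / 2 + κ * L ≤ (1 + κ) * L := by
      have h4 : (L : ℝ) / x ^ K ≤ L := div_le_self hL0.le hxK1
      linarith
    calc 2 * ε2 * (L / x ^ K / 2 + κ * L) ≤ 2 * ε2 * ((1 + κ) * L) := mul_le_mul_of_nonneg_left h3 (by positivity)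
      _ = (ε2 * (4 * (1 + κ) * x ^ K)) * (L / x ^ K / 2) := by field_simp; ring
      _ ≤ 1 * (L / x ^ K / 2) := mul_le_mul_of_nonneg_right h1 (by positivity)
      _ = L / x ^ K / 2 := one_mul _
  classical
  have key := avg_shift (k := k) (d := d) H (Fintype.piFinset (fun _ : Fin k => bx H1 1 (0 : Fin (d + 1) → ℤ))) (by
    rw [Fintype.piFinset_nonempty]
    intro _
    exact bx_nonempty _ _ _ (le_refl 1) hH11) (fun b => b) H1 (by
    intro b hb i l
    rw [Fintype.mem_piFinset] at hb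
    have h1 := hb i
    unfold bx at h1
    rw [Fintype.mem_piFinset] at h1
    have h2 := h1 l
    unfold cls at h2
    rw [mem_filter, mem_Icc] at h2
    exact abs_le.2 h2.1)
    (fun a => (L : ℝ) / x ^ K < |ℓ ^ k * pts P D a - κ * NS P D Y a|)
    (fun a => ∃ i, ∃ n ∈ D, |((value (P i) (a i) n : ℤ) : ℝ)| < H1 * ℓ ^ C1) ρ hρ0 (by
    intro a ha hgood
    push Not at hgood
    have haH : ∀ i l, |a i l| ≤ H := by
      intro i l
      unfold ab at ha
      have := Fintype.mem_piFinset.1 (Fintype.mem_piFinset.1 ha i) l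
      rw [mem_Icc] at this
      exact abs_le.2 this
    have hup : ∀ i, ∀ n ∈ D, |((value (P i) (a i) n : ℤ) : ℝ)| ≤ H * ℓ ^ A2 := by
      intro i n hn
      have hnJ : n ≤ J + L := by rw [hD, mem_Ioc] at hn; exact hn.2
      have hJL1 : 1 ≤ J + L := by rw [hD, mem_Ioc] at hn; omega
      have h1 := value_bd (P i) H (J + L) (a i) (haH i) n hnJ hJL1
      have h2 := hP i n hn
      have h3 : (((J + L : ℕ) : ℝ)) ^ d ≤ ℓ ^ (A * d) := by
        calc (((J + L : ℕ) : ℝ)) ^ d ≤ (ℓ ^ A) ^ d := pow_le_pow_left₀ (Nat.cast_nonneg _) hJL d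
          _ = ℓ ^ (A * d) := by rw [← pow_mul]
      calc |((value (P i) (a i) n : ℤ) : ℝ)| ≤ H * ℓ ^ A' + (d + 1) * H * ℓ ^ (A * d) := by
            refine h1.trans (add_le_add h2 ?_)
            gcongr
        _ ≤ H * ℓ ^ (A' + A * d) + (d + 1) * H * ℓ ^ (A' + A * d) := by
            have e1 : ℓ ^ A' ≤ ℓ ^ (A' + A * d) := pow_le_pow_right₀ hℓ1 (by omega)
            have e2 : ℓ ^ (A * d) ≤ ℓ ^ (A' + A * d) := pow_le_pow_right₀ hℓ1 (by omega)
            gcongr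
        _ = (d + 2) * (H * ℓ ^ (A' + A * d)) := by ring
        _ ≤ ℓ * (H * ℓ ^ (A' + A * d)) := mul_le_mul_of_nonneg_right g7 (by positivity)
        _ = H * ℓ ^ A2 := by rw [hA2]; ring
    have hm := hmom (fun i n => value (P i) (a i) n) H1 J L (fun i n m => value_dvd (P i) (a i) n m) hH1H hH13 hL hJL (by
      intro i n hn
      rw [← hD] at hn
      exact ⟨hgood i n hn, hup i n hn⟩)
    rw [← hD] at hm
    simp only [sum_sub_distrib] at hm
    obtain ⟨lam, hlam⟩ : ∃ lam : ℕ → ℝ, lam = fun n => ∏ i, Real.log |((value (P i) (a i) n : ℤ) : ℝ)| := ⟨_, rfl⟩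
    have hlamε : ∀ n ∈ D, |ℓ ^ k - lam n| ≤ ε2 * ℓ ^ k := by
      intro n hn
      have h1 : ∀ i : Fin k, |Real.log |((value (P i) (a i) n : ℤ) : ℝ)| / ℓ - 1| ≤ C3 * x / ℓ := by
        intro i
        have b1 := hgood i n hn
        have b2 := hup i n hn
        have hpos : 0 < H1 * ℓ ^ C1 := by positivity
        have c1 := Real.log_le_log (by linarith) b2
        rw [Real.log_mul hH0.ne' (by positivity), Real.log_pow, ← hℓ, ← hx] at c1
        have b3 : (H : ℝ) / ℓ ^ (C + 1) ≤ |((value (P i) (a i) n : ℤ) : ℝ)| := by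
          rw [div_le_iff₀ (by positivity)]
          calc (H : ℝ) ≤ H1 * ℓ ^ (C + 1) := hH13
            _ ≤ (H1 * ℓ ^ C1) * ℓ ^ (C + 1) := by
                apply mul_le_mul_of_nonneg_right _ (by positivity)
                exact le_mul_of_one_le_right hH10.le (one_le_pow₀ hℓ1)
            _ ≤ _ := mul_le_mul_of_nonneg_right b1 (by positivity)
        have c2 := Real.log_le_log (by positivity) b3
        rw [Real.log_div hH0.ne' (by positivity), Real.log_pow, ← hℓ, ← hx] at c2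
        have e : Real.log |((value (P i) (a i) n : ℤ) : ℝ)| / ℓ - 1 = (Real.log |((value (P i) (a i) n : ℤ) : ℝ)| - ℓ) / ℓ := by field_simp
        rw [e, abs_div, abs_of_pos hℓ0]
        apply div_le_div_of_nonneg_right _ hℓ0.le
        rw [hC3, abs_le]
        push_cast at c2
        have hA20 : (0 : ℝ) ≤ A2 * x := by positivity
        have hC0 : (0 : ℝ) ≤ C * x := by positivity
        have e3 : ((A2 : ℝ) + C + 1) * x = A2 * x + C * x + x := by ring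
        have e4 : ((C : ℝ) + 1) * x = C * x + x := by ring
        rw [e3]
        rw [e4] at c2
        constructor
        · linarith
        · linarith
      have h2 : C3 * x / ℓ ≤ 1 := by rw [div_le_one hℓ0]; exact g4
      have h3 := prod_diff (univ : Finset (Fin k)) (fun i => Real.log |((value (P i) (a i) n : ℤ) : ℝ)| / ℓ) (fun _ => 1) 2 (C3 * x / ℓ) (by norm_num)
        (by positivity) (fun i _ => by
          have := abs_le.1 (h1 i)
          rw [abs_le]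
          constructor <;> linarith) (fun i _ => by norm_num) (fun i _ => h1 i)
      rw [card_univ, Fintype.card_fin, prod_const_one, prod_div_distrib, prod_const, card_univ, Fintype.card_fin] at h3
      have e : ℓ ^ k - lam n = -((lam n / ℓ ^ k - 1) * ℓ ^ k) := by field_simp; ring
      rw [e, abs_neg, abs_mul, abs_of_pos (by positivity : 0 < ℓ ^ k)]
      apply mul_le_mul_of_nonneg_right _ (by positivity)
      rw [hε2, hlam]
      exact h3
    obtain ⟨T, hT⟩ : ∃ T : (Fin k → Fin (d + 1) → ℤ) → ℝ, T = fun b =>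
        ∑ n ∈ D.filter (fun n => ∀ i, (value (P i) ((a + b) i) n).natAbs.Prime), lam n - κ * NS P D Y (a + b) := ⟨_, rfl⟩
    have hTeq : ∀ b, T b = ∑ n ∈ D, (∏ i, Real.log |((value (P i) (a i) n : ℤ) : ℝ)|) * PhK (fun i n => value (P i) (a i) n) n b -
        ∑ n ∈ D, κ * PsK (fun i n => value (P i) (a i) n) (pri 0 Y) n b := by
      intro b
      rw [hT, sum_PsK, sum_PhK P D a b (fun n => ∏ i, Real.log |((value (P i) (a i) n : ℤ) : ℝ)|), hlam]
    simp only [← hTeq] at hm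
    have hQ : ∀ b, (L : ℝ) / x ^ K < |ℓ ^ k * pts P D (a + b) - κ * NS P D Y (a + b)| → L / x ^ K / 2 < |T b| := by
      intro b hb
      by_contra hcon
      push Not at hcon
      have h1 : |∑ n ∈ D.filter (fun n => ∀ i, (value (P i) ((a + b) i) n).natAbs.Prime), lam n - κ * NS P D Y (a + b)| ≤ L / x ^ K / 2 := by
        rw [hT] at hcon
        exact hcon
      have h2 : |ℓ ^ k * pts P D (a + b) - ∑ n ∈ D.filter (fun n => ∀ i, (value (P i) ((a + b) i) n).natAbs.Prime), lam n| ≤ ε2 * (ℓ ^ k * pts P D (a + b)) := by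
        have e : ℓ ^ k * pts P D (a + b) = ∑ _n ∈ D.filter (fun n => ∀ i, (value (P i) ((a + b) i) n).natAbs.Prime), ℓ ^ k := by
          rw [sum_const, nsmul_eq_mul]
          unfold pts
          ring
        rw [e, ← sum_sub_distrib, mul_sum]
        refine (abs_sum_le_sum_abs _ _).trans (sum_le_sum fun n hn => ?_)
        exact hlamε n (mem_filter.1 hn).1
      have hNS : κ * (NS P D Y (a + b) : ℝ) ≤ κ * L := by
        apply mul_le_mul_of_nonneg_left _ (by linarith)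
        have : NS P D Y (a + b) ≤ D.card := by unfold NS; exact card_le_card (filter_subset _ _)
        rw [hDc] at this
        exact_mod_cast this
      have h3 := arith1 _ _ _ _ ε2 (κ * L) (by positivity) h1 h2 hε20 hε2half hNS
      linarith
    have hΩ0 : (0 : ℝ) < (Fintype.piFinset (fun _ : Fin k => bx H1 1 (0 : Fin (d + 1) → ℤ))).card := by
      have : (Fintype.piFinset (fun _ : Fin k => bx H1 1 (0 : Fin (d + 1) → ℤ))).Nonempty := by
        rw [Fintype.piFinset_nonempty]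
        intro _
        exact bx_nonempty _ _ _ (le_refl 1) hH11
      exact_mod_cast this.card_pos
    rw [div_le_iff₀ hΩ0] at hm
    have ht0 : 0 < (L : ℝ) / x ^ K / 2 := by positivity
    have hmk : (((Fintype.piFinset (fun _ : Fin k => bx H1 1 (0 : Fin (d + 1) → ℤ))).filter (fun b => (L : ℝ) / x ^ K < |ℓ ^ k * pts P D (a + b) - κ * NS P D Y (a + b)|)).card : ℝ) *
        (L / x ^ K / 2) ^ (2 * r) ≤ ((L : ℝ) ^ 2 * ℓ ^ (-δ1)) ^ r * (Fintype.piFinset (fun _ : Fin k => bx H1 1 (0 : Fin (d + 1) → ℤ))).card := by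
      refine le_trans ?_ hm
      rw [← nsmul_eq_mul, ← sum_const]
      calc ∑ b ∈ (Fintype.piFinset (fun _ : Fin k => bx H1 1 (0 : Fin (d + 1) → ℤ))).filter (fun b => (L : ℝ) / x ^ K < |ℓ ^ k * pts P D (a + b) - κ * NS P D Y (a + b)|), ((L : ℝ) / x ^ K / 2) ^ (2 * r) ≤
          ∑ b ∈ (Fintype.piFinset (fun _ : Fin k => bx H1 1 (0 : Fin (d + 1) → ℤ))).filter (fun b => (L : ℝ) / x ^ K < |ℓ ^ k * pts P D (a + b) - κ * NS P D Y (a + b)|), T b ^ (2 * r) := by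
            apply sum_le_sum
            intro b hb
            have h1 := hQ b (mem_filter.1 hb).2
            have h2 : T b ^ (2 * r) = |T b| ^ (2 * r) := by rw [pow_mul, pow_mul, sq_abs]
            rw [h2]
            exact pow_le_pow_left₀ ht0.le h1.le _
        _ ≤ _ := by
            apply sum_le_sum_of_subset_of_nonneg (filter_subset _ _)
            intro b _ _
            rw [pow_mul]
            positivity
    have hfin : ((L : ℝ) ^ 2 * ℓ ^ (-δ1)) ^ r ≤ ρ * (L / x ^ K / 2) ^ (2 * r) := by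
      rw [hρ, pow_mul, ← mul_pow]
      apply pow_le_pow_left₀ (by positivity)
      have h1 : ℓ ^ (-δ1) * (4 * x ^ (2 * K)) ≤ ℓ ^ (-δ') := by
        calc ℓ ^ (-δ1) * (4 * x ^ (2 * K)) ≤ ℓ ^ (-δ1) * ℓ ^ (δ1 - δ') := mul_le_mul_of_nonneg_left g3 (by positivity)
          _ = ℓ ^ (-δ') := by rw [← Real.rpow_add hℓ0]; congr 1; ring
      have e : ℓ ^ (-δ') * ((L : ℝ) / x ^ K / 2) ^ 2 = ℓ ^ (-δ') * (L ^ 2 / (4 * x ^ (2 * K))) := by
        rw [div_pow, div_pow, ← pow_mul, mul_comm K 2]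
        ring
      rw [e, mul_div_assoc', le_div_iff₀ (by positivity)]
      calc (L : ℝ) ^ 2 * ℓ ^ (-δ1) * (4 * x ^ (2 * K)) = (ℓ ^ (-δ1) * (4 * x ^ (2 * K))) * L ^ 2 := by ring
        _ ≤ ℓ ^ (-δ') * L ^ 2 := mul_le_mul_of_nonneg_right h1 (by positivity)
    have hfin2 := hmk.trans (mul_le_mul_of_nonneg_right hfin hΩ0.le)
    have hp : 0 < ((L : ℝ) / x ^ K / 2) ^ (2 * r) := by positivity
    have hfin3 : (((Fintype.piFinset (fun _ : Fin k => bx H1 1 (0 : Fin (d + 1) → ℤ))).filter (fun b => (L : ℝ) / x ^ K < |ℓ ^ k * pts P D (a + b) - κ * NS P D Y (a + b)|)).card : ℝ) *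
        (L / x ^ K / 2) ^ (2 * r) ≤ (ρ * (Fintype.piFinset (fun _ : Fin k => bx H1 1 (0 : Fin (d + 1) → ℤ))).card) * (L / x ^ K / 2) ^ (2 * r) := by
      linarith
    exact le_of_mul_le_mul_right hfin3 hp)
  have hbc := bad_centre (d := d) P H D (H1 * ℓ ^ C1) (by positivity)
  rw [hDc] at hbc
  have hab0 : (0 : ℝ) ≤ (ab k d H).card := Nat.cast_nonneg _
  have hB1 : 1 ≤ H1 * ℓ ^ C1 := by
    calc (1 : ℝ) = 1 * 1 := by ring
      _ ≤ H1 * ℓ ^ C1 := mul_le_mul (by exact_mod_cast hH11) (one_le_pow₀ hℓ1) zero_le_one hH10.le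
  have t1 : (k : ℝ) * L * ((2 * (H1 * ℓ ^ C1) + 1) / (2 * H + 1)) ≤ 1 / (2 * ℓ ^ E) := by
    rw [mul_div_assoc', div_le_div_iff₀ (by positivity) (by positivity), one_mul]
    have hLA : (L : ℝ) ≤ ℓ ^ A := by
      refine le_trans ?_ hJL
      push_cast
      linarith [(Nat.cast_nonneg J : (0 : ℝ) ≤ J)]
    calc (k : ℝ) * L * (2 * (H1 * ℓ ^ C1) + 1) * (2 * ℓ ^ E) ≤ ℓ * ℓ ^ A * (3 * (H1 * ℓ ^ C1)) * (2 * ℓ ^ E) := by
          gcongr
          linarith
      _ = 6 * (H1 * ℓ ^ (A + C1 + E + 1)) := by ring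
      _ ≤ ℓ * (H1 * ℓ ^ (A + C1 + E + 1)) := mul_le_mul_of_nonneg_right (by linarith) (by positivity)
      _ = H1 * ℓ ^ (A + C1 + E + 2) := by ring
      _ ≤ H1 * ℓ ^ C := by
          apply mul_le_mul_of_nonneg_left _ hH10.le
          exact pow_le_pow_right₀ hℓ1 (by omega)
      _ ≤ H := hH12
      _ ≤ 2 * H + 1 := by linarith
  have t2 : (k : ℝ) * (d + 1) * (H1 / (2 * H + 1)) ≤ 1 / (2 * ℓ ^ E) := by
    rw [mul_div_assoc', div_le_div_iff₀ (by positivity) (by positivity), one_mul]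
    calc (k : ℝ) * (d + 1) * H1 * (2 * ℓ ^ E) ≤ ℓ * ℓ * H1 * (ℓ * ℓ ^ E) := by
          have : (d : ℝ) + 1 ≤ ℓ := by linarith
          gcongr
          linarith
      _ = H1 * ℓ ^ (E + 3) := by ring
      _ ≤ H1 * ℓ ^ C := by
          apply mul_le_mul_of_nonneg_left _ hH10.le
          exact pow_le_pow_right₀ hℓ1 (by omega)
      _ ≤ H := hH12
      _ ≤ 2 * H + 1 := by linarith
  have t3 : (1 : ℝ) / ℓ ^ E = 1 / (2 * ℓ ^ E) + 1 / (2 * ℓ ^ E) := by field_simp; norm_num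
  have hbc2 := hbc.trans (mul_le_mul_of_nonneg_right t1 hab0)
  rw [t3]
  have t4 := mul_le_mul_of_nonneg_right t2 hab0
  rw [hρ] at key
  refine key.trans ?_
  linarith

end Pool.Agent.H11A
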