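import Mathlib
import Pool.Agent.H11A.Fl2
import Pool.Agent.H11A.Md1
import Pool.Agent.H11A.Pr2

/-! The deterministic part: from the sifted windows to the Bateman-Horn constants. -/

set_option autoImplicit false

namespace Pool.Agent.H11A

open Finset Filter Pool.Agent.H11P Pool.Agent.H11P.Law

variable {k d : ℕ}

theorem bh_pri (P : Fin k → Polynomial ℤ) (z : ℕ) (a : Fin k → Fin (d + 1) → ℤ) : bhConst P z a = ∏ p ∈ pri 0 z, zt P p a := by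
  unfold bhConst zt
  apply prod_congr _ (fun _ _ => rfl)
  ext p
  unfold primesTo
  rw [mem_pri, mem_filter, mem_range]
  constructor
  · rintro ⟨h1, h2⟩; exact ⟨h2, h2.pos, by omega⟩
  · rintro ⟨h1, _, h3⟩; exact ⟨by omega, h1⟩

theorem bh_Pz (P : Fin k → Polynomial ℤ) (z : ℕ) (a : Fin k → Fin (d + 1) → ℤ) : bhConst P z a = kS (pri 0 z) ^ k * Pz P z a := by
  rw [bh_pri]
  unfold zt kS Pz
  rw [← prod_pow, ← prod_mul_distrib]
  apply prod_congr rfl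
  intro p hp
  rw [fac_eq p ((mem_pri _ _ _).1 hp).1, inv_pow, div_eq_mul_inv, mul_comm, one_div]

theorem prod_close (s : Finset ℕ) (u : ℕ → ℝ) (η : ℝ) (h1 : ∀ p ∈ s, |u p| ≤ 1 / 2) (h2 : |∑ p ∈ s, u p| ≤ η) (h3 : ∑ p ∈ s, u p ^ 2 ≤ η) :
    Real.exp (-(2 * η)) ≤ ∏ p ∈ s, (1 + u p) ∧ ∏ p ∈ s, (1 + u p) ≤ Real.exp η := by
  have a2 := abs_le.1 h2
  constructor
  · have h4 : ∏ p ∈ s, Real.exp (u p - u p ^ 2) ≤ ∏ p ∈ s, (1 + u p) := by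
      apply Finset.prod_le_prod (fun _ _ => (Real.exp_pos _).le)
      intro p hp
      have h5 := abs_le.1 (h1 p hp)
      obtain ⟨y, hy⟩ : ∃ y, y = u p := ⟨_, rfl⟩
      rw [← hy] at h5 ⊢
      have h6 : Real.exp (y - y ^ 2) = 1 / Real.exp (y ^ 2 - y) := by rw [one_div, ← Real.exp_neg]; congr 1; ring
      rw [h6, div_le_iff₀ (Real.exp_pos _)]
      have h7 := Real.add_one_le_exp (y ^ 2 - y)
      have h8 : 1 ≤ (1 + y) * (y ^ 2 - y + 1) + 0 ∨ y < 0 := by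
        by_cases hy0 : 0 ≤ y
        · left
          have : (1 + y) * (y ^ 2 - y + 1) = 1 + y ^ 3 := by ring
          rw [this]
          have : 0 ≤ y ^ 3 := by positivity
          linarith
        · right; linarith
      rcases h8 with h8 | h8
      · calc (1 : ℝ) ≤ (1 + y) * (y ^ 2 - y + 1) := by linarith
          _ ≤ (1 + y) * Real.exp (y ^ 2 - y) := mul_le_mul_of_nonneg_left h7 (by linarith)
      · -- y < 0
        have h9 : 1 + (y ^ 2 - y) + (y ^ 2 - y) ^ 2 / 2 ≤ Real.exp (y ^ 2 - y) := Real.quadratic_le_exp_of_nonneg (by nlinarith)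
        have h10 : 1 ≤ (1 + y) * (1 + (y ^ 2 - y) + (y ^ 2 - y) ^ 2 / 2) := by
          have e : (1 + y) * (1 + (y ^ 2 - y) + (y ^ 2 - y) ^ 2 / 2) - 1 = y ^ 2 * (1 / 2 + y / 2 - y ^ 2 / 2 + y ^ 3 / 2) := by ring
          have h11 : 0 ≤ 1 / 2 + y / 2 - y ^ 2 / 2 + y ^ 3 / 2 := by
            have h12 : y ^ 2 ≤ 1 / 4 := by nlinarith
            have h13 : -(1 / 8) ≤ y ^ 3 := by nlinarith
            linarith
          have := mul_nonneg (sq_nonneg y) h11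
          linarith
        exact h10.trans (mul_le_mul_of_nonneg_left h9 (by linarith))
    refine le_trans ?_ h4
    rw [← Real.exp_sum]
    apply Real.exp_le_exp.2
    rw [sum_sub_distrib]
    linarith
  · have h4 : ∏ p ∈ s, (1 + u p) ≤ ∏ p ∈ s, Real.exp (u p) := by
      apply Finset.prod_le_prod
      · intro p hp
        have h5 := abs_le.1 (h1 p hp)
        linarith
      · intro p _
        have := Real.add_one_le_exp (u p)
        linarith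
    refine h4.trans ?_
    rw [← Real.exp_sum]
    exact Real.exp_le_exp.2 a2.2

theorem zt_bd (P : Fin k → Polynomial ℤ) (e : ℕ) (hP : ∀ i, (P i).natDegree ≤ e) (hd : 1 ≤ d) (a : Fin k → Fin (d + 1) → ℤ) (h : Adm P a)
    (M : ℝ) (hM : M = 2 ^ k * ((k * max e d : ℕ) : ℝ)) (p : ℕ) (hp : p.Prime) : |zt P p a - 1| ≤ M / p ∧ 0 < zt P p a := by
  have hp0 : (0 : ℝ) < p := by exact_mod_cast hp.pos
  obtain ⟨q1, q2, q3, q4⟩ := qpos p hp k
  obtain ⟨q, hq⟩ : ∃ q : ℝ, q = (1 - 1 / (p : ℝ)) ^ k := ⟨_, rfl⟩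
  obtain ⟨o1, o2⟩ := omega_adm P e hP a h p hp
  have hfac := (Pz_fac P e hP a h p hp)
  unfold zt
  rw [← hq] at q1 q2 q3 q4 ⊢
  obtain ⟨w, hw⟩ : ∃ w : ℝ, w = (omega P a p : ℝ) := ⟨_, rfl⟩
  rw [← hw] at hfac ⊢
  have hwE : w ≤ ((k * max e d : ℕ) : ℝ) := by rw [hw]; exact_mod_cast o1
  have hw0 : 0 ≤ w := by rw [hw]; positivity
  have hkE : (k : ℝ) ≤ ((k * max e d : ℕ) : ℝ) := by exact_mod_cast Nat.le_mul_of_pos_right k (lt_max_of_lt_right hd)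
  constructor
  · have e' : (1 - w / p) / q - 1 = (1 / q) * (1 - w / p - q) := by field_simp
    rw [e', abs_mul, abs_of_pos (by positivity : 0 < 1 / q)]
    have h1 : |1 - w / p - q| ≤ ((k * max e d : ℕ) : ℝ) / p := by
      have h2 : w / p ≤ ((k * max e d : ℕ) : ℝ) / p := div_le_div_of_nonneg_right hwE hp0.le
      have h3 : (k : ℝ) / p ≤ ((k * max e d : ℕ) : ℝ) / p := div_le_div_of_nonneg_right hkE hp0.le
      have h4 : 0 ≤ w / p := by positivity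
      rw [abs_le]
      constructor <;> linarith
    calc (1 / q) * |1 - w / p - q| ≤ 2 ^ k * (((k * max e d : ℕ) : ℝ) / p) := mul_le_mul q4 h1 (abs_nonneg _) (by positivity)
      _ = M / p := by rw [hM]; ring
  · apply div_pos _ q1
    have : 0 < 1 / (p : ℝ) := by positivity
    linarith [hfac.1]

theorem bh_pos (P : Fin k → Polynomial ℤ) (e : ℕ) (hP : ∀ i, (P i).natDegree ≤ e) (hd : 1 ≤ d) (a : Fin k → Fin (d + 1) → ℤ) (h : Adm P a) (z : ℕ) :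
    0 < bhConst P z a := by
  rw [bh_pri]
  apply prod_pos
  intro p hp
  exact (zt_bd P e hP hd a h _ rfl p ((mem_pri _ _ _).1 hp).1).2

theorem bh_ratio (P : Fin k → Polynomial ℤ) (e : ℕ) (hP : ∀ i, (P i).natDegree ≤ e) (hd : 1 ≤ d) (a : Fin k → Fin (d + 1) → ℤ) (h : Adm P a)
    (M : ℝ) (hM : M = 2 ^ k * ((k * max e d : ℕ) : ℝ)) (hM0 : 0 ≤ M) (z Y : ℕ) (hz : 1 ≤ z) (hzY : z ≤ Y) (η : ℝ) (hzM : 2 * M ≤ z) (hzη : M ^ 2 / z ≤ η)
    (hs : |∑ p ∈ pri z Y, (zt P p a - 1)| ≤ η) :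
    Real.exp (-(2 * η)) * bhConst P z a ≤ bhConst P Y a ∧ bhConst P Y a ≤ Real.exp η * bhConst P z a := by
  have hz0 : (0 : ℝ) < z := by exact_mod_cast hz
  have h1 := prod_close (pri z Y) (fun p => zt P p a - 1) η (by
    intro p hp
    have hpz : (z : ℝ) ≤ p := by exact_mod_cast ((mem_pri _ _ _).1 hp).2.1.le
    have := (zt_bd P e hP hd a h M hM p ((mem_pri _ _ _).1 hp).1).1
    refine this.trans ?_
    rw [div_le_div_iff₀ (by linarith) (by norm_num)]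
    linarith) hs (by
    have h2 : ∑ p ∈ pri z Y, (zt P p a - 1) ^ 2 ≤ ∑ p ∈ pri z Y, M ^ 2 * ((p : ℝ) ^ 2)⁻¹ := by
      apply sum_le_sum
      intro p hp
      have := (zt_bd P e hP hd a h M hM p ((mem_pri _ _ _).1 hp).1).1
      have h3 := pow_le_pow_left₀ (abs_nonneg _) this 2
      rw [sq_abs, div_pow] at h3
      rw [← div_eq_mul_inv]
      exact h3
    rw [← mul_sum] at h2
    refine h2.trans (le_trans (mul_le_mul_of_nonneg_left (inv_sq_sum z Y hz hzY) (sq_nonneg M)) ?_)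
    rw [mul_one_div]
    exact hzη)
  have e1 : bhConst P Y a = (∏ p ∈ pri z Y, (1 + (zt P p a - 1))) * bhConst P z a := by
    rw [bh_pri, bh_pri, ← pri_union z Y hzY, prod_union (pri_dis z Y), mul_comm]
    congr 1
    apply prod_congr rfl
    intro p _
    ring
  have hb := bh_pos P e hP hd a h z
  rw [e1]
  exact ⟨mul_le_mul_of_nonneg_right h1.1 hb.le, mul_le_mul_of_nonneg_right h1.2 hb.le⟩

theorem fin_arith (u L b' bY bz ε η ε1 : ℝ) (hε : 0 < ε) (hε1 : ε ≤ 1) (hη : η = ε / 16) (hε1d : ε1 = ε / 8) (hη0 : 0 < η) (hε10 : 0 < ε1)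
    (hL0 : 0 < L) (hbz : 0 < bz)
    (r1 : Real.exp (-(2 * η)) * b' ≤ bY) (r2 : bY ≤ Real.exp η * b') (r3 : Real.exp (-(2 * η)) * bz ≤ bY) (r4 : bY ≤ Real.exp η * bz)
    (hmain : |u - L * b'| ≤ 2 * ε1 * (L * b')) : |u - L * bz| ≤ ε * (L * bz) := by
  have hup : b' ≤ (1 + 6 * η) * bz := by
    have h1 : b' ≤ Real.exp (3 * η) * bz := by
      have h2 : b' ≤ Real.exp (2 * η) * bY := by
        have h3 : Real.exp (2 * η) * (Real.exp (-(2 * η)) * b') = b' := by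
          rw [← mul_assoc, ← Real.exp_add, add_neg_cancel, Real.exp_zero, one_mul]
        rw [← h3]
        exact mul_le_mul_of_nonneg_left r1 (Real.exp_pos _).le
      calc b' ≤ Real.exp (2 * η) * bY := h2
        _ ≤ Real.exp (2 * η) * (Real.exp η * bz) := mul_le_mul_of_nonneg_left r4 (Real.exp_pos _).le
        _ = Real.exp (3 * η) * bz := by rw [← mul_assoc, ← Real.exp_add]; congr 2; ring
    refine h1.trans (mul_le_mul_of_nonneg_right ?_ hbz.le)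
    have h2 : |3 * η| ≤ 1 := by rw [abs_of_pos (by positivity), hη]; linarith
    have h3 := (abs_le.1 (Real.abs_exp_sub_one_sub_id_le h2)).2
    have h4 : (3 * η) ^ 2 ≤ 3 * η := by
      have : 3 * η ≤ 1 := by rw [hη]; linarith
      nlinarith
    linarith
  have hdown : (1 - 3 * η) * bz ≤ b' := by
    have h1 : Real.exp (-(3 * η)) * bz ≤ b' := by
      have h2 : Real.exp (-η) * bY ≤ b' := by
        have h3 : Real.exp (-η) * (Real.exp η * b') = b' := by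
          rw [← mul_assoc, ← Real.exp_add, neg_add_cancel, Real.exp_zero, one_mul]
        rw [← h3]
        exact mul_le_mul_of_nonneg_left r2 (Real.exp_pos _).le
      calc Real.exp (-(3 * η)) * bz = Real.exp (-η) * (Real.exp (-(2 * η)) * bz) := by rw [← mul_assoc, ← Real.exp_add]; congr 2; ring
        _ ≤ Real.exp (-η) * bY := mul_le_mul_of_nonneg_left r3 (Real.exp_pos _).le
        _ ≤ b' := h2
    refine le_trans (mul_le_mul_of_nonneg_right ?_ hbz.le) h1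
    have := Real.add_one_le_exp (-(3 * η))
    linarith
  have hm := abs_le.1 hmain
  have hLb : 0 ≤ L * bz := by positivity
  rw [abs_le]
  have f1 : u ≤ (1 + 2 * ε1) * (L * ((1 + 6 * η) * bz)) := by
    calc u ≤ L * b' + 2 * ε1 * (L * b') := by linarith
      _ = (1 + 2 * ε1) * (L * b') := by ring
      _ ≤ (1 + 2 * ε1) * (L * ((1 + 6 * η) * bz)) := by gcongr
  have f2 : (1 - 2 * ε1) * (L * ((1 - 3 * η) * bz)) ≤ u := by
    have h1 : 0 ≤ 1 - 2 * ε1 := by rw [hε1d]; linarith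
    calc (1 - 2 * ε1) * (L * ((1 - 3 * η) * bz)) ≤ (1 - 2 * ε1) * (L * b') := by gcongr
      _ = L * b' - 2 * ε1 * (L * b') := by ring
      _ ≤ u := by linarith
  have f3 : (1 + 2 * ε1) * (1 + 6 * η) ≤ 1 + ε := by rw [hε1d, hη]; nlinarith
  have f4 : 1 - ε ≤ (1 - 2 * ε1) * (1 - 3 * η) := by rw [hε1d, hη]; nlinarith
  have f5 := mul_le_mul_of_nonneg_right f3 hLb
  have f6 := mul_le_mul_of_nonneg_right f4 hLb
  have f7 : (1 + 2 * ε1) * (L * ((1 + 6 * η) * bz)) = (1 + 2 * ε1) * (1 + 6 * η) * (L * bz) := by ring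
  have f8 : (1 - 2 * ε1) * (L * ((1 - 3 * η) * bz)) = (1 - 2 * ε1) * (1 - 3 * η) * (L * bz) := by ring
  rw [f7] at f1
  rw [f8] at f2
  constructor <;> linarith

theorem det (k d e B : ℕ) (hk : 1 ≤ k) (hd : 1 ≤ d) (hB : 1 ≤ B) (ε : ℝ) (hε : 0 < ε) (hε1 : ε ≤ 1) :
    ∃ (z1 : ℕ) (η : ℝ), 1 ≤ z1 ∧ 0 < η ∧ η ≤ 1 ∧ ∀ᶠ H : ℕ in atTop,
    ∀ (P : Fin k → Polynomial ℤ), (∀ i, (P i).natDegree ≤ e) → ∀ a : Fin k → Fin (d + 1) → ℤ, Adm P a → ∀ z J0 J L : ℕ,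
    z1 ≤ z → z ≤ Yh H → Real.log (Real.log H) ^ B ≤ (2 ^ 2 ^ J0 : ℕ) → ((2 ^ 2 ^ J0 : ℕ) : ℝ) ≤ Real.log (Real.log H) ^ (2 * B) →
    Real.log H ≤ L →
    |Real.log H ^ k * pts P (Ioc J (J + L)) a - kS (pri 0 (Yh H)) ^ k * NS P (Ioc J (J + L)) (Yh H) a| ≤ L / Real.log (Real.log H) ^ 3 →
    |(NS P (Ioc J (J + L)) (Yh H) a : ℝ) - (∏ p ∈ pri (2 ^ 2 ^ J0) (Yh H), (1 - 1 / (p : ℝ)) ^ k) * NS P (Ioc J (J + L)) (2 ^ 2 ^ J0) a| ≤
      L / Real.log (Real.log H) ^ 3 * ∏ p ∈ pri (2 ^ 2 ^ J0) (Yh H), (1 - 1 / (p : ℝ)) ^ k →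
    |∑ p ∈ pri (2 ^ 2 ^ J0) (Yh H), (zt P p a - 1)| ≤ η → |∑ p ∈ pri z (Yh H), (zt P p a - 1)| ≤ η →
    |Real.log H ^ k * pts P (Ioc J (J + L)) a - L * bhConst P z a| ≤ ε * (L * bhConst P z a) := by
  obtain ⟨M, hM⟩ : ∃ M : ℝ, M = 2 ^ k * ((k * max e d : ℕ) : ℝ) := ⟨_, rfl⟩
  have hM0 : 0 ≤ M := by rw [hM]; positivity
  obtain ⟨η, hη⟩ : ∃ η, η = ε / 16 := ⟨_, rfl⟩
  have hη0 : 0 < η := by rw [hη]; positivity
  obtain ⟨ε1, hε1d⟩ : ∃ ε1, ε1 = ε / 8 := ⟨_, rfl⟩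
  have hε10 : 0 < ε1 := by rw [hε1d]; positivity
  obtain ⟨z1, hz1a, hz1b, hz1c⟩ : ∃ z1 : ℕ, 1 ≤ z1 ∧ 2 * M ≤ z1 ∧ M ^ 2 / η ≤ z1 := by
    obtain ⟨n1, h1⟩ := exists_nat_ge (2 * M)
    obtain ⟨n2, h2⟩ := exists_nat_ge (M ^ 2 / η)
    refine ⟨max 1 (max n1 n2), le_max_left _ _, ?_, ?_⟩
    · refine h1.trans ?_
      exact_mod_cast (le_max_left n1 n2).trans (le_max_right _ _)
    · refine h2.trans ?_
      exact_mod_cast (le_max_right n1 n2).trans (le_max_right _ _)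
  obtain ⟨Cf, hCf1, hfl⟩ := fl_win k d e ε1 hε10
  obtain ⟨κ, hκ⟩ : ∃ κ, κ = k * max e d := ⟨_, rfl⟩
  obtain ⟨Cm, hCm0, hCm⟩ := kap_mertens
  refine ⟨z1, η, hz1a, hη0, by rw [hη]; linarith, ?_⟩
  have hlow : ∀ᶠ H : ℕ in atTop, ((primorial (2 * κ) : ℕ) : ℝ) * (Cm * (2 * B * Real.log (Real.log (Real.log H)))) ^ (2 * κ) ≤ Real.log (Real.log H) := by
    have h1 : (fun x : ℝ => Real.log x ^ ((2 * κ : ℕ) : ℝ)) =o[atTop] fun x => x ^ (1 : ℝ) := isLittleO_log_rpow_rpow_atTop _ one_pos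
    obtain ⟨c, hc⟩ : ∃ c : ℝ, c = ((primorial (2 * κ) : ℕ) : ℝ) * (Cm * (2 * B)) ^ (2 * κ) + 1 := ⟨_, rfl⟩
    have hc0 : 0 < c := by rw [hc]; positivity
    have h2 := (h1.bound (by positivity : 0 < 1 / c)).and (eventually_ge_atTop (1 : ℝ))
    have h3 := tx.eventually h2
    filter_upwards [h3] with H hH
    obtain ⟨h4, h5⟩ := hH
    obtain ⟨x, hx⟩ : ∃ x, x = Real.log (Real.log H) := ⟨_, rfl⟩
    rw [← hx] at h4 h5 ⊢
    have h6 : 0 ≤ Real.log x := Real.log_nonneg h5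
    rw [Real.rpow_natCast, Real.rpow_one, Real.norm_of_nonneg (by positivity), Real.norm_of_nonneg (by linarith), one_div, inv_mul_eq_div,
      le_div_iff₀ hc0] at h4
    have e : ((primorial (2 * κ) : ℕ) : ℝ) * (Cm * (2 * B * Real.log x)) ^ (2 * κ) = Real.log x ^ (2 * κ) * (((primorial (2 * κ) : ℕ) : ℝ) * (Cm * (2 * B)) ^ (2 * κ)) := by
      have : Cm * (2 * B * Real.log x) = Cm * (2 * B) * Real.log x := by ring
      rw [this, mul_pow]; ring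
    rw [e]
    refine le_trans ?_ h4
    apply mul_le_mul_of_nonneg_left _ (by positivity)
    rw [hc]; linarith
  filter_upwards [hlow, ev_log 32, ev_x (Cf : ℝ), ev_x (z1 : ℝ), ev_x 3, ev_x (4 / ε1), ev_ll (2 * B * Cf + 1) (2 * Cf / ε1) 1 one_pos,
    ev_ll (2 * B) 8 1 one_pos, ev_ll (2 * B) 16 1 one_pos] with H hlowH g1 g2 g3 g4 g5 g6 g7 g8
  intro P hP a ha z J0 J L hz1 hzY hJ0a hJ0b hL G1 G2 G3 G4
  obtain ⟨ℓ, hℓ⟩ : ∃ ℓ : ℝ, ℓ = Real.log H := ⟨_, rfl⟩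
  rw [Real.rpow_one] at g6 g7 g8
  rw [← hℓ] at hlowH g1 g2 g3 g4 g5 g6 g7 g8 hJ0a hJ0b hL G1 G2 ⊢
  obtain ⟨x, hx⟩ : ∃ x, x = Real.log ℓ := ⟨_, rfl⟩
  rw [← hx] at hlowH g2 g3 g4 g5 g6 g7 g8 hJ0a hJ0b G1 G2
  obtain ⟨Y, hY⟩ : ∃ Y, Y = Yh H := ⟨_, rfl⟩
  rw [← hY] at hzY G1 G2 G3 G4
  unfold Yh at hY
  rw [← hℓ] at hY
  obtain ⟨Y', hY'⟩ : ∃ Y', Y' = 2 ^ 2 ^ J0 := ⟨_, rfl⟩
  rw [← hY'] at hJ0a hJ0b G2 G3
  have hℓ0 : 0 < ℓ := by linarith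
  have hx0 : 0 < x := by linarith
  have hx1 : 1 ≤ x := by linarith
  have hL0 : (0 : ℝ) < L := by linarith
  have hxB : x ≤ x ^ B := le_self_pow₀ hx1 (by omega)
  have hY'x : x ≤ Y' := hxB.trans hJ0a
  have hY'0 : (0 : ℝ) < Y' := by linarith
  have hY'1 : 1 ≤ Y' := by exact_mod_cast hY'0
  have hYge : ℓ / 16 ≤ Y := by
    have := Nat.lt_floor_add_one (ℓ / 8)
    rw [← hY] at this
    linarith
  have hY'Y : Y' ≤ Y := by
    have : (Y' : ℝ) ≤ Y := by linarith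
    exact_mod_cast this
  have hY'3 : 3 ≤ Y' := by
    have : (3 : ℝ) ≤ Y' := by linarith
    exact_mod_cast this
  have hCfY' : Cf ≤ Y' := by
    have : (Cf : ℝ) ≤ Y' := by linarith
    exact_mod_cast this
  have hfl' := hfl P hP a ha J0 J L (by rw [← hY']; exact hCfY')
  rw [← hY'] at hfl'
  have e2 : ((2 : ℝ) ^ 2 ^ J0) = (Y' : ℝ) := by rw [hY']; push_cast; rfl
  rw [e2] at hfl'
  -- the lower bound
  have hPlow : 1 / x ≤ Pz P Y' a := by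
    refine le_trans ?_ (Pz_low P e hP a ha Y' κ hκ)
    have hkS1 := kS_ge (pri 0 Y') (fun p hp => ((mem_pri _ _ _).1 hp).1)
    have hkS : kS (pri 0 Y') ≤ Cm * (2 * B * Real.log x) := by
      rw [kS_pri]
      refine (hCm Y' hY'3).trans ?_
      apply mul_le_mul_of_nonneg_left _ hCm0.le
      have h1 := Real.log_le_log hY'0 hJ0b
      rw [Real.log_pow] at h1
      push_cast at h1
      exact h1
    have hpr : (0 : ℝ) < (primorial (2 * κ) : ℕ) := by exact_mod_cast primorial_pos _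
    rw [one_div_pow, one_div_mul_one_div]
    apply one_div_le_one_div_of_le (by positivity)
    refine le_trans ?_ hlowH
    apply mul_le_mul_of_nonneg_left _ hpr.le
    exact pow_le_pow_left₀ (by linarith) hkS _
  obtain ⟨Pz', hPz'⟩ : ∃ Pz', Pz' = Pz P Y' a := ⟨_, rfl⟩
  rw [← hPz'] at hfl' hPlow
  have hPz0 : 0 < Pz' := lt_of_lt_of_le (by positivity) hPlow
  -- κ
  obtain ⟨κY, hκY⟩ : ∃ κY, κY = kS (pri 0 Y) ^ k := ⟨_, rfl⟩
  obtain ⟨κ', hκ'⟩ : ∃ κ', κ' = kS (pri 0 Y') ^ k := ⟨_, rfl⟩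
  obtain ⟨q, hq⟩ : ∃ q : ℝ, q = ∏ p ∈ pri Y' Y, (1 - 1 / (p : ℝ)) ^ k := ⟨_, rfl⟩
  rw [← hκY] at G1
  rw [← hq] at G2
  have hκ'1 : 1 ≤ κ' := by rw [hκ']; exact one_le_pow₀ (kS_ge (pri 0 Y') (fun p hp => ((mem_pri _ _ _).1 hp).1))
  have hκY1 : 1 ≤ κY := by rw [hκY]; exact one_le_pow₀ (kS_ge (pri 0 Y) (fun p hp => ((mem_pri _ _ _).1 hp).1))
  have hκq : κY * q = κ' := by
    rw [hκY, hκ', hq, kS_split Y' Y hY'Y, mul_pow, ← prod_pow, mul_assoc, ← prod_mul_distrib, prod_eq_one, mul_one]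
    intro p hp
    have hpp := ((mem_pri _ _ _).1 hp).1
    rw [fac_eq p hpp, ← mul_pow]
    have hp2 : (2 : ℝ) ≤ p := by exact_mod_cast hpp.two_le
    have h3 : (p : ℝ)⁻¹ ≤ 1 / 2 := by rw [← one_div]; exact one_div_le_one_div_of_le (by norm_num) hp2
    have h4 : (1 - (p : ℝ)⁻¹)⁻¹ * (1 - 1 / (p : ℝ)) = 1 := by
      rw [one_div]
      exact inv_mul_cancel₀ (by linarith)
    rw [h4, _root_.one_pow]
  have hbh : bhConst P Y' a = κ' * Pz' := by rw [bh_Pz, hκ', hPz']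
  -- the main comparison
  obtain ⟨u, hu⟩ : ∃ u : ℝ, u = ℓ ^ k * pts P (Ioc J (J + L)) a := ⟨_, rfl⟩
  obtain ⟨n1, hn1⟩ : ∃ n1 : ℝ, n1 = (NS P (Ioc J (J + L)) Y a : ℝ) := ⟨_, rfl⟩
  obtain ⟨n2, hn2⟩ : ∃ n2 : ℝ, n2 = (NS P (Ioc J (J + L)) Y' a : ℝ) := ⟨_, rfl⟩
  rw [← hu, ← hn1] at G1
  rw [← hn1, ← hn2] at G2
  rw [← hn2] at hfl'
  rw [← hu]
  have hx3 : 0 < x ^ 3 := by positivity
  have t1 : |κY * n1 - κ' * n2| ≤ κ' * (L / x ^ 3) := by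
    have e3 : κY * n1 - κ' * n2 = κY * (n1 - q * n2) := by rw [← hκq]; ring
    rw [e3, abs_mul, abs_of_pos (by linarith : 0 < κY)]
    calc κY * |n1 - q * n2| ≤ κY * (L / x ^ 3 * q) := mul_le_mul_of_nonneg_left G2 (by linarith)
      _ = κ' * (L / x ^ 3) := by rw [← hκq]; ring
  have t2 : |κ' * n2 - κ' * (L * Pz')| ≤ κ' * (ε1 * (L * Pz') + Cf * (Y' : ℝ) ^ Cf) := by
    rw [← mul_sub, abs_mul, abs_of_pos (by linarith : 0 < κ')]
    exact mul_le_mul_of_nonneg_left hfl' (by linarith)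
  have t3 : Cf * (Y' : ℝ) ^ Cf ≤ ε1 / 2 * (L * Pz') := by
    have h1 : (Y' : ℝ) ^ Cf ≤ x ^ (2 * B * Cf) := by
      calc (Y' : ℝ) ^ Cf ≤ (x ^ (2 * B)) ^ Cf := pow_le_pow_left₀ hY'0.le hJ0b _
        _ = x ^ (2 * B * Cf) := by rw [← pow_mul]
    have h2 : Cf * (Y' : ℝ) ^ Cf * x ≤ ε1 / 2 * L := by
      calc Cf * (Y' : ℝ) ^ Cf * x ≤ Cf * x ^ (2 * B * Cf) * x := by gcongr
        _ = ε1 / 2 * (2 * Cf / ε1 * x ^ (2 * B * Cf + 1)) := by rw [pow_succ]; field_simp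
        _ ≤ ε1 / 2 * ℓ := by gcongr
        _ ≤ ε1 / 2 * L := by gcongr
    calc Cf * (Y' : ℝ) ^ Cf = (Cf * (Y' : ℝ) ^ Cf * x) * (1 / x) := by field_simp
      _ ≤ (ε1 / 2 * L) * (1 / x) := mul_le_mul_of_nonneg_right h2 (by positivity)
      _ ≤ (ε1 / 2 * L) * Pz' := mul_le_mul_of_nonneg_left hPlow (by positivity)
      _ = ε1 / 2 * (L * Pz') := by ring
  have t4 : (κ' + 1) * ((L : ℝ) / x ^ 3) ≤ κ' * (ε1 / 2 * (L * Pz')) := by
    have h1 : (L : ℝ) / x ^ 3 ≤ ε1 / 4 * (L * Pz') := by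
      have h2 : 4 ≤ ε1 * x ^ 2 := by
        have h3 : 4 ≤ x * ε1 := by rwa [div_le_iff₀ hε10] at g5
        calc 4 ≤ x * ε1 * 1 := by linarith
          _ ≤ x * ε1 * x := by gcongr
          _ = ε1 * x ^ 2 := by ring
      rw [div_le_iff₀ hx3]
      calc (L : ℝ) = L * 1 := (mul_one _).symm
        _ ≤ L * (ε1 / 4 * x ^ 2) := by gcongr; linarith
        _ = ε1 / 4 * (L * (1 / x)) * x ^ 3 := by field_simp
        _ ≤ ε1 / 4 * (L * Pz') * x ^ 3 := by gcongr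
    have h0 : (0 : ℝ) ≤ L / x ^ 3 := by positivity
    calc (κ' + 1) * ((L : ℝ) / x ^ 3) ≤ (κ' + κ') * (L / x ^ 3) := mul_le_mul_of_nonneg_right (by linarith) h0
      _ ≤ (κ' + κ') * (ε1 / 4 * (L * Pz')) := mul_le_mul_of_nonneg_left h1 (by linarith)
      _ = κ' * (ε1 / 2 * (L * Pz')) := by ring
  have hmain : |u - L * bhConst P Y' a| ≤ 2 * ε1 * (L * bhConst P Y' a) := by
    rw [hbh]
    have e4 : u - L * (κ' * Pz') = (u - κY * n1) + (κY * n1 - κ' * n2) + (κ' * n2 - κ' * (L * Pz')) := by ring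
    rw [e4]
    refine (abs_add_three _ _ _).trans ?_
    have t5 := mul_le_mul_of_nonneg_left t3 (by linarith : 0 ≤ κ')
    have e5 : 2 * ε1 * (L * (κ' * Pz')) = κ' * (ε1 * (L * Pz')) + κ' * (ε1 / 2 * (L * Pz')) + κ' * (ε1 / 2 * (L * Pz')) := by ring
    rw [e5]
    have e6 : κ' * (ε1 * (L * Pz') + Cf * (Y' : ℝ) ^ Cf) = κ' * (ε1 * (L * Pz')) + κ' * (Cf * (Y' : ℝ) ^ Cf) := by ring
    rw [e6] at t2
    have e7 : (κ' + 1) * ((L : ℝ) / x ^ 3) = κ' * (L / x ^ 3) + L / x ^ 3 := by ring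
    rw [e7] at t4
    linarith
  -- the constants
  have hzY1 : 1 ≤ z := hz1a.trans hz1
  have hz0 : (0 : ℝ) < z := by exact_mod_cast hzY1
  have hz1r : (z1 : ℝ) ≤ z := by exact_mod_cast hz1
  have hMη : ∀ w : ℝ, 0 < w → (z1 : ℝ) ≤ w → M ^ 2 / w ≤ η := by
    intro w hw hw2
    rw [div_le_iff₀ hw]
    have h1 : M ^ 2 / η ≤ w := hz1c.trans hw2
    rw [div_le_iff₀ hη0] at h1
    linarith
  have hz1x : (z1 : ℝ) ≤ Y' := by linarith
  obtain ⟨r1, r2⟩ := bh_ratio P e hP hd a ha M hM hM0 Y' Y hY'1 hY'Y η (by linarith) (hMη Y' hY'0 hz1x) G3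
  obtain ⟨r3, r4⟩ := bh_ratio P e hP hd a ha M hM hM0 z Y hzY1 hzY η (by linarith) (hMη z hz0 hz1r) G4
  have hbz := bh_pos P e hP hd a ha z
  have hb' := bh_pos P e hP hd a ha Y'
  obtain ⟨bz, hbzd⟩ : ∃ bz, bz = bhConst P z a := ⟨_, rfl⟩
  obtain ⟨b', hb'd⟩ : ∃ b', b' = bhConst P Y' a := ⟨_, rfl⟩
  obtain ⟨bY, hbYd⟩ : ∃ bY, bY = bhConst P Y a := ⟨_, rfl⟩
  rw [← hb'd] at r1 r2 hmain hb'
  rw [← hbYd] at r1 r2 r3 r4
  rw [← hbzd] at r3 r4 hbz ⊢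
  exact fin_arith u L b' bY bz ε η ε1 hε hε1 hη hε1d hη0 hε10 hL0 hbz r1 r2 r3 r4 hmain

end Pool.Agent.H11A
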