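import Mathlib

/-! Cells and windows: elementary estimates. -/

set_option autoImplicit false

namespace Pool.Agent.H11A

open Finset Filter

theorem fin_win (u L g b ε : ℝ) (hε : 0 < ε) (hε1 : ε ≤ 1) (hb : 0 ≤ b) (hL : 0 ≤ L) (hg : g ≤ ε / 8 * L)
    (h1 : (L - 2 * g) * b * (1 - ε / 4) ≤ u) (h2 : u ≤ (L + 2 * g) * b * (1 + ε / 4)) : |u - L * b| ≤ ε * (L * b) := by
  have hLb : 0 ≤ L * b := mul_nonneg hL hb
  have h3 : (1 - ε / 4) * L ≤ L - 2 * g := by linarith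
  have h4 : L + 2 * g ≤ (1 + ε / 4) * L := by linarith
  have h5 : (1 - ε / 4) * L * (b * (1 - ε / 4)) ≤ (L - 2 * g) * (b * (1 - ε / 4)) := mul_le_mul_of_nonneg_right h3 (mul_nonneg hb (by linarith))
  have h6 : (L + 2 * g) * (b * (1 + ε / 4)) ≤ (1 + ε / 4) * L * (b * (1 + ε / 4)) := mul_le_mul_of_nonneg_right h4 (mul_nonneg hb (by linarith))
  have h7 : (1 - ε) * (L * b) ≤ (1 - ε / 4) * (1 - ε / 4) * (L * b) := mul_le_mul_of_nonneg_right (by nlinarith) hLb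
  have h8 : (1 + ε / 4) * (1 + ε / 4) * (L * b) ≤ (1 + ε) * (L * b) := mul_le_mul_of_nonneg_right (by nlinarith) hLb
  rw [abs_le]
  constructor <;> linarith

/-- the valid cells -/
def vld (A k : ℕ) (δ2 ℓ : ℝ) (x : ℕ × ℕ) : Prop := ℓ ^ ((k : ℝ) + δ2) ≤ ((2 ^ x.1 : ℕ) : ℝ) ∧ ((x.2 * 2 ^ x.1 + 2 ^ x.1 : ℕ) : ℝ) ≤ ℓ ^ (A + 1)

theorem scale_choice (N0 L : ℕ) (hN : 1 ≤ N0) (hL : N0 ≤ L) : ∃ s : ℕ, 2 ^ s * N0 ≤ L ∧ L ≤ 2 * 2 ^ s * N0 := by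
  have h1 : L / N0 ≠ 0 := (Nat.div_pos hL hN).ne'
  refine ⟨Nat.log 2 (L / N0), ?_, ?_⟩
  · have := Nat.pow_log_le_self 2 h1
    calc 2 ^ Nat.log 2 (L / N0) * N0 ≤ (L / N0) * N0 := Nat.mul_le_mul_right _ this
      _ ≤ L := Nat.div_mul_le_self _ _
  · have := Nat.lt_pow_succ_log_self (b := 2) (by norm_num) (L / N0)
    have h2 : L < N0 * (L / N0 + 1) := Nat.lt_mul_div_succ L hN
    have h3 : (L / N0 + 1) * N0 ≤ 2 ^ (Nat.log 2 (L / N0) + 1) * N0 := Nat.mul_le_mul_right _ this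
    rw [pow_succ] at h3
    have e : 2 ^ Nat.log 2 (L / N0) * 2 * N0 = 2 * 2 ^ Nat.log 2 (L / N0) * N0 := by ring
    have e2 : (L / N0 + 1) * N0 = N0 * (L / N0 + 1) := mul_comm _ _
    rw [e, e2] at h3
    omega

/-- the scale is small -/
theorem scale_le (A s L : ℕ) (ℓ : ℝ) (hℓ : 1 ≤ ℓ) (h1 : 2 ^ s ≤ L) (h2 : (L : ℝ) ≤ ℓ ^ A) : s < ⌊2 * A * Real.log ℓ⌋₊ + 1 := by
  apply Nat.lt_succ_of_le
  apply Nat.le_floor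
  have h3 : ((2 : ℝ)) ^ s ≤ ℓ ^ A := le_trans (by exact_mod_cast h1) h2
  have h4 := Real.log_le_log (by positivity) h3
  rw [Real.log_pow, Real.log_pow] at h4
  have h5 : (1 / 2 : ℝ) ≤ Real.log 2 := by
    have := Real.log_two_gt_d9
    linarith
  have h6 : (s : ℝ) * (1 / 2) ≤ s * Real.log 2 := mul_le_mul_of_nonneg_left h5 (Nat.cast_nonneg _)
  linarith

/-- the cells of the window are valid -/
theorem cells_ok (A k N0 s J L : ℕ) (hN : 1 ≤ N0) (ℓ δ δ2 θ θ2 : ℝ) (hℓ : 2 ≤ ℓ) (hθ : 0 ≤ θ)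
    (h1 : 2 ^ s * N0 ≤ L) (h2 : L ≤ 2 * 2 ^ s * N0) (h3 : ℓ ^ ((k : ℝ) + δ) ≤ L) (h4 : ((J + L : ℕ) : ℝ) ≤ ℓ ^ A)
    (h5 : ((J + L : ℕ) : ℝ) ≤ L * ℓ ^ θ) (h6 : 2 * N0 ≤ ℓ ^ (δ - δ2)) (h7 : 2 * N0 ≤ ℓ ^ (θ2 - θ)) (j : ℕ) (hj : j * 2 ^ s < J + L) :
    s < ⌊2 * A * Real.log ℓ⌋₊ + 1 ∧ j < ⌊ℓ ^ θ2⌋₊ + 1 ∧ vld A k δ2 ℓ (s, j) := by
  have hℓ0 : 0 < ℓ := by linarith
  have hN0 : (1 : ℝ) ≤ N0 := by exact_mod_cast hN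
  have hsL : 2 ^ s ≤ L := le_trans (Nat.le_mul_of_pos_right _ hN) h1
  have hLA : (L : ℝ) ≤ ℓ ^ A := le_trans (by exact_mod_cast Nat.le_add_left L J) h4
  have h2' : (L : ℝ) ≤ 2 * 2 ^ s * N0 := by exact_mod_cast h2
  have hs0 : (0 : ℝ) < 2 ^ s := by positivity
  refine ⟨scale_le A s L ℓ (by linarith) hsL hLA, ?_, ?_, ?_⟩
  · apply Nat.lt_succ_of_le
    apply Nat.le_floor
    have e1 : (j : ℝ) * 2 ^ s ≤ (J + L : ℕ) := by exact_mod_cast hj.le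
    have e2 : (j : ℝ) * 2 ^ s ≤ (ℓ ^ θ2) * 2 ^ s := by
      calc (j : ℝ) * 2 ^ s ≤ L * ℓ ^ θ := e1.trans h5
        _ ≤ (2 * 2 ^ s * N0) * ℓ ^ θ := mul_le_mul_of_nonneg_right h2' (by positivity)
        _ = (2 * N0) * (ℓ ^ θ * 2 ^ s) := by ring
        _ ≤ ℓ ^ (θ2 - θ) * (ℓ ^ θ * 2 ^ s) := mul_le_mul_of_nonneg_right h7 (by positivity)
        _ = (ℓ ^ θ2) * 2 ^ s := by
            rw [← mul_assoc, ← Real.rpow_add hℓ0]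
            congr 2
            ring
    exact le_of_mul_le_mul_right e2 hs0
  · change ℓ ^ ((k : ℝ) + δ2) ≤ ((2 ^ s : ℕ) : ℝ)
    push_cast
    have e3 : ℓ ^ ((k : ℝ) + δ2) * (2 * N0) ≤ 2 ^ s * (2 * N0) := by
      calc ℓ ^ ((k : ℝ) + δ2) * (2 * N0) ≤ ℓ ^ ((k : ℝ) + δ2) * ℓ ^ (δ - δ2) := mul_le_mul_of_nonneg_left h6 (by positivity)
        _ = ℓ ^ ((k : ℝ) + δ) := by
            rw [← Real.rpow_add hℓ0]
            congr 1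
            ring
        _ ≤ L := h3
        _ ≤ 2 * 2 ^ s * N0 := h2'
        _ = 2 ^ s * (2 * N0) := by ring
    exact le_of_mul_le_mul_right e3 (by linarith)
  · change ((j * 2 ^ s + 2 ^ s : ℕ) : ℝ) ≤ ℓ ^ (A + 1)
    have e4 : (j * 2 ^ s + 2 ^ s : ℕ) ≤ (J + L) + L := by omega
    have e5 : ((j * 2 ^ s + 2 ^ s : ℕ) : ℝ) ≤ ((J + L : ℕ) : ℝ) + L := by exact_mod_cast e4
    calc ((j * 2 ^ s + 2 ^ s : ℕ) : ℝ) ≤ ((J + L : ℕ) : ℝ) + L := e5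
      _ ≤ ℓ ^ A + ℓ ^ A := add_le_add h4 hLA
      _ = 2 * ℓ ^ A := by ring
      _ ≤ ℓ * ℓ ^ A := mul_le_mul_of_nonneg_right hℓ (by positivity)
      _ = ℓ ^ (A + 1) := by ring

end Pool.Agent.H11A
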