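import Mathlib
import Pool.Agent.H11A.Pr1
import Pool.Agent.H11A.Md1

/-! Exceptional arrays, cells and windows. -/

set_option autoImplicit false

namespace Pool.Agent.H11A

open Finset Filter Pool.Agent.H11P Pool.Agent.H11P.Law

variable {k d : ℕ}

open Classical in
theorem exc_prob (P : Fin k → Polynomial ℤ) (hd : 2 ≤ d) (H z Y : ℕ) (hz : 1 ≤ z) (hzY : z ≤ Y) (hY : Y ≤ 2 * H + 1) :
    (((ab k d H).filter (Exc P z Y)).card : ℝ) ≤ (4 * k / z) * (ab k d H).card := by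
  have h1 : (ab k d H).filter (Exc P z Y) ⊆ ((univ : Finset (Fin k)) ×ˢ pri z Y).biUnion
      (fun x => (ab k d H).filter (fun a => ∀ l : Fin (d + 1), l ≠ 0 → (x.2 : ℤ) ∣ (P x.1).coeff (l : ℕ) + a x.1 l)) := by
    intro a ha
    rw [mem_filter] at ha
    obtain ⟨h0, i, p, hp, h2⟩ := ha
    rw [mem_biUnion]
    exact ⟨(i, p), mem_product.2 ⟨mem_univ _, hp⟩, mem_filter.2 ⟨h0, h2⟩⟩
  have h2 : (((ab k d H).filter (Exc P z Y)).card : ℝ) ≤ ∑ x ∈ (univ : Finset (Fin k)) ×ˢ pri z Y,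
      (((ab k d H).filter (fun a => ∀ l : Fin (d + 1), l ≠ 0 → (x.2 : ℤ) ∣ (P x.1).coeff (l : ℕ) + a x.1 l)).card : ℝ) := by
    exact_mod_cast (card_le_card h1).trans card_biUnion_le
  refine h2.trans ?_
  rw [sum_product]
  have h3 : ∀ i : Fin k, ∑ p ∈ pri z Y, (((ab k d H).filter (fun a => ∀ l : Fin (d + 1), l ≠ 0 → (p : ℤ) ∣ (P i).coeff (l : ℕ) + a i l)).card : ℝ) ≤
      4 / z * (ab k d H).card := by
    intro i
    have h4 : ∀ p ∈ pri z Y, (((ab k d H).filter (fun a => ∀ l : Fin (d + 1), l ≠ 0 → (p : ℤ) ∣ (P i).coeff (l : ℕ) + a i l)).card : ℝ) ≤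
        4 * ((p : ℝ) ^ 2)⁻¹ * (ab k d H).card := by
      intro p hp
      have hp' := (mem_pri _ _ _).1 hp
      have hp2 : (2 : ℝ) ≤ p := by exact_mod_cast hp'.1.two_le
      refine (exc_cnt H i (fun l => (P i).coeff (l : ℕ)) p hp'.1.pos (by omega)).trans ?_
      apply mul_le_mul_of_nonneg_right _ (Nat.cast_nonneg _)
      have h5 : (2 : ℝ) / p ≤ 1 := by rw [div_le_one (by linarith)]; exact hp2
      calc ((2 : ℝ) / p) ^ d ≤ (2 / p) ^ 2 := pow_le_pow_of_le_one (by positivity) h5 hd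
        _ = 4 * ((p : ℝ) ^ 2)⁻¹ := by rw [div_pow, div_eq_mul_inv]; norm_num
    refine (sum_le_sum h4).trans ?_
    rw [← sum_mul, ← mul_sum]
    apply mul_le_mul_of_nonneg_right _ (Nat.cast_nonneg _)
    have := inv_sq_sum z Y hz hzY
    calc 4 * ∑ p ∈ pri z Y, ((p : ℝ) ^ 2)⁻¹ ≤ 4 * (1 / z) := by gcongr
      _ = 4 / z := by ring
  refine (sum_le_sum fun i _ => h3 i).trans (le_of_eq ?_)
  rw [sum_const, card_univ, Fintype.card_fin, nsmul_eq_mul]
  ring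

theorem ex_J0 (B : ℕ) (hB : 1 ≤ B) : ∀ᶠ H : ℕ in atTop, ∃ J0 : ℕ, Real.log (Real.log H) ^ B ≤ (2 ^ 2 ^ J0 : ℕ) ∧
    ((2 ^ 2 ^ J0 : ℕ) : ℝ) ≤ Real.log (Real.log H) ^ (2 * B) := by
  filter_upwards [ev_x 2] with H g
  obtain ⟨x, hx⟩ : ∃ x, x = Real.log (Real.log H) := ⟨_, rfl⟩
  rw [← hx] at g ⊢
  have hex : ∃ J : ℕ, x ^ B ≤ (2 ^ 2 ^ J : ℕ) := by
    obtain ⟨n, hn⟩ := exists_nat_ge (x ^ B)
    refine ⟨n, hn.trans ?_⟩
    have h1 : n < 2 ^ n := Nat.lt_two_pow_self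
    have h2 : 2 ^ n < 2 ^ 2 ^ n := Nat.lt_two_pow_self
    exact_mod_cast (h1.trans h2).le
  classical
  obtain ⟨J, hJ⟩ : ∃ J, J = Nat.find hex := ⟨_, rfl⟩
  have hJ1 : x ^ B ≤ (2 ^ 2 ^ J : ℕ) := by rw [hJ]; exact Nat.find_spec hex
  refine ⟨J, hJ1, ?_⟩
  rcases Nat.eq_zero_or_pos J with h0 | h0
  · rw [h0]
    push_cast
    norm_num
    have h1 : (1 : ℝ) ≤ x := by linarith
    calc (2 : ℝ) ≤ x := g
      _ = x ^ 1 := (pow_one x).symm
      _ ≤ x ^ (2 * B) := pow_le_pow_right₀ h1 (by omega)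
  · have h1 : ¬ x ^ B ≤ (2 ^ 2 ^ (J - 1) : ℕ) := Nat.find_min hex (by omega)
    push Not at h1
    have h2 : ((2 ^ 2 ^ J : ℕ) : ℝ) = ((2 ^ 2 ^ (J - 1) : ℕ) : ℝ) ^ 2 := by
      push_cast
      rw [← pow_mul]
      congr 1
      rw [← pow_succ]
      congr 1
      omega
    rw [h2, mul_comm 2 B, pow_mul]
    exact pow_le_pow_left₀ (by positivity) h1.le 2

theorem eval_bd (P : Polynomial ℤ) (e : ℕ) (hP : P.natDegree ≤ e) (M Y : ℝ) (hM : 0 ≤ M) (hY : 1 ≤ Y) (hc : ∀ j, |(P.coeff j : ℝ)| ≤ M) (n : ℕ) (hn : (n : ℝ) ≤ Y) :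
    |((P.eval (n : ℤ) : ℤ) : ℝ)| ≤ (e + 1) * M * Y ^ e := by
  rw [Polynomial.eval_eq_sum_range' (Nat.lt_succ_of_le hP)]
  push_cast
  refine (abs_sum_le_sum_abs _ _).trans ?_
  have h1 : ∀ j ∈ range (e + 1), |(P.coeff j : ℝ) * (n : ℝ) ^ j| ≤ M * Y ^ e := by
    intro j hj
    rw [mem_range] at hj
    rw [abs_mul, abs_of_nonneg (by positivity : (0 : ℝ) ≤ (n : ℝ) ^ j)]
    apply mul_le_mul (hc j) _ (by positivity) hM
    calc (n : ℝ) ^ j ≤ Y ^ j := pow_le_pow_left₀ (Nat.cast_nonneg _) hn _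
      _ ≤ Y ^ e := pow_le_pow_right₀ hY (by omega)
  refine (sum_le_card_nsmul _ _ _ h1).trans (le_of_eq ?_)
  rw [card_range, nsmul_eq_mul]
  push_cast
  ring

theorem pts_add (P : Fin k → Polynomial ℤ) (a : Fin k → Fin (d + 1) → ℤ) (x y z : ℕ) (h1 : x ≤ y) (h2 : y ≤ z) :
    pts P (Ioc x z) a = pts P (Ioc x y) a + pts P (Ioc y z) a := by
  classical
  unfold pts
  rw [← Ioc_union_Ioc_eq_Ioc h1 h2, filter_union, card_union_of_disjoint]
  apply disjoint_filter_filter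
  rw [disjoint_left]
  intro n hn hn'
  rw [mem_Ioc] at hn hn'
  omega

theorem pts_cells (P : Fin k → Polynomial ℤ) (a : Fin k → Fin (d + 1) → ℤ) (g j0 j1 : ℕ) (h : j0 ≤ j1) :
    pts P (Ioc (j0 * g) (j1 * g)) a = ∑ j ∈ Ico j0 j1, pts P (Ioc (j * g) (j * g + g)) a := by
  induction j1, h using Nat.le_induction with
  | base => simp [pts]
  | succ j hj ih =>
    rw [sum_Ico_succ_top hj, ← ih]
    have e : (j + 1) * g = j * g + g := by ring
    rw [e]
    exact pts_add P a _ _ _ (Nat.mul_le_mul_right g hj) (by omega)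

theorem pts_mono (P : Fin k → Polynomial ℤ) (a : Fin k → Fin (d + 1) → ℤ) (D D' : Finset ℕ) (h : D ⊆ D') : pts P D a ≤ pts P D' a := by
  unfold pts
  exact card_le_card (filter_subset_filter _ h)

/-- from the cells to the windows -/
theorem win (P : Fin k → Polynomial ℤ) (a : Fin k → Fin (d + 1) → ℤ) (g J L : ℕ) (hg : 1 ≤ g) (ℓk b ε1 : ℝ) (hℓk : 0 ≤ ℓk) (hb : 0 ≤ b) (hε1 : 0 ≤ ε1)
    (hε2 : ε1 ≤ 1)
    (h : ∀ j : ℕ, j * g < J + L → |ℓk * pts P (Ioc (j * g) (j * g + g)) a - g * b| ≤ ε1 * (g * b)) :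
    (L - 2 * g) * b * (1 - ε1) ≤ ℓk * pts P (Ioc J (J + L)) a ∧ ℓk * pts P (Ioc J (J + L)) a ≤ (L + 2 * g) * b * (1 + ε1) := by
  have hcell : ∀ j0 j1 : ℕ, j0 ≤ j1 → (∀ j ∈ Ico j0 j1, j * g < J + L) →
      ((j1 - j0 : ℝ) * g) * b * (1 - ε1) ≤ ℓk * pts P (Ioc (j0 * g) (j1 * g)) a ∧
      ℓk * pts P (Ioc (j0 * g) (j1 * g)) a ≤ ((j1 - j0 : ℝ) * g) * b * (1 + ε1) := by
    intro j0 j1 hj hlt
    rw [pts_cells P a g j0 j1 hj]
    push_cast
    rw [mul_sum]
    have hc : ((Ico j0 j1).card : ℝ) = (j1 : ℝ) - j0 := by rw [Nat.card_Ico, Nat.cast_sub hj]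
    constructor
    · have h1 := card_nsmul_le_sum (Ico j0 j1) (fun j => ℓk * (pts P (Ioc (j * g) (j * g + g)) a : ℝ)) (g * b * (1 - ε1)) (fun j hj => by
        have := abs_le.1 (h j (hlt j hj))
        linarith)
      rw [nsmul_eq_mul, hc] at h1
      linarith
    · have h1 := sum_le_card_nsmul (Ico j0 j1) (fun j => ℓk * (pts P (Ioc (j * g) (j * g + g)) a : ℝ)) (g * b * (1 + ε1)) (fun j hj => by
        have := abs_le.1 (h j (hlt j hj))
        linarith)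
      rw [nsmul_eq_mul, hc] at h1
      linarith
  have hg0 : (0 : ℝ) < g := by exact_mod_cast hg
  constructor
  · -- lower bound
    obtain ⟨j0, hj0⟩ : ∃ j0, j0 = (J + g - 1) / g := ⟨_, rfl⟩
    obtain ⟨j1, hj1⟩ : ∃ j1, j1 = (J + L) / g := ⟨_, rfl⟩
    have a1 : j0 * g ≤ J + g - 1 := by rw [hj0]; exact Nat.div_mul_le_self _ _
    have a2 : J ≤ j0 * g := by
      have := Nat.lt_div_mul_add (a := J + g - 1) (b := g) (by omega)
      rw [← hj0] at this
      omega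
    have a3 : j1 * g ≤ J + L := by rw [hj1]; exact Nat.div_mul_le_self _ _
    have a4 : J + L < j1 * g + g := by
      have := Nat.lt_div_mul_add (a := J + L) (b := g) (by omega)
      rwa [← hj1] at this
    by_cases hj : j0 ≤ j1
    · obtain ⟨h1, _⟩ := hcell j0 j1 hj (fun j hj => by
        rw [mem_Ico] at hj
        have : j * g + g ≤ j1 * g := by
          calc j * g + g = (j + 1) * g := by ring
            _ ≤ j1 * g := Nat.mul_le_mul_right g hj.2
        omega)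
      have h2 : (pts P (Ioc (j0 * g) (j1 * g)) a : ℝ) ≤ pts P (Ioc J (J + L)) a := by
        exact_mod_cast pts_mono P a _ _ (Ioc_subset_Ioc a2 a3)
      have h3 := mul_le_mul_of_nonneg_left h2 hℓk
      refine le_trans ?_ (h1.trans h3)
      have h4 : (L : ℝ) - 2 * g ≤ ((j1 : ℝ) - j0) * g := by
        have b1 : (j0 * g : ℝ) ≤ J + g := by
          have : j0 * g ≤ J + g := by omega
          exact_mod_cast this
        have b2 : ((J : ℝ) + L) ≤ j1 * g + g := by exact_mod_cast a4.le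
        linarith
      have h5 : 0 ≤ b * (1 - ε1) := mul_nonneg hb (by linarith)
      calc ((L : ℝ) - 2 * g) * b * (1 - ε1) = ((L : ℝ) - 2 * g) * (b * (1 - ε1)) := by ring
        _ ≤ (((j1 : ℝ) - j0) * g) * (b * (1 - ε1)) := mul_le_mul_of_nonneg_right h4 h5
        _ = _ := by ring
    · push Not at hj
      have h4 : (L : ℝ) - 2 * g ≤ 0 := by
        have : j1 * g + g ≤ j0 * g := by
          calc j1 * g + g = (j1 + 1) * g := by ring
            _ ≤ j0 * g := Nat.mul_le_mul_right g hj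
        have h5 : L ≤ 2 * g := by omega
        have : (L : ℝ) ≤ 2 * g := by exact_mod_cast h5
        linarith
      have h5 : 0 ≤ b * (1 - ε1) := mul_nonneg hb (by linarith)
      have h6 : ((L : ℝ) - 2 * g) * b * (1 - ε1) ≤ 0 := by
        have := mul_nonneg (by linarith : 0 ≤ -((L : ℝ) - 2 * g)) h5
        linarith
      have h7 : 0 ≤ ℓk * (pts P (Ioc J (J + L)) a : ℝ) := by positivity
      linarith
  · -- upper bound
    obtain ⟨j0, hj0⟩ : ∃ j0, j0 = J / g := ⟨_, rfl⟩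
    obtain ⟨j1, hj1⟩ : ∃ j1, j1 = (J + L + g - 1) / g := ⟨_, rfl⟩
    have a1 : j0 * g ≤ J := by rw [hj0]; exact Nat.div_mul_le_self _ _
    have a2 : J < j0 * g + g := by
      have := Nat.lt_div_mul_add (a := J) (b := g) (by omega)
      rwa [← hj0] at this
    have a3 : j1 * g ≤ J + L + g - 1 := by rw [hj1]; exact Nat.div_mul_le_self _ _
    have a4 : J + L ≤ j1 * g := by
      have := Nat.lt_div_mul_add (a := J + L + g - 1) (b := g) (by omega)
      rw [← hj1] at this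
      omega
    have hj : j0 ≤ j1 := by
      by_contra hcon
      push Not at hcon
      have : j1 * g + g ≤ j0 * g := by
        calc j1 * g + g = (j1 + 1) * g := by ring
          _ ≤ j0 * g := Nat.mul_le_mul_right g hcon
      omega
    obtain ⟨_, h1⟩ := hcell j0 j1 hj (fun j hj => by
      rw [mem_Ico] at hj
      have : j * g + g ≤ j1 * g := by
        calc j * g + g = (j + 1) * g := by ring
          _ ≤ j1 * g := Nat.mul_le_mul_right g hj.2
      omega)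
    have h2 : (pts P (Ioc J (J + L)) a : ℝ) ≤ pts P (Ioc (j0 * g) (j1 * g)) a := by
      exact_mod_cast pts_mono P a _ _ (Ioc_subset_Ioc a1 a4)
    have h3 := mul_le_mul_of_nonneg_left h2 hℓk
    refine (h3.trans h1).trans ?_
    have h4 : ((j1 : ℝ) - j0) * g ≤ (L : ℝ) + 2 * g := by
      have b1 : (j1 * g : ℝ) ≤ J + L + g := by
        have : j1 * g ≤ J + L + g := by omega
        exact_mod_cast this
      have b2 : (J : ℝ) ≤ j0 * g + g := by exact_mod_cast a2.le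
      linarith
    have h5 : 0 ≤ b * (1 + ε1) := mul_nonneg hb (by linarith)
    calc (((j1 : ℝ) - j0) * g) * b * (1 + ε1) = (((j1 : ℝ) - j0) * g) * (b * (1 + ε1)) := by ring
      _ ≤ ((L : ℝ) + 2 * g) * (b * (1 + ε1)) := mul_le_mul_of_nonneg_right h4 h5
      _ = _ := by ring

end Pool.Agent.H11A
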