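import Mathlib
import Pool.Agent.H11A.Pr2
import Pool.Agent.H11A.Md1
import Pool.Agent.H11A.PA0

/-! All windows for families of backgrounds. -/

set_option autoImplicit false

namespace Pool.Agent.H11A

open Finset Filter Pool.Agent.H11P Pool.Agent.H11P.Law

variable {k d : ℕ}

/-- the number of the cells times the probability, for a family -/
theorem cells_fam_small (A r : ℕ) (δ' t θ2 κ ε : ℝ) (ht : 0 < t) (hθ : κ + θ2 + t ≤ δ' * r) (hθ20 : 0 ≤ θ2) (hε : 0 < ε) : ∀ᶠ H : ℕ in atTop,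
    Real.log H ^ κ * (((⌊2 * A * Real.log (Real.log H)⌋₊ + 1 : ℕ) : ℝ) * ((⌊Real.log H ^ θ2⌋₊ + 1 : ℕ) : ℝ)) * (3 * (Real.log H ^ (-δ')) ^ r) ≤ ε := by
  filter_upwards [ev_ll 1 ((2 * A + 1) * 6 / ε) t ht, ev_x 1, ev_log 1] with H g1 g2 g3
  obtain ⟨ℓ, hℓ⟩ : ∃ ℓ : ℝ, ℓ = Real.log H := ⟨_, rfl⟩
  obtain ⟨x, hx⟩ : ∃ x, x = Real.log ℓ := ⟨_, rfl⟩
  rw [← hℓ] at g1 g2 g3 ⊢
  rw [← hx] at g1 g2 ⊢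
  rw [pow_one] at g1
  have hℓ0 : 0 < ℓ := by linarith
  have h1 : ((⌊2 * A * x⌋₊ + 1 : ℕ) : ℝ) ≤ (2 * A + 1) * x := by
    push_cast
    have := Nat.floor_le (by positivity : 0 ≤ 2 * A * x)
    linarith
  have hθ1 : 1 ≤ ℓ ^ θ2 := Real.one_le_rpow g3 hθ20
  have h2 : ((⌊ℓ ^ θ2⌋₊ + 1 : ℕ) : ℝ) ≤ 2 * ℓ ^ θ2 := by
    push_cast
    have := Nat.floor_le (by positivity : 0 ≤ ℓ ^ θ2)
    linarith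
  have h3 : (ℓ ^ (-δ')) ^ r ≤ ℓ ^ (-(κ + θ2 + t)) := by
    rw [← Real.rpow_natCast, ← Real.rpow_mul hℓ0.le]
    apply Real.rpow_le_rpow_of_exponent_le g3
    linarith
  calc ℓ ^ κ * (((⌊2 * A * x⌋₊ + 1 : ℕ) : ℝ) * ((⌊ℓ ^ θ2⌋₊ + 1 : ℕ) : ℝ)) * (3 * (ℓ ^ (-δ')) ^ r) ≤
      ℓ ^ κ * (((2 * A + 1) * x) * (2 * ℓ ^ θ2)) * (3 * ℓ ^ (-(κ + θ2 + t))) := by gcongr
    _ = ((2 * A + 1) * 6 / ε * x) * (ε * (ℓ ^ κ * ℓ ^ θ2 * ℓ ^ (-(κ + θ2 + t)))) := by field_simp; ring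
    _ ≤ ℓ ^ t * (ε * (ℓ ^ κ * ℓ ^ θ2 * ℓ ^ (-(κ + θ2 + t)))) := mul_le_mul_of_nonneg_right g1 (by positivity)
    _ = ε := by
        have : ℓ ^ t * (ℓ ^ κ * ℓ ^ θ2 * ℓ ^ (-(κ + θ2 + t))) = 1 := by
          rw [← Real.rpow_add hℓ0, ← Real.rpow_add hℓ0, ← Real.rpow_add hℓ0]
          have : t + (κ + θ2 + -(κ + θ2 + t)) = 0 := by ring
          rw [this, Real.rpow_zero]
        calc ℓ ^ t * (ε * (ℓ ^ κ * ℓ ^ θ2 * ℓ ^ (-(κ + θ2 + t)))) = ε * (ℓ ^ t * (ℓ ^ κ * ℓ ^ θ2 * ℓ ^ (-(κ + θ2 + t)))) := by ring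
          _ = ε := by rw [this, mul_one]

open Classical in
/-- the exceptional set of the cells, for a family -/
theorem cells_fam (hSW : SWU) (k d e A A' B : ℕ) (hk : 1 ≤ k) (hd : 2 ≤ d) (hB : B = 2 * k + 2 * 3 + 3) (δ2 δ' t θ2 κ ε : ℝ)
    (hδ' : 0 < δ') (hδδ : δ' < δ2) (hδ21 : δ2 ≤ 1)
    (ht : 0 < t) (hθ20 : 0 ≤ θ2) (hθ2 : κ + θ2 + t ≤ δ' * ((d + 1) / 2 : ℕ)) (hε : 0 < ε) :
    ∀ᶠ H : ℕ in atTop, ∀ J0 : ℕ, Real.log (Real.log H) ^ B ≤ (2 ^ 2 ^ J0 : ℕ) → ((2 ^ 2 ^ J0 : ℕ) : ℝ) ≤ Real.log (Real.log H) ^ (2 * B) →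
    ∀ (𝒩 : Finset ℕ) (P : ℕ → Fin k → Polynomial ℤ), (𝒩.card : ℝ) ≤ Real.log H ^ κ → (∀ ν ∈ 𝒩, ∀ i, (P ν i).natDegree ≤ e) →
    (∀ ν ∈ 𝒩, ∀ i, ∀ n : ℕ, (n : ℝ) ≤ Real.log H ^ (A + 1) → |(((P ν i).eval (n : ℤ) : ℤ) : ℝ)| ≤ H * Real.log H ^ A') → ∃ Bad ⊆ ab k d H, (Bad.card : ℝ) ≤ ε * (ab k d H).card ∧
    ∀ a ∈ ab k d H, a ∉ Bad → ∀ ν ∈ 𝒩, ∀ c : ℕ × ℕ, c.1 < ⌊2 * A * Real.log (Real.log H)⌋₊ + 1 → c.2 < ⌊Real.log H ^ θ2⌋₊ + 1 →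
      vld A k δ2 (Real.log H) c →
      |Real.log H ^ k * pts (P ν) (Ioc (c.2 * 2 ^ c.1) (c.2 * 2 ^ c.1 + 2 ^ c.1)) a -
        kS (pri 0 (Yh H)) ^ k * NS (P ν) (Ioc (c.2 * 2 ^ c.1) (c.2 * 2 ^ c.1 + 2 ^ c.1)) (Yh H) a| ≤ ((2 ^ c.1 : ℕ) : ℝ) / Real.log (Real.log H) ^ 3 ∧
      (¬ Exc (P ν) (2 ^ 2 ^ J0) (Yh H) a → |(NS (P ν) (Ioc (c.2 * 2 ^ c.1) (c.2 * 2 ^ c.1 + 2 ^ c.1)) (Yh H) a : ℝ) -
        (∏ p ∈ pri (2 ^ 2 ^ J0) (Yh H), (1 - 1 / (p : ℝ)) ^ k) * NS (P ν) (Ioc (c.2 * 2 ^ c.1) (c.2 * 2 ^ c.1 + 2 ^ c.1)) (2 ^ 2 ^ J0) a| ≤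
          ((2 ^ c.1 : ℕ) : ℝ) / Real.log (Real.log H) ^ 3 * ∏ p ∈ pri (2 ^ 2 ^ J0) (Yh H), (1 - 1 / (p : ℝ)) ^ k) := by
  obtain ⟨r, hr⟩ : ∃ r, r = (d + 1) / 2 := ⟨_, rfl⟩
  rw [← hr] at hθ2
  have hr1 : 1 ≤ r := by omega
  have hrd : 2 * r ≤ d + 1 := by omega
  filter_upwards [prim hSW k d r (A + 1) A' r 3 hk hr1 hrd δ2 δ' hδ' hδδ hδ21, mid_asym k d e r 3 B hk hB,
    cells_fam_small A r δ' t θ2 κ ε ht hθ2 hθ20 hε, ev_log 32, ev_ll (2 * B) 16 1 one_pos, ev_x 1] with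
    H hprim hmid hcells g2 g5 g6
  intro J0 hJ0a hJ0b 𝒩 P h𝒩 hP hbg
  obtain ⟨ℓ, hℓ⟩ : ∃ ℓ : ℝ, ℓ = Real.log H := ⟨_, rfl⟩
  rw [Real.rpow_one] at g5
  rw [← hℓ] at hJ0a hJ0b hprim hmid hcells g2 g5 g6 hbg h𝒩 ⊢
  obtain ⟨x, hx⟩ : ∃ x, x = Real.log ℓ := ⟨_, rfl⟩
  rw [← hx] at hJ0a hJ0b hprim hmid hcells g5 g6 ⊢
  have hℓ0 : 0 < ℓ := by linarith
  have hℓ1 : 1 ≤ ℓ := by linarith
  have hx0 : 0 < x := by linarith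
  obtain ⟨Y, hY⟩ : ∃ Y, Y = Yh H := ⟨_, rfl⟩
  rw [← hY] at hprim hmid ⊢
  unfold Yh at hY
  rw [← hℓ] at hY
  obtain ⟨Y', hY'⟩ : ∃ Y', Y' = 2 ^ 2 ^ J0 := ⟨_, rfl⟩
  rw [← hY'] at hJ0a hJ0b ⊢
  have hYge : ℓ / 16 ≤ Y := by
    have := Nat.lt_floor_add_one (ℓ / 8)
    rw [← hY] at this
    linarith
  have hY'Y : Y' ≤ Y := by
    have : (Y' : ℝ) ≤ Y := by linarith
    exact_mod_cast this
  -- the bad events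
  obtain ⟨𝓘, h𝓘⟩ : ∃ 𝓘 : Finset (ℕ × ℕ), 𝓘 = ((range (⌊2 * A * x⌋₊ + 1)) ×ˢ (range (⌊ℓ ^ θ2⌋₊ + 1))).filter (vld A k δ2 ℓ) := ⟨_, rfl⟩
  obtain ⟨kY, hkY⟩ : ∃ kY : ℝ, kY = kS (pri 0 Y) ^ k := ⟨_, rfl⟩
  obtain ⟨qY, hqY⟩ : ∃ qY : ℝ, qY = ∏ p ∈ pri Y' Y, (1 - 1 / (p : ℝ)) ^ k := ⟨_, rfl⟩
  obtain ⟨G1, hG1⟩ : ∃ G1 : ℕ → ℕ × ℕ → (Fin k → Fin (d + 1) → ℤ) → Prop, G1 = fun ν c a => (((2 ^ c.1 : ℕ) : ℝ)) / x ^ 3 <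
      |ℓ ^ k * pts (P ν) (Ioc (c.2 * 2 ^ c.1) (c.2 * 2 ^ c.1 + 2 ^ c.1)) a - kY * NS (P ν) (Ioc (c.2 * 2 ^ c.1) (c.2 * 2 ^ c.1 + 2 ^ c.1)) Y a| := ⟨_, rfl⟩
  obtain ⟨G2, hG2⟩ : ∃ G2 : ℕ → ℕ × ℕ → (Fin k → Fin (d + 1) → ℤ) → Prop, G2 = fun ν c a => ¬ Exc (P ν) Y' Y a ∧ (((2 ^ c.1 : ℕ) : ℝ)) / x ^ 3 * qY <
      |(NS (P ν) (Ioc (c.2 * 2 ^ c.1) (c.2 * 2 ^ c.1 + 2 ^ c.1)) Y a : ℝ) - qY * NS (P ν) (Ioc (c.2 * 2 ^ c.1) (c.2 * 2 ^ c.1 + 2 ^ c.1)) Y' a| := ⟨_, rfl⟩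
  obtain ⟨F5, hF5⟩ : ∃ F5, F5 = (𝒩 ×ˢ 𝓘).biUnion (fun c => (ab k d H).filter (G1 c.1 c.2) ∪ (ab k d H).filter (G2 c.1 c.2)) := ⟨_, rfl⟩
  have hN0 : (0 : ℝ) ≤ (ab k d H).card := Nat.cast_nonneg _
  have c5 : (F5.card : ℝ) ≤ ε * (ab k d H).card := by
    have hE3 : 1 / ℓ ^ r ≤ (ℓ ^ (-δ')) ^ r := by
      rw [← one_div_pow]
      apply pow_le_pow_left₀ (by positivity)
      rw [one_div, ← Real.rpow_neg_one]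
      exact Real.rpow_le_rpow_of_exponent_le hℓ1 (by linarith)
    have hc : ∀ c ∈ 𝒩 ×ˢ 𝓘, ((((ab k d H).filter (G1 c.1 c.2) ∪ (ab k d H).filter (G2 c.1 c.2)).card : ℕ) : ℝ) ≤ (3 * (ℓ ^ (-δ')) ^ r) * (ab k d H).card := by
      rintro ⟨ν, c⟩ hc
      rw [mem_product] at hc
      obtain ⟨hν, hc⟩ := hc
      change ν ∈ 𝒩 at hν
      change c ∈ 𝓘 at hc
      rw [h𝓘, mem_filter] at hc
      obtain ⟨v1, v2⟩ := hc.2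
      have hℓg : ℓ ≤ ((2 ^ c.1 : ℕ) : ℝ) := by
        refine le_trans ?_ v1
        calc ℓ = ℓ ^ (1 : ℝ) := (Real.rpow_one ℓ).symm
          _ ≤ ℓ ^ ((k : ℝ) + δ2) := by
              apply Real.rpow_le_rpow_of_exponent_le hℓ1
              have : (1 : ℝ) ≤ k := by exact_mod_cast hk
              linarith
      have b1 : (((ab k d H).filter (G1 ν c)).card : ℝ) ≤ ((ℓ ^ (-δ')) ^ r + 1 / ℓ ^ r) * (ab k d H).card := by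
        have := hprim (P ν) (c.2 * 2 ^ c.1) (2 ^ c.1) v1 v2 (by
          intro i n hn
          apply hbg ν hν
          rw [mem_Ioc] at hn
          refine le_trans ?_ v2
          exact_mod_cast hn.2)
        rw [hG1, hkY]
        refine le_trans (le_of_eq ?_) this
        congr!
      have b2 : (((ab k d H).filter (G2 ν c)).card : ℝ) ≤ (1 / ℓ ^ r) * (ab k d H).card := by
        have := hmid (P ν) Y' (c.2 * 2 ^ c.1) (2 ^ c.1) (hP ν hν) hJ0a hY'Y hℓg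
        rw [hG2, hqY]
        refine le_trans (le_of_eq ?_) this
        congr!
      have b3 : ((((ab k d H).filter (G1 ν c) ∪ (ab k d H).filter (G2 ν c)).card : ℕ) : ℝ) ≤ (((ab k d H).filter (G1 ν c)).card : ℝ) + (((ab k d H).filter (G2 ν c)).card : ℝ) := by
        exact_mod_cast card_union_le _ _
      have b4 := mul_le_mul_of_nonneg_right hE3 hN0
      change ((((ab k d H).filter (G1 ν c) ∪ (ab k d H).filter (G2 ν c)).card : ℕ) : ℝ) ≤ _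
      linarith
    have h1 : (F5.card : ℝ) ≤ ∑ c ∈ 𝒩 ×ˢ 𝓘, ((((ab k d H).filter (G1 c.1 c.2) ∪ (ab k d H).filter (G2 c.1 c.2)).card : ℕ) : ℝ) := by
      rw [hF5]
      exact_mod_cast card_biUnion_le
    refine h1.trans ((sum_le_card_nsmul _ _ _ hc).trans ?_)
    rw [nsmul_eq_mul]
    have h2 : (𝓘.card : ℝ) ≤ ((⌊2 * A * x⌋₊ + 1 : ℕ) : ℝ) * ((⌊ℓ ^ θ2⌋₊ + 1 : ℕ) : ℝ) := by
      have h3 : 𝓘.card ≤ (⌊2 * A * x⌋₊ + 1) * (⌊ℓ ^ θ2⌋₊ + 1) := by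
        rw [h𝓘]
        refine (card_le_card (filter_subset _ _)).trans ?_
        rw [card_product, card_range, card_range]
      exact_mod_cast h3
    have h4 : ((𝒩 ×ˢ 𝓘).card : ℝ) ≤ ℓ ^ κ * (((⌊2 * A * x⌋₊ + 1 : ℕ) : ℝ) * ((⌊ℓ ^ θ2⌋₊ + 1 : ℕ) : ℝ)) := by
      rw [card_product]
      push_cast at h2 ⊢
      exact mul_le_mul h𝒩 h2 (Nat.cast_nonneg _) (by positivity)
    calc ((𝒩 ×ˢ 𝓘).card : ℝ) * (3 * (ℓ ^ (-δ')) ^ r * (ab k d H).card) ≤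
        (ℓ ^ κ * (((⌊2 * A * x⌋₊ + 1 : ℕ) : ℝ) * ((⌊ℓ ^ θ2⌋₊ + 1 : ℕ) : ℝ))) * (3 * (ℓ ^ (-δ')) ^ r * (ab k d H).card) :=
          mul_le_mul_of_nonneg_right h4 (by positivity)
      _ = (ℓ ^ κ * (((⌊2 * A * x⌋₊ + 1 : ℕ) : ℝ) * ((⌊ℓ ^ θ2⌋₊ + 1 : ℕ) : ℝ)) * (3 * (ℓ ^ (-δ')) ^ r)) * (ab k d H).card := by ring
      _ ≤ ε * (ab k d H).card := mul_le_mul_of_nonneg_right hcells hN0
  refine ⟨F5, ?_, c5, ?_⟩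
  · intro a ha
    rw [hF5, mem_biUnion] at ha
    obtain ⟨c, _, hc⟩ := ha
    rw [mem_union] at hc
    rcases hc with hc | hc <;> exact (mem_filter.1 hc).1
  · intro a ha n5 ν hν c hc1 hc2 hv
    rw [hF5, mem_biUnion] at n5
    push Not at n5
    have hcI : c ∈ 𝓘 := by
      rw [h𝓘, mem_filter, mem_product, mem_range, mem_range]
      exact ⟨⟨hc1, hc2⟩, hv⟩
    have n6 := n5 (ν, c) (mem_product.2 ⟨hν, hcI⟩)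
    simp only [mem_union, mem_filter, not_or, not_and] at n6
    have m5 := n6.1 ha
    have m6 := n6.2 ha
    rw [hG1] at m5
    rw [hG2] at m6
    simp only [not_lt, not_and] at m5 m6
    rw [hkY] at m5
    refine ⟨m5, fun m2 => ?_⟩
    have m7 := m6 m2
    rw [hqY] at m7
    exact m7

end Pool.Agent.H11A
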