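import Mathlib
import Pool.Agent.H11A.PB1
import Pool.Agent.H11A.PA1
import Pool.Agent.H11A.Det

/-! All windows for families of backgrounds: from the cells to the windows. -/

set_option autoImplicit false

namespace Pool.Agent.H11A

open Finset Filter Pool.Agent.H11P Pool.Agent.H11P.Law

variable {k d : ℕ}

theorem ev_cst (c t : ℝ) (ht : 0 < t) : ∀ᶠ H : ℕ in atTop, c ≤ Real.log H ^ t := by
  filter_upwards [ev_ll 0 c t ht] with H h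
  simpa using h

open Classical in
/-- **All windows for a family**, if the local factors are under control -/
theorem fam (hSW : SWU) (k d e A A' : ℕ) (hk : 1 ≤ k) (hd : 2 ≤ d) (δ θ κ ε : ℝ) (hδ : 0 < δ) (hδ1 : δ ≤ 1)
    (hθ0 : 0 ≤ θ) (hκ0 : 0 ≤ κ) (hθ : κ + θ < δ * ((d + 1) / 2 : ℕ)) (hε : 0 < ε) (hε1 : ε ≤ 1) :
    ∃ (z1 : ℕ) (η : ℝ), 1 ≤ z1 ∧ 0 < η ∧ η ≤ 1 ∧ ∀ᶠ H : ℕ in atTop, ∃ Y' : ℕ, Real.log (Real.log H) ^ 2 ≤ Y' ∧ Y' ≤ Yh H ∧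
    ∀ (𝒩 : Finset ℕ) (P : ℕ → Fin k → Polynomial ℤ), (𝒩.card : ℝ) ≤ Real.log H ^ κ → (∀ ν ∈ 𝒩, ∀ i, (P ν i).natDegree ≤ e) →
    (∀ ν ∈ 𝒩, ∀ i, ∀ n : ℕ, (n : ℝ) ≤ Real.log H ^ (A + 1) → |(((P ν i).eval (n : ℤ) : ℤ) : ℝ)| ≤ H * Real.log H ^ A') → ∃ Bad ⊆ ab k d H, (Bad.card : ℝ) ≤ ε * (ab k d H).card ∧
    ∀ a ∈ ab k d H, a ∉ Bad → ∀ ν ∈ 𝒩, Adm (P ν) a → ¬ Exc (P ν) Y' (Yh H) a → |∑ p ∈ pri Y' (Yh H), (zt (P ν) p a - 1)| ≤ η →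
      ∀ z : ℕ, z1 ≤ z → z ≤ Yh H → |∑ p ∈ pri z (Yh H), (zt (P ν) p a - 1)| ≤ η →
      ∀ J L : ℕ, Real.log H ^ ((k : ℝ) + δ) ≤ L → ((J + L : ℕ) : ℝ) ≤ Real.log H ^ A →
      ((J + L : ℕ) : ℝ) ≤ L * Real.log H ^ θ →
      |Real.log H ^ k * pts (P ν) (Ioc J (J + L)) a - L * bhConst (P ν) z a| ≤ ε * (L * bhConst (P ν) z a) := by
  obtain ⟨r, hr⟩ : ∃ r, r = (d + 1) / 2 := ⟨_, rfl⟩
  have hr1 : 1 ≤ r := by omega
  have hr0 : (1 : ℝ) ≤ r := by exact_mod_cast hr1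
  rw [← hr] at hθ
  obtain ⟨B, hB⟩ : ∃ B, B = 2 * k + 2 * 3 + 3 := ⟨_, rfl⟩
  obtain ⟨τ, hτ⟩ : ∃ τ : ℝ, τ = δ - (κ + θ) / r := ⟨_, rfl⟩
  have hθr : (κ + θ) / r < δ := by
    rw [div_lt_iff₀ (by linarith)]
    exact hθ
  have hθr0 : 0 ≤ (κ + θ) / r := by positivity
  have hτ0 : 0 < τ := by linarith
  have hτδ : τ ≤ δ := by linarith
  have hθe : κ + θ = r * (δ - τ) := by
    rw [hτ]
    field_simp
    ring
  obtain ⟨z1, η, hz11, hη0, hη1, hdet⟩ := det k d e B hk (by omega) (by omega) (ε / 4) (by positivity) (by linarith)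
  refine ⟨z1, η, hz11, hη0, hη1, ?_⟩
  have hcf := cells_fam hSW k d e A A' B hk hd hB (δ - τ / 4) (δ - τ / 2) (r * τ / 4) (θ + r * τ / 4) κ ε (by linarith) (by linarith) (by linarith)
    (by positivity) (by positivity) (by rw [← hr]; linarith) hε
  obtain ⟨N0, hN0⟩ : ∃ N0 : ℕ, N0 = ⌈8 / ε⌉₊ := ⟨_, rfl⟩
  have hN1 : 8 / ε ≤ N0 := by rw [hN0]; exact Nat.le_ceil _
  have hN2 : (1 : ℝ) ≤ N0 := by
    refine le_trans ?_ hN1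
    rw [le_div_iff₀ hε]
    linarith
  have hN3 : 1 ≤ N0 := by exact_mod_cast hN2
  have hex := ex_J0 B (by omega)
  filter_upwards [hex, hdet, hcf, ev_log 32, ev_cst (2 * N0) (τ / 4) (by positivity), ev_cst (2 * N0) (r * τ / 4) (by positivity), ev_cst N0 k (by exact_mod_cast hk),
    ev_x 1, ev_ll (2 * B) 16 1 one_pos] with H hJ0 hdetH hcfH g2 g3 g4 g5 g6 g7
  obtain ⟨J0, hJ0a, hJ0b⟩ := hJ0
  have hcfH' := hcfH J0 hJ0a hJ0b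
  obtain ⟨ℓ, hℓ⟩ : ∃ ℓ : ℝ, ℓ = Real.log H := ⟨_, rfl⟩
  rw [Real.rpow_one] at g7
  have hYge : Real.log H / 16 ≤ (Yh H : ℕ) := by
    have := Nat.lt_floor_add_one (Real.log H / 8)
    unfold Yh
    linarith
  refine ⟨2 ^ 2 ^ J0, (pow_le_pow_right₀ g6 (by omega)).trans hJ0a, ?_, ?_⟩
  · have : ((2 ^ 2 ^ J0 : ℕ) : ℝ) ≤ (Yh H : ℕ) := by linarith
    exact_mod_cast this
  intro 𝒩 P h𝒩 hP hPc
  obtain ⟨Bad, hB1, hB2, hB3⟩ := hcfH' 𝒩 P h𝒩 hP hPc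
  refine ⟨Bad, hB1, hB2, fun a ha haB ν hν hadm hexc hrY z hz1 hz2 hrz J L hL hJL hθL => ?_⟩
  have hbad := hB3 a ha haB ν hν
  have hPν := hP ν hν
  have hbad2 : ∀ c : ℕ × ℕ, c.1 < ⌊2 * A * Real.log (Real.log H)⌋₊ + 1 → c.2 < ⌊Real.log H ^ (θ + r * τ / 4)⌋₊ + 1 →
      vld A k (δ - τ / 4) (Real.log H) c → |Real.log H ^ k * pts (P ν) (Ioc (c.2 * 2 ^ c.1) (c.2 * 2 ^ c.1 + 2 ^ c.1)) a - (2 ^ c.1 : ℕ) * bhConst (P ν) z a| ≤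
        ε / 4 * ((2 ^ c.1 : ℕ) * bhConst (P ν) z a) := by
    intro c hc1 hc2 hv
    obtain ⟨m5, m6⟩ := hbad c hc1 hc2 hv
    have hℓg : Real.log H ≤ ((2 ^ c.1 : ℕ) : ℝ) := by
      refine le_trans ?_ hv.1
      calc Real.log H = Real.log H ^ (1 : ℝ) := (Real.rpow_one _).symm
        _ ≤ Real.log H ^ ((k : ℝ) + (δ - τ / 4)) := by
            apply Real.rpow_le_rpow_of_exponent_le (by linarith)
            have : (1 : ℝ) ≤ k := by exact_mod_cast hk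
            linarith
    exact hdetH (P ν) hPν a hadm z J0 (c.2 * 2 ^ c.1) (2 ^ c.1) hz1 hz2 hJ0a hJ0b hℓg m5 (m6 hexc) hrY hrz
  clear hbad hcfH hcfH' hdetH hB3 hdet hcf hPc
  rw [← hℓ] at g2 g3 g4 g5 hL hJL hθL hbad2 ⊢
  have hNL : N0 ≤ L := by
    have h1 : (N0 : ℝ) ≤ L := by
      refine le_trans (g5.trans ?_) hL
      apply Real.rpow_le_rpow_of_exponent_le (by linarith)
      linarith
    exact_mod_cast h1
  obtain ⟨s, hs1, hs2⟩ := scale_choice N0 L hN3 hNL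
  have hb := (bh_pos (P ν) e hPν (by omega) a hadm z).le
  have hw := win (P ν) a (2 ^ s) J L Nat.one_le_two_pow (ℓ ^ k) (bhConst (P ν) z a) (ε / 4) (by positivity) hb (by linarith) (by linarith) (by
    intro j hj
    obtain ⟨c1, c2, c3⟩ := cells_ok A k N0 s J L hN3 ℓ δ (δ - τ / 4) θ (θ + r * τ / 4) (by linarith) hθ0 hs1 hs2 hL hJL hθL
      (by have e : δ - (δ - τ / 4) = τ / 4 := by ring
          rw [e]; exact g3)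
      (by have e : θ + r * τ / 4 - θ = r * τ / 4 := by ring
          rw [e]; exact g4) j hj
    exact hbad2 (s, j) c1 c2 c3)
  apply fin_win (ℓ ^ k * pts (P ν) (Ioc J (J + L)) a) L ((2 ^ s : ℕ) : ℝ) (bhConst (P ν) z a) ε hε hε1 hb (Nat.cast_nonneg _) _ hw.1 hw.2
  have h8 : ((2 ^ s : ℕ) : ℝ) * N0 ≤ L := by exact_mod_cast hs1
  have h9 : ((2 ^ s : ℕ) : ℝ) * (8 / ε) ≤ L := le_trans (mul_le_mul_of_nonneg_left hN1 (by positivity)) h8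
  have h10 : ((2 ^ s : ℕ) : ℝ) = ε / 8 * (((2 ^ s : ℕ) : ℝ) * (8 / ε)) := by field_simp
  rw [h10]
  exact mul_le_mul_of_nonneg_left h9 (by positivity)

end Pool.Agent.H11A
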