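import Mathlib
import Pool.Agent.H11A.PB2

/-! All windows for almost all arrays, uniformly in the cutoff of the constant. -/

set_option autoImplicit false

namespace Pool.Agent.H11A

open Finset Filter Pool.Agent.H11P Pool.Agent.H11P.Law

variable {k d : ℕ}

theorem exc_mono (P : Fin k → Polynomial ℤ) (z w Y : ℕ) (h : z ≤ w) (a : Fin k → Fin (d + 1) → ℤ) (he : Exc P w Y a) : Exc P z Y a := by
  obtain ⟨i, p, hp, hl⟩ := he
  refine ⟨i, p, ?_, hl⟩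
  rw [mem_pri] at hp ⊢
  exact ⟨hp.1, lt_of_le_of_lt h hp.2.1, hp.2.2⟩

theorem exp_tail (c ε : ℝ) (hc : 0 < c) (hε : 0 < ε) : ∃ z3 : ℕ, ∀ z1 : ℕ, z3 ≤ z1 → ∀ Y : ℕ, ∑ z ∈ Icc z1 Y, 2 * Real.exp (-(c * z)) ≤ ε := by
  obtain ⟨q, hq⟩ : ∃ q, q = Real.exp (-c) := ⟨_, rfl⟩
  have hq0 : 0 < q := by rw [hq]; exact Real.exp_pos _
  have hq1 : q < 1 := by
    rw [hq, Real.exp_lt_one_iff]
    linarith
  have h1 : Tendsto (fun n : ℕ => 2 * (q ^ n / (1 - q))) atTop (nhds (2 * (0 / (1 - q)))) :=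
    ((tendsto_pow_atTop_nhds_zero_of_lt_one hq0.le hq1).div_const _).const_mul _
  rw [zero_div, mul_zero] at h1
  obtain ⟨z3, hz3⟩ := (h1.eventually_le_const hε).exists_forall_of_atTop
  refine ⟨z3, fun z1 hz1 Y => ?_⟩
  have h2 : ∀ z : ℕ, Real.exp (-(c * z)) = q ^ z := by
    intro z
    rw [hq, ← Real.exp_nat_mul]
    congr 1
    ring
  simp only [h2]
  rw [← mul_sum]
  refine le_trans ?_ (hz3 z1 hz1)
  have h3 : ∑ z ∈ Icc z1 Y, q ^ z = ∑ z ∈ Ico z1 (Y + 1), q ^ z := rfl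
  rw [h3]
  exact mul_le_mul_of_nonneg_left (geom_sum_Ico_le_of_lt_one hq0.le hq1) (by norm_num)

open Classical in
/-- the event that the local factors are not under control from `z1` on -/
theorem ratio_all (k d e E : ℕ) (hk : 1 ≤ k) (hd : 1 ≤ d) (η : ℝ) (hη : 0 < η) (hη1 : η ≤ 1) (c : ℝ)
    (hc : c = η ^ 2 / (4 * (2 ^ k * ((k * max e d : ℕ) : ℝ)) ^ 2)) : ∀ᶠ H : ℕ in atTop,
    ∀ (P : Fin k → Polynomial ℤ) (z1 : ℕ), (∀ i, (P i).natDegree ≤ e) → 1 ≤ z1 →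
    (((Icc z1 (Yh H)).biUnion (fun z => (ab k d H).filter (fun a => ¬ Exc P z (Yh H) a ∧ η < |∑ p ∈ pri z (Yh H), (zt P p a - 1)|))).card : ℝ) ≤
      (∑ z ∈ Icc z1 (Yh H), 2 * Real.exp (-(c * z)) + 1 / Real.log H ^ E) * (ab k d H).card := by
  filter_upwards [ratio_asym k d e (E + 1) hk hd (2 ^ k * ((k * max e d : ℕ) : ℝ)) rfl, ev_log 32] with H g1 g2
  intro P z1 hP hz1
  obtain ⟨ℓ, hℓ⟩ : ∃ ℓ : ℝ, ℓ = Real.log H := ⟨_, rfl⟩
  rw [← hℓ] at g1 g2 ⊢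
  have hℓ0 : 0 < ℓ := by linarith
  have hYle : ((Yh H : ℕ) : ℝ) ≤ ℓ / 8 := by
    rw [hℓ]
    unfold Yh
    exact Nat.floor_le (by linarith)
  have h1 : (((Icc z1 (Yh H)).biUnion (fun z => (ab k d H).filter (fun a => ¬ Exc P z (Yh H) a ∧ η < |∑ p ∈ pri z (Yh H), (zt P p a - 1)|))).card : ℝ) ≤
      ∑ z ∈ Icc z1 (Yh H), (((ab k d H).filter (fun a => ¬ Exc P z (Yh H) a ∧ η < |∑ p ∈ pri z (Yh H), (zt P p a - 1)|)).card : ℝ) := by
    exact_mod_cast card_biUnion_le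
  refine h1.trans ?_
  have h2 : ∀ z ∈ Icc z1 (Yh H), (((ab k d H).filter (fun a => ¬ Exc P z (Yh H) a ∧ η < |∑ p ∈ pri z (Yh H), (zt P p a - 1)|)).card : ℝ) ≤
      (2 * Real.exp (-(c * z)) + 1 / (2 * ℓ ^ (E + 1))) * (ab k d H).card := by
    intro z hz
    rw [mem_Icc] at hz
    refine le_trans (g1 P z hP (by omega) hz.2 η hη hη1) (le_of_eq ?_)
    rw [hc]
    congr 4
    ring
  refine (sum_le_sum h2).trans ?_
  rw [← sum_mul, sum_add_distrib]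
  apply mul_le_mul_of_nonneg_right _ (Nat.cast_nonneg _)
  apply add_le_add le_rfl
  rw [sum_const, nsmul_eq_mul, Nat.card_Icc]
  have h3 : ((Yh H + 1 - z1 : ℕ) : ℝ) ≤ ℓ := by
    have : Yh H + 1 - z1 ≤ Yh H := by omega
    have h4 : ((Yh H + 1 - z1 : ℕ) : ℝ) ≤ (Yh H : ℕ) := by exact_mod_cast this
    linarith
  calc ((Yh H + 1 - z1 : ℕ) : ℝ) * (1 / (2 * ℓ ^ (E + 1))) ≤ ℓ * (1 / (2 * ℓ ^ (E + 1))) := mul_le_mul_of_nonneg_right h3 (by positivity)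
    _ = 1 / 2 * (1 / ℓ ^ E) := by
        rw [pow_succ]
        field_simp
    _ ≤ 1 / ℓ ^ E := by
        have : 0 < 1 / ℓ ^ E := by positivity
        linarith

open Classical in
/-- **All windows** -/
theorem allw2 (hSW : SWU) (k d e A : ℕ) (hk : 1 ≤ k) (hd : 2 ≤ d) (δ θ ε : ℝ) (hδ : 0 < δ) (hδ1 : δ ≤ 1)
    (hθ0 : 0 ≤ θ) (hθ : θ < δ * ((d + 1) / 2 : ℕ)) (hε : 0 < ε) (hε1 : ε ≤ 1) :
    ∃ z1 : ℕ, ∀ᶠ H : ℕ in atTop, ∀ (P : Fin k → Polynomial ℤ), (∀ i, (P i).natDegree ≤ e) →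
    (∀ i j, |((P i).coeff j : ℝ)| ≤ H * Real.log H ^ A) → ∃ Bad ⊆ ab k d H, (Bad.card : ℝ) ≤ ε * (ab k d H).card ∧
    ∀ a ∈ ab k d H, a ∉ Bad → Adm P a → ∀ z : ℕ, z1 ≤ z → z ≤ Yh H →
      ∀ J L : ℕ, Real.log H ^ ((k : ℝ) + δ) ≤ L → ((J + L : ℕ) : ℝ) ≤ Real.log H ^ A →
      ((J + L : ℕ) : ℝ) ≤ L * Real.log H ^ θ →
      |Real.log H ^ k * pts P (Ioc J (J + L)) a - L * bhConst P z a| ≤ ε * (L * bhConst P z a) := by
  obtain ⟨A', hA'⟩ : ∃ A', A' = A + (A + 1) * e + 1 := ⟨_, rfl⟩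
  obtain ⟨z2, η, hz21, hη0, hη1, hfam⟩ := fam hSW k d e A A' hk hd δ θ 0 (ε / 4) hδ hδ1 hθ0 le_rfl (by rw [zero_add]; exact hθ) (by positivity) (by linarith)
  obtain ⟨c, hc⟩ : ∃ c : ℝ, c = η ^ 2 / (4 * (2 ^ k * ((k * max e d : ℕ) : ℝ)) ^ 2) := ⟨_, rfl⟩
  have hc0 : 0 < c := by
    have h1 : 1 ≤ k * max e d := Nat.mul_pos hk (lt_max_of_lt_right (by omega))
    have h2 : (1 : ℝ) ≤ ((k * max e d : ℕ) : ℝ) := by exact_mod_cast h1
    rw [hc]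
    positivity
  obtain ⟨z3, hz3⟩ := exp_tail c (ε / 8) hc0 (by positivity)
  obtain ⟨z4, hz4⟩ : ∃ z4 : ℕ, ∀ w : ℕ, z4 ≤ w → 4 * (k : ℝ) / w ≤ ε / 4 := by
    have h3 : Tendsto (fun w : ℕ => 4 * (k : ℝ) / w) atTop (nhds 0) := tendsto_const_div_atTop_nhds_zero_nat _
    exact (h3.eventually_le_const (by positivity)).exists_forall_of_atTop
  obtain ⟨z1, hz1⟩ : ∃ z1, z1 = max z2 (max z3 z4) := ⟨_, rfl⟩
  have hz12 : z2 ≤ z1 := by rw [hz1]; exact le_max_left _ _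
  have hz13 : z3 ≤ z1 := by rw [hz1]; exact (le_max_left _ _).trans (le_max_right _ _)
  have hz14 : z4 ≤ z1 := by rw [hz1]; exact (le_max_right _ _).trans (le_max_right _ _)
  refine ⟨z1, ?_⟩
  filter_upwards [hfam, ratio_all k d e 1 hk (by omega) η hη0 hη1 c hc, ev_x (z1 : ℝ), ev_x 1, ev_log 32, ev_log (8 / ε), eventually_ge_atTop 2, ev_pow 1 1 1 one_pos, ev_log ((e : ℝ) + 1)] with
    H g1 g2 g3 g4 g5 g6 g7 g8 g9
  intro P hP hPc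
  obtain ⟨Y', hY'x, hY'Y, hY'⟩ := g1
  have hbg : ∀ i, ∀ n : ℕ, (n : ℝ) ≤ Real.log H ^ (A + 1) → |(((P i).eval (n : ℤ) : ℤ) : ℝ)| ≤ H * Real.log H ^ A' := by
    intro i n hn
    have h0 : 0 < Real.log H := by linarith
    have h1 := eval_bd (P i) e (hP i) (H * Real.log H ^ A) (Real.log H ^ (A + 1)) (by positivity) (one_le_pow₀ (by linarith)) (hPc i) n hn
    refine h1.trans ?_
    calc ((e : ℝ) + 1) * (H * Real.log H ^ A) * (Real.log H ^ (A + 1)) ^ e ≤ Real.log H * (H * Real.log H ^ A) * (Real.log H ^ (A + 1)) ^ e := by gcongr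
      _ = H * Real.log H ^ A' := by rw [hA', ← pow_mul]; ring
  obtain ⟨Bad, hB1, hB2, hB3⟩ := hY' {0} (fun _ => P) (by simp) (by intro ν _; exact hP) (by intro ν _; exact hbg)
  have hz1Y' : z1 ≤ Y' := by
    have h1 : (z1 : ℝ) ≤ Y' := by
      refine le_trans ?_ hY'x
      nlinarith
    exact_mod_cast h1
  have hYH : Yh H ≤ 2 * H + 1 := by
    have h1 : ((Yh H : ℕ) : ℝ) ≤ Real.log H / 8 := by
      unfold Yh
      exact Nat.floor_le (by linarith)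
    rw [Real.rpow_one, one_mul, pow_one] at g8
    have h2 : ((Yh H : ℕ) : ℝ) ≤ 2 * H + 1 := by linarith [(Nat.cast_nonneg H : (0 : ℝ) ≤ H)]
    exact_mod_cast h2
  obtain ⟨F1, hF1⟩ : ∃ F1, F1 = (ab k d H).filter (Exc P z1 (Yh H)) := ⟨_, rfl⟩
  obtain ⟨F3, hF3⟩ : ∃ F3, F3 = (Icc z1 (Yh H)).biUnion (fun z => (ab k d H).filter (fun a => ¬ Exc P z (Yh H) a ∧ η < |∑ p ∈ pri z (Yh H), (zt P p a - 1)|)) := ⟨_, rfl⟩
  have hN0 : (0 : ℝ) ≤ (ab k d H).card := Nat.cast_nonneg _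
  have c1 : (F1.card : ℝ) ≤ ε / 4 * (ab k d H).card := by
    rw [hF1]
    refine le_trans (le_of_eq ?_) ((exc_prob P hd H z1 (Yh H) (by omega) (hz1Y'.trans hY'Y) hYH).trans (mul_le_mul_of_nonneg_right (hz4 z1 hz14) hN0))
    congr!
  have c3 : (F3.card : ℝ) ≤ ε / 4 * (ab k d H).card := by
    rw [hF3]
    refine (g2 P z1 hP (by omega)).trans (mul_le_mul_of_nonneg_right ?_ hN0)
    have h1 := hz3 z1 hz13 (Yh H)
    have h2 : 1 / Real.log H ^ 1 ≤ ε / 8 := by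
      rw [pow_one, div_le_div_iff₀ (by linarith) (by norm_num)]
      rw [div_le_iff₀ hε] at g6
      linarith
    linarith
  refine ⟨Bad ∪ F1 ∪ F3, ?_, ?_, ?_⟩
  · intro a ha
    rw [mem_union, mem_union] at ha
    rcases ha with (ha | ha) | ha
    · exact hB1 ha
    · rw [hF1] at ha; exact (mem_filter.1 ha).1
    · rw [hF3, mem_biUnion] at ha
      obtain ⟨z, _, hz⟩ := ha
      exact (mem_filter.1 hz).1
  · have h1 : (((Bad ∪ F1 ∪ F3).card : ℕ) : ℝ) ≤ Bad.card + F1.card + F3.card := by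
      have h2 := card_union_le (Bad ∪ F1) F3
      have h3 := card_union_le Bad F1
      exact_mod_cast (by omega : (Bad ∪ F1 ∪ F3).card ≤ Bad.card + F1.card + F3.card)
    have h4 : 0 ≤ ε * (ab k d H).card := by positivity
    linarith
  · intro a ha haB hadm z hz1z hzY J L hL hJL hθL
    simp only [mem_union, not_or] at haB
    obtain ⟨⟨n1, n2⟩, n3⟩ := haB
    rw [hF1, mem_filter] at n2
    have m1 : ¬ Exc P z1 (Yh H) a := fun h => n2 ⟨ha, h⟩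
    have m2 : ∀ w : ℕ, z1 ≤ w → ¬ Exc P w (Yh H) a := fun w hw h => m1 (exc_mono P z1 w (Yh H) hw a h)
    have m3 : ∀ w : ℕ, z1 ≤ w → w ≤ Yh H → |∑ p ∈ pri w (Yh H), (zt P p a - 1)| ≤ η := by
      intro w hw hwY
      by_contra hcon
      apply n3
      rw [hF3, mem_biUnion]
      exact ⟨w, mem_Icc.2 ⟨hw, hwY⟩, mem_filter.2 ⟨ha, m2 w hw, not_le.1 hcon⟩⟩
    have hfin := hB3 a ha n1 0 (mem_singleton_self 0) hadm (m2 Y' hz1Y') (m3 Y' hz1Y' hY'Y) z (hz12.trans hz1z) hzY (m3 z hz1z hzY) J L hL hJL hθL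
    refine hfin.trans ?_
    have hb := (bh_pos P e hP (by omega) a hadm z).le
    have h5 : 0 ≤ L * bhConst P z a := mul_nonneg (Nat.cast_nonneg _) hb
    nlinarith

end Pool.Agent.H11A
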