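import Mathlib

/-! The restriction of a polynomial in two variables to the line `x + y = n`. -/

set_option autoImplicit false

namespace Pool.Agent.H11A

open Finset

/-- `P(x, n - x)` as a polynomial in `x` -/
noncomputable def res (P : MvPolynomial (Fin 2) ℤ) (n : ℕ) : Polynomial ℤ :=
  MvPolynomial.aeval ![Polynomial.X, Polynomial.C (n : ℤ) - Polynomial.X] P

theorem res_eval (P : MvPolynomial (Fin 2) ℤ) (n : ℕ) (x : ℤ) : (res P n).eval x = MvPolynomial.eval ![x, (n : ℤ) - x] P := by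
  unfold res
  induction P using MvPolynomial.induction_on with
  | C a => simp
  | add p q hp hq => simp only [map_add, Polynomial.eval_add, hp, hq]
  | mul_X p i hp =>
    simp only [map_mul, MvPolynomial.aeval_X, Polynomial.eval_mul, hp, MvPolynomial.eval_X]
    fin_cases i <;> simp

theorem supp_two (P : MvPolynomial (Fin 2) ℤ) (m : Fin 2 →₀ ℕ) (hm : m ∈ P.support) : m 0 + m 1 ≤ P.totalDegree := by
  have h1 := MvPolynomial.le_totalDegree hm
  rw [Finsupp.sum_fintype _ _ (fun _ => rfl), Fin.sum_univ_two] at h1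
  exact h1

theorem res_deg (P : MvPolynomial (Fin 2) ℤ) (n : ℕ) : (res P n).natDegree ≤ P.totalDegree := by
  unfold res
  rw [MvPolynomial.aeval_def, MvPolynomial.eval₂_eq']
  apply Polynomial.natDegree_sum_le_of_forall_le
  intro m hm
  have h1 := supp_two P m hm
  rw [Fin.prod_univ_two]
  change (Polynomial.C (P.coeff m) * (Polynomial.X ^ m 0 * (Polynomial.C (n : ℤ) - Polynomial.X) ^ m 1)).natDegree ≤ P.totalDegree
  have h2 : ((Polynomial.C (n : ℤ) - Polynomial.X) ^ m 1).natDegree ≤ m 1 * 1 := by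
    refine Polynomial.natDegree_pow_le_of_le _ ?_
    refine (Polynomial.natDegree_sub_le _ _).trans ?_
    simp
  have h3 : (Polynomial.X ^ m 0 * (Polynomial.C (n : ℤ) - Polynomial.X) ^ m 1).natDegree ≤ m 0 + m 1 := by
    refine Polynomial.natDegree_mul_le.trans ?_
    rw [Polynomial.natDegree_X_pow]
    omega
  refine (Polynomial.natDegree_C_mul_le _ _).trans ?_
  omega

theorem supp_card (P : MvPolynomial (Fin 2) ℤ) (e : ℕ) (hP : P.totalDegree ≤ e) : P.support.card ≤ (e + 1) ^ 2 := by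
  have h1 : P.support.card ≤ ((range (e + 1)) ×ˢ (range (e + 1))).card := by
    apply card_le_card_of_injOn (fun m => (m 0, m 1))
    · intro m hm
      have := supp_two P m hm
      rw [mem_coe, mem_product, mem_range, mem_range]
      dsimp only
      omega
    · intro m _ m' _ h
      rw [Prod.mk.injEq] at h
      ext i
      fin_cases i
      · exact h.1
      · exact h.2
  rw [card_product, card_range] at h1
  rw [pow_two]
  exact h1

theorem val_bd (P : MvPolynomial (Fin 2) ℤ) (e : ℕ) (hP : P.totalDegree ≤ e) (M Y : ℝ) (hM : 0 ≤ M) (hY : 1 ≤ Y)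
    (hc : ∀ m, |((P.coeff m : ℤ) : ℝ)| ≤ M) (x y : ℤ) (hx : |(x : ℝ)| ≤ Y) (hy : |(y : ℝ)| ≤ Y) :
    |((MvPolynomial.eval ![x, y] P : ℤ) : ℝ)| ≤ (e + 1) ^ 2 * M * Y ^ e := by
  rw [MvPolynomial.eval_eq']
  push_cast
  refine (abs_sum_le_sum_abs _ _).trans ?_
  have h1 : ∀ m ∈ P.support, |((P.coeff m : ℤ) : ℝ) * ∏ i : Fin 2, ((![x, y] i : ℤ) : ℝ) ^ m i| ≤ M * Y ^ e := by
    intro m hm
    have h2 := supp_two P m hm
    rw [abs_mul, Fin.prod_univ_two]
    change |((P.coeff m : ℤ) : ℝ)| * |(x : ℝ) ^ m 0 * (y : ℝ) ^ m 1| ≤ M * Y ^ e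
    apply mul_le_mul (hc m) _ (abs_nonneg _) hM
    rw [abs_mul, abs_pow, abs_pow]
    calc |(x : ℝ)| ^ m 0 * |(y : ℝ)| ^ m 1 ≤ Y ^ m 0 * Y ^ m 1 :=
          mul_le_mul (pow_le_pow_left₀ (abs_nonneg _) hx _) (pow_le_pow_left₀ (abs_nonneg _) hy _) (by positivity) (by positivity)
      _ = Y ^ (m 0 + m 1) := by rw [pow_add]
      _ ≤ Y ^ e := pow_le_pow_right₀ hY (by omega)
  refine (sum_le_card_nsmul _ _ _ h1).trans ?_
  rw [nsmul_eq_mul]
  have h3 : (P.support.card : ℝ) ≤ (e + 1) ^ 2 := by exact_mod_cast supp_card P e hP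
  calc (P.support.card : ℝ) * (M * Y ^ e) ≤ (e + 1) ^ 2 * (M * Y ^ e) := mul_le_mul_of_nonneg_right h3 (by positivity)
    _ = (e + 1) ^ 2 * M * Y ^ e := by ring

theorem res_dvd (P : MvPolynomial (Fin 2) ℤ) (q : ℤ) (n n' : ℕ) (h : q ∣ (n : ℤ) - n') : Polynomial.C q ∣ res P n - res P n' := by
  unfold res
  induction P using MvPolynomial.induction_on with
  | C a => simp
  | add p r hp hr =>
    rw [map_add, map_add]
    have e : ∀ a b c d : Polynomial ℤ, a + b - (c + d) = (a - c) + (b - d) := by intros; ring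
    rw [e]
    exact dvd_add hp hr
  | mul_X p i hp =>
    rw [map_mul, map_mul, MvPolynomial.aeval_X, MvPolynomial.aeval_X]
    have e : ∀ a b c d : Polynomial ℤ, a * b - c * d = (a - c) * b + c * (b - d) := by intros; ring
    rw [e]
    refine dvd_add (dvd_mul_of_dvd_left hp _) (dvd_mul_of_dvd_right ?_ _)
    fin_cases i
    · simp
    · change Polynomial.C q ∣ (Polynomial.C (n : ℤ) - Polynomial.X) - (Polynomial.C (n' : ℤ) - Polynomial.X)
      rw [sub_sub_sub_cancel_right, ← Polynomial.C_sub]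
      exact (Polynomial.C_dvd_iff_dvd_coeff _ _).2 (fun i => by
        rw [Polynomial.coeff_C]
        split_ifs
        · exact h
        · exact dvd_zero _)

theorem res_coeff (P : MvPolynomial (Fin 2) ℤ) (q : ℤ) (n n' : ℕ) (h : q ∣ (n : ℤ) - n') (j : ℕ) : q ∣ (res P n).coeff j - (res P n').coeff j := by
  have := (Polynomial.C_dvd_iff_dvd_coeff _ _).1 (res_dvd P q n n' h) j
  rwa [Polynomial.coeff_sub] at this

end Pool.Agent.H11A
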