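import Mathlib
import Pool.Agent.H11A.PB3
import Pool.Agent.H11A.PC1

/-! All lines `x + y = n`, for almost all arrays. -/

set_option autoImplicit false

namespace Pool.Agent.H11A

open Finset Filter Pool.Agent.H11P Pool.Agent.H11P.Law

variable {k d : ℕ}

open Classical in
theorem exc_fam (P : ℕ → Fin k → Polynomial ℤ) (hper : ∀ p ν ν' : ℕ, (p : ℤ) ∣ (ν : ℤ) - ν' → ∀ i j, (p : ℤ) ∣ (P ν i).coeff j - (P ν' i).coeff j)
    (hd : 3 ≤ d) (H z Y : ℕ) (hz : 1 ≤ z) (hzY : z ≤ Y) (hY : Y ≤ 2 * H + 1) :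
    (((ab k d H).filter (fun a => ∃ ν, Exc (P ν) z Y a)).card : ℝ) ≤ (8 * k / z) * (ab k d H).card := by
  have h1 : (ab k d H).filter (fun a => ∃ ν, Exc (P ν) z Y a) ⊆ ((univ : Finset (Fin k)) ×ˢ pri z Y).biUnion
      (fun x => (range x.2).biUnion (fun ν => (ab k d H).filter (fun a => ∀ l : Fin (d + 1), l ≠ 0 → (x.2 : ℤ) ∣ (P ν x.1).coeff (l : ℕ) + a x.1 l))) := by
    intro a ha
    rw [mem_filter] at ha
    obtain ⟨h0, ν, i, p, hp, h2⟩ := ha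
    have hp0 := ((mem_pri _ _ _).1 hp).1.pos
    rw [mem_biUnion]
    refine ⟨(i, p), mem_product.2 ⟨mem_univ _, hp⟩, ?_⟩
    rw [mem_biUnion]
    refine ⟨ν % p, mem_range.2 (Nat.mod_lt _ hp0), mem_filter.2 ⟨h0, fun l hl => ?_⟩⟩
    have h3 := h2 l hl
    have h4 := hper p (ν % p) ν (by
      push_cast
      exact Int.ModEq.dvd (Int.mod_modEq (ν : ℤ) p).symm) i (l : ℕ)
    have e : (P (ν % p) i).coeff (l : ℕ) + a i l = ((P (ν % p) i).coeff (l : ℕ) - (P ν i).coeff (l : ℕ)) + ((P ν i).coeff (l : ℕ) + a i l) := by ring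
    change (p : ℤ) ∣ (P (ν % p) i).coeff (l : ℕ) + a i l
    rw [e]
    exact dvd_add h4 h3
  have h2 : (((ab k d H).filter (fun a => ∃ ν, Exc (P ν) z Y a)).card : ℝ) ≤ ∑ x ∈ (univ : Finset (Fin k)) ×ˢ pri z Y,
      ∑ ν ∈ range x.2, (((ab k d H).filter (fun a => ∀ l : Fin (d + 1), l ≠ 0 → (x.2 : ℤ) ∣ (P ν x.1).coeff (l : ℕ) + a x.1 l)).card : ℝ) := by
    have h3 := (card_le_card h1).trans card_biUnion_le
    have h4 : ((((ab k d H).filter (fun a => ∃ ν, Exc (P ν) z Y a)).card : ℕ) : ℝ) ≤ ((∑ x ∈ (univ : Finset (Fin k)) ×ˢ pri z Y,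
      ((range x.2).biUnion (fun ν => (ab k d H).filter (fun a => ∀ l : Fin (d + 1), l ≠ 0 → (x.2 : ℤ) ∣ (P ν x.1).coeff (l : ℕ) + a x.1 l))).card : ℕ) : ℝ) := by
      exact_mod_cast h3
    refine h4.trans ?_
    push_cast
    apply sum_le_sum
    intro x _
    exact_mod_cast card_biUnion_le
  refine h2.trans ?_
  rw [sum_product]
  have h3 : ∀ i : Fin k, ∑ p ∈ pri z Y, ∑ ν ∈ range p, (((ab k d H).filter (fun a => ∀ l : Fin (d + 1), l ≠ 0 → (p : ℤ) ∣ (P ν i).coeff (l : ℕ) + a i l)).card : ℝ) ≤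
      8 / z * (ab k d H).card := by
    intro i
    have h4 : ∀ p ∈ pri z Y, ∑ ν ∈ range p, (((ab k d H).filter (fun a => ∀ l : Fin (d + 1), l ≠ 0 → (p : ℤ) ∣ (P ν i).coeff (l : ℕ) + a i l)).card : ℝ) ≤
        8 * ((p : ℝ) ^ 2)⁻¹ * (ab k d H).card := by
      intro p hp
      have hp' := (mem_pri _ _ _).1 hp
      have hp2 : (2 : ℝ) ≤ p := by exact_mod_cast hp'.1.two_le
      have hp0 : (0 : ℝ) < p := by linarith
      have h6 : ∀ ν ∈ range p, (((ab k d H).filter (fun a => ∀ l : Fin (d + 1), l ≠ 0 → (p : ℤ) ∣ (P ν i).coeff (l : ℕ) + a i l)).card : ℝ) ≤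
          ((2 : ℝ) / p) ^ d * (ab k d H).card := by
        intro ν _
        exact exc_cnt H i (fun l => (P ν i).coeff (l : ℕ)) p hp'.1.pos (by omega)
      refine (sum_le_card_nsmul _ _ _ h6).trans ?_
      rw [card_range, nsmul_eq_mul, ← mul_assoc]
      apply mul_le_mul_of_nonneg_right _ (Nat.cast_nonneg _)
      have h5 : (2 : ℝ) / p ≤ 1 := by rw [div_le_one (by linarith)]; exact hp2
      calc (p : ℝ) * ((2 : ℝ) / p) ^ d ≤ p * (2 / p) ^ 3 := mul_le_mul_of_nonneg_left (pow_le_pow_of_le_one (by positivity) h5 hd) hp0.le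
        _ = 8 * ((p : ℝ) ^ 2)⁻¹ := by field_simp; norm_num
    refine (sum_le_sum h4).trans ?_
    rw [← sum_mul, ← mul_sum]
    apply mul_le_mul_of_nonneg_right _ (Nat.cast_nonneg _)
    have := inv_sq_sum z Y hz hzY
    calc 8 * ∑ p ∈ pri z Y, ((p : ℝ) ^ 2)⁻¹ ≤ 8 * (1 / z) := by gcongr
      _ = 8 / z := by ring
  refine (sum_le_sum fun i _ => h3 i).trans (le_of_eq ?_)
  rw [sum_const, card_univ, Fintype.card_fin, nsmul_eq_mul]
  ring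

theorem exp_sum (c : ℝ) (hc : 0 < c) (z1 Y : ℕ) : ∑ z ∈ Icc z1 Y, 2 * Real.exp (-(c * z)) ≤ 2 / (1 - Real.exp (-c)) * Real.exp (-(c * z1)) := by
  obtain ⟨q, hq⟩ : ∃ q, q = Real.exp (-c) := ⟨_, rfl⟩
  have hq0 : 0 < q := by rw [hq]; exact Real.exp_pos _
  have hq1 : q < 1 := by
    rw [hq, Real.exp_lt_one_iff]
    linarith
  have h2 : ∀ z : ℕ, Real.exp (-(c * z)) = q ^ z := by
    intro z
    rw [hq, ← Real.exp_nat_mul]
    congr 1
    ring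
  simp only [h2]
  rw [← hq, ← mul_sum]
  have h3 : ∑ z ∈ Icc z1 Y, q ^ z = ∑ z ∈ Ico z1 (Y + 1), q ^ z := rfl
  rw [h3]
  calc 2 * ∑ z ∈ Ico z1 (Y + 1), q ^ z ≤ 2 * (q ^ z1 / (1 - q)) := mul_le_mul_of_nonneg_left (geom_sum_Ico_le_of_lt_one hq0.le hq1) (by norm_num)
    _ = 2 / (1 - q) * q ^ z1 := by ring

open Classical in
/-- the arrays for which the local factors are not under control on some line -/
theorem bad_lines (k d e A : ℕ) (hk : 1 ≤ k) (hd : 3 ≤ d) (η ε : ℝ) (hη : 0 < η) (hη1 : η ≤ 1) (hε : 0 < ε) :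
    ∃ K : ℝ, 1 ≤ K ∧ ∀ᶠ H : ℕ in atTop, ∀ P : ℕ → Fin k → Polynomial ℤ, (∀ ν i, (P ν i).natDegree ≤ e) →
    (∀ p ν ν' : ℕ, (p : ℤ) ∣ (ν : ℤ) - ν' → ∀ i j, (p : ℤ) ∣ (P ν i).coeff j - (P ν' i).coeff j) →
    ∃ Bad ⊆ ab k d H, (Bad.card : ℝ) ≤ ε * (ab k d H).card ∧ ∀ a ∈ ab k d H, a ∉ Bad → ∀ ν : ℕ, (ν : ℝ) ≤ Real.log H ^ A →
      ∀ w : ℕ, K * Real.log (Real.log H) ≤ w → w ≤ Yh H → ¬ Exc (P ν) w (Yh H) a ∧ |∑ p ∈ pri w (Yh H), (zt (P ν) p a - 1)| ≤ η := by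
  obtain ⟨c, hc⟩ : ∃ c : ℝ, c = η ^ 2 / (4 * (2 ^ k * ((k * max e d : ℕ) : ℝ)) ^ 2) := ⟨_, rfl⟩
  have hc0 : 0 < c := by
    have h1 : 1 ≤ k * max e d := Nat.mul_pos hk (lt_max_of_lt_right (by omega))
    have h2 : (1 : ℝ) ≤ ((k * max e d : ℕ) : ℝ) := by exact_mod_cast h1
    rw [hc]
    positivity
  obtain ⟨K, hK⟩ : ∃ K : ℝ, K = max 1 ((A + 1) / c) := ⟨_, rfl⟩
  have hK1 : 1 ≤ K := by rw [hK]; exact le_max_left _ _
  have hKc : (A : ℝ) + 1 ≤ c * K := by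
    have : ((A : ℝ) + 1) / c ≤ K := by rw [hK]; exact le_max_right _ _
    rw [div_le_iff₀ hc0] at this
    linarith
  refine ⟨K, hK1, ?_⟩
  obtain ⟨Q, hQ⟩ : ∃ Q : ℝ, Q = 2 / (1 - Real.exp (-c)) := ⟨_, rfl⟩
  have hQ0 : 0 < Q := by
    have : Real.exp (-c) < 1 := by rw [Real.exp_lt_one_iff]; linarith
    rw [hQ]
    exact div_pos (by norm_num) (by linarith)
  filter_upwards [ratio_all k d e (A + 1) hk (by omega) η hη hη1 c hc, ev_x (16 * k / ε), ev_x 1, ev_log 32, ev_log (4 * (Q + 1) / ε),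
    eventually_ge_atTop 2, ev_pow 1 1 1 one_pos] with H g1 g2 g3 g4 g5 g6 g7
  intro P hP hper
  obtain ⟨ℓ, hℓ⟩ : ∃ ℓ : ℝ, ℓ = Real.log H := ⟨_, rfl⟩
  rw [Real.rpow_one, one_mul, pow_one] at g7
  rw [← hℓ] at g1 g2 g3 g4 g5 g7 ⊢
  obtain ⟨x, hx⟩ : ∃ x, x = Real.log ℓ := ⟨_, rfl⟩
  rw [← hx] at g2 g3 ⊢
  have hℓ0 : 0 < ℓ := by linarith
  have hℓ1 : 1 ≤ ℓ := by linarith
  obtain ⟨Y, hY⟩ : ∃ Y, Y = Yh H := ⟨_, rfl⟩
  rw [← hY] at g1 ⊢
  have hYle : (Y : ℝ) ≤ ℓ / 8 := by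
    rw [hY, hℓ]
    unfold Yh
    exact Nat.floor_le (by linarith)
  have hYH : Y ≤ 2 * H + 1 := by
    have h2 : (Y : ℝ) ≤ 2 * H + 1 := by linarith [(Nat.cast_nonneg H : (0 : ℝ) ≤ H)]
    exact_mod_cast h2
  obtain ⟨z1, hz1⟩ : ∃ z1 : ℕ, z1 = ⌈K * x⌉₊ := ⟨_, rfl⟩
  have hz1K : K * x ≤ z1 := by rw [hz1]; exact Nat.le_ceil _
  have hz1x : x ≤ z1 := by
    refine le_trans ?_ hz1K
    nlinarith
  have hz11 : 1 ≤ z1 := by
    have : (1 : ℝ) ≤ z1 := by linarith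
    exact_mod_cast this
  by_cases hz1Y : z1 ≤ Y
  · obtain ⟨F1, hF1⟩ : ∃ F1, F1 = (ab k d H).filter (fun a => ∃ ν, Exc (P ν) z1 Y a) := ⟨_, rfl⟩
    obtain ⟨F3, hF3⟩ : ∃ F3, F3 = (range (⌊ℓ ^ A⌋₊ + 1)).biUnion (fun ν => (Icc z1 Y).biUnion (fun z => (ab k d H).filter (fun a =>
      ¬ Exc (P ν) z Y a ∧ η < |∑ p ∈ pri z Y, (zt (P ν) p a - 1)|))) := ⟨_, rfl⟩
    have hN0 : (0 : ℝ) ≤ (ab k d H).card := Nat.cast_nonneg _
    have hz10 : (0 : ℝ) < z1 := by linarith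
    have c1 : (F1.card : ℝ) ≤ ε / 2 * (ab k d H).card := by
      rw [hF1]
      refine (exc_fam P hper hd H z1 Y hz11 hz1Y hYH).trans (mul_le_mul_of_nonneg_right ?_ hN0)
      rw [div_le_iff₀ hz10]
      rw [div_le_iff₀ hε] at g2
      nlinarith
    have hs : ∑ z ∈ Icc z1 Y, 2 * Real.exp (-(c * z)) + 1 / ℓ ^ (A + 1) ≤ (Q + 1) / ℓ ^ (A + 1) := by
      have h1 := exp_sum c hc0 z1 Y
      rw [← hQ] at h1
      have h2 : Real.exp (-(c * z1)) ≤ 1 / ℓ ^ (A + 1) := by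
        rw [Real.exp_neg, one_div]
        apply inv_anti₀ (by positivity)
        have h3 : ℓ ^ (A + 1) = Real.exp ((A + 1 : ℕ) * x) := by
          rw [Real.exp_nat_mul, hx, Real.exp_log hℓ0]
        rw [h3]
        apply Real.exp_le_exp.2
        push_cast
        have h4 : c * (K * x) ≤ c * z1 := mul_le_mul_of_nonneg_left hz1K hc0.le
        have h5 : ((A : ℝ) + 1) * x ≤ (c * K) * x := mul_le_mul_of_nonneg_right hKc (by linarith)
        linarith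
      have h6 : Q * Real.exp (-(c * z1)) ≤ Q * (1 / ℓ ^ (A + 1)) := mul_le_mul_of_nonneg_left h2 hQ0.le
      have e : (Q + 1) / ℓ ^ (A + 1) = Q * (1 / ℓ ^ (A + 1)) + 1 / ℓ ^ (A + 1) := by ring
      rw [e]
      linarith
    have c3 : (F3.card : ℝ) ≤ ε / 2 * (ab k d H).card := by
      have h1 : (F3.card : ℝ) ≤ ∑ ν ∈ range (⌊ℓ ^ A⌋₊ + 1), (((Icc z1 Y).biUnion (fun z => (ab k d H).filter (fun a =>
          ¬ Exc (P ν) z Y a ∧ η < |∑ p ∈ pri z Y, (zt (P ν) p a - 1)|))).card : ℝ) := by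
        rw [hF3]
        exact_mod_cast card_biUnion_le
      have h2 : ∀ ν ∈ range (⌊ℓ ^ A⌋₊ + 1), (((Icc z1 Y).biUnion (fun z => (ab k d H).filter (fun a =>
          ¬ Exc (P ν) z Y a ∧ η < |∑ p ∈ pri z Y, (zt (P ν) p a - 1)|))).card : ℝ) ≤ (Q + 1) / ℓ ^ (A + 1) * (ab k d H).card := by
        intro ν _
        exact (g1 (P ν) z1 (hP ν) hz11).trans (mul_le_mul_of_nonneg_right hs hN0)
      refine h1.trans ((sum_le_card_nsmul _ _ _ h2).trans ?_)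
      rw [card_range, nsmul_eq_mul, ← mul_assoc]
      apply mul_le_mul_of_nonneg_right _ hN0
      have h3 : ((⌊ℓ ^ A⌋₊ + 1 : ℕ) : ℝ) ≤ 2 * ℓ ^ A := by
        push_cast
        have h4 := Nat.floor_le (by positivity : 0 ≤ ℓ ^ A)
        have h5 : 1 ≤ ℓ ^ A := one_le_pow₀ hℓ1
        linarith
      calc ((⌊ℓ ^ A⌋₊ + 1 : ℕ) : ℝ) * ((Q + 1) / ℓ ^ (A + 1)) ≤ (2 * ℓ ^ A) * ((Q + 1) / ℓ ^ (A + 1)) := mul_le_mul_of_nonneg_right h3 (by positivity)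
        _ = 2 * (Q + 1) / ℓ := by
            rw [pow_succ]
            field_simp
        _ ≤ ε / 2 := by
            rw [div_le_iff₀ hℓ0]
            rw [div_le_iff₀ hε] at g5
            linarith
    refine ⟨F1 ∪ F3, ?_, ?_, ?_⟩
    · intro a ha
      rw [mem_union] at ha
      rcases ha with ha | ha
      · rw [hF1] at ha; exact (mem_filter.1 ha).1
      · rw [hF3, mem_biUnion] at ha
        obtain ⟨ν, _, hν⟩ := ha
        rw [mem_biUnion] at hν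
        obtain ⟨z, _, hz⟩ := hν
        exact (mem_filter.1 hz).1
    · have h1 : (((F1 ∪ F3).card : ℕ) : ℝ) ≤ F1.card + F3.card := by exact_mod_cast card_union_le F1 F3
      linarith
    · intro a ha haB ν hν w hw hwY
      rw [mem_union, not_or] at haB
      obtain ⟨n1, n3⟩ := haB
      have hz1w : z1 ≤ w := by
        rw [hz1]
        exact Nat.ceil_le.2 hw
      have m1 : ¬ Exc (P ν) w Y a := by
        intro h
        apply n1
        rw [hF1, mem_filter]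
        exact ⟨ha, ν, exc_mono (P ν) z1 w Y hz1w a h⟩
      refine ⟨m1, ?_⟩
      by_contra hcon
      apply n3
      rw [hF3, mem_biUnion]
      refine ⟨ν, mem_range.2 (Nat.lt_succ_of_le (Nat.le_floor hν)), ?_⟩
      rw [mem_biUnion]
      exact ⟨w, mem_Icc.2 ⟨hz1w, hwY⟩, mem_filter.2 ⟨ha, m1, not_le.1 hcon⟩⟩
  · refine ⟨∅, empty_subset _, by rw [card_empty, Nat.cast_zero]; positivity, ?_⟩
    intro a ha _ ν hν w hw hwY
    exfalso
    apply hz1Y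
    have : z1 ≤ w := by
      rw [hz1]
      exact Nat.ceil_le.2 hw
    omega

end Pool.Agent.H11A
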