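import Mathlib
import Pool.Agent.H11A.PC2

/-! All lines `x + y = n`, for almost all arrays: the theorem. -/

set_option autoImplicit false

namespace Pool.Agent.H11A

open Finset Filter Pool.Agent.H11P Pool.Agent.H11P.Law

variable {k d : ℕ}

/-- **All lines** -/
theorem lines (hSW : SWU) (k d e A : ℕ) (hk : 1 ≤ k) (hd : 3 ≤ d) (δ θ ε : ℝ) (hδ : 0 < δ) (hδ1 : δ ≤ 1)
    (hθ0 : 0 ≤ θ) (hθ : A + θ < δ * ((d + 1) / 2 : ℕ)) (hε : 0 < ε) (hε1 : ε ≤ 1) :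
    ∃ K : ℝ, 1 ≤ K ∧ ∀ᶠ H : ℕ in atTop, ∀ P : Fin k → MvPolynomial (Fin 2) ℤ, (∀ i, (P i).totalDegree ≤ e) →
    (∀ i m, |(((P i).coeff m : ℤ) : ℝ)| ≤ H * Real.log H ^ A) → ∃ Bad ⊆ ab k d H, (Bad.card : ℝ) ≤ ε * (ab k d H).card ∧
    ∀ a ∈ ab k d H, a ∉ Bad → ∀ ν : ℕ, (ν : ℝ) ≤ Real.log H ^ A → Adm (fun i => res (P i) ν) a →
      ∀ z : ℕ, K * Real.log (Real.log H) ≤ z → z ≤ Yh H →
      ∀ J L : ℕ, Real.log H ^ ((k : ℝ) + δ) ≤ L → ((J + L : ℕ) : ℝ) ≤ Real.log H ^ A →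
      ((J + L : ℕ) : ℝ) ≤ L * Real.log H ^ θ →
      |Real.log H ^ k * pts (fun i => res (P i) ν) (Ioc J (J + L)) a - L * bhConst (fun i => res (P i) ν) z a| ≤
        ε * (L * bhConst (fun i => res (P i) ν) z a) := by
  obtain ⟨A', hA'⟩ : ∃ A', A' = A + (A + 1) * e + 1 := ⟨_, rfl⟩
  obtain ⟨κ, hκ⟩ : ∃ κ : ℝ, κ = A + (δ * ((d + 1) / 2 : ℕ) - (A + θ)) / 2 := ⟨_, rfl⟩
  obtain ⟨z2, η, hz21, hη0, hη1, hfam⟩ := fam hSW k d e A A' hk (by omega) δ θ κ (ε / 2) hδ hδ1 hθ0 (by rw [hκ]; linarith [(Nat.cast_nonneg A : (0:ℝ) ≤ A)]) (by rw [hκ]; linarith) (by positivity) (by linarith)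
  obtain ⟨K, hK1, hbl⟩ := bad_lines k d e A hk hd η (ε / 2) hη0 hη1 (by positivity)
  refine ⟨K, hK1, ?_⟩
  filter_upwards [hfam, hbl, ev_x (z2 : ℝ), ev_x K, ev_log 32, ev_cst 2 ((δ * ((d + 1) / 2 : ℕ) - (A + θ)) / 2) (by linarith), ev_log (((e : ℝ) + 1) ^ 2)] with
    H g1 g2 g3 g4 g5 g6 g7
  intro P hP hPc
  obtain ⟨Y', hY'x, hY'Y, hY'⟩ := g1
  obtain ⟨Bad2, hC1, hC2, hC3⟩ := g2 (fun ν i => res (P i) ν) (fun ν i => (res_deg (P i) ν).trans (hP i)) (fun p ν ν' h i j => res_coeff (P i) p ν ν' h j)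
  obtain ⟨ℓ, hℓ⟩ : ∃ ℓ : ℝ, ℓ = Real.log H := ⟨_, rfl⟩
  rw [← hℓ] at g3 g4 g5 g6 g7 hPc hC3 hY'x hY' ⊢
  have hℓ0 : 0 < ℓ := by linarith
  have hℓ1 : 1 ≤ ℓ := by linarith
  have hbg : ∀ ν : ℕ, (ν : ℝ) ≤ ℓ ^ A → ∀ i, ∀ n : ℕ, (n : ℝ) ≤ ℓ ^ (A + 1) → |(((res (P i) ν).eval (n : ℤ) : ℤ) : ℝ)| ≤ H * ℓ ^ A' := by
    intro ν hν i n hn
    rw [res_eval]
    have hνA : (ν : ℝ) ≤ ℓ ^ (A + 1) := hν.trans (pow_le_pow_right₀ hℓ1 (by omega))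
    have hn0 : (0 : ℝ) ≤ n := Nat.cast_nonneg _
    have hν0 : (0 : ℝ) ≤ ν := Nat.cast_nonneg _
    have h1 := val_bd (P i) e (hP i) (H * ℓ ^ A) (ℓ ^ (A + 1)) (by positivity) (one_le_pow₀ hℓ1) (hPc i) (n : ℤ) ((ν : ℤ) - n)
      (by push_cast; rw [abs_of_nonneg hn0]; exact hn) (by push_cast; rw [abs_le]; constructor <;> linarith)
    refine h1.trans ?_
    calc ((e : ℝ) + 1) ^ 2 * (H * ℓ ^ A) * (ℓ ^ (A + 1)) ^ e ≤ ℓ * (H * ℓ ^ A) * (ℓ ^ (A + 1)) ^ e := by gcongr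
      _ = H * ℓ ^ A' := by rw [hA', ← pow_mul]; ring
  obtain ⟨Bad, hB1, hB2, hB3⟩ := hY' (range (⌊ℓ ^ A⌋₊ + 1)) (fun ν i => res (P i) ν) (by
      rw [card_range]
      push_cast
      have h4 := Nat.floor_le (by positivity : 0 ≤ ℓ ^ A)
      have h5 : 1 ≤ ℓ ^ A := one_le_pow₀ hℓ1
      have h6 : ℓ ^ κ = ℓ ^ A * ℓ ^ ((δ * ((d + 1) / 2 : ℕ) - (A + θ)) / 2) := by
        rw [hκ, Real.rpow_add hℓ0, Real.rpow_natCast]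
      have h7 : ℓ ^ A * 2 ≤ ℓ ^ A * ℓ ^ ((δ * ((d + 1) / 2 : ℕ) - (A + θ)) / 2) := mul_le_mul_of_nonneg_left g6 (by positivity)
      rw [h6]
      linarith)
    (fun ν _ i => (res_deg (P i) ν).trans (hP i)) (fun ν hν i n hn => by
      rw [mem_range] at hν
      refine hbg ν ?_ i n hn
      refine le_trans ?_ (Nat.floor_le (by positivity : 0 ≤ ℓ ^ A))
      exact_mod_cast (by omega : ν ≤ ⌊ℓ ^ A⌋₊))
  have hKY' : K * Real.log ℓ ≤ Y' := by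
    refine le_trans ?_ hY'x
    nlinarith
  refine ⟨Bad ∪ Bad2, union_subset hB1 hC1, ?_, ?_⟩
  · have h1 : (((Bad ∪ Bad2).card : ℕ) : ℝ) ≤ Bad.card + Bad2.card := by exact_mod_cast card_union_le Bad Bad2
    linarith
  · intro a ha haB ν hν hadm z hz hzY J L hL hJL hθL
    rw [mem_union, not_or] at haB
    obtain ⟨n1, n2⟩ := haB
    obtain ⟨m1, m2⟩ := hC3 a ha n2 ν hν Y' hKY' hY'Y
    obtain ⟨m3, m4⟩ := hC3 a ha n2 ν hν z hz hzY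
    have hz2z : z2 ≤ z := by
      have : (z2 : ℝ) ≤ z := by
        refine le_trans ?_ hz
        nlinarith
      exact_mod_cast this
    have hfin := hB3 a ha n1 ν (mem_range.2 (Nat.lt_succ_of_le (Nat.le_floor hν))) hadm m1 m2 z hz2z hzY m4 J L hL hJL hθL
    refine hfin.trans ?_
    have hb := (bh_pos (fun i => res (P i) ν) e (fun i => (res_deg (P i) ν).trans (hP i)) (by omega) a hadm z).le
    have h5 : 0 ≤ L * bhConst (fun i => res (P i) ν) z a := mul_nonneg (Nat.cast_nonneg _) hb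
    nlinarith

end Pool.Agent.H11A
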